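import Mathlib

/-!
# Linear recurrences: Positivity, Ultimate Positivity, certificates

* `Rec`, `seq`, `Positive`, `UltPositive` : instances, the sequence, the two problems;
* `chi`, `Simple`, `EqualModulus`, `NonTight` : the classes of recurrences of the theorem;
* `Chain` : hierarchical monomial certificates for points of a torus;
* `CD`, `CD.Good`, `Cert` : the certificates of failure of ultimate positivity.
-/

namespace Pool.Agent.H612.LR

open Polynomial

/-! ### Instances -/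

/-- An instance of order `k = l.length`: the list of the pairs `(a_{i+1}, u_i)` for `i < k`, where
`u_n = a_1 u_{n-1} + ... + a_k u_{n-k}` for `n ≥ k` and `u_0, ..., u_{k-1}` are the initial
values. -/
abbrev Rec : Type := List (ℚ × ℚ)

/-- The coefficient `a_{i+1}`. -/
def coef (l : Rec) (i : ℕ) : ℚ := (l.getD i (0, 0)).1

/-- The initial value `u_i`. -/
def ini (l : Rec) (i : ℕ) : ℚ := (l.getD i (0, 0)).2

/-- The sequence of an instance. -/
def seq (l : Rec) (n : ℕ) : ℚ :=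
  if n < l.length then ini l n
  else ∑ i : Fin l.length, coef l i * seq l (n - 1 - i)
termination_by n
decreasing_by
  have h1 := i.2
  omega

/-- Positivity: all terms are positive. -/
def Positive (l : Rec) : Prop := ∀ n, 0 < seq l n

/-- Ultimate Positivity: all but finitely many terms are positive. -/
def UltPositive (l : Rec) : Prop := ∃ N : ℕ, ∀ n, N ≤ n → 0 < seq l n

/-- The characteristic polynomial `x^k - a_1 x^{k-1} - ... - a_k`. -/
noncomputable def chi (l : Rec) : ℚ[X] :=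
  X ^ l.length - ∑ i ∈ Finset.range l.length, C (coef l i) * X ^ (l.length - 1 - i)

/-- The multiset of the characteristic roots (with multiplicities). -/
noncomputable def croots (l : Rec) : Multiset ℂ := ((chi l).map (algebraMap ℚ ℂ)).roots

/-- The recurrence is simple: the characteristic polynomial has no repeated roots. -/
def Simple (l : Rec) : Prop := (croots l).Nodup

/-- All characteristic roots have the same modulus. -/
def EqualModulus (l : Rec) : Prop := ∀ z ∈ croots l, ∀ w ∈ croots l, ‖z‖ = ‖w‖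

/-- The sequence is not tight: for some `ρ > 0` and `m` the quotients
`u_n / (ρ^n (n+1)^m)` are bounded and their lower limit is not zero. -/
def NonTight (l : Rec) : Prop :=
  ∃ (ρ C c : ℝ) (m : ℕ), 0 < ρ ∧ 0 < c ∧
    (∀ n : ℕ, |(seq l n : ℝ)| ≤ C * (ρ ^ n * ((n : ℝ) + 1) ^ m)) ∧
    ((∃ N : ℕ, ∀ n, N ≤ n → c * (ρ ^ n * ((n : ℝ) + 1) ^ m) ≤ (seq l n : ℝ)) ∨
      (∀ N : ℕ, ∃ n, N ≤ n ∧ (seq l n : ℝ) ≤ -(c * (ρ ^ n * ((n : ℝ) + 1) ^ m))))

/-- The binary digits of the numerators and denominators of an instance, with one more symbol for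
each pair. -/
def szList (l : Rec) : List Bool :=
  l.flatMap fun p => true :: (p.1.num.natAbs.bits ++ (p.1.den.bits ++
    (p.2.num.natAbs.bits ++ p.2.den.bits)))

/-- The size of an instance. -/
def sz (l : Rec) : ℕ := (szList l).length

/-! ### Exponential polynomials -/

/-- The value at `n` of the exponential polynomial with bases `lam i` and coefficients `c i j`
(`i, j < k`). -/
noncomputable def expo (k : ℕ) (lam : ℕ → ℂ) (c : ℕ → ℕ → ℂ) (n : ℕ) : ℂ :=
  ∑ i ∈ Finset.range k, ∑ j ∈ Finset.range k, c i j * (n.choose j : ℂ) * lam i ^ n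

/-- The bases are nonzero and distinct, and the exponential polynomial represents the sequence for
`l.length ≤ n < N`. -/
def RepF (l : Rec) (lam : ℕ → ℂ) (c : ℕ → ℕ → ℂ) (N : ℕ) : Prop :=
  (∀ i < l.length, lam i ≠ 0) ∧ (∀ i < l.length, ∀ i' < l.length, lam i = lam i' → i = i') ∧
    ∀ n, l.length ≤ n → n < N → ((seq l n : ℚ) : ℂ) = expo l.length lam c n

/-- The same for all `n ≥ l.length`. -/
def Rep (l : Rec) (lam : ℕ → ℂ) (c : ℕ → ℕ → ℂ) : Prop := ∀ N, RepF l lam c N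

/-- `z` is a characteristic root: `z^k = a_1 z^{k-1} + ... + a_k`. -/
def IsRoot (l : Rec) (z : ℂ) : Prop :=
  z ^ l.length = ∑ i ∈ Finset.range l.length, ((coef l i : ℚ) : ℂ) * z ^ (l.length - 1 - i)

/-! ### Monomial certificates -/

/-- Monomials. -/
noncomputable def mon (D : Finset ℕ) (g : ℕ → ℂ) (e : ℕ → ℤ) : ℂ := ∏ i ∈ D, g i ^ e i

/-- `x^a * conj(x)^b`, which is `x^(a-b)` on the unit circle. -/
noncomputable def pw (x : ℂ) (a b : ℕ) : ℂ := x ^ a * (starRingEnd ℂ x) ^ b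

/-- A hierarchical monomial certificate: `g i = ζ^(P i) ξ_0^(a_0i - b_0i) ... ` with `ζ^q = 1` and
unimodular numbers `ξ_j` which are very close to `1`, each one much closer than the preceding
ones. -/
structure Chain (k q N : ℕ) (D : Finset ℕ) (g : ℕ → ℂ) (P : ℕ → ℕ) (a b : ℕ → ℕ → ℕ) (ζ : ℂ)
    (ξ : ℕ → ℂ) (h : ℕ → ℕ → ℂ) : Prop where
  root : ζ ^ q = 1
  unit : ∀ j < k, ‖ξ j‖ = 1
  fac : ∀ i ∈ D, g i = ζ ^ P i * h 0 i
  step : ∀ i ∈ D, ∀ j < k, h j i = pw (ξ j) (a j i) (b j i) * h (j + 1) i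
  last : ∀ i ∈ D, h k i = 1
  small0 : ∀ i ∈ D, (q : ℝ) * 2 ^ N * ‖h 0 i - 1‖ ≤ 1
  small1 : ∀ i ∈ D, ∀ j < k, ((a j i + b j i + 1 : ℕ) : ℝ) * 2 ^ N * ‖ξ j - 1‖ ≤ 1
  small2 : ∀ i ∈ D, ∀ j < k, 2 ^ N * ‖h (j + 1) i - 1‖ ≤ ‖ξ j - 1‖

/-- The data of a certificate. -/
structure CD where
  lam : ℕ → ℂ
  c : ℕ → ℕ → ℂ
  ρ : ℝ
  J : ℕ
  m : ℕ
  q : ℕ
  P : ℕ → ℕ
  a : ℕ → ℕ → ℕ
  b : ℕ → ℕ → ℕ
  ζ : ℂ
  ξ : ℕ → ℂ
  x : ℕ → ℂ
  h : ℕ → ℕ → ℂ
  fl : ℕ → ℕ
  κ : ℕ → ℕ

/-- The indices `i < k` with flag `t`. -/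
def CD.S (d : CD) (k t : ℕ) : Finset ℕ := (Finset.range k).filter fun i => d.fl i = t

/-- The coordinates of the point of the torus. -/
noncomputable def CD.z (d : CD) (k i : ℕ) : ℂ :=
  (d.ζ ^ d.m) ^ d.P i * ∏ j ∈ Finset.range k, pw (d.x j) (d.a j i) (d.b j i)

/-- The part of a certificate on levels: flag `0` = the contributions cancel in the residue class
of `m` modulo `q`; flag `1` = modulus `ρ` (and the contributions of degree `> J` cancel); flag `2`
= modulus `< ρ`. -/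
structure CD.Lev (d : CD) (l : Rec) : Prop where
  rho : 0 ≤ d.ρ
  q1 : 1 ≤ d.q
  flag : ∀ i < l.length, d.fl i = 0 ∨ (d.fl i = 1 ∧ ‖d.lam i‖ = d.ρ ∧ IsRoot l (d.lam i)) ∨
    (d.fl i = 2 ∧ ‖d.lam i‖ < d.ρ)
  cls : ∀ i < l.length, d.κ i < l.length ∧ d.lam i ^ d.q = d.lam (d.κ i) ^ d.q
  can0 : ∀ s < l.length, ∀ j < l.length,
    ∑ i ∈ (d.S l.length 0).filter (fun i => d.κ i = s), d.c i j * d.lam i ^ d.m = 0
  can1 : ∀ s < l.length, ∀ j < l.length, d.J < j →
    ∑ i ∈ (d.S l.length 1).filter (fun i => d.κ i = s), d.c i j * d.lam i ^ d.m = 0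

/-- The certificate is correct. -/
structure CD.Good (d : CD) (l : Rec) (Nb N0 : ℕ) : Prop where
  rep : RepF l d.lam d.c (2 * l.length + l.length ^ 2)
  jlt : d.J < l.length
  mlt : d.m < 2 ^ Nb
  qlt : d.q < 2 ^ Nb
  plt : ∀ i < l.length, d.P i < 2 ^ Nb
  alt : ∀ j < l.length, ∀ i < l.length, d.a j i < 2 ^ Nb
  blt : ∀ j < l.length, ∀ i < l.length, d.b j i < 2 ^ Nb
  lev : d.Lev l
  neg : d.ρ = 0 ∨
    (Chain l.length d.q N0 (d.S l.length 1) (fun i => d.lam i / (d.ρ : ℂ)) d.P d.a d.b d.ζ d.ξ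
        d.h ∧
      (∀ j < l.length, ‖d.x j‖ = 1 ∧ (d.ξ j = 1 → d.x j = 1)) ∧
      (∑ i ∈ d.S l.length 1, d.c i d.J * d.z l.length i).re < 0)

/-- There is a certificate of failure of ultimate positivity, with integers of at most `Nb` binary
digits and precision `2 ^ (-N0)`. -/
def Cert (l : Rec) (Nb N0 : ℕ) : Prop := ∃ d : CD, d.Good l Nb N0

/-- The theorem of Evertse and of van der Poorten and Schlickewei on the growth of sums of powers:
a sum `c_1 λ_1^n + ... + c_s λ_s^n` with algebraic `c_i, λ_i ≠ 0`, no quotient `λ_i/λ_j` (`i ≠ j`)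
being a root of unity, is larger than `R^n` in absolute value for all large `n`, as soon as `R` is
smaller than some `|λ_i|`. -/
def GrowthTheorem : Prop :=
  ∀ (D : Finset ℕ) (lam c : ℕ → ℂ),
    (∀ i ∈ D, IsAlgebraic ℚ (lam i) ∧ IsAlgebraic ℚ (c i) ∧ lam i ≠ 0 ∧ c i ≠ 0) →
    (∀ i ∈ D, ∀ i' ∈ D, i ≠ i' → ∀ t : ℕ, 1 ≤ t → lam i ^ t ≠ lam i' ^ t) →
    ∀ R : ℝ, 0 ≤ R → (∃ i ∈ D, R < ‖lam i‖) →
      ∃ N : ℕ, ∀ n, N ≤ n → R ^ n < ‖∑ i ∈ D, c i * lam i ^ n‖

end Pool.Agent.H612.LR
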