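import Pool.Agent.H612.PG.FmDefs
import Pool.Agent.ER.Build
import Pool.Agent.H612.LR.Defs

/-!
# The existential formula of failure of ultimate positivity

`lrFm l Nb N0` is a quantifier-free formula; `V` collects the values of its variables and
`V.Good l Nb N0` is what the formula says about them.
-/

namespace Pool.Agent.H612.LR

open Pool.Agent.NPC Pool.Agent.NPC.ER Pool.Agent.NPC.H612 Pool.Agent.H612.PG

/-! ### Complex terms -/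

/-- Complex terms. -/
abbrev CT : Type := Tm × Tm

/-- Complex variables. -/
def cv (T a b c : ℕ) : CT := (vr T a b c 0 0 0 0, vr T a b c 1 0 0 0)

/-- Real variables. -/
def rv (T a b c : ℕ) : Tm := vr T a b c 0 0 0 0

def cadd (z w : CT) : CT := (Tm.add z.1 w.1, Tm.add z.2 w.2)

def csub (z w : CT) : CT := (subT z.1 w.1, subT z.2 w.2)

def cmul (z w : CT) : CT :=
  (subT (Tm.mul z.1 w.1) (Tm.mul z.2 w.2), Tm.add (Tm.mul z.1 w.2) (Tm.mul z.2 w.1))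

def cconj (z : CT) : CT := (z.1, Tm.neg z.2)

def creal (t : Tm) : CT := (t, Tm.zero)

def cone : CT := creal Tm.one

def czero : CT := creal Tm.zero

/-- Square of the norm. -/
def cns (z : CT) : Tm := Tm.add (Tm.mul z.1 z.1) (Tm.mul z.2 z.2)

def ceq (z w : CT) : Fm := Fm.and (Fm.eq z.1 w.1) (Fm.eq z.2 w.2)

def csum (n : ℕ) (f : ℕ → CT) : CT := (sumR n fun i => (f i).1, sumR n fun i => (f i).2)

def sqT' (t : Tm) : Tm := Tm.mul t t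

/-- The number `2 ^ N`. -/
def pow2T (N : ℕ) : Tm := prodR N fun _ => numT 2

/-- A binary digit. -/
def bitF (b : Tm) : Fm := Fm.or (Fm.eq b Tm.zero) (Fm.eq b Tm.one)

/-- The number with binary digits `f 0, ..., f (Nb - 1)` (most significant first). -/
def numB (Nb : ℕ) (f : ℕ → Tm) : Tm :=
  sumR Nb fun t => Tm.mul (f t) (powR Nb (numT 2) (Nb - 1 - t))

/-- Powers by repeated squaring: `s 0 = 1`, `s (t+1) = s t ^ 2 * (b t * x + (1 - b t))`. -/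
def powF (Nb : ℕ) (x : CT) (b : ℕ → Tm) (s : ℕ → CT) : Fm :=
  Fm.and (ceq (s 0) cone) (allR Nb fun t => ceq (s (t + 1))
    (cmul (cmul (s t) (s t)) (cadd (cmul (creal (b t)) x) (creal (subT Tm.one (b t))))))

/-! ### The variables -/

def lamC (i : ℕ) : CT := cv 0 i 0 0
def cC (i j : ℕ) : CT := cv 1 i j 0
def rhoT : Tm := rv 2 0 0 0
def qB (t : ℕ) : Tm := rv 3 t 0 0
def mB (t : ℕ) : Tm := rv 4 t 0 0
def PB (i t : ℕ) : Tm := rv 5 i t 0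
def aB (j i t : ℕ) : Tm := rv 6 j i t
def bB (j i t : ℕ) : Tm := rv 7 j i t
def AT (i : ℕ) : Tm := rv 8 i 0 0
def UT (n : ℕ) : Tm := rv 9 n 0 0
def zetaC : CT := cv 10 0 0 0
def xiC (j : ℕ) : CT := cv 11 j 0 0
def xC (j : ℕ) : CT := cv 12 j 0 0
def hC (j i : ℕ) : CT := cv 13 j i 0
def FT (i t : ℕ) : Tm := rv 14 i t 0
def KT (i s : ℕ) : Tm := rv 15 i s 0
/-- powers `lam_i ^ n`, small `n` -/
def WC (i n : ℕ) : CT := cv 26 i n 0
/-- binomial coefficients -/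
def BT (n j : ℕ) : Tm := rv 27 n j 0
/-- partial products of the coordinates of the point of the torus -/
def ZC (i j : ℕ) : CT := cv 28 i j 0

/-! ### The parts of the formula; `k` is the order, `R = 2 k + k ^ 2` -/

def g1 (l : Rec) : Fm := allR l.length fun i => eqRat (AT i) (coef l i)

def g2 (l : Rec) : Fm := allR l.length fun n => eqRat (UT n) (ini l n)

def g3 (k : ℕ) : Fm := allR (k + k ^ 2) fun n =>
  Fm.eq (UT (n + k)) (sumR k fun i => Tm.mul (AT i) (UT (n + k - 1 - i)))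

def g4 (k R : ℕ) : Fm := Fm.and
  (Fm.and (Fm.eq (BT 0 0) Tm.one) (allR k fun j => Fm.eq (BT 0 (j + 1)) Tm.zero))
  (allR R fun n => Fm.and (Fm.eq (BT (n + 1) 0) Tm.one)
    (allR k fun j => Fm.eq (BT (n + 1) (j + 1)) (Tm.add (BT n j) (BT n (j + 1)))))

def g5 (k R : ℕ) : Fm := allR k fun i => Fm.and (ceq (WC i 0) cone)
  (allR R fun n => ceq (WC i (n + 1)) (cmul (WC i n) (lamC i)))

def g6 (k : ℕ) : Fm := allR k fun i => Fm.and (Fm.lt Tm.zero (cns (lamC i)))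
  (allR k fun i' => if i = i' then tt else Fm.lt Tm.zero (cns (csub (lamC i) (lamC i'))))

def g7 (k : ℕ) : Fm := allR (k + k ^ 2) fun n => ceq (creal (UT (n + k)))
  (csum k fun i => csum k fun j => cmul (cmul (cC i j) (creal (BT (n + k) j))) (WC i (n + k)))

def g8 (k Nb : ℕ) : Fm := allR Nb fun t => Fm.and (Fm.and (bitF (qB t)) (bitF (mB t)))
  (allR k fun i => Fm.and (bitF (PB i t))
    (allR k fun j => Fm.and (bitF (aB j i t)) (bitF (bB j i t))))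

/-- the powers used on both levels -/
def g9 (k Nb : ℕ) : Fm := allR k fun i =>
  Fm.and (powF Nb (lamC i) qB (cv 16 i 0)) (powF Nb (lamC i) mB (cv 17 i 0))

def g10 (Nb : ℕ) : Fm := Fm.and (Fm.le Tm.zero rhoT) (Fm.le Tm.one (numB Nb qB))

/-- `lam_i` is a characteristic root -/
def rootF (k i : ℕ) : Fm := ceq (WC i k)
  (csum k fun j => cmul (creal (AT j)) (WC i (k - 1 - j)))

def flagF (i t : ℕ) : Fm := allR 3 fun t' =>
  Fm.eq (FT i t') (if t' = t then Tm.one else Tm.zero)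

def g11 (k : ℕ) : Fm := allR k fun i =>
  Fm.or (flagF i 0) (Fm.or
    (Fm.and (flagF i 1) (Fm.and (Fm.eq (cns (lamC i)) (sqT' rhoT)) (rootF k i)))
    (Fm.and (flagF i 2) (Fm.lt (cns (lamC i)) (sqT' rhoT))))

def g12 (k Nb : ℕ) : Fm := allR k fun i => exR k fun s =>
  Fm.and (allR k fun s' => Fm.eq (KT i s') (if s' = s then Tm.one else Tm.zero))
    (ceq (cv 16 i 0 Nb) (cv 16 s 0 Nb))

/-- the contributions of flag `t`, class `s` and degree `j` cancel -/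
def canF (k Nb t s j : ℕ) : Fm := ceq (csum k fun i =>
  cmul (creal (Tm.mul (FT i t) (KT i s))) (cmul (cC i j) (cv 17 i 0 Nb))) czero

def g13 (k Nb : ℕ) : Fm := allR k fun s => allR k fun j => canF k Nb 0 s j

def g14 (k Nb J : ℕ) : Fm := allR k fun s => allR k fun j =>
  if J < j then canF k Nb 1 s j else tt

/-- powers of `ζ`, `ξ`, `x` -/
def n1 (k Nb : ℕ) : Fm := Fm.and
  (Fm.and (powF Nb zetaC qB (cv 18 0 0)) (powF Nb zetaC mB (cv 19 0 0)))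
  (allR k fun i => Fm.and
    (Fm.and (powF Nb zetaC (PB i) (cv 20 i 0)) (powF Nb (cv 19 0 0 Nb) (PB i) (cv 21 i 0)))
    (allR k fun j => Fm.and
      (Fm.and (powF Nb (xiC j) (aB j i) (cv 22 j i)) (powF Nb (cconj (xiC j)) (bB j i) (cv 23 j i)))
      (Fm.and (powF Nb (xC j) (aB j i) (cv 24 j i)) (powF Nb (cconj (xC j)) (bB j i) (cv 25 j i)))))

def n2 (k Nb : ℕ) : Fm := Fm.and (ceq (cv 18 0 0 Nb) cone) (allR k fun j =>
  Fm.and (Fm.and (Fm.eq (cns (xiC j)) Tm.one) (Fm.eq (cns (xC j)) Tm.one))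
    (Fm.or (Fm.not (ceq (xiC j) cone)) (ceq (xC j) cone)))

/-- the chain conditions for the index `i` -/
def n3 (k Nb N0 i : ℕ) : Fm := Fm.and
  (Fm.and (ceq (lamC i) (cmul (creal rhoT) (cmul (cv 20 i 0 Nb) (hC 0 i))))
    (Fm.and (ceq (hC k i) cone)
      (Fm.le (Tm.mul (sqT' (Tm.mul (numB Nb qB) (pow2T N0))) (cns (csub (hC 0 i) cone))) Tm.one)))
  (allR k fun j => Fm.and (ceq (hC j i) (cmul (cmul (cv 22 j i Nb) (cv 23 j i Nb)) (hC (j + 1) i)))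
    (Fm.and (Fm.le (Tm.mul (sqT' (Tm.mul (Tm.add (Tm.add (numB Nb (aB j i)) (numB Nb (bB j i)))
        Tm.one) (pow2T N0))) (cns (csub (xiC j) cone))) Tm.one)
      (Fm.le (Tm.mul (sqT' (pow2T N0)) (cns (csub (hC (j + 1) i) cone)))
        (cns (csub (xiC j) cone)))))

def n4 (k Nb : ℕ) : Fm := allR k fun i => Fm.and (ceq (ZC i 0) (cv 21 i 0 Nb))
  (allR k fun j => ceq (ZC i (j + 1)) (cmul (ZC i j) (cmul (cv 24 j i Nb) (cv 25 j i Nb))))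

def n5 (k J : ℕ) : Fm :=
  Fm.lt (csum k fun i => cmul (creal (FT i 1)) (cmul (cC i J) (ZC i k))).1 Tm.zero

def negF (k Nb N0 J : ℕ) : Fm := Fm.and (Fm.and (n1 k Nb) (n2 k Nb))
  (Fm.and (allR k fun i => Fm.or (Fm.eq (FT i 1) Tm.zero) (n3 k Nb N0 i))
    (Fm.and (n4 k Nb) (n5 k J)))

/-- The formula. -/
def lrFm (l : Rec) (Nb N0 : ℕ) : Fm :=
  conj [g1 l, g2 l, g3 l.length, g4 l.length (2 * l.length + l.length ^ 2),
    g5 l.length (2 * l.length + l.length ^ 2), g6 l.length, g7 l.length, g8 l.length Nb,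
    g9 l.length Nb, g10 Nb, g11 l.length, g12 l.length Nb, g13 l.length Nb,
    exR l.length fun J => Fm.and (g14 l.length Nb J)
      (Fm.or (Fm.eq rhoT Tm.zero) (negF l.length Nb N0 J))]

/-! ### The values of the variables -/

/-- The values of the variables. -/
structure V where
  lam : ℕ → ℂ
  c : ℕ → ℕ → ℂ
  ρ : ℝ
  q : ℕ → ℝ
  m : ℕ → ℝ
  P : ℕ → ℕ → ℝ
  a : ℕ → ℕ → ℕ → ℝ
  b : ℕ → ℕ → ℕ → ℝ
  A : ℕ → ℝ
  U : ℕ → ℝ
  ζ : ℂ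
  ξ : ℕ → ℂ
  x : ℕ → ℂ
  h : ℕ → ℕ → ℂ
  F : ℕ → ℕ → ℝ
  K : ℕ → ℕ → ℝ
  s16 : ℕ → ℕ → ℂ
  s17 : ℕ → ℕ → ℂ
  s18 : ℕ → ℂ
  s19 : ℕ → ℂ
  s20 : ℕ → ℕ → ℂ
  s21 : ℕ → ℕ → ℂ
  s22 : ℕ → ℕ → ℕ → ℂ
  s23 : ℕ → ℕ → ℕ → ℂ
  s24 : ℕ → ℕ → ℕ → ℂ
  s25 : ℕ → ℕ → ℕ → ℂ
  W : ℕ → ℕ → ℂ
  B : ℕ → ℕ → ℝ
  Z : ℕ → ℕ → ℂ

/-- A digit. -/
def IsBit (r : ℝ) : Prop := r = 0 ∨ r = 1

/-- The number with given digits. -/
noncomputable def numV (Nb : ℕ) (f : ℕ → ℝ) : ℝ :=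
  ∑ t ∈ Finset.range Nb, f t * 2 ^ (Nb - 1 - t)

/-- Powers by repeated squaring. -/
def PowV (Nb : ℕ) (x : ℂ) (b : ℕ → ℝ) (s : ℕ → ℂ) : Prop :=
  s 0 = 1 ∧ ∀ t < Nb, s (t + 1) = s t * s t * ((b t : ℂ) * x + (1 - (b t : ℂ)))

/-- Cancellation. -/
def V.Can (v : V) (k Nb t s j : ℕ) : Prop :=
  ∑ i ∈ Finset.range k, ((v.F i t * v.K i s : ℝ) : ℂ) * (v.c i j * v.s17 i Nb) = 0

def V.Flag (v : V) (i t : ℕ) : Prop := ∀ t' < 3, v.F i t' = if t' = t then 1 else 0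

def V.Root (v : V) (k i : ℕ) : Prop :=
  v.W i k = ∑ j ∈ Finset.range k, (v.A j : ℂ) * v.W i (k - 1 - j)

/-- The first part of the conditions. -/
structure V.Good1 (v : V) (l : Rec) (Nb : ℕ) : Prop where
  a1 : ∀ i < l.length, v.A i = (coef l i : ℝ)
  a2 : ∀ n < l.length, v.U n = (ini l n : ℝ)
  a3 : ∀ n < l.length + l.length ^ 2, v.U (n + l.length) =
    ∑ i ∈ Finset.range l.length, v.A i * v.U (n + l.length - 1 - i)
  a4 : v.B 0 0 = 1 ∧ (∀ j < l.length, v.B 0 (j + 1) = 0) ∧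
    ∀ n < 2 * l.length + l.length ^ 2, v.B (n + 1) 0 = 1 ∧
      ∀ j < l.length, v.B (n + 1) (j + 1) = v.B n j + v.B n (j + 1)
  a5 : ∀ i < l.length, v.W i 0 = 1 ∧
    ∀ n < 2 * l.length + l.length ^ 2, v.W i (n + 1) = v.W i n * v.lam i
  a6 : ∀ i < l.length, v.lam i ≠ 0 ∧ ∀ i' < l.length, i = i' ∨ v.lam i ≠ v.lam i'
  a7 : ∀ n < l.length + l.length ^ 2, ((v.U (n + l.length) : ℝ) : ℂ) =
    ∑ i ∈ Finset.range l.length, ∑ j ∈ Finset.range l.length,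
      v.c i j * (v.B (n + l.length) j : ℂ) * v.W i (n + l.length)
  a8 : ∀ t < Nb, (IsBit (v.q t) ∧ IsBit (v.m t)) ∧ ∀ i < l.length, IsBit (v.P i t) ∧
    ∀ j < l.length, IsBit (v.a j i t) ∧ IsBit (v.b j i t)
  a9 : ∀ i < l.length, PowV Nb (v.lam i) v.q (v.s16 i) ∧ PowV Nb (v.lam i) v.m (v.s17 i)
  a10 : 0 ≤ v.ρ ∧ 1 ≤ numV Nb v.q
  a11 : ∀ i < l.length, v.Flag i 0 ∨
    (v.Flag i 1 ∧ ‖v.lam i‖ ^ 2 = v.ρ ^ 2 ∧ v.Root l.length i) ∨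
    (v.Flag i 2 ∧ ‖v.lam i‖ ^ 2 < v.ρ ^ 2)
  a12 : ∀ i < l.length, ∃ s < l.length,
    (∀ s' < l.length, v.K i s' = if s' = s then 1 else 0) ∧ v.s16 i Nb = v.s16 s Nb
  a13 : ∀ s < l.length, ∀ j < l.length, v.Can l.length Nb 0 s j

/-- The second part of the conditions. -/
structure V.Good2 (v : V) (k Nb N0 J : ℕ) : Prop where
  b1 : PowV Nb v.ζ v.q v.s18 ∧ PowV Nb v.ζ v.m v.s19
  b2 : ∀ i < k, PowV Nb v.ζ (v.P i) (v.s20 i) ∧ PowV Nb (v.s19 Nb) (v.P i) (v.s21 i)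
  b3 : ∀ i < k, ∀ j < k, (PowV Nb (v.ξ j) (v.a j i) (v.s22 j i) ∧
    PowV Nb (starRingEnd ℂ (v.ξ j)) (v.b j i) (v.s23 j i)) ∧
    (PowV Nb (v.x j) (v.a j i) (v.s24 j i) ∧
    PowV Nb (starRingEnd ℂ (v.x j)) (v.b j i) (v.s25 j i))
  b4 : v.s18 Nb = 1
  b5 : ∀ j < k, ‖v.ξ j‖ = 1 ∧ ‖v.x j‖ = 1 ∧ (v.ξ j ≠ 1 ∨ v.x j = 1)
  b6 : ∀ i < k, v.F i 1 = 0 ∨ (v.lam i = (v.ρ : ℂ) * (v.s20 i Nb * v.h 0 i) ∧ v.h k i = 1 ∧
    (numV Nb v.q * 2 ^ N0 * ‖v.h 0 i - 1‖) ^ 2 ≤ 1 ∧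
    ∀ j < k, v.h j i = v.s22 j i Nb * v.s23 j i Nb * v.h (j + 1) i ∧
      ((numV Nb (v.a j i) + numV Nb (v.b j i) + 1) * 2 ^ N0 * ‖v.ξ j - 1‖) ^ 2 ≤ 1 ∧
      (2 ^ N0 * ‖v.h (j + 1) i - 1‖) ^ 2 ≤ ‖v.ξ j - 1‖ ^ 2)
  b7 : ∀ i < k, v.Z i 0 = v.s21 i Nb ∧
    ∀ j < k, v.Z i (j + 1) = v.Z i j * (v.s24 j i Nb * v.s25 j i Nb)
  b8 : (∑ i ∈ Finset.range k, ((v.F i 1 : ℝ) : ℂ) * (v.c i J * v.Z i k)).re < 0

/-- The conditions. -/
def V.Good (v : V) (l : Rec) (Nb N0 : ℕ) : Prop := v.Good1 l Nb ∧ ∃ J < l.length,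
  (∀ s < l.length, ∀ j < l.length, J < j → v.Can l.length Nb 1 s j) ∧
    (v.ρ = 0 ∨ v.Good2 l.length Nb N0 J)

/-- A complex value. -/
def cval (x : ℕ → ℝ) (T a b c : ℕ) : ℂ := ⟨x (nm T a b c 0 0 0 0), x (nm T a b c 1 0 0 0)⟩

/-- A real value. -/
def rval (x : ℕ → ℝ) (T a b c : ℕ) : ℝ := x (nm T a b c 0 0 0 0)

/-- The values of the variables under an assignment. -/
def VOf (x : ℕ → ℝ) : V where
  lam i := cval x 0 i 0 0
  c i j := cval x 1 i j 0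
  ρ := rval x 2 0 0 0
  q t := rval x 3 t 0 0
  m t := rval x 4 t 0 0
  P i t := rval x 5 i t 0
  a j i t := rval x 6 j i t
  b j i t := rval x 7 j i t
  A i := rval x 8 i 0 0
  U n := rval x 9 n 0 0
  ζ := cval x 10 0 0 0
  ξ j := cval x 11 j 0 0
  x j := cval x 12 j 0 0
  h j i := cval x 13 j i 0
  F i t := rval x 14 i t 0
  K i s := rval x 15 i s 0
  s16 i t := cval x 16 i 0 t
  s17 i t := cval x 17 i 0 t
  s18 t := cval x 18 0 0 t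
  s19 t := cval x 19 0 0 t
  s20 i t := cval x 20 i 0 t
  s21 i t := cval x 21 i 0 t
  s22 j i t := cval x 22 j i t
  s23 j i t := cval x 23 j i t
  s24 j i t := cval x 24 j i t
  s25 j i t := cval x 25 j i t
  W i n := cval x 26 i n 0
  B n j := rval x 27 n j 0
  Z i j := cval x 28 i j 0

end Pool.Agent.H612.LR
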