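import Pool.Agent.H612.LR.Fm
import Pool.Agent.H612.FmGap

/-!
# Positivity: the formulas

* `valFm l Nb N0` : the values `Re ∑ c_i z_i` at the points of the torus of the dominant part;
* `cFm l` : the coefficients of the representation;
* `tmFm l Nb` : a term `u_n ≤ 0` with `k ≤ n < 2 ^ Nb`;
* `smFm l` : an initial value `≤ 0`.
-/

namespace Pool.Agent.H612.LR

open Pool.Agent.NPC Pool.Agent.NPC.ER Pool.Agent.NPC.H612 Pool.Agent.H612.PG

/-- The index of the variable for a value. -/
def valIx : ℕ := nm 30 0 0 0 0 0 0 0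

/-- The index of the variable for an inverse. -/
def invIx : ℕ := nm 31 0 0 0 0 0 0 0

/-- The binomial coefficients of a large number. -/
def DT (j : ℕ) : Tm := rv 32 j 0 0

/-- coefficients of flag `0`, and of flag `1` and positive degree, vanish -/
def v1 (k : ℕ) : Fm := allR k fun i => allR k fun j => Fm.and
  (Fm.or (Fm.eq (FT i 0) Tm.zero) (ceq (cC i j) czero))
  (if 0 < j then Fm.or (Fm.eq (FT i 1) Tm.zero) (ceq (cC i j) czero) else tt)

/-- `ρ` is positive and some index of flag `1` is active -/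
def v2 (k : ℕ) : Fm := Fm.and (Fm.lt Tm.zero rhoT) (exR k fun i =>
  Fm.and (Fm.eq (FT i 1) Tm.one) (Fm.not (ceq (cC i 0) czero)))

/-- the value -/
def v3 (k : ℕ) : Fm :=
  Fm.eq (Tm.var valIx) (csum k fun i => cmul (creal (FT i 1)) (cmul (cC i 0) (ZC i k))).1

/-- The formula for the values of the dominant part. -/
def valFm (l : Rec) (Nb N0 : ℕ) : Fm :=
  conj [g1 l, g2 l, g3 l.length, g4 l.length (2 * l.length + l.length ^ 2),
    g5 l.length (2 * l.length + l.length ^ 2), g6 l.length, g7 l.length, g8 l.length Nb,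
    g9 l.length Nb, g10 Nb, g11 l.length, g12 l.length Nb, g13 l.length Nb,
    g14 l.length Nb 0, n1 l.length Nb, n2 l.length Nb,
    allR l.length fun i => Fm.or (Fm.eq (FT i 1) Tm.zero) (n3 l.length Nb N0 i),
    n4 l.length Nb, v1 l.length, v2 l.length, v3 l.length]

/-- The formula for the coefficients: `invIx` is the inverse of `1 + ∑ |c_ij| ^ 2`. -/
def cFm (l : Rec) : Fm :=
  conj [g1 l, g2 l, g3 l.length, g4 l.length (2 * l.length + l.length ^ 2),
    g5 l.length (2 * l.length + l.length ^ 2), g6 l.length, g7 l.length,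
    Fm.eq (Tm.var valIx) (sumR l.length fun i => sumR l.length fun j => cns (cC i j)),
    Fm.eq (Tm.mul (Tm.add (Tm.var valIx) Tm.one) (Tm.var invIx)) Tm.one]

/-- The formula for a term `≤ 0`. -/
def tmFm (l : Rec) (Nb : ℕ) : Fm :=
  conj [g1 l, g2 l, g3 l.length, g4 l.length (2 * l.length + l.length ^ 2),
    g5 l.length (2 * l.length + l.length ^ 2), g6 l.length, g7 l.length,
    allR Nb fun t => bitF (mB t),
    allR l.length fun i => powF Nb (lamC i) mB (cv 17 i 0),
    Fm.le (numT l.length) (numB Nb mB),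
    Fm.eq (DT 0) Tm.one,
    allR l.length fun j => Fm.eq (Tm.mul (numT (j + 1)) (DT (j + 1)))
      (Tm.mul (DT j) (subT (numB Nb mB) (numT j))),
    Fm.le (csum l.length fun i => csum l.length fun j =>
      cmul (cmul (cC i j) (creal (DT j))) (cv 17 i 0 Nb)).1 Tm.zero]

/-- The formula for an initial value `≤ 0`. -/
def smFm (l : Rec) : Fm := conj [g2 l, exR l.length fun n => Fm.le (UT n) Tm.zero]

end Pool.Agent.H612.LR
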