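import Pool.Agent.H612.LR.Stm

/-!
# ASY: the dominant part decides the sign
-/

namespace Pool.Agent.H612.LR

open Filter Topology

theorem ASY_ratio {j J : ℕ} (h : j < J) :
    Tendsto (fun n : ℕ => (n.choose j : ℝ) / (n.choose J : ℝ)) atTop (𝓝 0) := by
  have hf : (0 : ℝ) < (J.factorial : ℝ) := by exact_mod_cast Nat.factorial_pos J
  refine squeeze_zero' (Eventually.of_forall fun n => by positivity) ?_
    (tendsto_const_div_atTop_nhds_zero_nat (2 ^ J * (J.factorial : ℝ)))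
  filter_upwards [eventually_ge_atTop (2 * J + 1)] with n hn
  have hn1 : (1 : ℝ) ≤ n := by
    have : 1 ≤ n := by omega
    exact_mod_cast this
  have h1 : (n.choose j : ℝ) ≤ (n : ℝ) ^ j := by
    refine (Nat.choose_le_pow_div j n).trans ?_
    have : (1 : ℝ) ≤ (j.factorial : ℝ) := by exact_mod_cast Nat.factorial_pos j
    exact div_le_self (by positivity) this
  have h2 : (n : ℝ) ^ J ≤ 2 ^ J * (J.factorial : ℝ) * (n.choose J : ℝ) := by
    have h3 : ((n + 1 - J : ℕ) ^ J : ℝ) / J.factorial ≤ (n.choose J : ℝ) := Nat.pow_le_choose _ _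
    have h4 : (n : ℝ) / 2 ≤ ((n + 1 - J : ℕ) : ℝ) := by
      have h5 : n ≤ 2 * (n + 1 - J) := by omega
      have h6 : (n : ℝ) ≤ 2 * ((n + 1 - J : ℕ) : ℝ) := by exact_mod_cast h5
      linarith
    calc (n : ℝ) ^ J = 2 ^ J * (J.factorial : ℝ) * (((n : ℝ) / 2) ^ J / J.factorial) := by
          rw [div_pow]; field_simp
      _ ≤ 2 ^ J * (J.factorial : ℝ) * (((n + 1 - J : ℕ) ^ J : ℝ) / J.factorial) := by gcongr
      _ ≤ 2 ^ J * (J.factorial : ℝ) * (n.choose J : ℝ) := by gcongr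
  have h7 : (0 : ℝ) < (n.choose J : ℝ) := by
    have : 0 < n.choose J := Nat.choose_pos (by omega)
    exact_mod_cast this
  rw [div_le_div_iff₀ h7 (by linarith)]
  calc (n.choose j : ℝ) * n ≤ (n : ℝ) ^ j * n := by gcongr
    _ = (n : ℝ) ^ (j + 1) := by rw [pow_succ]
    _ ≤ (n : ℝ) ^ J := pow_le_pow_right₀ hn1 h
    _ ≤ _ := h2

theorem ASY_D {j J : ℕ} (h : j < J) (c z : ℂ) (hz : ‖z‖ = 1) :
    Tendsto (fun n : ℕ => c * (((n.choose j : ℝ) / (n.choose J : ℝ) : ℝ) : ℂ) * z ^ n)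
      atTop (𝓝 0) := by
  have h1 : Tendsto (fun n : ℕ => ‖c‖ * ((n.choose j : ℝ) / (n.choose J : ℝ))) atTop (𝓝 0) := by
    have := (ASY_ratio h).const_mul ‖c‖
    rwa [mul_zero] at this
  refine squeeze_zero_norm (fun n => ?_) h1
  rw [norm_mul, norm_mul, norm_pow, hz, one_pow, mul_one, Complex.norm_real, Real.norm_eq_abs,
    abs_of_nonneg (by positivity)]

theorem ASY_W (j J : ℕ) (c z : ℂ) (hz : ‖z‖ < 1) :
    Tendsto (fun n : ℕ => c * (((n.choose j : ℝ) / (n.choose J : ℝ) : ℝ) : ℂ) * z ^ n)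
      atTop (𝓝 0) := by
  have h1 : Tendsto (fun n : ℕ => ‖c‖ * ((n : ℝ) ^ j * ‖z‖ ^ n)) atTop (𝓝 0) := by
    have := (tendsto_pow_const_mul_const_pow_of_abs_lt_one j
      (r := ‖z‖) (by rwa [abs_norm])).const_mul ‖c‖
    rwa [mul_zero] at this
  refine squeeze_zero_norm' ?_ h1
  filter_upwards [eventually_ge_atTop J] with n hn
  have h2 : (n.choose j : ℝ) ≤ (n : ℝ) ^ j := by
    refine (Nat.choose_le_pow_div j n).trans ?_
    have : (1 : ℝ) ≤ (j.factorial : ℝ) := by exact_mod_cast Nat.factorial_pos j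
    exact div_le_self (by positivity) this
  have h3 : (1 : ℝ) ≤ (n.choose J : ℝ) := by
    have : 0 < n.choose J := Nat.choose_pos hn
    exact_mod_cast this
  rw [norm_mul, norm_mul, norm_pow, Complex.norm_real, Real.norm_eq_abs,
    abs_of_nonneg (by positivity), mul_assoc]
  have h4 : (n.choose j : ℝ) / (n.choose J : ℝ) ≤ (n : ℝ) ^ j :=
    (div_le_self (by positivity) h3).trans h2
  gcongr

theorem t_ASY : S_ASY := by
  intro k D W lam c ρ δ J hρ hδ hJ hD hW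
  have hρC : (ρ : ℂ) ≠ 0 := by exact_mod_cast hρ.ne'
  set E : ℕ → ℂ := fun n =>
    ∑ i ∈ D, ∑ j ∈ Finset.range J, c i j * (((n.choose j : ℝ) / (n.choose J : ℝ) : ℝ) : ℂ) *
        (lam i / (ρ : ℂ)) ^ n +
      ∑ i ∈ W, ∑ j ∈ Finset.range k, c i j * (((n.choose j : ℝ) / (n.choose J : ℝ) : ℝ) : ℂ) *
        (lam i / (ρ : ℂ)) ^ n with hE
  have hnorm : ∀ i, ‖lam i / (ρ : ℂ)‖ = ‖lam i‖ / ρ := fun i => by
    rw [norm_div, Complex.norm_real, Real.norm_eq_abs, abs_of_pos hρ]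
  have hlim : Tendsto E atTop (𝓝 0) := by
    have h1 : Tendsto (fun n : ℕ => ∑ i ∈ D, ∑ j ∈ Finset.range J,
        c i j * (((n.choose j : ℝ) / (n.choose J : ℝ) : ℝ) : ℂ) * (lam i / (ρ : ℂ)) ^ n)
        atTop (𝓝 (∑ i ∈ D, ∑ j ∈ Finset.range J, 0)) := by
      refine tendsto_finsetSum _ fun i hi => tendsto_finsetSum _ fun j hj => ?_
      exact ASY_D (Finset.mem_range.1 hj) _ _ (by rw [hnorm, hD i hi, div_self hρ.ne'])
    have h2 : Tendsto (fun n : ℕ => ∑ i ∈ W, ∑ j ∈ Finset.range k,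
        c i j * (((n.choose j : ℝ) / (n.choose J : ℝ) : ℝ) : ℂ) * (lam i / (ρ : ℂ)) ^ n)
        atTop (𝓝 (∑ i ∈ W, ∑ j ∈ Finset.range k, 0)) := by
      refine tendsto_finsetSum _ fun i hi => tendsto_finsetSum _ fun j hj => ?_
      exact ASY_W _ _ _ _ (by rw [hnorm, div_lt_one hρ]; exact hW i hi)
    have h3 := h1.add h2
    simp only [Finset.sum_const_zero, add_zero] at h3
    exact h3
  obtain ⟨T, hT⟩ := Metric.tendsto_atTop.1 hlim (δ / 2) (by positivity)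
  refine ⟨max T J, fun n hn hre => ?_⟩
  have hnT := hT n (le_trans (le_max_left _ _) hn)
  have hnJ : J ≤ n := le_trans (le_max_right _ _) hn
  rw [dist_zero_right] at hnT
  have hC : (0 : ℝ) < (n.choose J : ℝ) := by
    have : 0 < n.choose J := Nat.choose_pos hnJ
    exact_mod_cast this
  have hCC : ((n.choose J : ℝ) : ℂ) ≠ 0 := by exact_mod_cast hC.ne'
  set w : ℝ := ρ ^ n * (n.choose J : ℝ) with hw
  have hw0 : 0 < w := by positivity
  have hterm : ∀ i j : ℕ, c i j * (n.choose j : ℂ) * lam i ^ n =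
      (w : ℂ) * (c i j * (((n.choose j : ℝ) / (n.choose J : ℝ) : ℝ) : ℂ) *
        (lam i / (ρ : ℂ)) ^ n) := by
    intro i j
    rw [hw, div_pow]
    push_cast
    have hpn : (ρ : ℂ) ^ n ≠ 0 := pow_ne_zero _ hρC
    have hCC' : ((n.choose J : ℕ) : ℂ) ≠ 0 := by exact_mod_cast hCC
    field_simp
  have htop : ∀ i : ℕ, c i J * (n.choose J : ℂ) * lam i ^ n =
      (w : ℂ) * (c i J * (lam i / (ρ : ℂ)) ^ n) := by
    intro i
    rw [hw, div_pow]
    push_cast
    have hpn : (ρ : ℂ) ^ n ≠ 0 := pow_ne_zero _ hρC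
    field_simp
  have htot : ∑ i ∈ D, ∑ j ∈ Finset.range (J + 1), c i j * (n.choose j : ℂ) * lam i ^ n +
      ∑ i ∈ W, ∑ j ∈ Finset.range k, c i j * (n.choose j : ℂ) * lam i ^ n =
      (w : ℂ) * (∑ i ∈ D, c i J * (lam i / (ρ : ℂ)) ^ n + E n) := by
    rw [hE]
    simp only [Finset.sum_range_succ, Finset.sum_add_distrib]
    have a1 : ∑ i ∈ D, ∑ j ∈ Finset.range J, c i j * (n.choose j : ℂ) * lam i ^ n =
        (w : ℂ) * ∑ i ∈ D, ∑ j ∈ Finset.range J,
          c i j * (((n.choose j : ℝ) / (n.choose J : ℝ) : ℝ) : ℂ) * (lam i / (ρ : ℂ)) ^ n := by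
      rw [Finset.mul_sum]
      refine Finset.sum_congr rfl fun i _ => ?_
      rw [Finset.mul_sum]
      exact Finset.sum_congr rfl fun j _ => hterm i j
    have a2 : ∑ i ∈ W, ∑ j ∈ Finset.range k, c i j * (n.choose j : ℂ) * lam i ^ n =
        (w : ℂ) * ∑ i ∈ W, ∑ j ∈ Finset.range k,
          c i j * (((n.choose j : ℝ) / (n.choose J : ℝ) : ℝ) : ℂ) * (lam i / (ρ : ℂ)) ^ n := by
      rw [Finset.mul_sum]
      refine Finset.sum_congr rfl fun i _ => ?_
      rw [Finset.mul_sum]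
      exact Finset.sum_congr rfl fun j _ => hterm i j
    have a3 : ∑ i ∈ D, c i J * (n.choose J : ℂ) * lam i ^ n =
        (w : ℂ) * ∑ i ∈ D, c i J * (lam i / (ρ : ℂ)) ^ n := by
      rw [Finset.mul_sum]
      exact Finset.sum_congr rfl fun i _ => htop i
    rw [a1, a2, a3]
    ring
  rw [htot, Complex.re_ofReal_mul, Complex.add_re]
  have hEre : (E n).re ≤ δ / 2 := (Complex.re_le_norm _).trans hnT.le
  exact mul_neg_of_pos_of_neg hw0 (by linarith)

end Pool.Agent.H612.LR
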