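import Pool.Agent.H612.LR.Stm

/-!
# Task CLA: level data for recurrences which are not tight
-/

namespace Pool.Agent.H612.LR

open Filter Topology

namespace CLA

theorem ratio (x y : ℝ) (a b : ℕ) (hy : 0 < y) (hx : 0 ≤ x)
    (h : x < y ∨ (x = y ∧ a < b)) :
    Tendsto (fun n : ℕ => (x ^ n * ((n : ℝ) + 1) ^ a) / (y ^ n * ((n : ℝ) + 1) ^ b)) atTop
      (𝓝 0) := by
  rcases h with h | ⟨rfl, h⟩
  · have h1 : |x / y| < 1 := by
      rw [abs_of_nonneg (by positivity), div_lt_one hy]
      exact h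
    have h2 := (tendsto_pow_const_mul_const_pow_of_abs_lt_one a h1).const_mul ((2 : ℝ) ^ a)
    rw [mul_zero] at h2
    refine squeeze_zero' (Eventually.of_forall (fun n => by positivity)) ?_ h2
    filter_upwards [eventually_ge_atTop 1] with n hn
    have hn1 : (1 : ℝ) ≤ n := by exact_mod_cast hn
    have h3 : ((n : ℝ) + 1) ^ a ≤ 2 ^ a * (n : ℝ) ^ a := by
      rw [← mul_pow]
      exact pow_le_pow_left₀ (by positivity) (by linarith) a
    have h4 : (1 : ℝ) ≤ ((n : ℝ) + 1) ^ b := one_le_pow₀ (by linarith)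
    have h5 : (0 : ℝ) < y ^ n := by positivity
    rw [div_pow, div_le_iff₀ (by positivity)]
    have h6 : 2 ^ a * ((n : ℝ) ^ a * (x ^ n / y ^ n)) * (y ^ n * ((n : ℝ) + 1) ^ b) =
        (2 ^ a * (n : ℝ) ^ a) * x ^ n * ((n : ℝ) + 1) ^ b := by
      field_simp
    rw [h6]
    have hxn : 0 ≤ x ^ n := by positivity
    calc x ^ n * ((n : ℝ) + 1) ^ a ≤ x ^ n * (2 ^ a * (n : ℝ) ^ a) :=
          mul_le_mul_of_nonneg_left h3 hxn
      _ = (2 ^ a * (n : ℝ) ^ a) * x ^ n * 1 := by ring
      _ ≤ (2 ^ a * (n : ℝ) ^ a) * x ^ n * ((n : ℝ) + 1) ^ b :=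
          mul_le_mul_of_nonneg_left h4 (by positivity)
  · have h1 : Tendsto (fun n : ℕ => (1 : ℝ) / ((n : ℝ) + 1)) atTop (𝓝 0) :=
      tendsto_one_div_add_atTop_nhds_zero_nat
    have h2 : Tendsto (fun n : ℕ => ((1 : ℝ) / ((n : ℝ) + 1)) ^ (b - a)) atTop (𝓝 0) := by
      have := h1.pow (b - a)
      rwa [zero_pow (by omega)] at this
    refine h2.congr (fun n => ?_)
    have h3 : (0 : ℝ) < (n : ℝ) + 1 := by positivity
    obtain ⟨t, rfl⟩ : ∃ t, b = a + t := ⟨b - a, by omega⟩
    rw [Nat.add_sub_cancel_left, pow_add]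
    have h4 : (0 : ℝ) < x ^ n := by positivity
    rw [one_div, inv_pow]
    field_simp

theorem choose_ge (J n : ℕ) (h : 2 * J ≤ n + 1) :
    ((n : ℝ) + 1) ^ J ≤ (2 ^ J * J.factorial) * (n.choose J : ℝ) := by
  have h1 := Nat.pow_sub_le_descFactorial n J
  rw [Nat.descFactorial_eq_factorial_mul_choose] at h1
  have h2 : ((n + 1 - J : ℕ) : ℝ) ^ J ≤ (J.factorial : ℝ) * (n.choose J : ℝ) := by
    exact_mod_cast h1
  have h3 : (n : ℝ) + 1 ≤ 2 * ((n + 1 - J : ℕ) : ℝ) := by
    have : n + 1 ≤ 2 * (n + 1 - J) := by omega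
    exact_mod_cast this
  calc ((n : ℝ) + 1) ^ J ≤ (2 * ((n + 1 - J : ℕ) : ℝ)) ^ J :=
        pow_le_pow_left₀ (by positivity) h3 J
    _ = 2 ^ J * ((n + 1 - J : ℕ) : ℝ) ^ J := by rw [mul_pow]
    _ ≤ 2 ^ J * ((J.factorial : ℝ) * (n.choose J : ℝ)) := mul_le_mul_of_nonneg_left h2 (by positivity)
    _ = _ := by ring

theorem choose_le (j n : ℕ) : (n.choose j : ℝ) ≤ ((n : ℝ) + 1) ^ j := by
  have h1 : (n.choose j) ≤ n ^ j := Nat.choose_le_pow n j
  have h2 : (n.choose j : ℝ) ≤ (n : ℝ) ^ j := by exact_mod_cast h1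
  exact h2.trans (pow_le_pow_left₀ (by positivity) (by linarith) j)

end CLA

open CLA in
theorem t_CLA (hMEAN : S_MEAN) : S_CLA := by
  classical
  intro l lam c hk hrep hroot hnt hup
  obtain ⟨ρ', C, c', m', hρ', hc', hbd, halt⟩ := hnt
  set k := l.length with hkdef
  have hlam0 : ∀ i < k, lam i ≠ 0 := (hrep 0).1
  have hinj : ∀ i < k, ∀ i' < k, lam i = lam i' → i = i' := (hrep 0).2.1
  have hu : ∀ n, k ≤ n → ((seq l n : ℚ) : ℂ) = expo k lam c n := by
    intro n hn
    exact (hrep (n + 1)).2.2 n hn (by omega)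
  have hinf : ∀ N : ℕ, ∃ n, N ≤ n ∧ (seq l n : ℝ) ≤ -(c' * (ρ' ^ n * ((n : ℝ) + 1) ^ m')) := by
    rcases halt with ⟨N, hN⟩ | h
    · exfalso
      apply hup
      refine ⟨N, fun n hn => ?_⟩
      have h1 := hN n hn
      have h2 : (0 : ℝ) < c' * (ρ' ^ n * ((n : ℝ) + 1) ^ m') := by positivity
      have h3 : (0 : ℝ) < (seq l n : ℝ) := by linarith
      exact_mod_cast h3
    · exact h
  -- the indices with nonzero coefficients
  set A : Finset ℕ := (Finset.range k).filter (fun i => ∃ j < k, c i j ≠ 0) with hA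
  have hAne : A.Nonempty := by
    by_contra hcon
    rw [Finset.not_nonempty_iff_eq_empty] at hcon
    have hz : ∀ i < k, ∀ j < k, c i j = 0 := by
      intro i hi j hj
      by_contra hne
      have : i ∈ A := Finset.mem_filter.2 ⟨Finset.mem_range.2 hi, j, hj, hne⟩
      rw [hcon] at this
      exact absurd this (Finset.notMem_empty _)
    obtain ⟨n, hn, h1⟩ := hinf k
    have h2 := hu n hn
    have h3 : expo k lam c n = 0 := by
      unfold expo
      refine Finset.sum_eq_zero (fun i hi => Finset.sum_eq_zero (fun j hj => ?_))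
      rw [hz i (Finset.mem_range.1 hi) j (Finset.mem_range.1 hj)]
      simp
    rw [h3] at h2
    have h4 : (seq l n : ℚ) = 0 := by exact_mod_cast h2
    rw [h4] at h1
    have h5 : (0 : ℝ) < c' * (ρ' ^ n * ((n : ℝ) + 1) ^ m') := by positivity
    simp only [Rat.cast_zero] at h1
    linarith
  obtain ⟨i0, hi0, hmax⟩ := Finset.exists_max_image A (fun i => ‖lam i‖) hAne
  set ρ : ℝ := ‖lam i0‖ with hρdef
  have hi0k : i0 < k := Finset.mem_range.1 (Finset.mem_filter.1 hi0).1
  have hρ : 0 < ρ := norm_pos_iff.2 (hlam0 i0 hi0k)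
  set A1 : Finset ℕ := A.filter (fun i => ‖lam i‖ = ρ) with hA1
  have hi01 : i0 ∈ A1 := Finset.mem_filter.2 ⟨hi0, rfl⟩
  set JJ : Finset ℕ := (Finset.range k).filter (fun j => ∃ i ∈ A1, c i j ≠ 0) with hJJ
  have hJne : JJ.Nonempty := by
    obtain ⟨j, hj, hne⟩ := (Finset.mem_filter.1 hi0).2
    exact ⟨j, Finset.mem_filter.2 ⟨Finset.mem_range.2 hj, i0, hi01, hne⟩⟩
  obtain ⟨J, hJ, hJmax⟩ := Finset.exists_max_image JJ id hJne
  have hJk : J < k := Finset.mem_range.1 (Finset.mem_filter.1 hJ).1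
  obtain ⟨i1, hi1, hi1ne⟩ := (Finset.mem_filter.1 hJ).2
  have hA1k : ∀ i ∈ A1, i < k := fun i hi =>
    Finset.mem_range.1 (Finset.mem_filter.1 (Finset.mem_filter.1 hi).1).1
  have hJz : ∀ i ∈ A1, ∀ j < k, J < j → c i j = 0 := by
    intro i hi j hj hJj
    by_contra hne
    have : j ∈ JJ := Finset.mem_filter.2 ⟨Finset.mem_range.2 hj, i, hi, hne⟩
    have := hJmax j this
    simp only [id] at this
    omega
  set f : ℕ → ℂ := fun n => ∑ i ∈ A1, c i J * (lam i / (ρ : ℂ)) ^ n with hf
  -- the key point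
  have hkey : ∃ n0, (f n0).re < 0 := by
    by_contra hcon
    push Not at hcon
    set w : ℕ → ℝ := fun n => ρ ^ n * ((n : ℝ) + 1) ^ J with hw
    have hwpos : ∀ n, 0 < w n := fun n => by simp only [hw]; positivity
    set T : ℕ → ℕ → ℕ → ℂ := fun i j n =>
      if i ∈ A1 ∧ j = J then 0 else c i j * (n.choose j : ℂ) * lam i ^ n with hT
    set E : ℕ → ℂ := fun n => ∑ i ∈ Finset.range k, ∑ j ∈ Finset.range k, T i j n with hE
    have hsplit : ∀ n, expo k lam c n = (n.choose J : ℂ) * (ρ : ℂ) ^ n * f n + E n := by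
      intro n
      have h1 : (n.choose J : ℂ) * (ρ : ℂ) ^ n * f n =
          ∑ i ∈ Finset.range k, ∑ j ∈ Finset.range k,
            if i ∈ A1 ∧ j = J then c i j * (n.choose j : ℂ) * lam i ^ n else 0 := by
        have h2 : ∀ i ∈ Finset.range k, (∑ j ∈ Finset.range k,
            if i ∈ A1 ∧ j = J then c i j * (n.choose j : ℂ) * lam i ^ n else 0) =
            if i ∈ A1 then c i J * (n.choose J : ℂ) * lam i ^ n else 0 := by
          intro i _
          by_cases hi : i ∈ A1
          · simp only [hi, true_and, if_true]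
            rw [Finset.sum_ite_eq' (Finset.range k) J, if_pos (Finset.mem_range.2 hJk)]
          · simp [hi]
        rw [Finset.sum_congr rfl h2, ← Finset.sum_filter]
        have h3 : (Finset.range k).filter (fun i => i ∈ A1) = A1 := by
          ext i
          simp only [Finset.mem_filter, Finset.mem_range]
          exact ⟨fun h => h.2, fun h => ⟨hA1k i h, h⟩⟩
        rw [h3, hf, Finset.mul_sum]
        refine Finset.sum_congr rfl (fun i _ => ?_)
        rw [div_pow]
        have h4 : (ρ : ℂ) ^ n ≠ 0 := pow_ne_zero _ (by exact_mod_cast hρ.ne')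
        field_simp
      rw [h1, hE, ← Finset.sum_add_distrib]
      unfold expo
      refine Finset.sum_congr rfl (fun i _ => ?_)
      rw [← Finset.sum_add_distrib]
      refine Finset.sum_congr rfl (fun j _ => ?_)
      simp only [hT]
      split_ifs <;> simp
    have hEt : Tendsto (fun n => E n / (w n : ℂ)) atTop (𝓝 0) := by
      have h1 : ∀ n, E n / (w n : ℂ) =
          ∑ i ∈ Finset.range k, ∑ j ∈ Finset.range k, T i j n / (w n : ℂ) := by
        intro n
        rw [hE, Finset.sum_div]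
        exact Finset.sum_congr rfl (fun i _ => by rw [Finset.sum_div])
      simp only [h1]
      have h0 : (0 : ℂ) = ∑ i ∈ Finset.range k, ∑ j ∈ Finset.range k, (0 : ℂ) := by simp
      rw [h0]
      refine tendsto_finsetSum _ (fun i hi => tendsto_finsetSum _ (fun j hj => ?_))
      rw [Finset.mem_range] at hi hj
      by_cases hcij : c i j = 0
      · have : (fun n => T i j n / (w n : ℂ)) = fun _ => 0 := by
          funext n
          simp only [hT, hcij]
          split_ifs <;> simp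
        rw [this]
        exact tendsto_const_nhds
      by_cases hij : i ∈ A1 ∧ j = J
      · have : (fun n => T i j n / (w n : ℂ)) = fun _ => 0 := by
          funext n
          simp only [hT, if_pos hij]
          simp
        rw [this]
        exact tendsto_const_nhds
      have hiA : i ∈ A := Finset.mem_filter.2 ⟨Finset.mem_range.2 hi, j, hj, hcij⟩
      have hle : ‖lam i‖ ≤ ρ := hmax i hiA
      have hor : ‖lam i‖ < ρ ∨ (‖lam i‖ = ρ ∧ j < J) := by
        rcases hle.lt_or_eq with h2 | h2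
        · exact Or.inl h2
        · right
          refine ⟨h2, ?_⟩
          have hi1' : i ∈ A1 := Finset.mem_filter.2 ⟨hiA, h2⟩
          by_contra h3
          rcases (by omega : j = J ∨ J < j) with h4 | h4
          · exact hij ⟨hi1', h4⟩
          · exact hcij (hJz i hi1' j hj h4)
      have h2 := (ratio ‖lam i‖ ρ j J hρ (norm_nonneg _) hor).const_mul ‖c i j‖
      rw [mul_zero] at h2
      refine squeeze_zero_norm (fun n => ?_) h2
      simp only [hT, if_neg hij]
      rw [norm_div, norm_mul, norm_mul, norm_pow, Complex.norm_natCast, Complex.norm_real,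
        Real.norm_of_nonneg (hwpos n).le, mul_div_assoc']
      apply div_le_div_of_nonneg_right _ (hwpos n).le
      have h3 := choose_le j n
      calc ‖c i j‖ * (n.choose j : ℝ) * ‖lam i‖ ^ n = ‖c i j‖ * (‖lam i‖ ^ n * (n.choose j : ℝ)) := by
            ring
        _ ≤ ‖c i j‖ * (‖lam i‖ ^ n * ((n : ℝ) + 1) ^ j) := by gcongr
    set e : ℕ → ℂ := fun n => E n / (w n : ℂ) with he
    have hen : Tendsto (fun n => ‖e n‖) atTop (𝓝 0) := by
      have := hEt.norm
      rwa [norm_zero] at this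
    have hEe : ∀ n, E n = (w n : ℂ) * e n := by
      intro n
      have : (w n : ℂ) ≠ 0 := by exact_mod_cast (hwpos n).ne'
      simp only [he]
      field_simp
    have hun : ∀ n, k ≤ n → ((seq l n : ℚ) : ℂ) =
        (n.choose J : ℂ) * (ρ : ℂ) ^ n * f n + (w n : ℂ) * e n := by
      intro n hn
      rw [hu n hn, hsplit, hEe]
    have hre : ∀ n, k ≤ n → (seq l n : ℝ) =
        ((n.choose J : ℝ) * ρ ^ n) * (f n).re + w n * (e n).re := by
      intro n hn
      have h1 := congrArg Complex.re (hun n hn)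
      have h2 : (((n.choose J : ℂ) * (ρ : ℂ) ^ n) : ℂ) = (((n.choose J : ℝ) * ρ ^ n : ℝ) : ℂ) := by
        push_cast
        rfl
      rw [h2, Complex.add_re, Complex.re_ofReal_mul, Complex.re_ofReal_mul] at h1
      rw [← h1]
      exact (Complex.ofReal_re _).symm.trans (by push_cast; rfl)
    have hlow : ∀ n, k ≤ n → -(w n * ‖e n‖) ≤ (seq l n : ℝ) := by
      intro n hn
      rw [hre n hn]
      have h1 : 0 ≤ ((n.choose J : ℝ) * ρ ^ n) * (f n).re :=
        mul_nonneg (by positivity) (hcon n)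
      have h2 : -‖e n‖ ≤ (e n).re := by
        have := Complex.abs_re_le_norm (e n)
        exact (abs_le.1 this).1
      nlinarith [hwpos n]
    set R : ℕ → ℝ := fun n => (ρ' ^ n * ((n : ℝ) + 1) ^ m') / w n with hR
    have hRpos : ∀ n, 0 < R n := fun n => div_pos (by positivity) (hwpos n)
    have hRw : ∀ n : ℕ, ρ' ^ n * ((n : ℝ) + 1) ^ m' = R n * w n := by
      intro n
      simp only [hR]
      rw [div_mul_cancel₀ _ (hwpos n).ne']
    have hinf2 : ∀ N : ℕ, ∃ n, N ≤ n ∧ c' * R n ≤ ‖e n‖ := by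
      intro N
      obtain ⟨n, hn, h1⟩ := hinf (max N k)
      refine ⟨n, le_trans (le_max_left _ _) hn, ?_⟩
      have h2 := hlow n (le_trans (le_max_right _ _) hn)
      rw [hRw] at h1
      have h3 : (c' * R n) * w n ≤ ‖e n‖ * w n := by nlinarith
      exact le_of_mul_le_mul_right h3 (hwpos n)
    have hnot : ¬ ∃ N : ℕ, ∀ n, N ≤ n → 1 ≤ R n := by
      rintro ⟨N, hN⟩
      have h1 := hen.eventually (gt_mem_nhds hc')
      obtain ⟨N', hN'⟩ := eventually_atTop.1 h1
      obtain ⟨n, hn, h2⟩ := hinf2 (max N N')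
      have h3 := hN n (le_trans (le_max_left _ _) hn)
      have h4 := hN' n (le_trans (le_max_right _ _) hn)
      nlinarith
    have hRt : Tendsto R atTop (𝓝 0) := by
      rcases lt_trichotomy ρ' ρ with h1 | h1 | h1
      · exact ratio ρ' ρ m' J hρ hρ'.le (Or.inl h1)
      · by_cases h2 : m' < J
        · exact ratio ρ' ρ m' J hρ hρ'.le (Or.inr ⟨h1, h2⟩)
        · exfalso
          apply hnot
          refine ⟨0, fun n _ => ?_⟩
          simp only [hR, hw, h1]
          rw [one_le_div (by positivity)]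
          have h3 : ((n : ℝ) + 1) ^ J ≤ ((n : ℝ) + 1) ^ m' :=
            pow_le_pow_right₀ (by linarith [(Nat.cast_nonneg n : (0 : ℝ) ≤ n)]) (by omega)
          exact mul_le_mul_of_nonneg_left h3 (by positivity)
      · exfalso
        apply hnot
        have h2 := ratio ρ ρ' J m' hρ' hρ.le (Or.inl h1)
        have h3 := h2.eventually (gt_mem_nhds (zero_lt_one))
        obtain ⟨N, hN⟩ := eventually_atTop.1 h3
        refine ⟨N, fun n hn => ?_⟩
        have h4 := hN n hn
        rw [div_lt_one (by positivity)] at h4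
        simp only [hR, hw]
        rw [one_le_div (by positivity)]
        exact h4.le
    -- `f` tends to zero
    have hft : Tendsto f atTop (𝓝 0) := by
      set κ : ℝ := 2 ^ J * J.factorial with hκ
      have hκ0 : 0 < κ := by positivity
      have h1 : Tendsto (fun n => κ * (C * R n + ‖e n‖)) atTop (𝓝 0) := by
        have := ((hRt.const_mul C).add hen).const_mul κ
        simpa using this
      refine squeeze_zero_norm' ?_ h1
      filter_upwards [eventually_ge_atTop k, eventually_ge_atTop (2 * J)] with n hn1 hn2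
      have h2 := hun n hn1
      have h3 : (n.choose J : ℂ) * (ρ : ℂ) ^ n * f n = ((seq l n : ℚ) : ℂ) - (w n : ℂ) * e n := by
        rw [h2]; ring
      have h4 : (n.choose J : ℝ) * ρ ^ n * ‖f n‖ ≤ |(seq l n : ℝ)| + w n * ‖e n‖ := by
        have h5 := congrArg norm h3
        rw [norm_mul, norm_mul, norm_pow, Complex.norm_natCast, Complex.norm_real,
          Real.norm_of_nonneg hρ.le] at h5
        rw [h5]
        refine le_trans (norm_sub_le _ _) ?_
        rw [norm_mul, Complex.norm_real, Real.norm_of_nonneg (hwpos n).le]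
        have h6 : ‖((seq l n : ℚ) : ℂ)‖ = |(seq l n : ℝ)| := by
          have : ((seq l n : ℚ) : ℂ) = (((seq l n : ℚ) : ℝ) : ℂ) := by push_cast; rfl
          rw [this, Complex.norm_real, Real.norm_eq_abs]
        rw [h6]
      have h5 := hbd n
      rw [hRw] at h5
      have h6 := choose_ge J n (by omega)
      have h7 : w n ≤ κ * ((n.choose J : ℝ) * ρ ^ n) := by
        simp only [hw]
        calc ρ ^ n * ((n : ℝ) + 1) ^ J ≤ ρ ^ n * (κ * (n.choose J : ℝ)) :=
              mul_le_mul_of_nonneg_left h6 (by positivity)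
          _ = _ := by ring
      have h8 : w n * ‖f n‖ ≤ w n * (κ * (C * R n + ‖e n‖)) := by
        calc w n * ‖f n‖ ≤ κ * ((n.choose J : ℝ) * ρ ^ n) * ‖f n‖ :=
              mul_le_mul_of_nonneg_right h7 (norm_nonneg _)
          _ = κ * ((n.choose J : ℝ) * ρ ^ n * ‖f n‖) := by ring
          _ ≤ κ * (|(seq l n : ℝ)| + w n * ‖e n‖) := mul_le_mul_of_nonneg_left h4 hκ0.le
          _ ≤ κ * (C * (R n * w n) + w n * ‖e n‖) := by gcongr
          _ = _ := by ring
      exact le_of_mul_le_mul_left h8 (hwpos n)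
    have hz := hMEAN A1 (fun i => lam i / (ρ : ℂ)) (fun i => c i J) (by
        intro i hi
        have h1 := (Finset.mem_filter.1 hi).2
        show ‖lam i / (ρ : ℂ)‖ = 1
        rw [norm_div, Complex.norm_real, Real.norm_of_nonneg hρ.le, h1, div_self hρ.ne'])
      (by
        intro i hi i' hi' h1
        apply hinj i (hA1k i hi) i' (hA1k i' hi')
        have h2 : (ρ : ℂ) ≠ 0 := by exact_mod_cast hρ.ne'
        exact (div_left_inj' h2).1 h1) hft i1 hi1
    exact hi1ne hz
  obtain ⟨n0, hn0⟩ := hkey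
  -- the data
  set fl : ℕ → ℕ := fun i => if i ∈ A1 then 1 else if ‖lam i‖ < ρ then 2 else 0 with hfl
  have hS1 : (Finset.range k).filter (fun i => fl i = 1) = A1 := by
    ext i
    simp only [Finset.mem_filter, Finset.mem_range, hfl]
    constructor
    · rintro ⟨h1, h2⟩
      by_contra h3
      rw [if_neg h3] at h2
      split_ifs at h2
      all_goals omega
    · intro h1
      exact ⟨hA1k i h1, if_pos h1⟩
  have hS0 : ∀ i < k, fl i = 0 → ∀ j < k, c i j = 0 := by
    intro i hi h1 j hj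
    by_contra h2
    have hiA : i ∈ A := Finset.mem_filter.2 ⟨Finset.mem_range.2 hi, j, hj, h2⟩
    have hle : ‖lam i‖ ≤ ρ := hmax i hiA
    simp only [hfl] at h1
    by_cases h3 : i ∈ A1
    · rw [if_pos h3] at h1; omega
    · rw [if_neg h3] at h1
      by_cases h4 : ‖lam i‖ < ρ
      · rw [if_pos h4] at h1; omega
      · exact h3 (Finset.mem_filter.2 ⟨hiA, le_antisymm hle (not_lt.1 h4)⟩)
  refine ⟨⟨lam, c, ρ, J, n0, 1, fun _ => 0, fun _ _ => 0, fun _ _ => 0, 1, fun _ => 1, fun _ => 1,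
    fun _ _ => 1, fl, fun i => i⟩, rfl, rfl, rfl, ⟨?_, ?_, ?_, ?_, ?_, ?_⟩, hJk, Or.inr ?_⟩
  · exact hρ.le
  · exact le_refl 1
  · intro i hi
    show fl i = 0 ∨ (fl i = 1 ∧ ‖lam i‖ = ρ ∧ IsRoot l (lam i)) ∨ (fl i = 2 ∧ ‖lam i‖ < ρ)
    by_cases h1 : i ∈ A1
    · right; left
      refine ⟨if_pos h1, (Finset.mem_filter.1 h1).2, ?_⟩
      exact hroot i hi (Finset.mem_filter.1 (Finset.mem_filter.1 h1).1).2
    · by_cases h2 : ‖lam i‖ < ρ
      · right; right
        refine ⟨?_, h2⟩
        simp only [hfl]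
        rw [if_neg h1, if_pos h2]
      · left
        simp only [hfl]
        rw [if_neg h1, if_neg h2]
  · intro i hi
    exact ⟨hi, rfl⟩
  · intro s _ j hj
    refine Finset.sum_eq_zero (fun i hi => ?_)
    have h1 := (Finset.mem_filter.1 (Finset.mem_filter.1 hi).1)
    show c i j * lam i ^ n0 = 0
    rw [hS0 i (Finset.mem_range.1 h1.1) h1.2 j hj, zero_mul]
  · intro s _ j hj hJj
    refine Finset.sum_eq_zero (fun i hi => ?_)
    have h1 := (Finset.mem_filter.1 hi).1
    have h2 : i ∈ A1 := by rw [← hS1]; exact h1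
    show c i j * lam i ^ n0 = 0
    rw [hJz i h2 j hj hJj, zero_mul]
  · show (∑ i ∈ (Finset.range k).filter (fun i => fl i = 1), c i J * (lam i / (ρ : ℂ)) ^ n0).re < 0
    rw [hS1]
    exact hn0

end Pool.Agent.H612.LR
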