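import Pool.Agent.H612.LR.Stm

/-! CLB: level data for simple recurrences whose characteristic roots have the same modulus. -/

set_option autoImplicit false

namespace Pool.Agent.H612.LR

open Polynomial Filter Topology

namespace CLBaux

/-- Grouping by the value of the base. -/
lemma group (U : Finset ℕ) (b v : ℕ → ℂ) (h : ∀ t : ℕ, ∑ i ∈ U, b i * v i ^ t = 0) (w : ℂ) :
    ∑ i ∈ U.filter (fun i => v i = w), b i = 0 := by
  classical
  have hp : ∀ p : ℂ[X], ∑ i ∈ U, b i * p.eval (v i) = 0 := by
    intro p
    have h1 : ∀ i ∈ U, b i * p.eval (v i) =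
        ∑ n ∈ Finset.range (p.natDegree + 1), p.coeff n * (b i * v i ^ n) := by
      intro i _
      rw [Polynomial.eval_eq_sum_range, Finset.mul_sum]
      apply Finset.sum_congr rfl
      intro n _
      ring
    rw [Finset.sum_congr rfl h1, Finset.sum_comm]
    apply Finset.sum_eq_zero
    intro n _
    rw [← Finset.mul_sum, h n, mul_zero]
  have h2 := hp (∏ u ∈ (U.image v).erase w, (X - C u))
  rw [← Finset.sum_filter_add_sum_filter_not U (fun i => v i = w)] at h2
  have h3 : ∑ i ∈ U.filter (fun i => ¬ v i = w),
      b i * (∏ u ∈ (U.image v).erase w, (X - C u)).eval (v i) = 0 := by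
    apply Finset.sum_eq_zero
    intro i hi
    rw [Finset.mem_filter] at hi
    rw [Polynomial.eval_prod]
    rw [Finset.prod_eq_zero (Finset.mem_erase.2 ⟨hi.2, Finset.mem_image_of_mem v hi.1⟩) (by simp),
      mul_zero]
  rw [h3, add_zero] at h2
  have h4 : ∑ i ∈ U.filter (fun i => v i = w),
      b i * (∏ u ∈ (U.image v).erase w, (X - C u)).eval (v i) =
      (∑ i ∈ U.filter (fun i => v i = w), b i) *
        (∏ u ∈ (U.image v).erase w, (X - C u)).eval w := by
    rw [Finset.sum_mul]
    apply Finset.sum_congr rfl
    intro i hi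
    rw [(Finset.mem_filter.1 hi).2]
  rw [h4] at h2
  rcases mul_eq_zero.1 h2 with h5 | h5
  · exact h5
  · exfalso
    rw [Polynomial.eval_prod, Finset.prod_eq_zero_iff] at h5
    obtain ⟨u, hu, hz⟩ := h5
    rw [Finset.mem_erase] at hu
    simp only [eval_sub, eval_X, eval_C] at hz
    exact hu.1 (sub_eq_zero.1 hz).symm

end CLBaux

open CLBaux in
theorem t_CLB (h1 : S_SML) : S_CLB := by
  classical
  intro l lam c q0 hk hRep hroot hsim hq0 htor hmod hnup
  have hlam : ∀ i < l.length, lam i ≠ 0 := (hRep 0).1
  -- the sequence is a sum of powers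
  have hseq : ∀ n, l.length ≤ n → ((seq l n : ℚ) : ℂ) =
      ∑ i ∈ Finset.range l.length, c i 0 * lam i ^ n := by
    intro n hn
    rw [(hRep (n + 1)).2.2 n hn (Nat.lt_succ_self n)]
    unfold expo
    apply Finset.sum_congr rfl
    intro i hi
    rw [Finset.mem_range] at hi
    rw [Finset.sum_eq_single_of_mem 0 (Finset.mem_range.2 (by omega))]
    · simp
    · intro j hj hj0
      rw [hsim i hi j (Finset.mem_range.1 hj) (Nat.pos_of_ne_zero hj0)]
      ring
  set Act : Finset ℕ := (Finset.range l.length).filter (fun i => c i 0 ≠ 0) with hAct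
  have hAlt : ∀ i ∈ Act, i < l.length := fun i hi =>
    Finset.mem_range.1 (Finset.mem_filter.1 hi).1
  have hAroot : ∀ i ∈ Act, IsRoot l (lam i) := fun i hi =>
    hroot i (hAlt i hi) ⟨0, by omega, (Finset.mem_filter.1 hi).2⟩
  have hnA : ∀ i < l.length, i ∉ Act → ∀ j < l.length, c i j = 0 := by
    intro i hi hA j hj
    rcases Nat.eq_zero_or_pos j with rfl | hj0
    · by_contra hne
      exact hA (Finset.mem_filter.2 ⟨Finset.mem_range.2 hi, hne⟩)
    · exact hsim i hi j hj hj0
  by_cases hneg : ∃ n, l.length ≤ n ∧ seq l n < 0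
  · -- a negative value
    obtain ⟨n, hn, hlt⟩ := hneg
    have hne : Act.Nonempty := by
      by_contra hemp
      rw [Finset.not_nonempty_iff_eq_empty] at hemp
      have h2 := hseq n hn
      rw [Finset.sum_eq_zero (fun i hi => by
        rw [hnA i (Finset.mem_range.1 hi) (by rw [hemp]; exact Finset.notMem_empty i) 0 (by omega),
          zero_mul])] at h2
      have h3 : (seq l n : ℚ) = 0 := by exact_mod_cast h2
      rw [h3] at hlt
      exact lt_irrefl _ hlt
    obtain ⟨i0, hi0⟩ := hne
    have hR : 0 < ‖lam i0‖ := norm_pos_iff.2 (hlam i0 (hAlt i0 hi0))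
    let d : CD :=
      { lam := lam, c := c, ρ := ‖lam i0‖, J := 0, m := n, q := q0, P := fun _ => 0,
        a := fun _ _ => 0, b := fun _ _ => 0, ζ := 1, ξ := fun _ => 1, x := fun _ => 1,
        h := fun _ _ => 1, fl := fun i => if i ∈ Act then 1 else 0, κ := fun i => i }
    have hS1 : d.S l.length 1 = Act := by
      ext i
      simp only [CD.S, Finset.mem_filter, Finset.mem_range, d]
      constructor
      · rintro ⟨_, h⟩
        by_contra hA
        rw [if_neg hA] at h
        exact zero_ne_one h
      · intro h
        exact ⟨hAlt i h, if_pos h⟩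
    refine ⟨d, rfl, rfl, rfl, ⟨hR.le, hq0, ?_, ?_, ?_, ?_⟩, ?_, Or.inr ?_⟩
    · intro i hi
      by_cases hA : i ∈ Act
      · right; left
        refine ⟨if_pos hA, hmod _ _ (hAroot i hA) (hAroot i0 hi0), hAroot i hA⟩
      · left
        exact if_neg hA
    · intro i hi
      exact ⟨hi, rfl⟩
    · intro s hs j hj
      apply Finset.sum_eq_zero
      intro i hi
      simp only [CD.S, Finset.mem_filter, Finset.mem_range, d] at hi
      have hA : i ∉ Act := by
        intro hA
        rw [if_pos hA] at hi
        exact one_ne_zero hi.1.2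
      show c i j * lam i ^ n = 0
      rw [hnA i hi.1.1 hA j hj, zero_mul]
    · intro s hs j hj hJ
      apply Finset.sum_eq_zero
      intro i hi
      simp only [CD.S, Finset.mem_filter, Finset.mem_range, d] at hi
      show c i j * lam i ^ n = 0
      rw [hsim i hi.1.1 j hj hJ, zero_mul]
    · show 0 < l.length
      omega
    · rw [hS1]
      show (∑ i ∈ Act, c i 0 * (lam i / ((‖lam i0‖ : ℝ) : ℂ)) ^ n).re < 0
      have h2 : ∑ i ∈ Act, c i 0 * (lam i / ((‖lam i0‖ : ℝ) : ℂ)) ^ n =
          (((seq l n : ℚ) : ℝ) / ‖lam i0‖ ^ n : ℝ) := by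
        have h3 : ∑ i ∈ Finset.range l.length, c i 0 * lam i ^ n = ∑ i ∈ Act, c i 0 * lam i ^ n := by
          rw [hAct, Finset.sum_filter]
          apply Finset.sum_congr rfl
          intro i _
          split_ifs with h
          · rfl
          · push Not at h
            rw [h, zero_mul]
        push_cast
        rw [hseq n hn, h3, Finset.sum_div]
        apply Finset.sum_congr rfl
        intro i _
        rw [div_pow, mul_div_assoc]
      rw [h2, Complex.ofReal_re]
      apply div_neg_of_neg_of_pos
      · exact_mod_cast hlt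
      · positivity
  · push Not at hneg
    -- infinitely many zeros
    have hinf : ∀ N : ℕ, ∃ n, N ≤ n ∧ seq l n = 0 := by
      intro N
      unfold UltPositive at hnup
      push Not at hnup
      obtain ⟨n, hn, hle⟩ := hnup (max N l.length)
      exact ⟨n, le_trans (le_max_left _ _) hn,
        le_antisymm hle (hneg n (le_trans (le_max_right _ _) hn))⟩
    obtain ⟨n0, T, hn0, hT, hz⟩ := h1 l hk hinf
    -- group sums
    have hgs : ∀ t : ℕ, ∑ i ∈ Act, (c i 0 * lam i ^ n0) * (lam i ^ (T * q0)) ^ t = 0 := by
      intro t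
      have h2 := hseq (n0 + T * (q0 * t)) (by omega)
      rw [hz (q0 * t)] at h2
      rw [Rat.cast_zero] at h2
      rw [h2, hAct, Finset.sum_filter]
      apply Finset.sum_congr rfl
      intro i _
      split_ifs with h
      · ring
      · push Not at h
        rw [h, zero_mul]
    have hcls : ∀ i ∈ Act, ∀ i' ∈ Act, (lam i ^ (T * q0) = lam i' ^ (T * q0) ↔
        lam i ^ q0 = lam i' ^ q0) := by
      intro i hi i' hi'
      constructor
      · intro h
        exact htor _ _ (hAroot i hi) (hAroot i' hi') (hlam i (hAlt i hi)) (hlam i' (hAlt i' hi'))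
          (T * q0) (Nat.mul_pos hT hq0) h
      · intro h
        rw [mul_comm T q0, pow_mul, pow_mul, h]
    have hsum : ∀ i' ∈ Act, ∑ i ∈ Act.filter (fun i => lam i ^ q0 = lam i' ^ q0),
        c i 0 * lam i ^ n0 = 0 := by
      intro i' hi'
      have h2 := group Act (fun i => c i 0 * lam i ^ n0) (fun i => lam i ^ (T * q0)) hgs
        (lam i' ^ (T * q0))
      rw [← h2]
      apply Finset.sum_congr _ (fun _ _ => rfl)
      apply Finset.filter_congr
      intro i hi
      exact (hcls i hi i' hi').symm
    -- representatives of the classes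
    let rp : ℂ → ℕ := fun v => if h : ∃ s ∈ Act, lam s ^ q0 = v then Classical.choose h else 0
    have hrp : ∀ i ∈ Act, rp (lam i ^ q0) ∈ Act ∧ lam (rp (lam i ^ q0)) ^ q0 = lam i ^ q0 := by
      intro i hi
      have h : ∃ s ∈ Act, lam s ^ q0 = lam i ^ q0 := ⟨i, hi, rfl⟩
      have h2 := Classical.choose_spec h
      have h3 : rp (lam i ^ q0) = Classical.choose h := dif_pos h
      rw [h3]
      exact h2
    let κ : ℕ → ℕ := fun i => if i ∈ Act then rp (lam i ^ q0) else i
    have hκ1 : ∀ i ∈ Act, κ i = rp (lam i ^ q0) := fun i hi => if_pos hi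
    have hκ0 : ∀ i, i ∉ Act → κ i = i := fun i hi => if_neg hi
    let d : CD :=
      { lam := lam, c := c, ρ := 0, J := 0, m := n0, q := q0, P := fun _ => 0,
        a := fun _ _ => 0, b := fun _ _ => 0, ζ := 1, ξ := fun _ => 1, x := fun _ => 1,
        h := fun _ _ => 1, fl := fun _ => 0, κ := κ }
    refine ⟨d, rfl, rfl, rfl, ⟨le_refl _, hq0, ?_, ?_, ?_, ?_⟩, ?_, Or.inl rfl⟩
    · intro i _
      exact Or.inl rfl
    · intro i hi
      show κ i < l.length ∧ lam i ^ q0 = lam (κ i) ^ q0
      by_cases hA : i ∈ Act
      · rw [hκ1 i hA]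
        exact ⟨hAlt _ (hrp i hA).1, (hrp i hA).2.symm⟩
      · rw [hκ0 i hA]
        exact ⟨hi, rfl⟩
    · intro s hs j hj
      show ∑ i ∈ (d.S l.length 0).filter (fun i => κ i = s), c i j * lam i ^ n0 = 0
      rcases Nat.eq_zero_or_pos j with rfl | hj0
      · have h2 : ∑ i ∈ (d.S l.length 0).filter (fun i => κ i = s), c i 0 * lam i ^ n0 =
            ∑ i ∈ Act.filter (fun i => κ i = s), c i 0 * lam i ^ n0 := by
          symm
          apply Finset.sum_subset
          · intro i hi
            rw [Finset.mem_filter] at hi ⊢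
            refine ⟨?_, hi.2⟩
            simp only [CD.S, Finset.mem_filter, Finset.mem_range, d, and_true]
            exact hAlt i hi.1
          · intro i hi hni
            rw [Finset.mem_filter] at hi hni
            have hilt : i < l.length := by
              have := hi.1
              simp only [CD.S, Finset.mem_filter, Finset.mem_range, d, and_true] at this
              exact this
            have hA : i ∉ Act := fun hA => hni ⟨hA, hi.2⟩
            rw [hnA i hilt hA 0 hj, zero_mul]
        rw [h2]
        by_cases hex : ∃ i' ∈ Act, κ i' = s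
        · obtain ⟨i', hi', hs'⟩ := hex
          rw [← hsum i' hi']
          apply Finset.sum_congr _ (fun _ _ => rfl)
          apply Finset.filter_congr
          intro i hi
          rw [← hs', hκ1 i hi, hκ1 i' hi']
          constructor
          · intro h
            rw [← (hrp i hi).2, ← (hrp i' hi').2, h]
          · intro h
            rw [h]
        · push Not at hex
          apply Finset.sum_eq_zero
          intro i hi
          rw [Finset.mem_filter] at hi
          exact absurd hi.2 (hex i hi.1)
      · apply Finset.sum_eq_zero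
        intro i hi
        rw [Finset.mem_filter] at hi
        have hilt : i < l.length := by
          have := hi.1
          simp only [CD.S, Finset.mem_filter, Finset.mem_range, d, and_true] at this
          exact this
        rw [hsim i hilt j hj hj0, zero_mul]
    · intro s hs j hj _
      apply Finset.sum_eq_zero
      intro i hi
      simp only [CD.S, Finset.mem_filter, Finset.mem_range, d] at hi
      exact absurd hi.1.2 (by decide)
    · show 0 < l.length
      omega

end Pool.Agent.H612.LR
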