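import Pool.Agent.H612.LR.Stm

/-!
# CLC: level data for simple recurrences, given the growth theorem
-/

namespace Pool.Agent.H612.LR

open Polynomial Filter Topology

namespace CLCaux

theorem exists_kappa (A : Finset ℕ) (f : ℕ → ℂ) : ∃ κ : ℕ → ℕ,
    (∀ i ∈ A, κ i ∈ A ∧ f (κ i) = f i) ∧ (∀ i ∈ A, ∀ i' ∈ A, f i = f i' → κ i = κ i') ∧
    ∀ i, i ∉ A → κ i = i := by
  classical
  let g : ℂ → ℕ := fun y => if h : ∃ s ∈ A, f s = y then h.choose else 0
  have hg : ∀ i ∈ A, g (f i) ∈ A ∧ f (g (f i)) = f i := by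
    intro i hi
    have h : ∃ s ∈ A, f s = f i := ⟨i, hi, rfl⟩
    have e : g (f i) = h.choose := dif_pos h
    rw [e]
    exact h.choose_spec
  refine ⟨fun i => if i ∈ A then g (f i) else i, ?_, ?_, ?_⟩
  · intro i hi
    simp only [if_pos hi]
    exact hg i hi
  · intro i hi i' hi' h
    simp only [if_pos hi, if_pos hi', h]
  · intro i hi
    simp only [if_neg hi]

theorem pigeon (l : Rec) (q0 : ℕ) (hq : 1 ≤ q0) (h : ¬ UltPositive l) :
    ∃ r : ℕ, ∀ N : ℕ, ∃ t, N ≤ t ∧ seq l (r + q0 * t) ≤ 0 := by
  by_contra hc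
  push Not at hc
  choose B hB using hc
  apply h
  refine ⟨q0 * ∑ r ∈ Finset.range q0, B r, fun n hn => ?_⟩
  have h1 : n % q0 < q0 := Nat.mod_lt _ hq
  have h2 : ∑ r ∈ Finset.range q0, B r ≤ n / q0 := (Nat.le_div_iff_mul_le hq).2 (by
    rw [mul_comm]; exact hn)
  have h3 : B (n % q0) ≤ ∑ r ∈ Finset.range q0, B r :=
    Finset.single_le_sum (fun _ _ => Nat.zero_le _) (Finset.mem_range.2 h1)
  have h4 := hB (n % q0) (n / q0) (h3.trans h2)
  rwa [Nat.mod_add_div] at h4

end CLCaux

open CLCaux

theorem t_CLC : S_CLC := by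
  classical
  intro hG l lam c q0 hk hrep hroot hsimple halg hq0 htor hnp
  set k := l.length with hkdef
  set Act : Finset ℕ := (Finset.range k).filter (fun i => c i 0 ≠ 0) with hAct
  have hActk : ∀ i ∈ Act, i < k := fun i hi => Finset.mem_range.1 (Finset.mem_filter.1 hi).1
  have hActc : ∀ i ∈ Act, c i 0 ≠ 0 := fun i hi => (Finset.mem_filter.1 hi).2
  have hActn : ∀ i < k, i ∉ Act → c i 0 = 0 := by
    intro i hi hn
    by_contra h
    exact hn (Finset.mem_filter.2 ⟨Finset.mem_range.2 hi, h⟩)
  have hActroot : ∀ i ∈ Act, IsRoot l (lam i) := fun i hi =>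
    hroot i (hActk i hi) ⟨0, hk, hActc i hi⟩
  have hlam0 : ∀ i < k, lam i ≠ 0 := (hrep 0).1
  obtain ⟨κ, hκ1, hκ2, hκ3⟩ := exists_kappa Act (fun i => lam i ^ q0)
  have hκk : ∀ i < k, κ i < k ∧ lam i ^ q0 = lam (κ i) ^ q0 := by
    intro i hi
    by_cases h : i ∈ Act
    · exact ⟨hActk _ (hκ1 i h).1, (hκ1 i h).2.symm⟩
    · rw [hκ3 i h]
      exact ⟨hi, rfl⟩
  obtain ⟨r, hr⟩ := pigeon l q0 hq0 hnp
  set SS : ℕ → ℕ → ℂ := fun s n => ∑ i ∈ Act.filter (fun i => κ i = s), c i 0 * lam i ^ n
    with hSS
  have hSSt : ∀ s t, SS s (r + q0 * t) = SS s r * (lam s ^ q0) ^ t := by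
    intro s t
    simp only [hSS]
    rw [Finset.sum_mul]
    refine Finset.sum_congr rfl fun i hi => ?_
    obtain ⟨hi1, hi2⟩ := Finset.mem_filter.1 hi
    have h1 : lam s ^ q0 = lam i ^ q0 := by
      have := (hκ1 i hi1).2
      rw [hi2] at this
      exact this
    rw [h1, pow_add, pow_mul]
    ring
  -- the sequence
  have hval : ∀ n, k ≤ n → ((seq l n : ℚ) : ℂ) = ∑ i ∈ Act, c i 0 * lam i ^ n := by
    intro n hn
    rw [(hrep (n + 1)).2.2 n hn (Nat.lt_succ_self n)]
    unfold expo
    rw [hAct, Finset.sum_filter]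
    refine Finset.sum_congr rfl fun i hi => ?_
    have hi' : i < k := Finset.mem_range.1 hi
    rw [Finset.sum_eq_single_of_mem 0 (Finset.mem_range.2 hk)]
    · rw [Nat.choose_zero_right, Nat.cast_one, mul_one]
      split_ifs with h
      · rfl
      · rw [not_not] at h
        rw [h, zero_mul]
    · intro j hj hj0
      rw [hsimple i hi' j (Finset.mem_range.1 hj) (Nat.pos_of_ne_zero hj0), zero_mul, zero_mul]
  clear_value Act
  have hval2 : ∀ t, k ≤ r + q0 * t → ((seq l (r + q0 * t) : ℚ) : ℂ) =
      ∑ s ∈ Act, SS s r * (lam s ^ q0) ^ t := by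
    intro t ht
    rw [hval _ ht, ← Finset.sum_fiberwise_of_maps_to (fun i hi => (hκ1 i hi).1)]
    refine Finset.sum_congr rfl fun s _ => ?_
    rw [← hSSt]
  have hSS0 : ∀ s, s ∉ Act → SS s r = 0 := by
    intro s hs
    simp only [hSS]
    refine Finset.sum_eq_zero fun i hi => ?_
    obtain ⟨hi1, hi2⟩ := Finset.mem_filter.1 hi
    exact absurd (hi2 ▸ (hκ1 i hi1).1) hs
  set T : Finset ℕ := Act.filter (fun s => SS s r ≠ 0) with hT
  rcases Finset.eq_empty_or_nonempty T with hTe | hTne
  · -- everything cancels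
    have hSSz : ∀ s, SS s r = 0 := by
      intro s
      by_cases hs : s ∈ Act
      · by_contra h
        have : s ∈ T := Finset.mem_filter.2 ⟨hs, h⟩
        rw [hTe] at this
        exact absurd this (Finset.notMem_empty s)
      · exact hSS0 s hs
    refine ⟨{ lam := lam, c := c, ρ := 0, J := 0, m := r, q := q0, P := fun _ => 0,
              a := fun _ _ => 0, b := fun _ _ => 0, ζ := 1, ξ := fun _ => 1, x := fun _ => 1,
              h := fun _ _ => 1, fl := fun _ => 0, κ := κ }, rfl, rfl, rfl, ?_, hk, Or.inl rfl⟩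
    refine ⟨le_refl _, hq0, fun i _ => Or.inl rfl, hκk, ?_, ?_⟩
    · intro s hs j hj
      show ∑ i ∈ ((Finset.range k).filter fun i => (0 : ℕ) = 0).filter (fun i => κ i = s),
        c i j * lam i ^ r = 0
      rcases Nat.eq_zero_or_pos j with hj0 | hj0
      · subst hj0
        rw [← hSSz s]
        simp only [hSS]
        symm
        refine Finset.sum_subset ?_ ?_
        · intro i hi
          obtain ⟨hi1, hi2⟩ := Finset.mem_filter.1 hi
          exact Finset.mem_filter.2 ⟨Finset.mem_filter.2 ⟨Finset.mem_range.2 (hActk i hi1), trivial⟩, hi2⟩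
        · intro i hi hn
          obtain ⟨hi1, hi2⟩ := Finset.mem_filter.1 hi
          have hik : i < k := Finset.mem_range.1 (Finset.mem_filter.1 hi1).1
          have : i ∉ Act := fun h => hn (Finset.mem_filter.2 ⟨h, hi2⟩)
          rw [hActn i hik this, zero_mul]
      · refine Finset.sum_eq_zero fun i hi => ?_
        have hik : i < k := Finset.mem_range.1 (Finset.mem_filter.1 (Finset.mem_filter.1 hi).1).1
        rw [hsimple i hik j hj hj0, zero_mul]
    · intro s hs j hj hj0
      refine Finset.sum_eq_zero fun i hi => ?_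
      have hik : i < k := Finset.mem_range.1 (Finset.mem_filter.1 (Finset.mem_filter.1 hi).1).1
      show c i j * lam i ^ r = 0
      rw [hsimple i hik j hj hj0, zero_mul]
  · -- the top level
    obtain ⟨s0, hs0T, hs0max⟩ := Finset.exists_max_image T (fun s => ‖lam s‖) hTne
    set ρ : ℝ := ‖lam s0‖ with hρ
    have hs0A : s0 ∈ Act := (Finset.mem_filter.1 hs0T).1
    have hρ0 : 0 < ρ := norm_pos_iff.2 (hlam0 s0 (hActk s0 hs0A))
    set fl : ℕ → ℕ := fun i => if ρ < ‖lam i‖ then 0 else if ‖lam i‖ < ρ then 2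
      else if i ∈ Act then 1 else 0 with hfl
    have hfl1 : ∀ i, fl i = 1 ↔ ‖lam i‖ = ρ ∧ i ∈ Act := by
      intro i
      simp only [hfl]
      rcases lt_trichotomy (‖lam i‖) ρ with h | h | h
      · rw [if_neg (not_lt.2 h.le), if_pos h]
        simp [h.ne]
      · rw [if_neg (not_lt.2 h.le), if_neg (not_lt.2 h.ge)]
        by_cases hi : i ∈ Act
        · simp [hi, h]
        · simp [hi]
      · rw [if_pos h]
        simp [h.ne']
    have hfl0 : ∀ i, fl i = 0 ↔ ρ < ‖lam i‖ ∨ (‖lam i‖ = ρ ∧ i ∉ Act) := by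
      intro i
      simp only [hfl]
      rcases lt_trichotomy (‖lam i‖) ρ with h | h | h
      · rw [if_neg (not_lt.2 h.le), if_pos h]
        simp [h.ne, not_lt.2 h.le]
      · rw [if_neg (not_lt.2 h.le), if_neg (not_lt.2 h.ge)]
        by_cases hi : i ∈ Act
        · simp [hi, h]
        · simp [hi, h]
      · rw [if_pos h]
        simp [h]
    have hfl2 : ∀ i, fl i = 2 ↔ ‖lam i‖ < ρ := by
      intro i
      simp only [hfl]
      rcases lt_trichotomy (‖lam i‖) ρ with h | h | h
      · rw [if_neg (not_lt.2 h.le), if_pos h]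
        simp [h]
      · rw [if_neg (not_lt.2 h.le), if_neg (not_lt.2 h.ge)]
        by_cases hi : i ∈ Act
        · simp [hi, h]
        · simp [hi, h]
      · rw [if_pos h]
        simp [not_lt.2 h.le]
    -- same modulus in a class
    have hmod : ∀ i ∈ Act, ‖lam (κ i)‖ = ‖lam i‖ := by
      intro i hi
      have h1 : ‖lam (κ i)‖ ^ q0 = ‖lam i‖ ^ q0 := by
        rw [← norm_pow, ← norm_pow]
        exact congrArg _ (hκ1 i hi).2
      exact (pow_left_inj₀ (norm_nonneg _) (norm_nonneg _) (by omega)).1 h1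
    -- the cancellation above the top level
    have hbig : ∀ t s, ∑ i ∈ (Act.filter (fun i => ρ < ‖lam i‖)).filter (fun i => κ i = s),
        c i 0 * lam i ^ (r + q0 * t) = 0 := by
      intro t s
      by_cases hs : s ∈ Act ∧ ρ < ‖lam s‖
      · have h1 : (Act.filter (fun i => ρ < ‖lam i‖)).filter (fun i => κ i = s) =
            Act.filter (fun i => κ i = s) := by
          ext i
          simp only [Finset.mem_filter]
          constructor
          · rintro ⟨⟨h1, _⟩, h2⟩
            exact ⟨h1, h2⟩
          · rintro ⟨h1, h2⟩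
            refine ⟨⟨h1, ?_⟩, h2⟩
            rw [← hmod i h1, h2]
            exact hs.2
        rw [h1]
        have h2 := hSSt s t
        simp only [hSS] at h2
        rw [h2]
        have h3 : SS s r = 0 := by
          by_contra h
          have h4 : s ∈ T := Finset.mem_filter.2 ⟨hs.1, h⟩
          have h5 := hs0max s h4
          exact absurd hs.2 (not_lt.2 h5)
        simp only [hSS] at h3
        rw [h3, zero_mul]
      · refine Finset.sum_eq_zero fun i hi => ?_
        exfalso
        obtain ⟨hi1, hi2⟩ := Finset.mem_filter.1 hi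
        obtain ⟨hi3, hi4⟩ := Finset.mem_filter.1 hi1
        apply hs
        refine ⟨hi2 ▸ (hκ1 i hi3).1, ?_⟩
        rw [← hi2, hmod i hi3]
        exact hi4
    have hbig2 : ∀ t, ∑ i ∈ Act.filter (fun i => ρ < ‖lam i‖),
        c i 0 * lam i ^ (r + q0 * t) = 0 := by
      intro t
      rw [← Finset.sum_fiberwise_of_maps_to (t := Act) (g := κ)
        (fun i hi => (hκ1 i (Finset.mem_filter.1 hi).1).1)]
      exact Finset.sum_eq_zero fun s _ => hbig t s
    -- there is a good exponent
    have hexp : ∃ t, (∑ i ∈ Act.filter (fun i => ‖lam i‖ = ρ),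
        c i 0 * (lam i / (ρ : ℂ)) ^ (r + q0 * t)).re < 0 := by
      by_contra hc
      push Not at hc
      have htop : ∀ t, 0 ≤ (∑ i ∈ Act.filter (fun i => ‖lam i‖ = ρ),
          c i 0 * lam i ^ (r + q0 * t)).re := by
        intro t
        have h1 := hc t
        have h2 : ∑ i ∈ Act.filter (fun i => ‖lam i‖ = ρ), c i 0 * lam i ^ (r + q0 * t) =
            ((ρ ^ (r + q0 * t) : ℝ) : ℂ) * ∑ i ∈ Act.filter (fun i => ‖lam i‖ = ρ),
              c i 0 * (lam i / (ρ : ℂ)) ^ (r + q0 * t) := by
          rw [Finset.mul_sum]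
          refine Finset.sum_congr rfl fun i _ => ?_
          have h3 : (ρ : ℂ) ≠ 0 := by exact_mod_cast hρ0.ne'
          rw [div_pow]
          push_cast
          field_simp
        rw [h2, Complex.re_ofReal_mul]
        positivity
      -- the growth theorem
      set W : Finset ℕ := Act.filter (fun i => ‖lam i‖ < ρ) with hW
      set MS : Finset ℝ := insert 0 (W.image fun i => ‖lam i‖ ^ q0) with hMS
      have hMSne : MS.Nonempty := ⟨0, Finset.mem_insert_self _ _⟩
      set μ : ℝ := MS.max' hMSne with hμ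
      have hμ0 : 0 ≤ μ := Finset.le_max' _ _ (Finset.mem_insert_self _ _)
      have hμρ : μ < ρ ^ q0 := by
        have h1 := Finset.max'_mem MS hMSne
        rw [← hμ] at h1
        rcases Finset.mem_insert.1 h1 with h | h
        · rw [h]; positivity
        · obtain ⟨i, hi, hie⟩ := Finset.mem_image.1 h
          rw [← hie]
          exact pow_lt_pow_left₀ (Finset.mem_filter.1 hi).2 (norm_nonneg _) (by omega)
      have hWμ : ∀ i ∈ W, ‖lam i‖ ^ q0 ≤ μ := fun i hi =>
        Finset.le_max' MS (‖lam i‖ ^ q0) (Finset.mem_insert_of_mem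
          (Finset.mem_image_of_mem (fun i => ‖lam i‖ ^ q0) hi))
      set R : ℝ := (μ + ρ ^ q0) / 2 with hR
      have hRμ : μ < R := by rw [hR]; linarith
      have hRρ : R < ρ ^ q0 := by rw [hR]; linarith
      have hR0 : 0 < R := lt_of_le_of_lt hμ0 hRμ
      obtain ⟨N1, hN1⟩ := hG T (fun s => lam s ^ q0) (fun s => SS s r) (by
        intro s hs
        obtain ⟨hs1, hs2⟩ := Finset.mem_filter.1 hs
        have hal : ∀ i ∈ Act, IsAlgebraic ℚ (lam i) := by
          intro i hi
          have h1 := hActroot i hi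
          refine ⟨chi l, ?_, ?_⟩
          · have hm : (chi l).Monic := by
              unfold chi
              refine Polynomial.monic_X_pow_sub ?_
              refine (Polynomial.degree_sum_le _ _).trans_lt ?_
              rw [Finset.sup_lt_iff (by exact_mod_cast WithBot.bot_lt_coe _)]
              intro j hj
              refine (Polynomial.degree_C_mul_X_pow_le _ _).trans_lt ?_
              have : l.length - 1 - j < l.length := by omega
              exact_mod_cast this
            exact hm.ne_zero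
          · unfold chi
            rw [map_sub, map_pow, aeval_X, map_sum]
            simp only [map_mul, map_pow, aeval_X, aeval_C]
            rw [sub_eq_zero]
            unfold IsRoot at h1
            rw [h1]
            rfl
        refine ⟨(hal s hs1).pow q0, ?_, pow_ne_zero _ (hlam0 s (hActk s hs1)), hs2⟩
        have : ∀ A : Finset ℕ, (∀ i ∈ A, i ∈ Act) →
            IsAlgebraic ℚ (∑ i ∈ A, c i 0 * lam i ^ r) := by
          intro A
          induction A using Finset.induction_on with
          | empty => intro _; simpa using (isAlgebraic_zero : IsAlgebraic ℚ (0 : ℂ))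
          | insert a A ha ih =>
            intro hA
            rw [Finset.sum_insert ha]
            have haA := hA a (Finset.mem_insert_self a A)
            exact ((halg a (hActk a haA)).mul ((hal a haA).pow r)).add
              (ih fun i hi => hA i (Finset.mem_insert_of_mem hi))
        exact this _ fun i hi => (Finset.mem_filter.1 hi).1) (by
        intro s hs s' hs' hne t ht heq
        obtain ⟨hs1, hs2⟩ := Finset.mem_filter.1 hs
        obtain ⟨hs1', hs2'⟩ := Finset.mem_filter.1 hs'
        have hκs : ∀ s, SS s r ≠ 0 → ∃ i ∈ Act, κ i = s := by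
          intro s hss
          by_contra hcon
          push Not at hcon
          apply hss
          simp only [hSS]
          refine Finset.sum_eq_zero fun i hi => ?_
          obtain ⟨hi1, hi2⟩ := Finset.mem_filter.1 hi
          exact absurd hi2 (hcon i hi1)
        obtain ⟨i, hi, hie⟩ := hκs s hs2
        obtain ⟨i', hi', hie'⟩ := hκs s' hs2'
        have h1 : lam s ^ (q0 * t) = lam s' ^ (q0 * t) := by
          rw [pow_mul, pow_mul]; exact heq
        have h2 := htor (lam s) (lam s') (hActroot s hs1) (hActroot s' hs1')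
          (hlam0 s (hActk s hs1)) (hlam0 s' (hActk s' hs1')) (q0 * t)
          (Nat.mul_pos hq0 ht) h1
        have h3 : lam i ^ q0 = lam i' ^ q0 := by
          have e1 := (hκ1 i hi).2
          have e2 := (hκ1 i' hi').2
          rw [hie] at e1
          rw [hie'] at e2
          rw [← e1, ← e2, h2]
        apply hne
        rw [← hie, ← hie']
        exact hκ2 i hi i' hi' h3) R hR0.le ⟨s0, hs0T, by
          show R < ‖lam s0 ^ q0‖
          rw [norm_pow]
          exact hRρ⟩
      -- the lower part
      set A : ℝ := ∑ i ∈ W, ‖c i 0‖ * ‖lam i‖ ^ r with hA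
      have hA0 : 0 ≤ A := Finset.sum_nonneg fun _ _ => by positivity
      have hlow : ∀ t, ‖∑ i ∈ W, c i 0 * lam i ^ (r + q0 * t)‖ ≤ A * μ ^ t := by
        intro t
        refine (norm_sum_le _ _).trans ?_
        rw [hA, Finset.sum_mul]
        refine Finset.sum_le_sum fun i hi => ?_
        rw [norm_mul, norm_pow, pow_add, pow_mul, ← mul_assoc]
        refine mul_le_mul_of_nonneg_left ?_ (by positivity)
        exact pow_le_pow_left₀ (by positivity) (hWμ i hi) t
      have hlim : Tendsto (fun t : ℕ => A * (μ / R) ^ t) atTop (𝓝 (A * 0)) := by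
        refine Tendsto.const_mul A (tendsto_pow_atTop_nhds_zero_of_lt_one (by positivity) ?_)
        rw [div_lt_one hR0]
        exact hRμ
      rw [mul_zero] at hlim
      obtain ⟨N2, hN2⟩ := Filter.eventually_atTop.1 (hlim.eventually (gt_mem_nhds zero_lt_one))
      obtain ⟨t, ht, hneg⟩ := hr (N1 + N2 + k)
      have h1 : ‖∑ i ∈ W, c i 0 * lam i ^ (r + q0 * t)‖ < R ^ t := by
        refine lt_of_le_of_lt (hlow t) ?_
        have h2 := hN2 t (by omega)
        rw [div_pow, ← mul_div_assoc, div_lt_one (by positivity)] at h2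
        exact h2
      have hkt : k ≤ r + q0 * t := by
        have : t ≤ q0 * t := Nat.le_mul_of_pos_left t hq0
        omega
      have h3 := hN1 t (by omega)
      have h4 : ((seq l (r + q0 * t) : ℚ) : ℂ) = ∑ s ∈ T, SS s r * (lam s ^ q0) ^ t := by
        rw [hval2 t hkt, hT, Finset.sum_filter]
        refine Finset.sum_congr rfl fun s _ => ?_
        split_ifs with h
        · rfl
        · rw [not_not] at h
          rw [h, zero_mul]
      rw [← h4] at h3
      -- decomposition
      have h5 : ∑ i ∈ Act, c i 0 * lam i ^ (r + q0 * t) =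
          ∑ i ∈ Act.filter (fun i => ρ < ‖lam i‖), c i 0 * lam i ^ (r + q0 * t) +
          (∑ i ∈ Act.filter (fun i => ‖lam i‖ = ρ), c i 0 * lam i ^ (r + q0 * t) +
          ∑ i ∈ W, c i 0 * lam i ^ (r + q0 * t)) := by
        rw [hW, Finset.sum_filter, Finset.sum_filter, Finset.sum_filter, ← Finset.sum_add_distrib,
          ← Finset.sum_add_distrib]
        refine Finset.sum_congr rfl fun i _ => ?_
        rcases lt_trichotomy (‖lam i‖) ρ with h | h | h
        · rw [if_neg (not_lt.2 h.le), if_neg h.ne, if_pos h]; ring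
        · rw [if_neg (not_lt.2 h.le), if_pos h, if_neg (not_lt.2 h.ge)]; ring
        · rw [if_pos h, if_neg h.ne', if_neg (not_lt.2 h.le)]; ring
      rw [hbig2 t, zero_add, ← hval _ hkt] at h5
      have h6 := congrArg Complex.re h5
      rw [Complex.add_re] at h6
      have h7 : ((seq l (r + q0 * t) : ℚ) : ℂ).re = ((seq l (r + q0 * t) : ℚ) : ℝ) := by
        rw [← Complex.ofReal_ratCast, Complex.ofReal_re]
      have h8 : ‖((seq l (r + q0 * t) : ℚ) : ℂ)‖ = |((seq l (r + q0 * t) : ℚ) : ℝ)| := by
        rw [← Complex.ofReal_ratCast, Complex.norm_real, Real.norm_eq_abs]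
      have h9 : ((seq l (r + q0 * t) : ℚ) : ℝ) ≤ 0 := by exact_mod_cast hneg
      rw [h8, abs_of_nonpos h9] at h3
      rw [h7] at h6
      have h10 := htop t
      have h11 : -(∑ i ∈ W, c i 0 * lam i ^ (r + q0 * t)).re ≤
          ‖∑ i ∈ W, c i 0 * lam i ^ (r + q0 * t)‖ :=
        (neg_le_abs _).trans (Complex.abs_re_le_norm _)
      linarith
    obtain ⟨t, ht⟩ := hexp
    refine ⟨{ lam := lam, c := c, ρ := ρ, J := 0, m := r + q0 * t, q := q0, P := fun _ => 0,
              a := fun _ _ => 0, b := fun _ _ => 0, ζ := 1, ξ := fun _ => 1, x := fun _ => 1,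
              h := fun _ _ => 1, fl := fl, κ := κ }, rfl, rfl, rfl, ?_, hk, Or.inr ?_⟩
    · refine ⟨hρ0.le, hq0, ?_, hκk, ?_, ?_⟩
      · intro i hi
        show fl i = 0 ∨ (fl i = 1 ∧ ‖lam i‖ = ρ ∧ IsRoot l (lam i)) ∨ (fl i = 2 ∧ ‖lam i‖ < ρ)
        rcases lt_trichotomy (‖lam i‖) ρ with h | h | h
        · exact Or.inr (Or.inr ⟨(hfl2 i).2 h, h⟩)
        · by_cases hiA : i ∈ Act
          · exact Or.inr (Or.inl ⟨(hfl1 i).2 ⟨h, hiA⟩, h, hActroot i hiA⟩)
          · exact Or.inl ((hfl0 i).2 (Or.inr ⟨h, hiA⟩))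
        · exact Or.inl ((hfl0 i).2 (Or.inl h))
      · intro s hs j hj
        show ∑ i ∈ ((Finset.range k).filter fun i => fl i = 0).filter (fun i => κ i = s),
          c i j * lam i ^ (r + q0 * t) = 0
        rcases Nat.eq_zero_or_pos j with hj0 | hj0
        · subst hj0
          rw [← hbig t s]
          symm
          refine Finset.sum_subset ?_ ?_
          · intro i hi
            obtain ⟨hi1, hi2⟩ := Finset.mem_filter.1 hi
            obtain ⟨hi3, hi4⟩ := Finset.mem_filter.1 hi1
            exact Finset.mem_filter.2 ⟨Finset.mem_filter.2 ⟨Finset.mem_range.2 (hActk i hi3),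
              (hfl0 i).2 (Or.inl hi4)⟩, hi2⟩
          · intro i hi hn
            obtain ⟨hi1, hi2⟩ := Finset.mem_filter.1 hi
            obtain ⟨hi3, hi4⟩ := Finset.mem_filter.1 hi1
            have hik : i < k := Finset.mem_range.1 hi3
            have : i ∉ Act := by
              intro h
              rcases (hfl0 i).1 hi4 with h5 | h5
              · exact hn (Finset.mem_filter.2 ⟨Finset.mem_filter.2 ⟨h, h5⟩, hi2⟩)
              · exact h5.2 h
            rw [hActn i hik this, zero_mul]
        · refine Finset.sum_eq_zero fun i hi => ?_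
          have hik : i < k := Finset.mem_range.1 (Finset.mem_filter.1 (Finset.mem_filter.1 hi).1).1
          rw [hsimple i hik j hj hj0, zero_mul]
      · intro s hs j hj hj0
        refine Finset.sum_eq_zero fun i hi => ?_
        have hik : i < k := Finset.mem_range.1 (Finset.mem_filter.1 (Finset.mem_filter.1 hi).1).1
        show c i j * lam i ^ (r + q0 * t) = 0
        rw [hsimple i hik j hj hj0, zero_mul]
    · show (∑ i ∈ (Finset.range k).filter (fun i => fl i = 1),
        c i 0 * (lam i / (ρ : ℂ)) ^ (r + q0 * t)).re < 0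
      have h1 : (Finset.range k).filter (fun i => fl i = 1) =
          Act.filter (fun i => ‖lam i‖ = ρ) := by
        ext i
        simp only [Finset.mem_filter]
        constructor
        · rintro ⟨_, h2⟩
          exact ⟨((hfl1 i).1 h2).2, ((hfl1 i).1 h2).1⟩
        · rintro ⟨h2, h3⟩
          exact ⟨Finset.mem_range.2 (hActk i h2), (hfl1 i).2 ⟨h3, h2⟩⟩
      rw [h1]
      exact ht

end Pool.Agent.H612.LR
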