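import Pool.Agent.H612.LR.Stm

/-!
# CMP: from the level data to a certificate
-/

namespace Pool.Agent.H612.LR

open Polynomial

theorem cmp_sz (l : Rec) : l.length ≤ sz l := by
  unfold sz szList
  induction l with
  | nil => simp
  | cons a l ih =>
    rw [List.flatMap_cons, List.length_append, List.length_cons, List.length_cons]
    omega

theorem cmp_can (U : Finset ℕ) (s m q q' : ℕ) (κ : ℕ → ℕ) (lam d : ℕ → ℂ) (hs : lam s ≠ 0)
    (hcls : ∀ i ∈ U, lam i ^ q' = lam (κ i) ^ q')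
    (h : ∑ i ∈ U.filter (fun i => κ i = s), d i * lam i ^ m = 0) (hq : q' = q) :
    ∑ i ∈ U.filter (fun i => κ i = s), d i * lam i ^ (m % q) = 0 := by
  subst hq
  have h1 : ∑ i ∈ U.filter (fun i => κ i = s), d i * lam i ^ m =
      (lam s ^ q') ^ (m / q') * ∑ i ∈ U.filter (fun i => κ i = s), d i * lam i ^ (m % q') := by
    rw [Finset.mul_sum]
    refine Finset.sum_congr rfl fun i hi => ?_
    rw [Finset.mem_filter] at hi
    have h2 : lam i ^ m = (lam i ^ q') ^ (m / q') * lam i ^ (m % q') := by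
      rw [← pow_mul, ← pow_add, Nat.div_add_mod]
    rw [h2, hcls i hi.1, hi.2]
    ring
  rw [h1] at h
  rcases mul_eq_zero.mp h with h | h
  · exact absurd h (pow_ne_zero _ (pow_ne_zero _ hs))
  · exact h

theorem cmp_pw (x : ℂ) (a b m : ℕ) : pw (x ^ m) a b = pw x a b ^ m := by
  unfold pw
  rw [map_pow, mul_pow, ← pow_mul, ← pow_mul, ← pow_mul, ← pow_mul, mul_comm m a, mul_comm m b]

theorem cmp_prod {k q N : ℕ} {D : Finset ℕ} {g : ℕ → ℂ} {P : ℕ → ℕ} {a b : ℕ → ℕ → ℕ} {ζ : ℂ}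
    {ξ : ℕ → ℂ} {h : ℕ → ℕ → ℂ} (H : Chain k q N D g P a b ζ ξ h) (i : ℕ) (hi : i ∈ D) :
    g i = ζ ^ P i * ∏ j ∈ Finset.range k, pw (ξ j) (a j i) (b j i) := by
  have h1 : ∀ n ≤ k, h 0 i = (∏ j ∈ Finset.range n, pw (ξ j) (a j i) (b j i)) * h n i := by
    intro n
    induction n with
    | zero => simp
    | succ n ih =>
      intro hn
      rw [ih (by omega), Finset.prod_range_succ, H.step i hi n (by omega)]
      ring
  rw [H.fac i hi, h1 k le_rfl, H.last i hi, mul_one]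

theorem cmp_aux (h1 : S_DEC) (l : Rec) (d : CD) (N : ℕ) (hp : d.Pre l) :
    ∃ (Q : ℕ) (P : ℕ → ℕ) (a b : ℕ → ℕ → ℕ) (ζ : ℂ) (ξ : ℕ → ℂ) (h : ℕ → ℕ → ℂ), 1 ≤ Q ∧
    Q ≤ (d.q * 2 ^ (N + 6)) ^ l.length ∧ (∀ i, P i ≤ Q) ∧
    (∀ j i, a j i ≤ 2 ^ ((N + 2) * l.length) ∧ b j i ≤ 2 ^ ((N + 2) * l.length)) ∧
    (d.ρ = 0 ∨ Chain l.length (Q * d.q) N (d.S l.length 1) (fun i => d.lam i / (d.ρ : ℂ))
      P a b ζ ξ h) := by
  by_cases hρ : d.ρ = 0
  · refine ⟨1, fun _ => 0, fun _ _ => 0, fun _ _ => 0, 1, fun _ => 1, fun _ _ => 1, le_rfl,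
      Nat.one_le_pow _ _ (Nat.mul_pos hp.1.q1 (by positivity)), fun _ => Nat.zero_le _,
      fun _ _ => ⟨Nat.zero_le _, Nat.zero_le _⟩, Or.inl hρ⟩
  · have hρ' : 0 < d.ρ := lt_of_le_of_ne hp.1.rho (Ne.symm hρ)
    obtain ⟨Q, P, a, b, ζ, ξ, h, q1, q2, q3, q4, q5⟩ := h1 l.length N d.q (d.S l.length 1)
      (fun i => d.lam i / (d.ρ : ℂ))
      ((Finset.card_filter_le _ _).trans (by rw [Finset.card_range])) hp.1.q1 (by
        intro i hi
        unfold CD.S at hi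
        rw [Finset.mem_filter, Finset.mem_range] at hi
        rcases hp.1.flag i hi.1 with h | ⟨-, h, -⟩ | ⟨h, -⟩
        · omega
        · rw [norm_div, h, Complex.norm_real, Real.norm_of_nonneg hρ'.le, div_self hρ]
        · omega)
    exact ⟨Q, P, a, b, ζ, ξ, h, q1, q2, q3, q4, Or.inr q5⟩

theorem cmp_exp (A0 C s k : ℕ) (hk : 1 ≤ k) (hs : k ≤ s) :
    (C * s ^ C + A0 * s ^ A0 + 6) * k + C * s ^ C < (2 * C + A0 + 8) * s ^ (2 * C + A0 + 8) := by
  have hs1 : 1 ≤ s := hk.trans hs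
  set A1 := 2 * C + A0 + 8 with hA1
  have e1 : s ^ C * s ≤ s ^ A1 := by
    rw [← pow_succ]; exact Nat.pow_le_pow_right hs1 (by omega)
  have e2 : s ^ A0 * s ≤ s ^ A1 := by
    rw [← pow_succ]; exact Nat.pow_le_pow_right hs1 (by omega)
  have e3 : s ≤ s ^ A1 := by
    calc s = s ^ 1 := (pow_one _).symm
      _ ≤ _ := Nat.pow_le_pow_right hs1 (by omega)
  have e4 : s ^ C ≤ s ^ A1 := Nat.pow_le_pow_right hs1 (by omega)
  have e5 : 1 ≤ s ^ A1 := Nat.one_le_pow _ _ hs1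
  calc (C * s ^ C + A0 * s ^ A0 + 6) * k + C * s ^ C
      ≤ (C * s ^ C + A0 * s ^ A0 + 6) * s + C * s ^ C := by gcongr
    _ = C * (s ^ C * s) + A0 * (s ^ A0 * s) + 6 * s + C * s ^ C := by ring
    _ ≤ C * s ^ A1 + A0 * s ^ A1 + 6 * s ^ A1 + C * s ^ A1 := by gcongr
    _ = (2 * C + A0 + 6) * s ^ A1 := by ring
    _ < A1 * s ^ A1 := by
      apply Nat.mul_lt_mul_of_pos_right _ e5
      omega

theorem t_CMP (h1 : S_DEC) : S_CMP := by
  intro A0 C
  refine ⟨2 * C + A0 + 8, ?_⟩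
  intro l d hl hrep hp hq
  have hk := cmp_sz l
  have hE := cmp_exp A0 C (sz l) l.length hl hk
  set s := sz l with hs
  set k := l.length with hkk
  set N := A0 * s ^ A0 with hN
  obtain ⟨Q, P, a, b, ζ, ξ, h, q1, q2, q3, q4, q5⟩ := cmp_aux h1 l d N hp
  obtain ⟨hlev, hJ, hneg⟩ := hp
  have hq1 := hlev.q1
  have hbase : d.q * 2 ^ (N + 6) ≤ 2 ^ (C * s ^ C + N + 6) := by
    calc d.q * 2 ^ (N + 6) ≤ 2 ^ (C * s ^ C) * 2 ^ (N + 6) := Nat.mul_le_mul_right _ hq
      _ = _ := by rw [← pow_add]; congr 1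
  have hQq : Q * d.q ≤ 2 ^ ((C * s ^ C + N + 6) * k + C * s ^ C) := by
    calc Q * d.q ≤ (2 ^ (C * s ^ C + N + 6)) ^ k * 2 ^ (C * s ^ C) :=
          Nat.mul_le_mul (q2.trans (Nat.pow_le_pow_left hbase k)) hq
      _ = _ := by rw [← pow_mul, ← pow_add]
  have hEE : 2 ^ ((C * s ^ C + N + 6) * k + C * s ^ C) <
      2 ^ ((2 * C + A0 + 8) * s ^ (2 * C + A0 + 8)) := Nat.pow_lt_pow_right (by norm_num) hE
  have hqlt : Q * d.q < 2 ^ ((2 * C + A0 + 8) * s ^ (2 * C + A0 + 8)) := hQq.trans_lt hEE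
  have hQ1 : 1 ≤ Q * d.q := Nat.mul_pos q1 hq1
  have hablt : ∀ n, n ≤ 2 ^ ((N + 2) * k) → n < 2 ^ ((2 * C + A0 + 8) * s ^ (2 * C + A0 + 8)) := by
    intro n hn
    refine lt_of_le_of_lt (hn.trans (Nat.pow_le_pow_right (by norm_num) ?_)) hEE
    have : (N + 2) * k ≤ (C * s ^ C + N + 6) * k := Nat.mul_le_mul_right _ (by omega)
    omega
  obtain ⟨hl0, -, -⟩ := hrep 0
  have hcls : ∀ i < l.length, d.κ i < l.length ∧
      d.lam i ^ (Q * d.q) = d.lam (d.κ i) ^ (Q * d.q) := by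
    intro i hi
    refine ⟨(hlev.cls i hi).1, ?_⟩
    rw [mul_comm, pow_mul, (hlev.cls i hi).2, ← pow_mul]
  refine ⟨CD.mk d.lam d.c d.ρ d.J (d.m % (Q * d.q)) (Q * d.q) P a b ζ ξ (fun j => ξ j ^ d.m) h
    d.fl d.κ, ?_⟩
  refine
    { rep := hrep _
      jlt := hJ
      mlt := (Nat.mod_lt _ hQ1).trans hqlt
      qlt := hqlt
      plt := fun i _ => lt_of_le_of_lt ((q3 i).trans (Nat.le_mul_of_pos_right _ hq1)) hqlt
      alt := fun j _ i _ => hablt _ (q4 j i).1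
      blt := fun j _ i _ => hablt _ (q4 j i).2
      lev :=
        { rho := hlev.rho
          q1 := hQ1
          flag := hlev.flag
          cls := hcls
          can0 := ?_
          can1 := ?_ }
      neg := ?_ }
  · intro s' hs' j hj
    refine cmp_can (d.S l.length 0) s' d.m (Q * d.q) (Q * d.q) d.κ d.lam (fun i => d.c i j)
      (hl0 s' hs') ?_ (hlev.can0 s' hs' j hj) rfl
    intro i hi
    unfold CD.S at hi
    rw [Finset.mem_filter, Finset.mem_range] at hi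
    exact (hcls i hi.1).2
  · intro s' hs' j hj hJj
    refine cmp_can (d.S l.length 1) s' d.m (Q * d.q) (Q * d.q) d.κ d.lam (fun i => d.c i j)
      (hl0 s' hs') ?_ (hlev.can1 s' hs' j hj hJj) rfl
    intro i hi
    unfold CD.S at hi
    rw [Finset.mem_filter, Finset.mem_range] at hi
    exact (hcls i hi.1).2
  · rcases hneg with hρ | hneg
    · exact Or.inl hρ
    · rcases q5 with hρ | hch
      · exact Or.inl hρ
      · right
        refine ⟨hch, ?_, ?_⟩
        · intro j hj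
          refine ⟨?_, fun h => ?_⟩
          · show ‖ξ j ^ d.m‖ = 1
            rw [norm_pow, hch.unit j hj, one_pow]
          · show ξ j ^ d.m = 1
            have h' : ξ j = 1 := h
            rw [h', one_pow]
        · refine lt_of_eq_of_lt ?_ hneg
          congr 1
          refine Finset.sum_congr rfl fun i hi => ?_
          congr 1
          have hi' : i ∈ d.S l.length 1 := hi
          have hg := cmp_prod hch i hi'
          show (ζ ^ (d.m % (Q * d.q))) ^ P i *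
            ∏ j ∈ Finset.range l.length, pw (ξ j ^ d.m) (a j i) (b j i) =
              (d.lam i / (d.ρ : ℂ)) ^ d.m
          have hζ : ζ ^ d.m = ζ ^ (d.m % (Q * d.q)) := by
            conv_lhs => rw [← Nat.div_add_mod d.m (Q * d.q)]
            rw [pow_add, pow_mul, hch.root, one_pow, one_mul]
          have hg' : d.lam i / (d.ρ : ℂ) =
              ζ ^ P i * ∏ j ∈ Finset.range l.length, pw (ξ j) (a j i) (b j i) := hg
          rw [hg', mul_pow, ← Finset.prod_pow, ← hζ]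
          congr 1
          · rw [← pow_mul, ← pow_mul, mul_comm]
          · exact Finset.prod_congr rfl fun j _ => cmp_pw _ _ _ _

end Pool.Agent.H612.LR
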