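import Pool.Agent.H612.LR.Stm

/-! Task CORE (helper423): relations of moderate size are orthogonal to the exponent vectors of a
chain. -/

namespace Pool.Agent.H612.LR

namespace CoreAux

open Finset

theorem pow_sub_one_le {z : ℂ} (hz : ‖z‖ = 1) (n : ℕ) : ‖z ^ n - 1‖ ≤ n * ‖z - 1‖ := by
  induction n with
  | zero => simp
  | succ n ih =>
    have h : z ^ (n + 1) - 1 = z ^ n * (z - 1) + (z ^ n - 1) := by ring
    rw [h]
    refine (norm_add_le _ _).trans ?_
    rw [norm_mul, norm_pow, hz, one_pow, one_mul]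
    push_cast
    linarith

theorem norm_inv_pow_sub {z : ℂ} (hz : ‖z‖ = 1) (n : ℕ) : ‖(z ^ n)⁻¹ - 1‖ = ‖z ^ n - 1‖ := by
  have h0 : z ^ n ≠ 0 := by
    apply pow_ne_zero
    intro h
    rw [h, norm_zero] at hz
    exact zero_ne_one hz
  have h : (z ^ n)⁻¹ - 1 = (z ^ n)⁻¹ * (1 - z ^ n) := by
    field_simp
  rw [h, norm_mul, norm_inv, norm_pow, hz, one_pow, inv_one, one_mul, norm_sub_rev]

theorem zpow_sub_one_le {z : ℂ} (hz : ‖z‖ = 1) (e : ℤ) : ‖z ^ e - 1‖ ≤ (|e| : ℤ) * ‖z - 1‖ := by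
  obtain ⟨n, rfl | rfl⟩ := Int.eq_nat_or_neg e
  · rw [zpow_natCast]
    simpa using pow_sub_one_le hz n
  · rw [zpow_neg, zpow_natCast, norm_inv_pow_sub hz]
    simpa using pow_sub_one_le hz n

theorem mon_unit (D : Finset ℕ) (z : ℕ → ℂ) (e : ℕ → ℤ) (hz : ∀ i ∈ D, ‖z i‖ = 1) :
    ‖mon D z e‖ = 1 := by
  unfold mon
  rw [norm_prod]
  apply Finset.prod_eq_one
  intro i hi
  rw [norm_zpow, hz i hi, one_zpow]

theorem mon_sub_one_le (D : Finset ℕ) (z : ℕ → ℂ) (e : ℕ → ℤ) (hz : ∀ i ∈ D, ‖z i‖ = 1) :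
    ‖mon D z e - 1‖ ≤ ∑ i ∈ D, ((|e i| : ℤ) : ℝ) * ‖z i - 1‖ := by
  classical
  induction D using Finset.induction_on with
  | empty => simp [mon]
  | insert a s ha ih =>
    have hs : ∀ i ∈ s, ‖z i‖ = 1 := fun i hi => hz i (Finset.mem_insert_of_mem hi)
    have h1 := ih hs
    have h2 := mon_unit s z e hs
    have h3 : mon (insert a s) z e = z a ^ e a * mon s z e := by
      unfold mon
      rw [Finset.prod_insert ha]
    rw [h3, Finset.sum_insert ha]
    have h4 : z a ^ e a * mon s z e - 1 = (z a ^ e a - 1) * mon s z e + (mon s z e - 1) := by ring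
    rw [h4]
    refine (norm_add_le _ _).trans ?_
    rw [norm_mul, h2, mul_one]
    exact add_le_add (zpow_sub_one_le (hz a (Finset.mem_insert_self a s)) (e a)) h1

theorem sum_pow_sub {y : ℂ} (hy : ‖y‖ = 1) (n : ℕ) :
    ‖∑ l ∈ Finset.range n, (y ^ l - 1)‖ ≤ (n : ℝ) ^ 2 / 2 * ‖y - 1‖ := by
  refine (norm_sum_le _ _).trans ?_
  refine (Finset.sum_le_sum (fun l _ => pow_sub_one_le hy l)).trans ?_
  rw [← Finset.sum_mul]
  apply mul_le_mul_of_nonneg_right _ (norm_nonneg _)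
  induction n with
  | zero => simp
  | succ n ih =>
    rw [Finset.sum_range_succ]
    push_cast
    nlinarith

theorem sum_pow_eq (y : ℂ) (n : ℕ) :
    ∑ l ∈ Finset.range n, y ^ l = n + ∑ l ∈ Finset.range n, (y ^ l - 1) := by
  rw [Finset.sum_sub_distrib]
  simp

/-- a root of unity near to one -/
theorem root_eq_one {y : ℂ} {q : ℕ} (hq : 1 ≤ q) (hy : y ^ q = 1) (hs : ‖y - 1‖ ≤ 1 / (8 * q)) :
    y = 1 := by
  by_contra hne
  have hq0 : (0 : ℝ) < q := by exact_mod_cast hq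
  have hy1 : ‖y‖ = 1 := by
    have h := congrArg norm hy
    rw [norm_pow, norm_one] at h
    exact (pow_eq_one_iff_of_nonneg (norm_nonneg y) (by omega)).1 h
  have h1 : (∑ l ∈ Finset.range q, y ^ l) * (y - 1) = 0 := by
    rw [geom_sum_mul, hy, sub_self]
  have h2 : ∑ l ∈ Finset.range q, y ^ l = 0 := by
    rcases mul_eq_zero.1 h1 with h | h
    · exact h
    · exact absurd (sub_eq_zero.1 h) hne
  have h3 : (q : ℂ) = -∑ l ∈ Finset.range q, (y ^ l - 1) := by
    have := sum_pow_eq y q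
    rw [h2] at this
    linear_combination -this
  have h4 := sum_pow_sub hy1 q
  have h5 : (q : ℝ) ≤ (q : ℝ) ^ 2 / 2 * ‖y - 1‖ := by
    have := congrArg norm h3
    rw [norm_neg, Complex.norm_natCast] at this
    exact this.le.trans h4
  have h6 : (q : ℝ) ^ 2 / 2 * ‖y - 1‖ ≤ (q : ℝ) ^ 2 / 2 * (1 / (8 * q)) :=
    mul_le_mul_of_nonneg_left hs (by positivity)
  have h7 : (q : ℝ) ^ 2 / 2 * (1 / (8 * q)) = q / 16 := by
    field_simp
    ring
  rw [h7] at h6
  linarith

theorem zpow_lower {x : ℂ} (hx : ‖x‖ = 1) (A : ℤ) (hA : ((|A| : ℤ) : ℝ) * ‖x - 1‖ ≤ 1 / 8) :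
    15 / 16 * ((|A| : ℤ) : ℝ) * ‖x - 1‖ ≤ ‖x ^ A - 1‖ := by
  have key : ∀ n : ℕ, (n : ℝ) * ‖x - 1‖ ≤ 1 / 8 → 15 / 16 * (n : ℝ) * ‖x - 1‖ ≤ ‖x ^ n - 1‖ := by
    intro n hn
    have h1 : x ^ n - 1 = (∑ l ∈ Finset.range n, x ^ l) * (x - 1) := (geom_sum_mul x n).symm
    rw [h1, norm_mul]
    apply mul_le_mul_of_nonneg_right _ (norm_nonneg _)
    rw [sum_pow_eq]
    have h2 := sum_pow_sub hx n
    have h3 : ‖(n : ℂ)‖ - ‖∑ l ∈ Finset.range n, (x ^ l - 1)‖ ≤
        ‖(n : ℂ) + ∑ l ∈ Finset.range n, (x ^ l - 1)‖ := by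
      have := norm_sub_norm_le (n : ℂ) (-∑ l ∈ Finset.range n, (x ^ l - 1))
      rwa [norm_neg, sub_neg_eq_add] at this
    rw [Complex.norm_natCast] at h3
    have h4 : (n : ℝ) ^ 2 / 2 * ‖x - 1‖ ≤ n / 16 := by
      have hn0 : (0 : ℝ) ≤ n := Nat.cast_nonneg n
      calc (n : ℝ) ^ 2 / 2 * ‖x - 1‖ = n / 2 * (n * ‖x - 1‖) := by ring
        _ ≤ n / 2 * (1 / 8) := mul_le_mul_of_nonneg_left hn (by positivity)
        _ = n / 16 := by ring
    linarith
  obtain ⟨n, rfl | rfl⟩ := Int.eq_nat_or_neg A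
  · rw [zpow_natCast]
    have := key n (by simpa using hA)
    simpa using this
  · rw [zpow_neg, zpow_natCast, norm_inv_pow_sub hx]
    have := key n (by simpa using hA)
    simpa using this

theorem pw_eq {x : ℂ} (hx : ‖x‖ = 1) (a b : ℕ) : pw x a b = x ^ ((a : ℤ) - (b : ℤ)) := by
  have h0 : x ≠ 0 := by
    intro h
    rw [h, norm_zero] at hx
    exact zero_ne_one hx
  unfold pw
  rw [← Complex.inv_eq_conj hx, zpow_sub₀ h0, zpow_natCast, zpow_natCast, inv_pow, div_eq_mul_inv]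

theorem mon_mul_pow (D : Finset ℕ) (x : ℂ) (hx : x ≠ 0) (s : ℕ → ℤ) (z y : ℕ → ℂ) (e : ℕ → ℤ)
    (h : ∀ i ∈ D, z i = x ^ s i * y i) :
    mon D z e = x ^ (∑ i ∈ D, e i * s i) * mon D y e := by
  classical
  unfold mon
  induction D using Finset.induction_on with
  | empty => simp
  | insert a t ha ih =>
    rw [Finset.prod_insert ha, Finset.prod_insert ha, Finset.sum_insert ha,
      ih (fun i hi => h i (Finset.mem_insert_of_mem hi)), h a (Finset.mem_insert_self a t),
      zpow_add₀ hx, mul_zpow, ← zpow_mul, mul_comm (e a) (s a)]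
    ring

end CoreAux

open CoreAux in
theorem t_CORE : S_CORE := by
  intro k q N D g P a b ζ ξ h hq hC e he hE
  set E : ℝ := ∑ i ∈ D, ((|e i| : ℤ) : ℝ) with hEdef
  have hE' : 8 * E ≤ 2 ^ N := by
    have : ((8 * ∑ i ∈ D, |e i| : ℤ) : ℝ) ≤ ((2 ^ N : ℤ) : ℝ) := by exact_mod_cast hE
    push_cast at this
    rw [hEdef]
    push_cast
    exact this
  have hE0 : 0 ≤ E := Finset.sum_nonneg fun i _ => by positivity
  have hN : (0 : ℝ) < 2 ^ N := by positivity
  have hq0 : (0 : ℝ) < q := by exact_mod_cast hq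
  have hζ : ‖ζ‖ = 1 := by
    have h1 := congrArg norm hC.root
    rw [norm_pow, norm_one] at h1
    exact (pow_eq_one_iff_of_nonneg (norm_nonneg ζ) (by omega)).1 h1
  have hζ0 : ζ ≠ 0 := by
    intro h0
    rw [h0, norm_zero] at hζ
    exact zero_ne_one hζ
  have hξ0 : ∀ j < k, ξ j ≠ 0 := by
    intro j hj h0
    have := hC.unit j hj
    rw [h0, norm_zero] at this
    exact zero_ne_one this
  -- unimodularity of the `h j i`
  have hu : ∀ m ≤ k, ∀ i ∈ D, ‖h (k - m) i‖ = 1 := by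
    intro m
    induction m with
    | zero =>
      intro _ i hi
      rw [Nat.sub_zero, hC.last i hi, norm_one]
    | succ m ih =>
      intro hm i hi
      have h1 := ih (by omega) i hi
      have h2 := hC.step i hi (k - (m + 1)) (by omega)
      have h3 : k - (m + 1) + 1 = k - m := by omega
      rw [h3] at h2
      rw [h2, norm_mul, h1, mul_one, pw_eq (hC.unit _ (by omega)), norm_zpow,
        hC.unit _ (by omega), one_zpow]
  have hunit : ∀ j ≤ k, ∀ i ∈ D, ‖h j i‖ = 1 := by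
    intro j hj i hi
    have := hu (k - j) (by omega) i hi
    rwa [show k - (k - j) = j by omega] at this
  -- step one
  have hY : mon D (h 0) e = 1 := by
    have h1 : mon D g e = ζ ^ (∑ i ∈ D, e i * (P i : ℤ)) * mon D (h 0) e :=
      mon_mul_pow D ζ hζ0 (fun i => (P i : ℤ)) g (h 0) e
        (fun i hi => by rw [hC.fac i hi, zpow_natCast])
    rw [he] at h1
    apply root_eq_one hq
    · have h2 : (ζ ^ (∑ i ∈ D, e i * (P i : ℤ))) ^ q = 1 := by
        rw [← zpow_natCast, ← zpow_mul, mul_comm, zpow_mul, zpow_natCast, hC.root, one_zpow]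
      have h3 := congrArg (fun w => w ^ q) h1
      simp only [one_pow, mul_pow, h2, one_mul] at h3
      exact h3.symm
    · refine (mon_sub_one_le D (h 0) e (hunit 0 (Nat.zero_le _))).trans ?_
      have h4 : ∀ i ∈ D, ((|e i| : ℤ) : ℝ) * ‖h 0 i - 1‖ ≤ ((|e i| : ℤ) : ℝ) * (1 / (q * 2 ^ N)) := by
        intro i hi
        apply mul_le_mul_of_nonneg_left _ (by positivity)
        rw [le_div_iff₀ (by positivity)]
        have := hC.small0 i hi
        nlinarith [this]
      refine (Finset.sum_le_sum h4).trans ?_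
      rw [← Finset.sum_mul, ← hEdef]
      rw [mul_one_div, div_le_div_iff₀ (by positivity) (by positivity)]
      nlinarith
  -- induction
  have hstep : ∀ j < k, mon D (h j) e = 1 → mon D (h (j + 1)) e = 1 ∧
      (ξ j ≠ 1 → ∑ i ∈ D, e i * ((a j i : ℤ) - (b j i : ℤ)) = 0) := by
    intro j hj h1
    have hx := hC.unit j hj
    set A : ℤ := ∑ i ∈ D, e i * ((a j i : ℤ) - (b j i : ℤ)) with hA
    have h2 : mon D (h j) e = ξ j ^ A * mon D (h (j + 1)) e :=
      mon_mul_pow D (ξ j) (hξ0 j hj) (fun i => (a j i : ℤ) - (b j i : ℤ)) (h j) (h (j + 1)) e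
        (fun i hi => by rw [hC.step i hi j hj, pw_eq hx])
    rw [h1] at h2
    by_cases hx1 : ξ j = 1
    · rw [hx1, one_zpow, one_mul] at h2
      exact ⟨h2.symm, fun hne => absurd hx1 hne⟩
    have hpos : 0 < ‖ξ j - 1‖ := norm_pos_iff.2 (sub_ne_zero.2 hx1)
    have hA0 : A = 0 := by
      by_contra hAne
      have h3 : ‖ξ j ^ A - 1‖ = ‖mon D (h (j + 1)) e - 1‖ := by
        have h4 : ξ j ^ A - 1 = ξ j ^ A * (1 - mon D (h (j + 1)) e) := by
          rw [mul_sub, mul_one, ← h2]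
        rw [h4, norm_mul, norm_zpow, hx, one_zpow, one_mul, norm_sub_rev]
      have h5 : ‖mon D (h (j + 1)) e - 1‖ ≤ E * (‖ξ j - 1‖ / 2 ^ N) := by
        refine (mon_sub_one_le D (h (j + 1)) e (hunit (j + 1) (by omega))).trans ?_
        rw [hEdef, Finset.sum_mul]
        apply Finset.sum_le_sum
        intro i hi
        apply mul_le_mul_of_nonneg_left _ (by positivity)
        rw [le_div_iff₀ hN]
        have := hC.small2 i hi j hj
        linarith
      have h6 : E * (‖ξ j - 1‖ / 2 ^ N) ≤ ‖ξ j - 1‖ / 8 := by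
        rw [mul_div_assoc', div_le_div_iff₀ hN (by norm_num)]
        nlinarith
      have h7 : ((|A| : ℤ) : ℝ) * ‖ξ j - 1‖ ≤ 1 / 8 := by
        have h8 : ((|A| : ℤ) : ℝ) ≤ ∑ i ∈ D, ((|e i| : ℤ) : ℝ) * ((a j i + b j i + 1 : ℕ) : ℝ) := by
          have h9 : |A| ≤ ∑ i ∈ D, |e i| * ((a j i + b j i + 1 : ℕ) : ℤ) := by
            rw [hA]
            refine (Finset.abs_sum_le_sum_abs _ _).trans (Finset.sum_le_sum fun i _ => ?_)
            rw [abs_mul]
            apply mul_le_mul_of_nonneg_left _ (abs_nonneg _)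
            rw [abs_le]
            push_cast
            constructor <;> omega
          have h10 : ((|A| : ℤ) : ℝ) ≤ ((∑ i ∈ D, |e i| * ((a j i + b j i + 1 : ℕ) : ℤ) : ℤ) : ℝ) := by
            exact_mod_cast h9
          refine h10.trans (le_of_eq ?_)
          push_cast
          rfl
        have h11 : (∑ i ∈ D, ((|e i| : ℤ) : ℝ) * ((a j i + b j i + 1 : ℕ) : ℝ)) * ‖ξ j - 1‖ ≤
            E * (1 / 2 ^ N) := by
          rw [Finset.sum_mul, hEdef, Finset.sum_mul]
          apply Finset.sum_le_sum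
          intro i hi
          rw [mul_assoc]
          apply mul_le_mul_of_nonneg_left _ (by positivity)
          rw [le_div_iff₀ hN]
          have := hC.small1 i hi j hj
          linarith
        have h12 : E * (1 / 2 ^ N) ≤ 1 / 8 := by
          rw [mul_one_div, div_le_div_iff₀ hN (by norm_num)]
          linarith
        exact ((mul_le_mul_of_nonneg_right h8 hpos.le).trans h11).trans h12
      have h13 := zpow_lower hx A h7
      have h14 : (1 : ℝ) ≤ ((|A| : ℤ) : ℝ) := by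
        exact_mod_cast Int.one_le_abs hAne
      have h15 : 15 / 16 * ‖ξ j - 1‖ ≤ 15 / 16 * ((|A| : ℤ) : ℝ) * ‖ξ j - 1‖ := by
        apply mul_le_mul_of_nonneg_right _ hpos.le
        linarith
      linarith
    rw [hA0, zpow_zero, one_mul] at h2
    exact ⟨h2.symm, fun _ => hA0⟩
  have hall : ∀ j ≤ k, mon D (h j) e = 1 := by
    intro j
    induction j with
    | zero => intro _; exact hY
    | succ j ih => intro hj; exact (hstep j (by omega) (ih (by omega))).1
  intro j hj hne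
  exact (hstep j hj (hall j hj.le)).2 hne

end Pool.Agent.H612.LR
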