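import Pool.Agent.H612.LR.Stm

/-!
# DEC: existence of chains
-/

namespace Pool.Agent.H612.LR

/-- the hierarchical Dirichlet step, iterated -/
lemma dec_hier (h1 : S_DIR) (X1 : ℕ) (hX : 2 ≤ X1) (D : Finset ℕ) : ∀ (n : ℕ) (η : ℕ → ℝ) (B : ℝ),
    0 ≤ B → (∀ i ∈ D, |η i| ≤ B) → (D.filter (fun i => η i ≠ 0)).card ≤ n →
    ∃ (τ : ℕ → ℝ) (p : ℕ → ℕ → ℤ) (e : ℕ → ℕ → ℝ), (∀ i, e 0 i = η i) ∧ (∀ i ∈ D, e n i = 0) ∧
      (∀ j i, |p j i| ≤ (X1 : ℤ) ^ n) ∧ ∀ i ∈ D, ∀ j < n, e j i = τ j * p j i + e (j + 1) i ∧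
        0 ≤ τ j ∧ (|(p j i : ℝ)| + 1) * τ j ≤ 3 * B ∧ |e (j + 1) i| * X1 ≤ τ j := by
  have hX' : (2 : ℝ) ≤ X1 := by exact_mod_cast hX
  have hXZ : (2 : ℤ) ≤ X1 := by exact_mod_cast hX
  intro n
  induction n with
  | zero =>
    intro η B hB hη hc
    refine ⟨fun _ => 0, fun _ _ => 0, fun _ i => η i, fun _ => rfl, ?_, ?_, ?_⟩
    · intro i hi
      by_contra h
      have : i ∈ D.filter (fun i => η i ≠ 0) := Finset.mem_filter.mpr ⟨hi, h⟩
      rw [Finset.card_eq_zero.mp (Nat.le_zero.mp hc)] at this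
      exact absurd this (Finset.notMem_empty _)
    · intro j i; simp
    · intro i _ j hj; omega
  | succ n ih =>
    intro η B hB hη hc
    by_cases hall : ∀ i ∈ D, η i = 0
    · refine ⟨fun _ => 0, fun _ _ => 0, fun _ i => η i, fun _ => rfl, ?_, ?_, ?_⟩
      · intro i hi; exact hall i hi
      · intro j i
        simp only [abs_zero]
        positivity
      · intro i hi j _
        refine ⟨by simp, le_refl _, by simp; linarith, ?_⟩
        show |η i| * X1 ≤ 0
        rw [hall i hi]; simp
    · push Not at hall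
      obtain ⟨i1, hi1D, hi1⟩ := hall
      set E := D.filter (fun i => η i ≠ 0) with hE
      have hEne : E.Nonempty := ⟨i1, Finset.mem_filter.mpr ⟨hi1D, hi1⟩⟩
      obtain ⟨i0, hi0E, hmax⟩ := Finset.exists_max_image E (fun i => |η i|) hEne
      have hi0D : i0 ∈ D := (Finset.mem_filter.mp hi0E).1
      have hi0 : η i0 ≠ 0 := (Finset.mem_filter.mp hi0E).2
      set M := |η i0| with hM
      have hM0 : 0 < M := abs_pos.mpr hi0
      have hMB : M ≤ B := hη i0 hi0D
      obtain ⟨t, m, ht1, htX, hm⟩ := h1 E X1 (fun i => η i / M) (by omega)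
      have ht1' : (1 : ℝ) ≤ t := by exact_mod_cast ht1
      have ht0 : (0 : ℝ) < t := by linarith
      classical
      set p0 : ℕ → ℤ := fun i => if i ∈ E then m i else 0 with hp0
      set τ0 : ℝ := M / t with hτ0
      have hτpos : 0 < τ0 := by positivity
      have hτM : τ0 ≤ M := div_le_self hM0.le ht1'
      set η' : ℕ → ℝ := fun i => η i - τ0 * p0 i with hη'
      have hE0 : ∀ i ∈ D, i ∉ E → η i = 0 := by
        intro i hi hiE
        by_contra h
        exact hiE (Finset.mem_filter.mpr ⟨hi, h⟩)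
      have hp0E : ∀ i, i ∉ E → p0 i = 0 := by
        intro i hi; simp only [hp0]; rw [if_neg hi]
      have hp0E' : ∀ i ∈ E, p0 i = m i := by
        intro i hi; simp only [hp0]; rw [if_pos hi]
      -- the remainder
      have hrem : ∀ i ∈ D, |η' i| * X1 ≤ τ0 := by
        intro i hi
        by_cases hiE : i ∈ E
        · have h2 := hm i hiE
          have h3 : η' i = τ0 * ((t : ℝ) * (η i / M) - m i) := by
            simp only [hη', hτ0]
            rw [hp0E' i hiE]
            field_simp
          rw [h3, abs_mul, abs_of_pos hτpos, mul_assoc]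
          calc τ0 * (|(t : ℝ) * (η i / M) - m i| * X1) ≤ τ0 * 1 :=
                mul_le_mul_of_nonneg_left h2 hτpos.le
            _ = τ0 := mul_one _
        · simp only [hη']
          rw [hp0E i hiE, hE0 i hi hiE]
          simp only [Int.cast_zero, mul_zero, sub_zero, abs_zero, zero_mul]
          exact hτpos.le
      have hlt1 : ∀ i ∈ E, |(t : ℝ) * (η i / M) - m i| < 1 := by
        intro i hi
        have h2 := hm i hi
        by_contra h3
        push Not at h3
        nlinarith
      have hmt : ∀ i ∈ E, |m i| ≤ (t : ℤ) := by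
        intro i hi
        have h2 := hlt1 i hi
        have h3 : |(t : ℝ) * (η i / M)| ≤ t := by
          rw [abs_mul, abs_of_pos ht0, abs_div, abs_of_pos hM0]
          have : |η i| / M ≤ 1 := by
            rw [div_le_one hM0]; exact hmax i hi
          nlinarith
        have h4 : |(m i : ℝ)| < t + 1 := by
          have h5 : (m i : ℝ) = (t : ℝ) * (η i / M) - ((t : ℝ) * (η i / M) - m i) := by ring
          rw [h5]
          refine lt_of_le_of_lt (abs_sub _ _) ?_
          linarith
        have h6 : |m i| < (t : ℤ) + 1 := by exact_mod_cast h4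
        omega
      have hi0' : η' i0 = 0 := by
        have h2 := hlt1 i0 hi0E
        simp only [hη']
        rw [hp0E' i0 hi0E]
        have h3 : (t : ℝ) * (η i0 / M) = ((if 0 < η i0 then (t : ℤ) else -(t : ℤ) : ℤ) : ℝ) := by
          split_ifs with h
          · have h4 : M = η i0 := by rw [hM, abs_of_pos h]
            rw [h4, div_self hi0, mul_one]; simp
          · have h4 : M = - η i0 := by
              rw [hM, abs_of_neg (lt_of_le_of_ne (not_lt.mp h) hi0)]
            rw [h4, div_neg, div_self hi0]; push_cast; ring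
        rw [h3] at h2
        have h5 : |(if 0 < η i0 then (t : ℤ) else -(t : ℤ)) - m i0| < 1 := by exact_mod_cast h2
        have h6 : m i0 = (if 0 < η i0 then (t : ℤ) else -(t : ℤ)) := by
          have := Int.abs_lt_one_iff.mp h5
          omega
        rw [h6, ← h3, hτ0]
        field_simp
        ring
      have hsupp : (D.filter (fun i => η' i ≠ 0)).card ≤ n := by
        have hsub : D.filter (fun i => η' i ≠ 0) ⊆ E.erase i0 := by
          intro i hi
          rw [Finset.mem_filter] at hi
          rw [Finset.mem_erase]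
          refine ⟨?_, ?_⟩
          · rintro rfl; exact hi.2 hi0'
          · by_contra hiE
            apply hi.2
            simp only [hη']
            rw [hp0E i hiE, hE0 i hi.1 hiE]; simp
        have h2 := Finset.card_le_card hsub
        rw [Finset.card_erase_of_mem hi0E] at h2
        omega
      have hτX : τ0 / X1 ≤ B := by
        have : τ0 / X1 ≤ τ0 := div_le_self hτpos.le (by linarith)
        linarith
      have hrem' : ∀ i ∈ D, |η' i| ≤ τ0 / X1 := by
        intro i hi
        rw [le_div_iff₀ (by linarith)]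
        exact hrem i hi
      obtain ⟨τ, p, e, he0, hen, hp, hst⟩ := ih η' (τ0 / X1) (by positivity) hrem' hsupp
      refine ⟨fun j => Nat.casesOn j τ0 τ, fun j => Nat.casesOn j p0 p,
        fun j => Nat.casesOn j η e, fun _ => rfl, hen, ?_, ?_⟩
      · intro j i
        cases j with
        | zero =>
          show |p0 i| ≤ _
          by_cases hiE : i ∈ E
          · rw [hp0E' i hiE]
            refine (hmt i hiE).trans ?_
            have h2 : t ≤ X1 ^ (n + 1) := htX.trans (Nat.pow_le_pow_right (by omega) hc)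
            exact_mod_cast h2
          · rw [hp0E i hiE, abs_zero]; positivity
        | succ j =>
          show |p j i| ≤ _
          refine (hp j i).trans ?_
          exact pow_le_pow_right₀ (by linarith) (Nat.le_succ n)
      · intro i hi j hj
        cases j with
        | zero =>
          show η i = τ0 * p0 i + e 0 i ∧ 0 ≤ τ0 ∧ (|(p0 i : ℝ)| + 1) * τ0 ≤ 3 * B ∧
            |e 0 i| * X1 ≤ τ0
          rw [he0 i]
          refine ⟨by simp only [hη']; ring, hτpos.le, ?_, hrem i hi⟩
          have h2 : |(p0 i : ℝ)| * τ0 = |η i - η' i| := by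
            have : η i - η' i = τ0 * p0 i := by simp only [hη']; ring
            rw [this, abs_mul, abs_of_pos hτpos, mul_comm]
          have h3 : |η i - η' i| ≤ B + B := by
            refine (abs_sub _ _).trans ?_
            have := hη i hi
            have := hrem' i hi
            linarith
          nlinarith
        | succ j =>
          show e j i = τ j * p j i + e (j + 1) i ∧ 0 ≤ τ j ∧ (|(p j i : ℝ)| + 1) * τ j ≤ 3 * B ∧
            |e (j + 1) i| * X1 ≤ τ j
          obtain ⟨h2, h3, h4, h5⟩ := hst i hi j (by omega)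
          refine ⟨h2, h3, ?_, h5⟩
          linarith

lemma dec_pw (t : ℝ) (p : ℤ) : pw (Complex.exp (Complex.I * t)) p.toNat (-p).toNat =
    Complex.exp (Complex.I * ((t * p : ℝ) : ℂ)) := by
  unfold pw
  rw [← Complex.exp_conj, map_mul, Complex.conj_I, Complex.conj_ofReal, ← Complex.exp_nat_mul,
    ← Complex.exp_nat_mul, ← Complex.exp_add]
  congr 1
  have h : ((p.toNat : ℤ) : ℂ) - (((-p).toNat : ℤ) : ℂ) = p := by
    rw [← Int.cast_sub]; congr 1; omega
  have h2 : (p.toNat : ℂ) - ((-p).toNat : ℂ) = p := by exact_mod_cast h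
  push_cast
  linear_combination (Complex.I * t) * h2

theorem t_DEC (h1 : S_DIR) : S_DEC := by
  intro k N q0 D g hD hq0 hg
  have hq0' : (1 : ℝ) ≤ q0 := by exact_mod_cast hq0
  have h2N : (0 : ℝ) < 2 ^ N := by positivity
  have hpi := Real.pi_gt_three
  have hpi4 := Real.pi_lt_four
  have hpi0 := Real.pi_pos
  set X : ℕ := q0 * 2 ^ (N + 6) with hX
  have hX1 : 1 ≤ X := Nat.one_le_iff_ne_zero.mpr (by positivity)
  have hXr : (X : ℝ) = q0 * (2 ^ N * 64) := by
    rw [hX]; push_cast; rw [pow_add]; norm_num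
  obtain ⟨Q, m, hQ1, hQX, hm⟩ := h1 D X (fun i => (g i).arg / (2 * Real.pi)) hX1
  have hQ1' : (1 : ℝ) ≤ Q := by exact_mod_cast hQ1
  have hQ0 : (0 : ℝ) < Q := by linarith
  have hXpos : (0 : ℝ) < X := by exact_mod_cast hX1
  set η : ℕ → ℝ := fun i => if i ∈ D then (g i).arg - 2 * Real.pi * m i / Q else 0 with hη
  have hηD : ∀ i ∈ D, η i = (g i).arg - 2 * Real.pi * m i / Q := by
    intro i hi; simp only [hη]; rw [if_pos hi]
  set B : ℝ := 2 * Real.pi / (Q * X) with hB
  have hB0 : 0 ≤ B := by positivity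
  have hηB : ∀ i ∈ D, |η i| ≤ B := by
    intro i hi
    have h2 := hm i hi
    rw [hηD i hi]
    have h3 : (g i).arg - 2 * Real.pi * m i / Q =
        2 * Real.pi / Q * ((Q : ℝ) * ((g i).arg / (2 * Real.pi)) - m i) := by
      field_simp
    rw [h3, abs_mul, abs_of_pos (show (0 : ℝ) < 2 * Real.pi / Q by positivity), hB]
    have h4 : |(Q : ℝ) * ((g i).arg / (2 * Real.pi)) - m i| ≤ 1 / X := by
      rw [le_div_iff₀ hXpos]; exact h2
    calc 2 * Real.pi / Q * |(Q : ℝ) * ((g i).arg / (2 * Real.pi)) - m i|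
        ≤ 2 * Real.pi / Q * (1 / X) := mul_le_mul_of_nonneg_left h4 (by positivity)
      _ = 2 * Real.pi / (Q * X) := by field_simp
  have hB64 : (Q : ℝ) * q0 * 2 ^ N * B ≤ 1 / 8 := by
    rw [hB, hXr]
    have : (Q : ℝ) * q0 * 2 ^ N * (2 * Real.pi / (Q * (q0 * (2 ^ N * 64)))) = Real.pi / 32 := by
      field_simp
      ring
    rw [this]; linarith
  have hB64' : 2 ^ N * B ≤ 1 / 8 := by
    refine le_trans ?_ hB64
    have h2 : (1 : ℝ) ≤ Q * q0 := by nlinarith
    have h3 : 0 ≤ 2 ^ N * B := by positivity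
    nlinarith
  have hB8 : B ≤ 1 / 8 := by
    refine le_trans ?_ hB64'
    have : (1 : ℝ) ≤ 2 ^ N := one_le_pow₀ (by norm_num)
    nlinarith
  obtain ⟨τ, p, e, he0, hen, hp, hst⟩ := dec_hier h1 (2 ^ (N + 2)) (by
    calc 2 = 2 ^ 1 := (pow_one _).symm
      _ ≤ 2 ^ (N + 2) := Nat.pow_le_pow_right (by norm_num) (by omega)) D k η B hB0 hηB
    ((Finset.card_le_card (Finset.filter_subset _ _)).trans hD)
  have hQZ : (0 : ℤ) < Q := by exact_mod_cast hQ1
  have hpb : ∀ j i, |p j i| ≤ (2 : ℤ) ^ ((N + 2) * k) := by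
    intro j i
    have := hp j i
    rw [pow_mul]
    exact_mod_cast this
  refine ⟨Q, fun i => (m i % Q).toNat, fun j i => (p j i).toNat, fun j i => (-p j i).toNat,
    Complex.exp (Complex.I * ((2 * Real.pi / Q : ℝ) : ℂ)), fun j => Complex.exp (Complex.I * τ j),
    fun j i => Complex.exp (Complex.I * e j i), hQ1, ?_, ?_, ?_, ?_⟩
  · exact hQX.trans (Nat.pow_le_pow_right hX1 hD)
  · intro i
    have h2 := Int.emod_lt_of_pos (m i) hQZ
    have h3 := Int.emod_nonneg (m i) hQZ.ne'
    show (m i % Q).toNat ≤ Q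
    omega
  · intro j i
    have h2 := abs_le.mp (hpb j i)
    have h3 : ((2 ^ ((N + 2) * k) : ℕ) : ℤ) = (2 : ℤ) ^ ((N + 2) * k) := by push_cast; rfl
    refine ⟨?_, ?_⟩
    · have : (p j i).toNat ≤ ((2 ^ ((N + 2) * k) : ℕ) : ℤ) := by
        rw [h3]; omega
      exact_mod_cast this
    · have : (-p j i).toNat ≤ ((2 ^ ((N + 2) * k) : ℕ) : ℤ) := by
        rw [h3]; omega
      exact_mod_cast this
  · have hnorm : ∀ x : ℝ, ‖Complex.exp (Complex.I * x) - 1‖ ≤ |x| := by
      intro x
      exact Real.norm_exp_I_mul_ofReal_sub_one_le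
    constructor
    · -- root
      rw [← Complex.exp_nat_mul, Complex.exp_eq_one_iff]
      refine ⟨(q0 : ℤ), ?_⟩
      have hQC : (Q : ℂ) ≠ 0 := by exact_mod_cast hQ0.ne'
      push_cast
      field_simp
    · intro j _
      exact Complex.norm_exp_I_mul_ofReal _
    · -- fac
      intro i hi
      show g i = _ * Complex.exp (Complex.I * e 0 i)
      rw [he0 i, ← Complex.exp_nat_mul, ← Complex.exp_add]
      have h2 : g i = Complex.exp ((g i).arg * Complex.I) := by
        have := Complex.norm_mul_exp_arg_mul_I (g i)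
        rw [hg i hi, Complex.ofReal_one, one_mul] at this
        exact this.symm
      conv_lhs => rw [h2]
      rw [Complex.exp_eq_exp_iff_exists_int]
      refine ⟨m i / Q, ?_⟩
      rw [hηD i hi]
      have hQC : (Q : ℂ) ≠ 0 := by exact_mod_cast hQ0.ne'
      have h3 : (((m i % Q).toNat : ℤ) : ℂ) = ((m i - Q * (m i / Q) : ℤ) : ℂ) := by
        congr 1
        rw [Int.toNat_of_nonneg (Int.emod_nonneg (m i) hQZ.ne'), Int.emod_def]
      have h4 : ((m i % Q).toNat : ℂ) = (m i : ℂ) - Q * ((m i / Q : ℤ) : ℂ) := by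
        rw [Int.cast_natCast] at h3
        rw [h3]; push_cast; rfl
      rw [h4]
      push_cast
      field_simp
      ring
    · -- step
      intro i hi j hj
      obtain ⟨h2, h3, h4, h5⟩ := hst i hi j hj
      show Complex.exp (Complex.I * e j i) = pw _ _ _ * Complex.exp (Complex.I * e (j + 1) i)
      rw [dec_pw, ← Complex.exp_add]
      congr 1
      rw [h2]
      push_cast
      ring
    · intro i hi
      show Complex.exp (Complex.I * e k i) = 1
      rw [hen i hi]; simp
    · intro i hi
      show ((Q * q0 : ℕ) : ℝ) * 2 ^ N * ‖Complex.exp (Complex.I * e 0 i) - 1‖ ≤ 1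
      have h2 := hnorm (e 0 i)
      rw [he0 i] at h2 ⊢
      have h3 := hηB i hi
      push_cast
      have h5 : (0 : ℝ) ≤ (Q : ℝ) * q0 * 2 ^ N := by positivity
      have h6 := mul_le_mul_of_nonneg_left (h2.trans h3) h5
      linarith
    · intro i hi j hj
      obtain ⟨h2, h3, h4, h5⟩ := hst i hi j hj
      show (((p j i).toNat + (-p j i).toNat + 1 : ℕ) : ℝ) * 2 ^ N *
        ‖Complex.exp (Complex.I * τ j) - 1‖ ≤ 1
      have h6 : (((p j i).toNat + (-p j i).toNat + 1 : ℕ) : ℝ) = |(p j i : ℝ)| + 1 := by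
        have h7 : (((p j i).toNat + (-p j i).toNat : ℕ) : ℤ) = |p j i| := by
          rcases le_total 0 (p j i) with h | h
          · rw [abs_of_nonneg h]; omega
          · rw [abs_of_nonpos h]; omega
        have h8 : (((p j i).toNat + (-p j i).toNat : ℕ) : ℝ) = |(p j i : ℝ)| := by
          rw [← Int.cast_abs, ← h7]; push_cast; rfl
        push_cast at h8 ⊢
        rw [h8]
      rw [h6]
      have h7 := hnorm (τ j)
      rw [abs_of_nonneg h3] at h7
      have h9 : (|(p j i : ℝ)| + 1) * 2 ^ N * ‖Complex.exp (Complex.I * τ j) - 1‖ ≤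
          (|(p j i : ℝ)| + 1) * 2 ^ N * τ j := mul_le_mul_of_nonneg_left h7 (by positivity)
      have h10 := mul_le_mul_of_nonneg_left h4 h2N.le
      nlinarith
    · intro i hi j hj
      obtain ⟨h2, h3, h4, h5⟩ := hst i hi j hj
      show 2 ^ N * ‖Complex.exp (Complex.I * e (j + 1) i) - 1‖ ≤
        ‖Complex.exp (Complex.I * τ j) - 1‖
      have h6 := hnorm (e (j + 1) i)
      have h7 : τ j ≤ 1 := by
        have h8 : 0 ≤ |(p j i : ℝ)| * τ j := by positivity
        nlinarith
      have h8 : τ j / 4 ≤ ‖Complex.exp (Complex.I * τ j) - 1‖ := by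
        rw [Complex.norm_exp_I_mul_ofReal_sub_one, Real.norm_eq_abs]
        refine le_trans ?_ (le_abs_self _)
        have h9 := Real.mul_le_sin (x := τ j / 2) (by linarith) (by linarith)
        have h10 : (1 : ℝ) / 2 ≤ 2 / Real.pi := by
          rw [div_le_div_iff₀ (by norm_num) hpi0]; linarith
        nlinarith
      refine le_trans ?_ h8
      have h11 : |e (j + 1) i| * (2 ^ N * 4) ≤ τ j := by
        have : ((2 ^ (N + 2) : ℕ) : ℝ) = 2 ^ N * 4 := by push_cast; rw [pow_add]; norm_num
        rw [← this]; exact h5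
      have h12 := mul_le_mul_of_nonneg_left h6 h2N.le
      linarith

end Pool.Agent.H612.LR
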