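import Pool.Agent.H612.LR.Stm

/-!
# DENS: the point of a certificate is a limit of powers in the residue class
-/

namespace Pool.Agent.H612.LR

open Polynomial Filter Topology

theorem DENS_pw {x : ℂ} (hx : ‖x‖ = 1) (a b : ℕ) : pw x a b = x ^ ((a : ℤ) - (b : ℤ)) := by
  have h0 : x ≠ 0 := by
    intro h
    rw [h, norm_zero] at hx
    exact zero_ne_one hx
  unfold pw
  rw [← Complex.inv_eq_conj hx, zpow_sub₀ h0, zpow_natCast, zpow_natCast, inv_pow, div_eq_mul_inv]

theorem DENS_len (l : Rec) : l.length ≤ sz l := by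
  unfold sz
  induction l with
  | nil => simp
  | cons p l ih =>
    have h1 : (szList (p :: l)).length = 1 + (p.1.num.natAbs.bits ++ (p.1.den.bits ++
        (p.2.num.natAbs.bits ++ p.2.den.bits))).length + (szList l).length := by
      simp only [szList, List.flatMap_cons, List.length_append, List.length_cons]
      ring
    rw [h1, List.length_cons]
    omega

theorem DENS_size (C k s : ℕ) (hk : 1 ≤ k) (hks : k ≤ s) :
    8 * ((k : ℤ) * 2 ^ (C * s ^ C)) ≤ 2 ^ ((C + 4) * s ^ (C + 4)) := by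
  have hs : 1 ≤ s := hk.trans hks
  have h1 : (k : ℤ) ≤ 2 ^ s := by
    have h2 : k ≤ 2 ^ s := hks.trans (Nat.lt_two_pow_self).le
    exact_mod_cast h2
  have h3 : 3 + s + C * s ^ C ≤ (C + 4) * s ^ (C + 4) := by
    have e1 : s ^ C ≤ s ^ (C + 4) := Nat.pow_le_pow_right hs (by omega)
    have e2 : s ≤ s ^ (C + 4) := by
      calc s = s ^ 1 := (pow_one s).symm
        _ ≤ s ^ (C + 4) := Nat.pow_le_pow_right hs (by omega)
    have e3 : C * s ^ C ≤ C * s ^ (C + 4) := Nat.mul_le_mul_left _ e1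
    have e4 : (C + 4) * s ^ (C + 4) = C * s ^ (C + 4) + 4 * s ^ (C + 4) := by ring
    omega
  calc 8 * ((k : ℤ) * 2 ^ (C * s ^ C)) ≤ 8 * (2 ^ s * 2 ^ (C * s ^ C)) := by
        have : (0 : ℤ) ≤ 2 ^ (C * s ^ C) := by positivity
        nlinarith [mul_le_mul_of_nonneg_right h1 this]
    _ = 2 ^ (3 + s + C * s ^ C) := by rw [pow_add, pow_add]; norm_num; ring
    _ ≤ 2 ^ ((C + 4) * s ^ (C + 4)) := pow_le_pow_right₀ (by norm_num) h3

theorem DENS_prod_zpow {ι : Type} (D : Finset ι) (y : ℂ) (hy : y ≠ 0) (f : ι → ℤ) :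
    ∏ i ∈ D, y ^ f i = y ^ ∑ i ∈ D, f i := by
  classical
  induction D using Finset.induction_on with
  | empty => simp
  | insert a s ha ih => rw [Finset.prod_insert ha, Finset.sum_insert ha, zpow_add₀ hy, ih]

theorem t_DENS (h1 : S_CORE) (h2 : S_LIN) (h3 : S_MAS) (h4 : S_KRO) : S_DENS := by
  obtain ⟨C, hC⟩ := h3
  refine ⟨C + 4, ?_⟩
  intro l d hl hρ hq hS hch hx ε hε T
  set k := l.length with hk
  set D := d.S k 1 with hD
  set γ : ℕ → ℂ := fun i => d.lam i / (d.ρ : ℂ) with hγ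
  have hcard : D.card ≤ k := by
    calc D.card ≤ (Finset.range k).card := Finset.card_filter_le _ _
      _ = k := Finset.card_range k
  have hnγ : ∀ i ∈ D, ‖γ i‖ = 1 := by
    intro i hi
    simp only [hγ]
    rw [norm_div, (hS i hi).2, Complex.norm_real, Real.norm_of_nonneg hρ.le, div_self hρ.ne']
  have hγ0 : ∀ i ∈ D, γ i ≠ 0 := by
    intro i hi h0
    have := hnγ i hi
    rw [h0, norm_zero] at this
    exact zero_ne_one this
  have hrel : ∀ e : ℕ → ℤ, mon D γ e = 1 → ∀ j < k, d.ξ j ≠ 1 →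
      ∑ i ∈ D, e i * ((d.a j i : ℤ) - (d.b j i : ℤ)) = 0 := by
    intro e he j hj hξ
    refine h2 D γ (2 ^ (C * sz l ^ C)) (fun i => (d.a j i : ℤ) - (d.b j i : ℤ)) hγ0 ?_ ?_ e he
    · intro e he hne
      exact hC l hl D d.lam d.ρ hρ hcard hS e he hne
    · intro e he hb
      refine h1 k d.q ((C + 4) * sz l ^ (C + 4)) D γ d.P d.a d.b d.ζ d.ξ d.h hq hch e he ?_ j hj hξ
      have hs1 : ∑ i ∈ D, |e i| ≤ (k : ℤ) * 2 ^ (C * sz l ^ C) := by
        calc ∑ i ∈ D, |e i| ≤ ∑ _i ∈ D, (2 : ℤ) ^ (C * sz l ^ C) := Finset.sum_le_sum hb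
          _ = (D.card : ℤ) * 2 ^ (C * sz l ^ C) := by
            rw [Finset.sum_const, nsmul_eq_mul]
          _ ≤ (k : ℤ) * 2 ^ (C * sz l ^ C) := by
            apply mul_le_mul_of_nonneg_right _ (by positivity)
            exact_mod_cast hcard
      have hs2 := DENS_size C k (sz l) hl (DENS_len l)
      linarith
  -- the unimodular numbers
  have hζ0 : d.ζ ≠ 0 := by
    intro h0
    have := hch.root
    rw [h0, zero_pow (by omega)] at this
    exact zero_ne_one this
  have hξ0 : ∀ j < k, d.ξ j ≠ 0 := by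
    intro j hj h0
    have := hch.unit j hj
    rw [h0, norm_zero] at this
    exact zero_ne_one this
  set y : ℕ → ℂ := fun j => d.x j / d.ξ j ^ d.m with hy
  have hny : ∀ j < k, ‖y j‖ = 1 := by
    intro j hj
    simp only [hy]
    rw [norm_div, norm_pow, (hx j hj).1, hch.unit j hj, one_pow, div_one]
  have hy0 : ∀ j < k, y j ≠ 0 := by
    intro j hj h0
    have := hny j hj
    rw [h0, norm_zero] at this
    exact zero_ne_one this
  set w : ℕ → ℂ := fun i => ∏ j ∈ Finset.range k, y j ^ ((d.a j i : ℤ) - (d.b j i : ℤ)) with hw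
  have hnw : ∀ i, ‖w i‖ = 1 := by
    intro i
    simp only [hw]
    rw [norm_prod]
    apply Finset.prod_eq_one
    intro j hj
    rw [norm_zpow, hny j (Finset.mem_range.1 hj), one_zpow]
  have hγeq : ∀ i ∈ D, γ i = d.ζ ^ d.P i *
      ∏ j ∈ Finset.range k, d.ξ j ^ ((d.a j i : ℤ) - (d.b j i : ℤ)) := by
    intro i hi
    have e1 : ∀ t, t ≤ k → d.h 0 i =
        (∏ j ∈ Finset.range t, d.ξ j ^ ((d.a j i : ℤ) - (d.b j i : ℤ))) * d.h t i := by
      intro t
      induction t with
      | zero => intro _; simp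
      | succ t ih =>
        intro ht
        rw [ih (by omega), hch.step i hi t (by omega), DENS_pw (hch.unit t (by omega)),
          Finset.prod_range_succ, mul_assoc]
    rw [hch.fac i hi, e1 k le_rfl, hch.last i hi, mul_one]
  have hz : ∀ i ∈ D, d.z k i = γ i ^ d.m * w i := by
    intro i hi
    rw [hγeq i hi]
    unfold CD.z
    rw [mul_pow, ← pow_mul, ← pow_mul, mul_comm (d.P i) d.m, mul_assoc]
    congr 1
    simp only [hw]
    rw [← Finset.prod_pow, ← Finset.prod_mul_distrib]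
    refine Finset.prod_congr rfl fun j hj => ?_
    have hj' := Finset.mem_range.1 hj
    rw [DENS_pw (hx j hj').1]
    simp only [hy]
    rw [div_zpow, ← zpow_natCast, ← zpow_natCast, ← zpow_mul, ← zpow_mul,
      mul_comm ((d.m : ℕ) : ℤ), mul_div_cancel₀]
    exact zpow_ne_zero _ (hξ0 j hj')
  -- Kronecker
  have hkro := h4 D (fun i => γ i ^ d.q) w (fun i hi => ⟨by
      rw [norm_pow, hnγ i hi, one_pow], hnw i⟩) (by
      intro e he
      have he2 : mon D γ (fun i => (d.q : ℤ) * e i) = 1 := by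
        rw [← he]
        unfold mon
        refine Finset.prod_congr rfl fun i _ => ?_
        rw [zpow_mul, zpow_natCast]
      have he3 : ∀ j < k, d.ξ j ≠ 1 →
          ∑ i ∈ D, ((d.a j i : ℤ) - (d.b j i : ℤ)) * e i = 0 := by
        intro j hj hξ
        have h5 := hrel _ he2 j hj hξ
        have h6 : ∑ i ∈ D, (d.q : ℤ) * e i * ((d.a j i : ℤ) - (d.b j i : ℤ)) =
            (d.q : ℤ) * ∑ i ∈ D, ((d.a j i : ℤ) - (d.b j i : ℤ)) * e i := by
          rw [Finset.mul_sum]
          refine Finset.sum_congr rfl fun i _ => ?_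
          ring
        rw [h6] at h5
        rcases mul_eq_zero.1 h5 with h7 | h7
        · exfalso
          have : d.q = 0 := by exact_mod_cast h7
          omega
        · exact h7
      unfold mon
      simp only [hw]
      have h5 : ∀ i, (∏ j ∈ Finset.range k, y j ^ ((d.a j i : ℤ) - (d.b j i : ℤ))) ^ e i =
          ∏ j ∈ Finset.range k, y j ^ (((d.a j i : ℤ) - (d.b j i : ℤ)) * e i) := by
        intro i
        rw [← Finset.prod_zpow]
        refine Finset.prod_congr rfl fun j _ => ?_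
        rw [zpow_mul]
      simp only [h5]
      rw [Finset.prod_comm]
      apply Finset.prod_eq_one
      intro j hj
      have hj' := Finset.mem_range.1 hj
      rw [DENS_prod_zpow D (y j) (hy0 j hj')]
      by_cases hξ : d.ξ j = 1
      · have h6 : y j = 1 := by
          simp only [hy]
          rw [hξ, (hx j hj').2 hξ, one_pow, div_one]
        rw [h6, one_zpow]
      · rw [he3 j hj' hξ, zpow_zero]) ε hε T
  obtain ⟨t, ht, ht2⟩ := hkro
  refine ⟨t, ht, fun i hi => ?_⟩
  have h5 : γ i ^ (d.m + d.q * t) - d.z k i = γ i ^ d.m * ((γ i ^ d.q) ^ t - w i) := by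
    rw [hz i hi, pow_add, pow_mul]
    ring
  show ‖γ i ^ (d.m + d.q * t) - d.z k i‖ < ε
  rw [h5, norm_mul, norm_pow, hnγ i hi, one_pow, one_mul]
  exact ht2 i hi

end Pool.Agent.H612.LR
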