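import Mathlib
import Pool.Agent.H612.LR.Stm

/-!
# DIR: Dirichlet's theorem on simultaneous approximation
-/

set_option autoImplicit false

namespace Pool.Agent.H612.LR

open Polynomial Filter Topology

theorem t_DIR : S_DIR := by
  intro D X r hX
  have hX' : (0:ℝ) < X := by exact_mod_cast hX
  have hfl : ∀ y : ℝ, ⌊(X:ℝ) * Int.fract y⌋₊ < X := by
    intro y
    have h0 := Int.fract_nonneg y
    have h1 := Int.fract_lt_one y
    rw [Nat.floor_lt (by positivity)]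
    nlinarith
  let f : Fin (X ^ D.card + 1) → (D → Fin X) := fun t i =>
    ⟨⌊(X:ℝ) * Int.fract (((t:ℕ):ℝ) * r i)⌋₊, hfl _⟩
  have hcard : Fintype.card (D → Fin X) < Fintype.card (Fin (X ^ D.card + 1)) := by
    simp
  obtain ⟨t1, t2, hne, heq⟩ := Fintype.exists_ne_map_eq_of_card_lt f hcard
  -- wlog t1 < t2
  have key : ∀ s1 s2 : Fin (X ^ D.card + 1), (s1:ℕ) < s2 → f s1 = f s2 →
      ∃ (t : ℕ) (m : ℕ → ℤ), 1 ≤ t ∧ t ≤ X ^ D.card ∧ ∀ i ∈ D, |(t : ℝ) * r i - m i| * X ≤ 1 := by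
    intro s1 s2 hlt hf
    refine ⟨(s2:ℕ) - s1, fun i => ⌊((s2:ℕ):ℝ) * r i⌋ - ⌊((s1:ℕ):ℝ) * r i⌋, by omega, ?_, ?_⟩
    · have := s2.2
      omega
    · intro i hi
      have h1 := congrFun hf ⟨i, hi⟩
      simp only [f, Fin.mk.injEq] at h1
      have e1 : (((s2:ℕ) - (s1:ℕ) : ℕ):ℝ) * r i -
          ((⌊((s2:ℕ):ℝ) * r i⌋ - ⌊((s1:ℕ):ℝ) * r i⌋ : ℤ) : ℝ) =
          Int.fract (((s2:ℕ):ℝ) * r i) - Int.fract (((s1:ℕ):ℝ) * r i) := by
        rw [Nat.cast_sub hlt.le]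
        unfold Int.fract
        push_cast
        ring
      rw [e1]
      have a0 : (0:ℝ) ≤ X * Int.fract (((s1:ℕ):ℝ) * r i) :=
        mul_nonneg hX'.le (Int.fract_nonneg _)
      have b0 : (0:ℝ) ≤ X * Int.fract (((s2:ℕ):ℝ) * r i) :=
        mul_nonneg hX'.le (Int.fract_nonneg _)
      have a1 := Nat.floor_le a0
      have a2 := Nat.lt_floor_add_one ((X:ℝ) * Int.fract (((s1:ℕ):ℝ) * r i))
      have b1 := Nat.floor_le b0
      have b2 := Nat.lt_floor_add_one ((X:ℝ) * Int.fract (((s2:ℕ):ℝ) * r i))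
      rw [h1] at a1 a2
      have e2 : |Int.fract (((s2:ℕ):ℝ) * r i) - Int.fract (((s1:ℕ):ℝ) * r i)| * X =
          |X * Int.fract (((s2:ℕ):ℝ) * r i) - X * Int.fract (((s1:ℕ):ℝ) * r i)| := by
        rw [← mul_sub, abs_mul, abs_of_pos hX', mul_comm]
      rw [e2, abs_le]
      constructor <;> linarith
  rcases lt_or_gt_of_ne (fun h => hne (Fin.ext h) : (t1:ℕ) ≠ t2) with h | h
  · exact key t1 t2 h heq
  · exact key t2 t1 h heq.symm

end Pool.Agent.H612.LR
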