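import Pool.Agent.H612.LR.Stm

namespace Pool.Agent.H612.LR

open Polynomial IntermediateField

theorem FLD_chi_monic (l : Rec) (h : 1 ≤ l.length) : (chi l).Monic := by
  unfold chi
  apply monic_X_pow_sub
  refine lt_of_le_of_lt (degree_sum_le _ _) ?_
  rw [Finset.sup_lt_iff (by exact WithBot.bot_lt_coe _)]
  intro i hi
  refine lt_of_le_of_lt (degree_C_mul_X_pow_le _ _) ?_
  rw [Nat.cast_lt]
  omega

theorem FLD_chi_natDegree (l : Rec) (h : 1 ≤ l.length) : (chi l).natDegree = l.length := by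
  unfold chi
  rw [natDegree_sub_eq_left_of_natDegree_lt, natDegree_X_pow]
  rw [natDegree_X_pow]
  rcases Nat.eq_zero_or_pos (∑ i ∈ Finset.range l.length,
    C (coef l i) * X ^ (l.length - 1 - i)).natDegree with h0 | h0
  · omega
  · have : (∑ i ∈ Finset.range l.length,
        C (coef l i) * X ^ (l.length - 1 - i)).natDegree ≤ l.length - 1 := by
      apply natDegree_sum_le_of_forall_le
      intro i hi
      refine le_trans (natDegree_C_mul_X_pow_le _ _) ?_
      omega
    omega

theorem FLD_isRoot_iff (l : Rec) (z : ℂ) : IsRoot l z ↔ aeval z (chi l) = 0 := by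
  unfold chi IsRoot
  simp only [map_sub, map_pow, aeval_X, map_sum, map_mul, aeval_C, sub_eq_zero]
  rfl

theorem FLD_adjoin (k : ℕ) (_hk : 1 ≤ k) (p : ℚ[X]) (hp : p.Monic) (hd : p.natDegree = k) (s : Finset ℂ)
    (hs : ∀ z ∈ s, aeval z p = 0) :
    FiniteDimensional ℚ (adjoin ℚ (s : Set ℂ)) ∧
      Module.finrank ℚ (adjoin ℚ (s : Set ℂ)) ≤ k ^ s.card := by
  classical
  induction s using Finset.induction_on with
  | empty =>
    have h0 : adjoin ℚ ((∅ : Finset ℂ) : Set ℂ) = ⊥ := by
      rw [Finset.coe_empty, adjoin_empty]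
    rw [h0, Finset.card_empty, pow_zero]
    refine ⟨inferInstance, ?_⟩
    rw [IntermediateField.finrank_bot]
  | insert a s ha ih =>
    have ih' := ih (fun z hz => hs z (Finset.mem_insert_of_mem hz))
    obtain ⟨hf, hr⟩ := ih'
    have hai : IsIntegral ℚ a := ⟨p, hp, by
      have := hs a (Finset.mem_insert_self _ _)
      rwa [aeval_def] at this⟩
    have h1 : FiniteDimensional ℚ ℚ⟮a⟯ := adjoin.finiteDimensional hai
    have h2 : Module.finrank ℚ ℚ⟮a⟯ ≤ k := by
      rw [adjoin.finrank hai, ← hd]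
      apply natDegree_le_of_dvd _ hp.ne_zero
      exact minpoly.dvd ℚ a (hs a (Finset.mem_insert_self _ _))
    have h3 : adjoin ℚ ((insert a s : Finset ℂ) : Set ℂ) = ℚ⟮a⟯ ⊔ adjoin ℚ (s : Set ℂ) := by
      rw [Finset.coe_insert, Set.insert_eq, adjoin_union]
    rw [h3]
    refine ⟨inferInstance, ?_⟩
    refine le_trans (IntermediateField.finrank_sup_le _ _) ?_
    rw [Finset.card_insert_of_notMem ha, pow_succ, mul_comm]
    exact Nat.mul_le_mul hr h2

theorem t_FLD : S_FLD := by
  classical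
  intro l hl
  have hm := FLD_chi_monic l hl
  set s : Finset ℂ := ((chi l).aroots ℂ).toFinset with hsdef
  have hmem : ∀ z : ℂ, z ∈ s ↔ aeval z (chi l) = 0 := by
    intro z
    rw [hsdef, Multiset.mem_toFinset, mem_aroots]
    exact ⟨fun h => h.2, fun h => ⟨hm.ne_zero, h⟩⟩
  have hcard : s.card ≤ l.length := by
    rw [hsdef, ← FLD_chi_natDegree l hl]
    refine le_trans (Multiset.toFinset_card_le _) ?_
    refine le_trans (card_roots' _) ?_
    exact natDegree_map_le
  obtain ⟨hf, hr⟩ := FLD_adjoin l.length hl (chi l) hm (FLD_chi_natDegree l hl) s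
    (fun z hz => (hmem z).1 hz)
  refine ⟨adjoin ℚ (s : Set ℂ), inferInstance, ?_, (adjoin ℚ (s : Set ℂ)).val.toRingHom, ?_, ?_⟩
  · exact { to_charZero := inferInstance, to_finiteDimensional := hf }
  · exact le_trans hr (Nat.pow_le_pow_right hl hcard)
  · intro z hz
    have hz' : z ∈ s := (hmem z).2 ((FLD_isRoot_iff l z).1 hz)
    exact ⟨⟨z, subset_adjoin ℚ _ (by exact_mod_cast hz')⟩, rfl⟩

end Pool.Agent.H612.LR
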