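import Pool.Agent.H612.LR.StmF
import Pool.Agent.H612.PG.FmSem

/-!
# The meaning of the formula `lrFm`
-/

namespace Pool.Agent.H612.LR

open Pool.Agent.NPC Pool.Agent.NPC.ER Pool.Agent.NPC.H612 Pool.Agent.H612.PG

namespace HLDaux

/-- The value of a complex term. -/
def cev (x : ℕ → ℝ) (z : CT) : ℂ := ⟨z.1.eval x, z.2.eval x⟩

variable (x : ℕ → ℝ)

theorem cev_cadd (z w : CT) : cev x (cadd z w) = cev x z + cev x w := by
  apply Complex.ext <;> simp [cev, cadd, Tm.eval]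

theorem cev_csub (z w : CT) : cev x (csub z w) = cev x z - cev x w := by
  apply Complex.ext <;> simp [cev, csub, eval_subT]

theorem cev_cmul (z w : CT) : cev x (cmul z w) = cev x z * cev x w := by
  apply Complex.ext <;> simp [cev, cmul, eval_subT, Tm.eval]

theorem cev_cconj (z : CT) : cev x (cconj z) = (starRingEnd ℂ) (cev x z) := by
  apply Complex.ext <;> simp [cev, cconj, Tm.eval]

theorem cev_creal (t : Tm) : cev x (creal t) = ((t.eval x : ℝ) : ℂ) := by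
  apply Complex.ext <;> simp [cev, creal, Tm.eval]

theorem cev_cone : cev x cone = 1 := by
  apply Complex.ext <;> simp [cev, cone, creal, Tm.eval]

theorem cev_czero : cev x czero = 0 := by
  apply Complex.ext <;> simp [cev, czero, creal, Tm.eval]

theorem eval_cns (z : CT) : (cns z).eval x = ‖cev x z‖ ^ 2 := by
  rw [Complex.sq_norm, Complex.normSq_apply]
  rfl

theorem holds_ceq (z w : CT) : (ceq z w).Holds x ↔ cev x z = cev x w := by
  rw [Complex.ext_iff]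
  rfl

theorem cev_csum (n : ℕ) (f : ℕ → CT) :
    cev x (csum n f) = ∑ i ∈ Finset.range n, cev x (f i) := by
  apply Complex.ext
  · rw [Complex.re_sum]
    exact eval_sumR n _
  · rw [Complex.im_sum]
    exact eval_sumR n _

theorem eval_sqT (t : Tm) : (sqT' t).eval x = (t.eval x) ^ 2 := by
  rw [sq]
  rfl

theorem eval_pow2T (N : ℕ) : (pow2T N).eval x = 2 ^ N := by
  unfold pow2T
  rw [eval_prodR, Finset.prod_congr rfl (fun i _ => eval_numT 2), Finset.prod_const,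
    Finset.card_range]
  norm_num

theorem holds_bitF (b : Tm) : (bitF b).Holds x ↔ IsBit (b.eval x) := Iff.rfl

theorem eval_numB (Nb : ℕ) (f : ℕ → Tm) :
    (numB Nb f).eval x = numV Nb (fun t => (f t).eval x) := by
  unfold numB numV
  rw [eval_sumR]
  refine Finset.sum_congr rfl fun t _ => ?_
  rw [Tm.eval, eval_powR (by omega), eval_numT]
  norm_num

theorem holds_powF (Nb : ℕ) (X : CT) (b : ℕ → Tm) (s : ℕ → CT) : (powF Nb X b s).Holds x ↔
    PowV Nb (cev x X) (fun t => (b t).eval x) (fun t => cev x (s t)) := by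
  unfold powF PowV
  rw [Fm.Holds, holds_ceq, cev_cone, holds_allR]
  simp only [holds_ceq, cev_cmul, cev_cadd, cev_creal, eval_subT]
  refine and_congr Iff.rfl (forall_congr' fun t => forall_congr' fun _ => ?_)
  have h : (((Tm.one.eval x - (b t).eval x : ℝ)) : ℂ) = 1 - (((b t).eval x : ℝ) : ℂ) := by
    rw [Tm.eval]
    push_cast
    rfl
  rw [h]

theorem pos_sq_norm (z : ℂ) : 0 < ‖z‖ ^ 2 ↔ z ≠ 0 := by
  constructor
  · rintro h rfl
    simp at h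
  · intro h
    have := norm_pos_iff.mpr h
    positivity

theorem sq_norm_one (z : ℂ) : ‖z‖ ^ 2 = 1 ↔ ‖z‖ = 1 := by
  constructor
  · intro h
    have h1 := norm_nonneg z
    nlinarith [sq_nonneg (‖z‖ - 1), sq_nonneg (‖z‖ + 1)]
  · intro h
    rw [h]; norm_num

theorem h1 (l : Rec) : (g1 l).Holds x ↔ ∀ i < l.length, (VOf x).A i = (coef l i : ℝ) := by
  unfold g1
  rw [holds_allR]
  simp only [holds_eqRat]
  rfl

theorem h2 (l : Rec) : (g2 l).Holds x ↔ ∀ n < l.length, (VOf x).U n = (ini l n : ℝ) := by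
  unfold g2
  rw [holds_allR]
  simp only [holds_eqRat]
  rfl

theorem h3 (k : ℕ) : (g3 k).Holds x ↔ ∀ n < k + k ^ 2, (VOf x).U (n + k) =
    ∑ i ∈ Finset.range k, (VOf x).A i * (VOf x).U (n + k - 1 - i) := by
  unfold g3
  rw [holds_allR]
  simp only [Fm.Holds, eval_sumR]
  rfl

theorem h4 (k R : ℕ) : (g4 k R).Holds x ↔ ((VOf x).B 0 0 = 1 ∧ (∀ j < k, (VOf x).B 0 (j + 1) = 0) ∧
    ∀ n < R, (VOf x).B (n + 1) 0 = 1 ∧
      ∀ j < k, (VOf x).B (n + 1) (j + 1) = (VOf x).B n j + (VOf x).B n (j + 1)) := by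
  unfold g4
  simp only [Fm.Holds, holds_allR, and_assoc]
  rfl

theorem h5 (k R : ℕ) : (g5 k R).Holds x ↔ ∀ i < k, (VOf x).W i 0 = 1 ∧
    ∀ n < R, (VOf x).W i (n + 1) = (VOf x).W i n * (VOf x).lam i := by
  unfold g5
  simp only [Fm.Holds, holds_allR, holds_ceq, cev_cmul, cev_cone]
  rfl

theorem h6 (k : ℕ) : (g6 k).Holds x ↔ ∀ i < k, (VOf x).lam i ≠ 0 ∧
    ∀ i' < k, i = i' ∨ (VOf x).lam i ≠ (VOf x).lam i' := by
  unfold g6
  simp only [Fm.Holds, holds_allR]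
  refine forall_congr' fun i => forall_congr' fun _ => and_congr ?_
    (forall_congr' fun i' => forall_congr' fun _ => ?_)
  · rw [eval_cns]
    exact pos_sq_norm _
  · by_cases h : i = i'
    · rw [if_pos h]
      exact ⟨fun _ => Or.inl h, fun _ => holds_tt x⟩
    · rw [if_neg h, Fm.Holds, eval_cns, cev_csub]
      show (0 < _) ↔ _
      rw [pos_sq_norm, sub_ne_zero]
      constructor
      · intro h'; exact Or.inr h'
      · rintro (h' | h')
        · exact absurd h' h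
        · exact h'

theorem h7 (k : ℕ) : (g7 k).Holds x ↔ ∀ n < k + k ^ 2, (((VOf x).U (n + k) : ℝ) : ℂ) =
    ∑ i ∈ Finset.range k, ∑ j ∈ Finset.range k,
      (VOf x).c i j * ((VOf x).B (n + k) j : ℂ) * (VOf x).W i (n + k) := by
  unfold g7
  simp only [holds_allR, holds_ceq, cev_csum, cev_cmul, cev_creal]
  rfl

theorem h8 (k Nb : ℕ) : (g8 k Nb).Holds x ↔ ∀ t < Nb, (IsBit ((VOf x).q t) ∧ IsBit ((VOf x).m t)) ∧
    ∀ i < k, IsBit ((VOf x).P i t) ∧ ∀ j < k, IsBit ((VOf x).a j i t) ∧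
      IsBit ((VOf x).b j i t) := by
  unfold g8
  simp only [Fm.Holds, holds_allR, holds_bitF]
  rfl

theorem h9 (k Nb : ℕ) : (g9 k Nb).Holds x ↔ ∀ i < k,
    PowV Nb ((VOf x).lam i) (VOf x).q ((VOf x).s16 i) ∧
      PowV Nb ((VOf x).lam i) (VOf x).m ((VOf x).s17 i) := by
  unfold g9
  simp only [Fm.Holds, holds_allR, holds_powF]
  rfl

theorem h10 (Nb : ℕ) : (g10 Nb).Holds x ↔ 0 ≤ (VOf x).ρ ∧ 1 ≤ numV Nb (VOf x).q := by
  unfold g10
  simp only [Fm.Holds, eval_numB]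
  rfl

theorem hflag (i t : ℕ) : (flagF i t).Holds x ↔ (VOf x).Flag i t := by
  unfold flagF V.Flag
  simp only [Fm.Holds, holds_allR]
  refine forall_congr' fun t' => forall_congr' fun _ => ?_
  by_cases h : t' = t
  · rw [if_pos h, if_pos h]
    rfl
  · rw [if_neg h, if_neg h]
    rfl

theorem hroot (k i : ℕ) : (rootF k i).Holds x ↔ (VOf x).Root k i := by
  unfold rootF V.Root
  simp only [holds_ceq, cev_csum, cev_cmul, cev_creal]
  rfl

theorem h11 (k : ℕ) : (g11 k).Holds x ↔ ∀ i < k, (VOf x).Flag i 0 ∨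
    ((VOf x).Flag i 1 ∧ ‖(VOf x).lam i‖ ^ 2 = (VOf x).ρ ^ 2 ∧ (VOf x).Root k i) ∨
    ((VOf x).Flag i 2 ∧ ‖(VOf x).lam i‖ ^ 2 < (VOf x).ρ ^ 2) := by
  unfold g11
  simp only [Fm.Holds, holds_allR, hflag, hroot, eval_cns, eval_sqT]
  rfl

theorem hcan (k Nb t s j : ℕ) : (canF k Nb t s j).Holds x ↔ (VOf x).Can k Nb t s j := by
  unfold canF V.Can
  simp only [holds_ceq, cev_csum, cev_cmul, cev_creal, cev_czero]
  rfl

theorem h12 (k Nb : ℕ) : (g12 k Nb).Holds x ↔ ∀ i < k, ∃ s < k,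
    (∀ s' < k, (VOf x).K i s' = if s' = s then 1 else 0) ∧
      (VOf x).s16 i Nb = (VOf x).s16 s Nb := by
  unfold g12
  simp only [Fm.Holds, holds_allR, holds_exR, holds_ceq]
  refine forall_congr' fun i => forall_congr' fun _ => exists_congr fun s => and_congr Iff.rfl
    (and_congr (forall_congr' fun s' => forall_congr' fun _ => ?_) Iff.rfl)
  by_cases h : s' = s
  · rw [if_pos h, if_pos h]
    rfl
  · rw [if_neg h, if_neg h]
    rfl

theorem h13 (k Nb : ℕ) : (g13 k Nb).Holds x ↔ ∀ s < k, ∀ j < k, (VOf x).Can k Nb 0 s j := by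
  unfold g13
  simp only [holds_allR, hcan]

theorem h14 (k Nb J : ℕ) : (g14 k Nb J).Holds x ↔
    ∀ s < k, ∀ j < k, J < j → (VOf x).Can k Nb 1 s j := by
  unfold g14
  simp only [holds_allR]
  refine forall_congr' fun s => forall_congr' fun _ => forall_congr' fun j =>
    forall_congr' fun _ => ?_
  by_cases h : J < j
  · rw [if_pos h, hcan]
    exact ⟨fun h' _ => h', fun h' => h' h⟩
  · rw [if_neg h]
    exact ⟨fun _ h' => absurd h' h, fun _ => holds_tt x⟩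

theorem hn1 (k Nb : ℕ) : (n1 k Nb).Holds x ↔
    ((PowV Nb (VOf x).ζ (VOf x).q (VOf x).s18 ∧ PowV Nb (VOf x).ζ (VOf x).m (VOf x).s19) ∧
    ∀ i < k, (PowV Nb (VOf x).ζ ((VOf x).P i) ((VOf x).s20 i) ∧
      PowV Nb ((VOf x).s19 Nb) ((VOf x).P i) ((VOf x).s21 i)) ∧
    ∀ j < k, (PowV Nb ((VOf x).ξ j) ((VOf x).a j i) ((VOf x).s22 j i) ∧
      PowV Nb (starRingEnd ℂ ((VOf x).ξ j)) ((VOf x).b j i) ((VOf x).s23 j i)) ∧
      (PowV Nb ((VOf x).x j) ((VOf x).a j i) ((VOf x).s24 j i) ∧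
      PowV Nb (starRingEnd ℂ ((VOf x).x j)) ((VOf x).b j i) ((VOf x).s25 j i))) := by
  unfold n1
  simp only [Fm.Holds, holds_allR, holds_powF, cev_cconj]
  rfl

theorem hn2 (k Nb : ℕ) : (n2 k Nb).Holds x ↔ ((VOf x).s18 Nb = 1 ∧
    ∀ j < k, ‖(VOf x).ξ j‖ = 1 ∧ ‖(VOf x).x j‖ = 1 ∧ ((VOf x).ξ j ≠ 1 ∨ (VOf x).x j = 1)) := by
  unfold n2
  simp only [Fm.Holds, holds_allR, holds_ceq, cev_cone, eval_cns, Tm.eval, sq_norm_one, and_assoc]
  rfl

theorem hn3 (k Nb N0 i : ℕ) : (n3 k Nb N0 i).Holds x ↔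
    ((VOf x).lam i = ((VOf x).ρ : ℂ) * ((VOf x).s20 i Nb * (VOf x).h 0 i) ∧ (VOf x).h k i = 1 ∧
    (numV Nb (VOf x).q * 2 ^ N0 * ‖(VOf x).h 0 i - 1‖) ^ 2 ≤ 1 ∧
    ∀ j < k, (VOf x).h j i = (VOf x).s22 j i Nb * (VOf x).s23 j i Nb * (VOf x).h (j + 1) i ∧
      ((numV Nb ((VOf x).a j i) + numV Nb ((VOf x).b j i) + 1) * 2 ^ N0 * ‖(VOf x).ξ j - 1‖) ^ 2
        ≤ 1 ∧
      (2 ^ N0 * ‖(VOf x).h (j + 1) i - 1‖) ^ 2 ≤ ‖(VOf x).ξ j - 1‖ ^ 2) := by
  unfold n3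
  simp only [Fm.Holds, holds_allR, holds_ceq, cev_cone, cev_cmul, cev_creal, cev_csub, eval_cns,
    Tm.eval, eval_sqT, eval_numB, eval_pow2T, and_assoc, mul_pow]
  rfl

theorem hn4 (k Nb : ℕ) : (n4 k Nb).Holds x ↔ ∀ i < k, (VOf x).Z i 0 = (VOf x).s21 i Nb ∧
    ∀ j < k, (VOf x).Z i (j + 1) =
      (VOf x).Z i j * ((VOf x).s24 j i Nb * (VOf x).s25 j i Nb) := by
  unfold n4
  simp only [Fm.Holds, holds_allR, holds_ceq, cev_cmul]
  rfl

theorem hn5 (k J : ℕ) : (n5 k J).Holds x ↔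
    (∑ i ∈ Finset.range k, (((VOf x).F i 1 : ℝ) : ℂ) *
      ((VOf x).c i J * (VOf x).Z i k)).re < 0 := by
  unfold n5
  rw [Fm.Holds]
  have h : (csum k fun i => cmul (creal (FT i 1)) (cmul (cC i J) (ZC i k))).1.eval x =
      (cev x (csum k fun i => cmul (creal (FT i 1)) (cmul (cC i J) (ZC i k)))).re := rfl
  rw [h]
  simp only [cev_csum, cev_cmul, cev_creal, Tm.eval]
  rfl

theorem hneg (k Nb N0 J : ℕ) : (negF k Nb N0 J).Holds x ↔ (VOf x).Good2 k Nb N0 J := by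
  unfold negF
  simp only [Fm.Holds, holds_allR, hn1, hn2, hn3, hn4, hn5, Tm.eval]
  constructor
  · rintro ⟨⟨⟨b1, b23⟩, b4, b5⟩, b6, b7, b8⟩
    exact ⟨b1, fun i hi => (b23 i hi).1, fun i hi j hj => (b23 i hi).2 j hj, b4, b5, b6, b7, b8⟩
  · rintro ⟨b1, b2, b3, b4, b5, b6, b7, b8⟩
    exact ⟨⟨⟨b1, fun i hi => ⟨b2 i hi, fun j hj => b3 i hi j hj⟩⟩, b4, b5⟩, b6, b7, b8⟩

end HLDaux

open HLDaux in
theorem t_HLD : S_HLD := by
  intro l Nb N0 x
  unfold lrFm V.Good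
  rw [holds_conj]
  simp only [List.forall_mem_cons, List.not_mem_nil, false_imp_iff, forall_const, and_true,
    h1, h2, h3, h4, h5, h6, h7, h8, h9, h10, h11, h12, h13, holds_exR, Fm.Holds, h14, hneg, Tm.eval]
  constructor
  · rintro ⟨a1, a2, a3, a4, a5, a6, a7, a8, a9, a10, a11, a12, a13, J, hJ, c1, c2⟩
    exact ⟨⟨a1, a2, a3, a4, a5, a6, a7, a8, a9, a10, a11, a12, a13⟩, J, hJ, c1, c2⟩
  · rintro ⟨⟨a1, a2, a3, a4, a5, a6, a7, a8, a9, a10, a11, a12, a13⟩, J, hJ, c1, c2⟩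
    exact ⟨a1, a2, a3, a4, a5, a6, a7, a8, a9, a10, a11, a12, a13, J, hJ, c1, c2⟩

end Pool.Agent.H612.LR
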