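import Pool.Agent.H612.LR.Stm

/-!
# Heights of characteristic roots (HROOT)

The bound is proved place by place: if `x ^ n = ∑ a_i x ^ (n - 1 - i)` then
`max |x| 1 ≤ n * ∏ max |a_i| 1` for every absolute value, and the factor `n` is not needed for
nonarchimedean absolute values.
-/

namespace Pool.Agent.H612.LR

open Finset Height Height.AdmissibleAbsValues

/-- The local bound for general absolute values. -/
theorem HROOT_local {K : Type} [Field K] (v : AbsoluteValue K ℝ) (n : ℕ) (hn : 1 ≤ n) (a : ℕ → K)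
    (x : K) (hx : x ^ n = ∑ i ∈ range n, a i * x ^ (n - 1 - i)) :
    max (v x) 1 ≤ n * ∏ i ∈ range n, max (v (a i)) 1 := by
  have hP1 : 1 ≤ ∏ i ∈ range n, max (v (a i)) 1 := (range n).one_le_prod fun _ _ ↦ le_max_right ..
  have hn1 : (1 : ℝ) ≤ n := by exact_mod_cast hn
  have hnP : 1 ≤ (n : ℝ) * ∏ i ∈ range n, max (v (a i)) 1 := by nlinarith
  rcases le_or_gt (v x) 1 with h | h
  · rw [max_eq_right h]; exact hnP
  · rw [max_eq_left h.le]
    have h0 : 0 < v x := lt_trans one_pos h
    have h1 : v x ^ n ≤ (n * ∏ i ∈ range n, max (v (a i)) 1) * v x ^ (n - 1) := by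
      calc v x ^ n = v (x ^ n) := (map_pow v x n).symm
        _ = v (∑ i ∈ range n, a i * x ^ (n - 1 - i)) := by rw [hx]
        _ ≤ ∑ i ∈ range n, v (a i * x ^ (n - 1 - i)) := v.sum_le _ _
        _ ≤ ∑ i ∈ range n, (∏ i ∈ range n, max (v (a i)) 1) * v x ^ (n - 1) := by
            refine Finset.sum_le_sum fun i hi => ?_
            rw [map_mul, map_pow]
            refine mul_le_mul (le_prod_max_one hi fun i ↦ v (a i)) ?_ (by positivity)
              (by positivity)
            exact pow_le_pow_right₀ h.le (by omega)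
        _ = (n * ∏ i ∈ range n, max (v (a i)) 1) * v x ^ (n - 1) := by
            rw [Finset.sum_const, card_range, nsmul_eq_mul, mul_assoc]
    obtain ⟨m, rfl⟩ : ∃ m, n = m + 1 := ⟨n - 1, by omega⟩
    rw [Nat.add_sub_cancel, pow_succ, mul_comm (v x ^ m)] at h1
    exact le_of_mul_le_mul_right h1 (by positivity)

/-- The local bound for nonarchimedean absolute values. -/
theorem HROOT_localna {K : Type} [Field K] (v : AbsoluteValue K ℝ) (hv : IsNonarchimedean v)
    (n : ℕ) (hn : 1 ≤ n) (a : ℕ → K)
    (x : K) (hx : x ^ n = ∑ i ∈ range n, a i * x ^ (n - 1 - i)) :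
    max (v x) 1 ≤ ∏ i ∈ range n, max (v (a i)) 1 := by
  have hP1 : 1 ≤ ∏ i ∈ range n, max (v (a i)) 1 := (range n).one_le_prod fun _ _ ↦ le_max_right ..
  rcases le_or_gt (v x) 1 with h | h
  · rw [max_eq_right h]; exact hP1
  · rw [max_eq_left h.le]
    have h0 : 0 < v x := lt_trans one_pos h
    have hne : (range n).Nonempty := by simp; omega
    have h1 : v x ^ n ≤ (∏ i ∈ range n, max (v (a i)) 1) * v x ^ (n - 1) := by
      calc v x ^ n = v (x ^ n) := (map_pow v x n).symm
        _ = v (∑ i ∈ range n, a i * x ^ (n - 1 - i)) := by rw [hx]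
        _ ≤ _ := hv.apply_sum_le_sup hne
        _ ≤ (∏ i ∈ range n, max (v (a i)) 1) * v x ^ (n - 1) := by
            refine sup'_le hne _ fun i hi => ?_
            rw [map_mul, map_pow]
            refine mul_le_mul (le_prod_max_one hi fun i ↦ v (a i)) ?_ (by positivity)
              (by positivity)
            exact pow_le_pow_right₀ h.le (by omega)
    obtain ⟨m, rfl⟩ : ∃ m, n = m + 1 := ⟨n - 1, by omega⟩
    rw [Nat.add_sub_cancel, pow_succ, mul_comm (v x ^ m)] at h1
    exact le_of_mul_le_mul_right h1 (by positivity)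

theorem HROOT_fs {K : Type} [Field K] [AdmissibleAbsValues K] (x : K) :
    (fun v : nonarchAbsVal (K := K) ↦ max (v.val x) 1).HasFiniteMulSupport := by
  fun_prop

/-- The global bound. -/
theorem HROOT_mul {K : Type} [Field K] [AdmissibleAbsValues K] (n : ℕ) (hn : 1 ≤ n) (a : ℕ → K)
    (x : K) (hx : x ^ n = ∑ i ∈ range n, a i * x ^ (n - 1 - i)) :
    mulHeight₁ x ≤ (n : ℝ) ^ (totalWeight K) * ∏ i ∈ range n, mulHeight₁ (a i) := by
  simp only [mulHeight₁_eq, totalWeight]
  rw [prod_mul_distrib, ← Multiset.prod_replicate, ← Multiset.map_const,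
    ← finprod_prod_comm _ _ (by fun_prop),
    ← Multiset.prod_map_prod, ← mul_assoc, ← Multiset.prod_map_mul]
  simp only [Function.const_apply]
  gcongr
  · exact finprod_nonneg fun _ ↦ by positivity
  · exact Multiset.prod_map_nonneg fun _ h ↦ by positivity
  · exact Multiset.prod_map_le_prod_map₀ _ _ (fun _ _ ↦ by positivity)
      fun v _ ↦ HROOT_local v n hn a x hx
  · exact finprod_le_finprod (by fun_prop) (fun _ ↦ by grind) (by fun_prop) <|
      fun v ↦ HROOT_localna v.val (isNonarchimedean _ v.prop) n hn a x hx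

/-- Heights of natural numbers. -/
theorem HROOT_nat {K : Type} [Field K] [AdmissibleAbsValues K] (n : ℕ) :
    logHeight₁ (n : K) ≤ totalWeight K * (n.bits.length : ℝ) := by
  have hsz : n.bits.length = n.size := (Nat.size_eq_bits_len n)
  have h1 : mulHeight₁ (n : K) ≤ ((2 : ℝ) ^ n.size) ^ totalWeight K := by
    rw [mulHeight₁_eq, totalWeight, ← Multiset.prod_replicate, ← Multiset.map_const]
    have hn2 : (n : ℝ) ≤ 2 ^ n.size := by exact_mod_cast (Nat.lt_size_self n).le
    have h2 : ∏ᶠ v : nonarchAbsVal (K := K), max (v.val (n : K)) 1 = 1 := by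
      refine finprod_eq_one_of_forall_eq_one fun v ↦ ?_
      exact max_eq_right ((isNonarchimedean _ v.prop).apply_natCast_le_one)
    rw [h2, mul_one]
    refine Multiset.prod_map_le_prod_map₀ _ _ (fun _ _ ↦ by positivity) fun v _ ↦ ?_
    simp only [Function.const_apply]
    refine max_le ?_ (one_le_pow₀ (by norm_num))
    exact (v.apply_nat_le_self n).trans hn2
  rw [logHeight₁_eq_log_mulHeight₁]
  refine (Real.log_le_log (mulHeight₁_pos _) h1).trans ?_
  rw [← pow_mul, Real.log_pow, hsz]
  push_cast
  have h3 : Real.log 2 ≤ 1 := by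
    have := Real.log_two_lt_d9
    linarith
  have h4 : (0 : ℝ) ≤ (n.size : ℝ) * totalWeight K := by positivity
  nlinarith

/-- Heights of rational numbers. -/
theorem HROOT_rat {K : Type} [Field K] [NumberField K] (r : ℚ) :
    logHeight₁ (algebraMap ℚ K r) ≤
      totalWeight K * ((r.num.natAbs.bits.length + r.den.bits.length : ℕ) : ℝ) := by
  have h1 : algebraMap ℚ K r = (r.num : K) * ((r.den : K))⁻¹ := by
    conv_lhs => rw [← Rat.num_div_den r]
    simp [div_eq_mul_inv]
  have h2 : logHeight₁ (r.num : K) = logHeight₁ ((r.num.natAbs : ℕ) : K) := by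
    rcases Int.natAbs_eq r.num with h | h
    · conv_lhs => rw [h]
      simp
    · conv_lhs => rw [h]
      simp
  rw [h1]
  refine (logHeight₁_mul_le _ _).trans ?_
  rw [logHeight₁_inv, h2]
  have h3 := HROOT_nat (K := K) r.num.natAbs
  have h4 := HROOT_nat (K := K) r.den
  push_cast
  rw [mul_add]
  exact add_le_add h3 h4

theorem HROOT_sumlist {α : Type} (l : List α) (d : α) (g : α → ℝ) :
    ∑ i ∈ range l.length, g (l.getD i d) = (l.map g).sum := by
  induction l with
  | nil => simp
  | cons b l ih =>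
    rw [List.length_cons, Finset.sum_range_succ', List.map_cons, List.sum_cons, ← ih, add_comm]
    simp

theorem HROOT_sz (l : Rec) :
    (l.length : ℝ) + (l.map fun p : ℚ × ℚ =>
      ((p.1.num.natAbs.bits.length + p.1.den.bits.length : ℕ) : ℝ)).sum ≤ sz l := by
  unfold sz szList
  induction l with
  | nil => simp
  | cons p l ih =>
    rw [List.flatMap_cons, List.length_append, List.map_cons, List.sum_cons]
    simp only [List.length_cons, List.length_append]
    push_cast
    push_cast at ih
    have h1 : (0 : ℝ) ≤ (p.2.num.natAbs.bits.length : ℝ) := by positivity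
    have h2 : (0 : ℝ) ≤ (p.2.den.bits.length : ℝ) := by positivity
    linarith

theorem t_HROOT : S_HROOT := by
  refine ⟨1, fun K _ _ l α hl hα => ?_⟩
  have hm := HROOT_mul l.length hl (fun i => algebraMap ℚ K (coef l i)) α hα
  have hk : (1 : ℝ) ≤ l.length := by exact_mod_cast hl
  have h1 : logHeight₁ α ≤ totalWeight K * Real.log l.length +
      ∑ i ∈ range l.length, logHeight₁ (algebraMap ℚ K (coef l i)) := by
    simp only [logHeight₁_eq_log_mulHeight₁]
    rw [← Real.log_prod (fun _ _ ↦ (mulHeight₁_pos _).ne'), ← Real.log_pow, ← Real.log_mul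
      (by positivity) (Finset.prod_pos fun _ _ ↦ mulHeight₁_pos _).ne']
    exact Real.log_le_log (mulHeight₁_pos _) hm
  have h2 : ∑ i ∈ range l.length, logHeight₁ (algebraMap ℚ K (coef l i)) ≤
      totalWeight K * (l.map fun p : ℚ × ℚ =>
      ((p.1.num.natAbs.bits.length + p.1.den.bits.length : ℕ) : ℝ)).sum := by
    rw [← HROOT_sumlist l (0, 0), Finset.mul_sum]
    exact Finset.sum_le_sum fun i _ => HROOT_rat (K := K) (coef l i)
  have h3 : Real.log l.length ≤ l.length := by
    have := Real.log_le_sub_one_of_pos (x := (l.length : ℝ)) (by linarith)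
    linarith
  have h4 := HROOT_sz l
  have h5 : (0 : ℝ) ≤ totalWeight K := by positivity
  have h6 : (totalWeight K : ℝ) = Module.finrank ℚ K := by
    exact_mod_cast NumberField.totalWeight_eq_finrank K
  rw [← h6]
  refine h1.trans ?_
  rw [one_mul, pow_one]
  calc totalWeight K * Real.log l.length +
      ∑ i ∈ range l.length, logHeight₁ (algebraMap ℚ K (coef l i))
      ≤ totalWeight K * l.length + totalWeight K * (l.map fun p : ℚ × ℚ =>
      ((p.1.num.natAbs.bits.length + p.1.den.bits.length : ℕ) : ℝ)).sum :=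
        add_le_add (mul_le_mul_of_nonneg_left h3 h5) h2
    _ = totalWeight K * (l.length + (l.map fun p : ℚ × ℚ =>
      ((p.1.num.natAbs.bits.length + p.1.den.bits.length : ℕ) : ℝ)).sum) := by ring
    _ ≤ totalWeight K * sz l := mul_le_mul_of_nonneg_left h4 h5

end Pool.Agent.H612.LR
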