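import Pool.Agent.H612.LR.Stm

/-!
# LIN: linear forms on the relation lattice
-/

set_option autoImplicit false

namespace Pool.Agent.H612.LR

theorem lin_aux (D : Finset ℕ) (g : ℕ → ℂ) (B : ℤ) (A : ℕ → ℤ) (hg : ∀ i ∈ D, g i ≠ 0)
    (h2 : ∀ e : ℕ → ℤ, mon D g e = 1 → (∃ i ∈ D, e i ≠ 0) →
      ∃ e' : ℕ → ℤ, mon D g e' = 1 ∧ (∃ i ∈ D, e' i ≠ 0) ∧ (∀ i ∈ D, e i = 0 → e' i = 0) ∧
        ∀ i ∈ D, |e' i| ≤ B)
    (h3 : ∀ e : ℕ → ℤ, mon D g e = 1 → (∀ i ∈ D, |e i| ≤ B) → ∑ i ∈ D, e i * A i = 0) :
    ∀ n : ℕ, ∀ e : ℕ → ℤ, (D.filter fun i => e i ≠ 0).card ≤ n → mon D g e = 1 →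
      ∑ i ∈ D, e i * A i = 0 := by
  intro n
  induction n with
  | zero =>
    intro e hc _
    have h0 : D.filter (fun i => e i ≠ 0) = ∅ := Finset.card_eq_zero.1 (Nat.le_zero.1 hc)
    apply Finset.sum_eq_zero
    intro i hi
    have h1 : e i = 0 := by
      by_contra hne
      have : i ∈ D.filter (fun i => e i ≠ 0) := Finset.mem_filter.2 ⟨hi, hne⟩
      rw [h0] at this
      exact absurd this (Finset.notMem_empty i)
    rw [h1, zero_mul]
  | succ n ih =>
    intro e hc he
    by_cases hex : ∃ i ∈ D, e i ≠ 0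
    · obtain ⟨e', h4, ⟨i0, hi0, h5⟩, h6, h7⟩ := h2 e he hex
      have hei0 : e i0 ≠ 0 := fun h => h5 (h6 i0 hi0 h)
      have hA' : ∑ i ∈ D, e' i * A i = 0 := h3 e' h4 h7
      have hm : mon D g (fun i => e' i0 * e i - e i0 * e' i) = 1 := by
        have h8 : mon D g (fun i => e' i0 * e i - e i0 * e' i) =
            mon D g e ^ (e' i0) * (mon D g e' ^ (e i0))⁻¹ := by
          unfold mon
          rw [← Finset.prod_zpow, ← Finset.prod_zpow, ← Finset.prod_inv_distrib,
            ← Finset.prod_mul_distrib]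
          apply Finset.prod_congr rfl
          intro i hi
          rw [zpow_sub₀ (hg i hi), ← zpow_mul, ← zpow_mul, mul_comm (e i), mul_comm (e' i)]
          rw [div_eq_mul_inv]
        rw [h8, he, h4]; simp
      have hcard : (D.filter fun i => (fun i => e' i0 * e i - e i0 * e' i) i ≠ 0).card ≤ n := by
        have hss : (D.filter fun i => (fun i => e' i0 * e i - e i0 * e' i) i ≠ 0) ⊂
            D.filter fun i => e i ≠ 0 := by
          rw [Finset.ssubset_iff_of_subset]
          · refine ⟨i0, Finset.mem_filter.2 ⟨hi0, hei0⟩, ?_⟩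
            intro hmem
            have := (Finset.mem_filter.1 hmem).2
            apply this
            show e' i0 * e i0 - e i0 * e' i0 = 0
            ring
          · intro i hi
            obtain ⟨hi1, hi2⟩ := Finset.mem_filter.1 hi
            refine Finset.mem_filter.2 ⟨hi1, ?_⟩
            intro h0
            apply hi2
            show e' i0 * e i - e i0 * e' i = 0
            rw [h0, h6 i hi1 h0]; ring
        have := Finset.card_lt_card hss
        omega
      have h9 := ih _ hcard hm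
      have h10 : ∑ i ∈ D, (e' i0 * e i - e i0 * e' i) * A i =
          e' i0 * ∑ i ∈ D, e i * A i - e i0 * ∑ i ∈ D, e' i * A i := by
        rw [Finset.mul_sum, Finset.mul_sum, ← Finset.sum_sub_distrib]
        apply Finset.sum_congr rfl
        intro i _
        ring
      rw [hA', mul_zero, sub_zero] at h10
      have h11 : e' i0 * ∑ i ∈ D, e i * A i = 0 := by rw [← h10]; exact h9
      exact (mul_eq_zero.1 h11).resolve_left h5
    · push Not at hex
      apply Finset.sum_eq_zero
      intro i hi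
      rw [hex i hi, zero_mul]

theorem t_LIN : S_LIN := by
  intro D g B A hg h2 h3 e he
  exact lin_aux D g B A hg h2 h3 _ e le_rfl he

end Pool.Agent.H612.LR
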