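import Pool.Agent.H612.LR.Stm

/-!
MAS: small relations between the normalised characteristic roots of the same modulus.
-/

namespace Pool.Agent.H612.LR

open Polynomial Filter Topology

namespace MASaux

theorem length_le_sz (l : Rec) : l.length ≤ sz l := by
  unfold sz szList
  induction l with
  | nil => simp
  | cons a l ih =>
    rw [List.flatMap_cons, List.length_append, List.length_cons, List.length_cons]
    omega

theorem isRoot_conj {l : Rec} {z : ℂ} (h : IsRoot l z) : IsRoot l (starRingEnd ℂ z) := by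
  unfold IsRoot at h ⊢
  have h1 := congrArg (starRingEnd ℂ) h
  rw [map_pow, map_sum] at h1
  rw [h1]
  refine Finset.sum_congr rfl fun i _ => ?_
  rw [map_mul, map_pow, map_ratCast]

theorem pull {K : Type} [Field K] [NumberField K] (φ : K →+* ℂ) {l : Rec} {α : K}
    (h : IsRoot l (φ α)) : α ^ l.length =
      ∑ i ∈ Finset.range l.length, algebraMap ℚ K (coef l i) * α ^ (l.length - 1 - i) := by
  apply φ.injective
  unfold IsRoot at h
  rw [map_pow, h, map_sum]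
  refine Finset.sum_congr rfl fun i _ => ?_
  rw [map_mul, map_pow, eq_ratCast, map_ratCast]

/-- the numerical bound -/
theorem num_bound (C C1 s f d H : ℕ) (hs : 1 ≤ s) (hf : f ≤ s ^ s) (hd : d ≤ s)
    (hH : H = 2 * (f * (C1 * s ^ C1))) :
    2 * (C * f * (d + 1) * (H + 1)) ^ (C * (d + 1)) ≤
      2 ^ ((2 * C * (C + 2 * C1 + 5) + 4) * s ^ (2 * C * (C + 2 * C1 + 5) + 4)) := by
  have t : ∀ n : ℕ, n ≤ 2 ^ n := fun n => Nat.lt_two_pow_self.le
  have hf2 : f ≤ 2 ^ (s * s) := by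
    calc f ≤ s ^ s := hf
      _ ≤ (2 ^ s) ^ s := Nat.pow_le_pow_left (t s) s
      _ = 2 ^ (s * s) := by rw [← pow_mul]
  have hs1 : s ^ C1 ≤ 2 ^ (s * C1) := by
    calc s ^ C1 ≤ (2 ^ s) ^ C1 := Nat.pow_le_pow_left (t s) C1
      _ = 2 ^ (s * C1) := by rw [← pow_mul]
  have hH1 : H + 1 ≤ 2 ^ (s * s + C1 + s * C1 + 2) := by
    have h1 : f * (C1 * s ^ C1) ≤ 2 ^ (s * s + C1 + s * C1) := by
      calc f * (C1 * s ^ C1) ≤ 2 ^ (s * s) * (2 ^ C1 * 2 ^ (s * C1)) :=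
            Nat.mul_le_mul hf2 (Nat.mul_le_mul (t C1) hs1)
        _ = 2 ^ (s * s + C1 + s * C1) := by rw [← pow_add, ← pow_add]; congr 1; ring
    have h2 : 1 ≤ 2 ^ (s * s + C1 + s * C1) := Nat.one_le_two_pow
    have h3 : 2 ^ (s * s + C1 + s * C1 + 2) = 4 * 2 ^ (s * s + C1 + s * C1) := by
      rw [pow_add]; ring
    rw [h3, hH]
    linarith
  have hd1 : d + 1 ≤ 2 ^ s := by
    have := Nat.lt_two_pow_self (n := s)
    omega
  have hbase : C * f * (d + 1) * (H + 1) ≤ 2 ^ ((C + 2 * C1 + 5) * s ^ 2) := by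
    calc C * f * (d + 1) * (H + 1) ≤ 2 ^ C * 2 ^ (s * s) * 2 ^ s * 2 ^ (s * s + C1 + s * C1 + 2) :=
          Nat.mul_le_mul (Nat.mul_le_mul (Nat.mul_le_mul (t C) hf2) hd1) hH1
      _ = 2 ^ (C + s * s + s + (s * s + C1 + s * C1 + 2)) := by rw [← pow_add, ← pow_add, ← pow_add]
      _ ≤ 2 ^ ((C + 2 * C1 + 5) * s ^ 2) := by
          apply Nat.pow_le_pow_right (by norm_num)
          have h1 : 1 ≤ s ^ 2 := Nat.one_le_pow _ _ hs
          have h2 : s ≤ s ^ 2 := by nlinarith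
          nlinarith [Nat.zero_le C, Nat.zero_le C1, Nat.mul_le_mul_left C h1,
            Nat.mul_le_mul_left C1 h1, Nat.mul_le_mul_left C1 h2]
  have hexp : C * (d + 1) ≤ 2 * C * s := by nlinarith [Nat.zero_le C]
  have hpow : (C * f * (d + 1) * (H + 1)) ^ (C * (d + 1)) ≤
      2 ^ ((C + 2 * C1 + 5) * s ^ 2 * (2 * C * s)) := by
    calc (C * f * (d + 1) * (H + 1)) ^ (C * (d + 1)) ≤
          (2 ^ ((C + 2 * C1 + 5) * s ^ 2)) ^ (C * (d + 1)) := Nat.pow_le_pow_left hbase _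
      _ ≤ (2 ^ ((C + 2 * C1 + 5) * s ^ 2)) ^ (2 * C * s) :=
          Nat.pow_le_pow_right (Nat.pos_of_ne_zero (by positivity)) hexp
      _ = _ := by rw [← pow_mul]
  set E := 2 * C * (C + 2 * C1 + 5) + 4 with hE
  calc 2 * (C * f * (d + 1) * (H + 1)) ^ (C * (d + 1))
      ≤ 2 * 2 ^ ((C + 2 * C1 + 5) * s ^ 2 * (2 * C * s)) := Nat.mul_le_mul_left _ hpow
    _ = 2 ^ ((C + 2 * C1 + 5) * s ^ 2 * (2 * C * s) + 1) := by rw [pow_succ]; ring
    _ ≤ 2 ^ (E * s ^ E) := by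
        apply Nat.pow_le_pow_right (by norm_num)
        have h1 : s ^ 3 ≤ s ^ E := Nat.pow_le_pow_right hs (by omega)
        have h2 : 1 ≤ s ^ 3 := Nat.one_le_pow _ _ hs
        calc (C + 2 * C1 + 5) * s ^ 2 * (2 * C * s) + 1
            = (2 * C * (C + 2 * C1 + 5)) * s ^ 3 + 1 := by ring
          _ ≤ E * s ^ 3 := by rw [hE]; nlinarith
          _ ≤ E * s ^ E := Nat.mul_le_mul_left _ h1

end MASaux

open MASaux in
theorem t_MAS (h1 : S_MASK) (h2 : S_FLD) (h3 : S_HROOT) : S_MAS := by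
  classical
  obtain ⟨C, hMASK⟩ := h1
  obtain ⟨C1, hHR⟩ := h3
  refine ⟨2 * C * (C + 2 * C1 + 5) + 4, fun l hl D lam ρ hρ hD hlam e he hne => ?_⟩
  obtain ⟨K, _, _, φ, hfin, hφ⟩ := h2 l hl
  have hroot : ∀ i, i ∈ D → ∃ β β' : K, φ β = lam i ∧ φ β' = (starRingEnd ℂ) (lam i) := by
    intro i hi
    obtain ⟨β, hβ⟩ := hφ _ (hlam i hi).1
    obtain ⟨β', hβ'⟩ := hφ _ (isRoot_conj (hlam i hi).1)
    exact ⟨β, β', hβ, hβ'⟩
  choose! β β' hβ hβ' using hroot
  have hlam0 : ∀ i ∈ D, lam i ≠ 0 := by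
    intro i hi h0
    have := (hlam i hi).2
    rw [h0, norm_zero] at this
    exact hρ.ne this
  have hρC : (ρ : ℂ) ≠ 0 := by exact_mod_cast hρ.ne'
  have hβ0 : ∀ i ∈ D, β i ≠ 0 := by
    intro i hi h0
    have := hβ i hi
    rw [h0, map_zero] at this
    exact hlam0 i hi this.symm
  have hβ0' : ∀ i ∈ D, β' i ≠ 0 := by
    intro i hi h0
    have := hβ' i hi
    rw [h0, map_zero] at this
    exact hlam0 i hi ((map_eq_zero _).mp this.symm)
  set α : ℕ → K := fun i => β i * (β' i)⁻¹ with hα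
  have hφα : ∀ i ∈ D, φ (α i) = (lam i / (ρ : ℂ)) ^ 2 := by
    intro i hi
    rw [hα]
    simp only
    rw [map_mul, map_inv₀, hβ i hi, hβ' i hi]
    have h4 : lam i * (starRingEnd ℂ) (lam i) = (ρ : ℂ) ^ 2 := by
      rw [Complex.mul_conj, Complex.normSq_eq_norm_sq, (hlam i hi).2]
      push_cast
      rfl
    have h5 : (starRingEnd ℂ) (lam i) ≠ 0 := (_root_.map_ne_zero _).mpr (hlam0 i hi)
    rw [div_pow, ← h4]
    field_simp
  have hmon : ∀ e : ℕ → ℤ, φ (∏ i ∈ D, α i ^ e i) = mon D (fun i => lam i / (ρ : ℂ)) e ^ 2 := by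
    intro e
    unfold mon
    rw [map_prod, ← Finset.prod_pow]
    refine Finset.prod_congr rfl fun i hi => ?_
    rw [map_zpow₀, hφα i hi, ← zpow_natCast, ← zpow_mul, ← zpow_natCast, ← zpow_mul, mul_comm]
  have hprod : ∏ i ∈ D, α i ^ e i = 1 := by
    apply φ.injective
    rw [hmon e, he, map_one, one_pow]
  set H : ℕ := 2 * (Module.finrank ℚ K * (C1 * sz l ^ C1)) with hH
  have hheight : ∀ i ∈ D, α i ≠ 0 ∧ Height.logHeight₁ (α i) ≤ H := by
    intro i hi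
    refine ⟨mul_ne_zero (hβ0 i hi) (inv_ne_zero (hβ0' i hi)), ?_⟩
    have a1 : Height.logHeight₁ (β i) ≤ Module.finrank ℚ K * (C1 * sz l ^ C1 : ℕ) :=
      hHR K l (β i) hl (pull φ (by rw [hβ i hi]; exact (hlam i hi).1))
    have a2 : Height.logHeight₁ (β' i) ≤ Module.finrank ℚ K * (C1 * sz l ^ C1 : ℕ) :=
      hHR K l (β' i) hl (pull φ (by rw [hβ' i hi]; exact isRoot_conj (hlam i hi).1))
    have a3 := Height.logHeight₁_mul_le (β i) (β' i)⁻¹
    rw [Height.logHeight₁_inv] at a3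
    rw [hH]
    push_cast at a1 a2 ⊢
    simp only [hα]
    linarith
  obtain ⟨e', he1, he2, he3, he4⟩ := hMASK K D α H hheight e hprod hne
  have hs : 1 ≤ sz l := hl.trans (length_le_sz l)
  have hb := num_bound C C1 (sz l) (Module.finrank ℚ K) D.card H hs
    (hfin.trans ((Nat.pow_le_pow_left (length_le_sz l) _).trans
      (Nat.pow_le_pow_right hs (length_le_sz l)))) (hD.trans (length_le_sz l)) hH
  refine ⟨fun i => 2 * e' i, ?_, ?_, ?_, ?_⟩
  · have h6 := hmon e'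
    rw [he1, map_one] at h6
    rw [h6]
    unfold mon
    rw [← Finset.prod_pow]
    refine Finset.prod_congr rfl fun i hi => ?_
    rw [← zpow_natCast, ← zpow_mul, mul_comm]
    rfl
  · obtain ⟨i, hi, hi0⟩ := he2
    exact ⟨i, hi, mul_ne_zero two_ne_zero hi0⟩
  · intro i hi hi0
    simp only
    rw [he3 i hi hi0, mul_zero]
  · intro i hi
    simp only
    rw [abs_mul, abs_of_pos (by norm_num : (0 : ℤ) < 2)]
    have h7 := he4 i hi
    have h8 : (2 : ℤ) * |e' i| ≤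
        ((2 * (C * Module.finrank ℚ K * (D.card + 1) * (H + 1)) ^ (C * (D.card + 1)) : ℕ) : ℤ) := by
      push_cast at h7 ⊢
      linarith
    refine h8.trans ?_
    exact_mod_cast hb

end Pool.Agent.H612.LR
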