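import Pool.Agent.H612.LR.Stm

/-!
# MASK: small multiplicative relations in a number field
-/

set_option autoImplicit false

namespace Pool.Agent.H612.LR

theorem mask_arith (C1 C2 D0 n H : ℕ) (hD0 : 1 ≤ D0) (X t w : ℕ)
    (hX : X = n * H * (C1 * D0) ^ C1 + 1) (ht : t ≤ X ^ n) (hw : w ≤ (C2 * D0) ^ C2) :
    w * (t + 1) ≤ ((C1 + C2 + 2) * D0 * (n + 1) * (H + 1)) ^ ((C1 + C2 + 2) * (n + 1)) := by
  set Y := (C1 + C2 + 2) * D0 * (n + 1) * (H + 1) with hY
  have hY0 : (C1 + C2 + 2) ≤ Y := by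
    rw [hY]
    calc C1 + C2 + 2 = (C1 + C2 + 2) * 1 * 1 * 1 := by ring
      _ ≤ (C1 + C2 + 2) * D0 * (n + 1) * (H + 1) := by gcongr <;> omega
  have hY2 : 2 ≤ Y := by omega
  have hM1 : 1 ≤ (C1 * D0) ^ C1 := by
    rcases Nat.eq_zero_or_pos C1 with h | h
    · subst h; simp
    · exact Nat.one_le_pow _ _ (Nat.mul_pos h hD0)
  have hM2 : (C1 * D0) ^ C1 ≤ Y ^ C1 := by
    apply Nat.pow_le_pow_left
    rw [hY]
    calc C1 * D0 = C1 * D0 * 1 * 1 := by ring
      _ ≤ (C1 + C2 + 2) * D0 * (n + 1) * (H + 1) := by gcongr <;> omega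
  have hM3 : (C2 * D0) ^ C2 ≤ Y ^ C2 := by
    apply Nat.pow_le_pow_left
    rw [hY]
    calc C2 * D0 = C2 * D0 * 1 * 1 := by ring
      _ ≤ (C1 + C2 + 2) * D0 * (n + 1) * (H + 1) := by gcongr <;> omega
  have hX1 : X ≤ Y ^ (C1 + 1) := by
    have h1 : X ≤ ((n + 1) * (H + 1)) * (C1 * D0) ^ C1 := by
      rw [hX]; nlinarith [Nat.zero_le (n * (C1 * D0) ^ C1), Nat.zero_le (H * (C1 * D0) ^ C1)]
    have h2 : (n + 1) * (H + 1) ≤ Y := by
      rw [hY]
      calc (n + 1) * (H + 1) = 1 * 1 * (n + 1) * (H + 1) := by ring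
        _ ≤ (C1 + C2 + 2) * D0 * (n + 1) * (H + 1) := by gcongr; omega
    calc X ≤ ((n + 1) * (H + 1)) * (C1 * D0) ^ C1 := h1
      _ ≤ Y * Y ^ C1 := Nat.mul_le_mul h2 hM2
      _ = Y ^ (C1 + 1) := by ring
  have hXpos : 1 ≤ X := by omega
  have ht1 : t + 1 ≤ Y * Y ^ ((C1 + 1) * n) := by
    have h1 : X ^ n ≤ Y ^ ((C1 + 1) * n) := by
      rw [pow_mul]; exact Nat.pow_le_pow_left hX1 n
    have h2 : 1 ≤ Y ^ ((C1 + 1) * n) := Nat.one_le_pow _ _ (by omega)
    calc t + 1 ≤ Y ^ ((C1 + 1) * n) + Y ^ ((C1 + 1) * n) := by omega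
      _ = 2 * Y ^ ((C1 + 1) * n) := by ring
      _ ≤ Y * Y ^ ((C1 + 1) * n) := Nat.mul_le_mul_right _ hY2
  calc w * (t + 1) ≤ Y ^ C2 * (Y * Y ^ ((C1 + 1) * n)) := Nat.mul_le_mul (hw.trans hM3) ht1
    _ = Y ^ (C2 + 1 + (C1 + 1) * n) := by rw [pow_add, pow_add]; ring
    _ ≤ Y ^ ((C1 + C2 + 2) * (n + 1)) := by
        apply Nat.pow_le_pow_right (by omega)
        nlinarith [Nat.zero_le (C2 * n), Nat.zero_le C1, Nat.zero_le n]

theorem t_MASK (h1 : S_DIR) (h2 : S_HLOW) (h3 : S_TORK) : S_MASK := by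
  obtain ⟨C1, hC1⟩ := h2
  obtain ⟨C2, hC2⟩ := h3
  refine ⟨C1 + C2 + 2, ?_⟩
  intro K _ _ D α H hα e he hne
  classical
  set D0 := Module.finrank ℚ K with hD0
  have hD0pos : 1 ≤ D0 := Module.finrank_pos
  -- the maximal exponent
  set D' := D.filter (fun i => e i ≠ 0) with hD'
  have hD'ne : D'.Nonempty := by
    obtain ⟨i, hi, h⟩ := hne
    exact ⟨i, Finset.mem_filter.2 ⟨hi, h⟩⟩
  obtain ⟨i0, hi0, hmax⟩ := Finset.exists_max_image D' (fun i => |e i|) hD'ne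
  obtain ⟨hi0D, hei0⟩ := Finset.mem_filter.1 hi0
  set X := D.card * H * (C1 * D0) ^ C1 + 1 with hX
  have hX1 : 1 ≤ X := by omega
  obtain ⟨t, m, ht1, htX, hm⟩ := h1 (D'.erase i0) X (fun i => (e i : ℝ) / (e i0 : ℝ)) hX1
  have htX' : t ≤ X ^ D.card := by
    refine htX.trans (Nat.pow_le_pow_right hX1 ?_)
    exact Finset.card_le_card ((Finset.erase_subset _ _).trans (Finset.filter_subset _ _))
  have hei0R : (e i0 : ℝ) ≠ 0 := by exact_mod_cast hei0
  have habs : 0 < |(e i0 : ℝ)| := abs_pos.2 hei0R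
  -- the exponents
  set M : ℕ → ℤ := fun i => if i = i0 then (t : ℤ) else if e i = 0 then 0 else m i with hM
  have hMi0 : M i0 = t := by simp [hM]
  have hM0 : ∀ i, e i = 0 → M i = 0 := by
    intro i hi
    have : i ≠ i0 := by rintro rfl; exact hei0 hi
    simp [hM, this, hi]
  -- closeness
  have hclose : ∀ i ∈ D, |((M i * e i0 - t * e i : ℤ) : ℝ)| * X ≤ |(e i0 : ℝ)| := by
    intro i hi
    by_cases h0 : i = i0
    · subst h0
      rw [hMi0]; simp
    · by_cases hz : e i = 0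
      · rw [hM0 i hz, hz]; simp
      · have hmem : i ∈ D'.erase i0 :=
          Finset.mem_erase.2 ⟨h0, Finset.mem_filter.2 ⟨hi, hz⟩⟩
        have h4 := hm i hmem
        have hMi : M i = m i := by simp [hM, h0, hz]
        have h5 : ((M i * e i0 - t * e i : ℤ) : ℝ) =
            -(((t : ℝ) * ((e i : ℝ) / (e i0 : ℝ)) - m i) * e i0) := by
          rw [hMi]; push_cast; field_simp; ring
        rw [h5, abs_neg, abs_mul]
        calc |(t : ℝ) * ((e i : ℝ) / (e i0 : ℝ)) - m i| * |(e i0 : ℝ)| * X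
            = (|(t : ℝ) * ((e i : ℝ) / (e i0 : ℝ)) - m i| * X) * |(e i0 : ℝ)| := by ring
          _ ≤ 1 * |(e i0 : ℝ)| := by gcongr
          _ = |(e i0 : ℝ)| := one_mul _
  have hMb : ∀ i ∈ D, |(M i : ℝ)| ≤ t + 1 := by
    intro i hi
    by_cases h0 : e i = 0
    · rw [hM0 i h0]; simp; positivity
    · have h4 := hclose i hi
      have h5 : |(e i : ℝ)| ≤ |(e i0 : ℝ)| := by
        have := hmax i (Finset.mem_filter.2 ⟨hi, h0⟩)
        exact_mod_cast this
      have hXR : (1 : ℝ) ≤ X := by exact_mod_cast hX1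
      have h6 : |((M i * e i0 - t * e i : ℤ) : ℝ)| ≤ |(e i0 : ℝ)| := by
        nlinarith [abs_nonneg ((M i * e i0 - t * e i : ℤ) : ℝ)]
      have h7 : |(M i : ℝ)| * |(e i0 : ℝ)| ≤ (t + 1) * |(e i0 : ℝ)| := by
        have h8 : (M i : ℝ) * (e i0 : ℝ) = ((M i * e i0 - t * e i : ℤ) : ℝ) + t * (e i : ℝ) := by
          push_cast; ring
        rw [← abs_mul, h8]
        calc |((M i * e i0 - t * e i : ℤ) : ℝ) + t * (e i : ℝ)|
            ≤ |((M i * e i0 - t * e i : ℤ) : ℝ)| + |t * (e i : ℝ)| := abs_add_le _ _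
          _ = |((M i * e i0 - t * e i : ℤ) : ℝ)| + t * |(e i : ℝ)| := by
              rw [abs_mul, abs_of_nonneg (by positivity : (0 : ℝ) ≤ (t : ℝ))]
          _ ≤ |(e i0 : ℝ)| + t * |(e i0 : ℝ)| := by gcongr
          _ = (t + 1) * |(e i0 : ℝ)| := by ring
      exact le_of_mul_le_mul_right h7 habs
  -- the element
  set y : K := ∏ i ∈ D, α i ^ M i with hy
  have hypow : y ^ (e i0) = ∏ i ∈ D, α i ^ (M i * e i0 - t * e i) := by
    have h4 : ∏ i ∈ D, α i ^ (M i * e i0 - t * e i) =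
        (∏ i ∈ D, α i ^ M i) ^ (e i0) * ((∏ i ∈ D, α i ^ e i) ^ (t : ℤ))⁻¹ := by
      rw [← Finset.prod_zpow, ← Finset.prod_zpow, ← Finset.prod_inv_distrib,
        ← Finset.prod_mul_distrib]
      apply Finset.prod_congr rfl
      intro i hi
      rw [zpow_sub₀ (hα i hi).1, ← zpow_mul, ← zpow_mul, mul_comm (t : ℤ), div_eq_mul_inv]
    rw [h4, he, hy]; simp
  have hheight : Height.logHeight₁ y * X ≤ D.card * H := by
    have h4 : Height.logHeight₁ (y ^ (e i0)) = ((e i0).natAbs : ℝ) * Height.logHeight₁ y :=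
      Height.logHeight₁_zpow y (e i0)
    have h5 : Height.logHeight₁ (y ^ (e i0)) ≤
        ∑ i ∈ D, |((M i * e i0 - t * e i : ℤ) : ℝ)| * H := by
      rw [hypow]
      refine (Height.logHeight₁_prod_le D _).trans ?_
      apply Finset.sum_le_sum
      intro i hi
      rw [Height.logHeight₁_zpow, Nat.cast_natAbs, Int.cast_abs]
      have := (hα i hi).2
      gcongr
    have h6 : ((e i0).natAbs : ℝ) = |(e i0 : ℝ)| := by rw [Nat.cast_natAbs, Int.cast_abs]
    have h7 : |(e i0 : ℝ)| * (Height.logHeight₁ y * X) ≤ |(e i0 : ℝ)| * (D.card * H) := by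
      calc |(e i0 : ℝ)| * (Height.logHeight₁ y * X)
          = (((e i0).natAbs : ℝ) * Height.logHeight₁ y) * X := by rw [h6]; ring
        _ = Height.logHeight₁ (y ^ (e i0)) * X := by rw [h4]
        _ ≤ (∑ i ∈ D, |((M i * e i0 - t * e i : ℤ) : ℝ)| * H) * X := by gcongr
        _ = ∑ i ∈ D, (|((M i * e i0 - t * e i : ℤ) : ℝ)| * X) * H := by
            rw [Finset.sum_mul]; apply Finset.sum_congr rfl; intro i _; ring
        _ ≤ ∑ _i ∈ D, |(e i0 : ℝ)| * H := by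
            apply Finset.sum_le_sum
            intro i hi
            have := hclose i hi
            gcongr
        _ = |(e i0 : ℝ)| * (D.card * H) := by
            rw [Finset.sum_const, nsmul_eq_mul]; ring
    exact le_of_mul_le_mul_left h7 habs
  -- y is a root of unity
  have hy0 : y ≠ 0 := by
    rw [hy, Finset.prod_ne_zero_iff]
    intro i hi
    exact zpow_ne_zero _ (hα i hi).1
  have hroot : ∃ n : ℕ, 1 ≤ n ∧ y ^ n = 1 := by
    by_contra hcon
    push Not at hcon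
    have h4 := hC1 K y hy0 hcon
    have h5 : (X : ℝ) ≤ (Height.logHeight₁ y * X) * ((C1 * D0 : ℕ) : ℝ) ^ C1 := by
      have hX0 : (0 : ℝ) ≤ X := by positivity
      calc (X : ℝ) = 1 * X := (one_mul _).symm
        _ ≤ (Height.logHeight₁ y * ((C1 * D0 : ℕ) : ℝ) ^ C1) * X := by gcongr
        _ = _ := by ring
    have h6 : (X : ℝ) ≤ (D.card * H) * ((C1 * D0 : ℕ) : ℝ) ^ C1 := by
      refine h5.trans ?_
      gcongr
    have h7 : X ≤ D.card * H * (C1 * D0) ^ C1 := by exact_mod_cast h6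
    omega
  obtain ⟨w, hw1, hw2, hw3⟩ := hC2 K y hroot
  refine ⟨fun i => w * M i, ?_, ⟨i0, hi0D, ?_⟩, ?_, ?_⟩
  · have h4 : ∏ i ∈ D, α i ^ ((w : ℤ) * M i) = y ^ (w : ℤ) := by
      rw [hy, ← Finset.prod_zpow]
      apply Finset.prod_congr rfl
      intro i _
      rw [← zpow_mul, mul_comm]
    rw [h4, zpow_natCast, hw3]
  · show (w : ℤ) * M i0 ≠ 0
    rw [hMi0]
    have : (0 : ℤ) < w * t := by exact_mod_cast Nat.mul_pos hw1 ht1
    exact ne_of_gt this
  · intro i _ h0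
    show (w : ℤ) * M i = 0
    rw [hM0 i h0, mul_zero]
  · intro i hi
    show |(w : ℤ) * M i| ≤ _
    have h4 : |M i| ≤ t + 1 := by exact_mod_cast hMb i hi
    have h5 := mask_arith C1 C2 D0 D.card H hD0pos X t w hX htX' hw2
    have h6 : |(w : ℤ) * M i| ≤ ((w * (t + 1) : ℕ) : ℤ) := by
      rw [abs_mul, Nat.abs_cast]
      push_cast
      gcongr
    refine h6.trans ?_
    exact_mod_cast h5

end Pool.Agent.H612.LR
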