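import Pool.Agent.H612.LR.Stm

namespace Pool.Agent.H612.LR

open Polynomial Filter Topology

theorem mean_geom (w : ℂ) (hw : ‖w‖ = 1) (hw1 : w ≠ 1) (c : ℂ) :
    Tendsto (fun N : ℕ => ((N : ℝ)⁻¹) • ∑ n ∈ Finset.range N, c * w ^ n) atTop (𝓝 0) := by
  have hpos : 0 < ‖w - 1‖ := norm_pos_iff.2 (sub_ne_zero.2 hw1)
  have hb : ∀ N : ℕ, ‖((N : ℝ)⁻¹) • ∑ n ∈ Finset.range N, c * w ^ n‖ ≤
      (‖c‖ * (2 / ‖w - 1‖)) * (N : ℝ)⁻¹ := by
    intro N
    rw [norm_smul, ← Finset.mul_sum, norm_mul, geom_sum_eq hw1, norm_div, norm_inv,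
      RCLike.norm_natCast, mul_comm]
    have h1 : ‖w ^ N - 1‖ ≤ 2 := by
      calc ‖w ^ N - 1‖ ≤ ‖w ^ N‖ + ‖(1 : ℂ)‖ := norm_sub_le _ _
        _ = 2 := by rw [norm_pow, hw]; norm_num
    gcongr
  have hl : Tendsto (fun N : ℕ => (‖c‖ * (2 / ‖w - 1‖)) * (N : ℝ)⁻¹) atTop (𝓝 0) := by
    have := (tendsto_inv_atTop_nhds_zero_nat (𝕜 := ℝ)).const_mul (‖c‖ * (2 / ‖w - 1‖))
    simpa using this
  exact squeeze_zero_norm hb hl

theorem mean_one (c : ℂ) :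
    Tendsto (fun N : ℕ => ((N : ℝ)⁻¹) • ∑ n ∈ Finset.range N, c * (1 : ℂ) ^ n) atTop (𝓝 c) := by
  have h : Tendsto (fun _ : ℕ => c * (1 : ℂ)) atTop (𝓝 (c * 1)) := tendsto_const_nhds
  have h2 := h.cesaro_smul
  simpa using h2

theorem t_MEAN : S_MEAN := by
  intro D g c hg hinj hlim i0 hi0
  set w : ℕ → ℂ := fun i => g i * (starRingEnd ℂ) (g i0) with hw
  have hn0 : ‖(starRingEnd ℂ) (g i0)‖ = 1 := by rw [RCLike.norm_conj]; exact hg i0 hi0
  have hwn : ∀ i ∈ D, ‖w i‖ = 1 := by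
    intro i hi
    rw [hw]
    simp only [norm_mul, hn0, hg i hi, mul_one]
  have hunit : g i0 * (starRingEnd ℂ) (g i0) = 1 := by
    rw [Complex.mul_conj, Complex.normSq_eq_norm_sq, hg i0 hi0]
    norm_num
  have hw0 : w i0 = 1 := hunit
  have hw1 : ∀ i ∈ D, i ≠ i0 → w i ≠ 1 := by
    intro i hi hne h1
    apply hne
    apply hinj i hi i0 hi0
    have h2 : g i * ((starRingEnd ℂ) (g i0) * g i0) = g i0 := by
      rw [← mul_assoc]
      change w i * g i0 = g i0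
      rw [h1, one_mul]
    rw [mul_comm ((starRingEnd ℂ) (g i0)), hunit, mul_one] at h2
    exact h2
  -- the rotated sum tends to zero
  have hlim' : Tendsto (fun n : ℕ => ∑ i ∈ D, c i * w i ^ n) atTop (𝓝 0) := by
    have e : ∀ n : ℕ, ∑ i ∈ D, c i * w i ^ n =
        (∑ i ∈ D, c i * g i ^ n) * (starRingEnd ℂ) (g i0) ^ n := by
      intro n
      rw [Finset.sum_mul]
      apply Finset.sum_congr rfl
      intro i _
      rw [hw]
      simp only [mul_pow]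
      ring
    simp only [e]
    rw [tendsto_zero_iff_norm_tendsto_zero] at hlim ⊢
    refine hlim.congr (fun n => ?_)
    rw [norm_mul, norm_pow, hn0, one_pow, mul_one]
  have h1 := hlim'.cesaro_smul
  have h2 : Tendsto (fun N : ℕ => ∑ i ∈ D, ((N : ℝ)⁻¹) • ∑ n ∈ Finset.range N, c i * w i ^ n)
      atTop (𝓝 (∑ i ∈ D, if i = i0 then c i else 0)) := by
    apply tendsto_finsetSum
    intro i hi
    by_cases h : i = i0
    · rw [if_pos h, h, hw0]
      exact mean_one _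
    · rw [if_neg h]
      exact mean_geom (w i) (hwn i hi) (hw1 i hi h) (c i)
  have e2 : ∀ N : ℕ, ∑ i ∈ D, ((N : ℝ)⁻¹) • ∑ n ∈ Finset.range N, c i * w i ^ n =
      ((N : ℝ)⁻¹) • ∑ n ∈ Finset.range N, ∑ i ∈ D, c i * w i ^ n := by
    intro N
    rw [← Finset.smul_sum, Finset.sum_comm]
  simp only [e2] at h2
  have h3 := tendsto_nhds_unique h1 h2
  rw [Finset.sum_ite_eq' D i0 c, if_pos hi0] at h3
  exact h3.symm

end Pool.Agent.H612.LR
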