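import Pool.Agent.H612.LR.StmF
import Pool.Agent.H612.PG.FmPoly

/-!
# PLY: the formula is computable in polynomial time (helper406)
-/

namespace Pool.Agent.NPC.H612.LRP

open Pool.Agent.NPC Pool.Agent.NPC.ER Pool.Agent.NPC.H612 Pool.Agent.H612.PG Pool.Agent.H612.LR
open Pool.Agent.NPC.H612.PGP

section

variable {α : Type} [TEnc α]

/-! ### Complex terms -/

theorem poly_cv {T a b c : α → ℕ} (hT : Poly T) (ha : Poly a) (hb : Poly b) (hc : Poly c) :
    Poly (fun x => cv (T x) (a x) (b x) (c x)) :=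
  Poly.pair (poly_vr hT ha hb hc (Poly.const 0) (Poly.const 0) (Poly.const 0) (Poly.const 0))
    (poly_vr hT ha hb hc (Poly.const 1) (Poly.const 0) (Poly.const 0) (Poly.const 0))

theorem poly_rv {T a b c : α → ℕ} (hT : Poly T) (ha : Poly a) (hb : Poly b) (hc : Poly c) :
    Poly (fun x => Pool.Agent.H612.LR.rv (T x) (a x) (b x) (c x)) :=
  poly_vr hT ha hb hc (Poly.const 0) (Poly.const 0) (Poly.const 0) (Poly.const 0)

theorem poly_cadd {z w : α → CT} (hz : Poly z) (hw : Poly w) : Poly (fun a => cadd (z a) (w a)) :=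
  Poly.pair (poly_tadd (Poly.fst hz) (Poly.fst hw)) (poly_tadd (Poly.snd hz) (Poly.snd hw))

theorem poly_csub {z w : α → CT} (hz : Poly z) (hw : Poly w) : Poly (fun a => csub (z a) (w a)) :=
  Poly.pair (poly_subT (Poly.fst hz) (Poly.fst hw)) (poly_subT (Poly.snd hz) (Poly.snd hw))

theorem poly_cmul {z w : α → CT} (hz : Poly z) (hw : Poly w) : Poly (fun a => cmul (z a) (w a)) :=
  Poly.pair (poly_subT (poly_tmul (Poly.fst hz) (Poly.fst hw))
      (poly_tmul (Poly.snd hz) (Poly.snd hw)))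
    (poly_tadd (poly_tmul (Poly.fst hz) (Poly.snd hw)) (poly_tmul (Poly.snd hz) (Poly.fst hw)))

theorem poly_cconj {z : α → CT} (hz : Poly z) : Poly (fun a => cconj (z a)) :=
  Poly.pair (Poly.fst hz) (poly_tneg (Poly.snd hz))

theorem poly_creal {t : α → Tm} (ht : Poly t) : Poly (fun a => creal (t a)) :=
  Poly.pair ht (Poly.const _)

theorem poly_cns {z : α → CT} (hz : Poly z) : Poly (fun a => cns (z a)) :=
  poly_tadd (poly_tmul (Poly.fst hz) (Poly.fst hz)) (poly_tmul (Poly.snd hz) (Poly.snd hz))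

theorem poly_ceq {z w : α → CT} (hz : Poly z) (hw : Poly w) : Poly (fun a => ceq (z a) (w a)) :=
  poly_fand (poly_feq (Poly.fst hz) (Poly.fst hw)) (poly_feq (Poly.snd hz) (Poly.snd hw))

theorem poly_csum {n : α → ℕ} {f : α → ℕ → CT} (hn : UPoly n)
    (hf : Poly (fun q : α × ℕ => f q.1 q.2)) : Poly (fun a => csum (n a) (f a)) :=
  Poly.pair (poly_sumR (f := fun a i => (f a i).1) hn (Poly.fst hf))
    (poly_sumR (f := fun a i => (f a i).2) hn (Poly.snd hf))

theorem poly_sqT' {t : α → Tm} (ht : Poly t) : Poly (fun a => sqT' (t a)) := poly_tmul ht ht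

theorem poly_pow2T {N : α → ℕ} (hN : UPoly N) : Poly (fun a => pow2T (N a)) :=
  poly_prodR (f := fun _ _ => numT 2) hN (Poly.const _)

theorem poly_bitF {t : α → Tm} (ht : Poly t) : Poly (fun a => bitF (t a)) :=
  poly_for (poly_feq ht (Poly.const _)) (poly_feq ht (Poly.const _))

theorem poly_numB {Nb : α → ℕ} {f : α → ℕ → Tm} (hNb : UPoly Nb)
    (hf : Poly (fun q : α × ℕ => f q.1 q.2)) : Poly (fun a => numB (Nb a) (f a)) :=
  poly_sumR (f := fun a t => Tm.mul (f a t) (powR (Nb a) (numT 2) (Nb a - 1 - t))) hNb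
    (poly_tmul hf (poly_powR (uup hNb) (Poly.const _)
      (Poly.sub (Poly.sub (up hNb.toPoly) (Poly.const 1)) pl)))

theorem poly_powF {Nb : α → ℕ} {x : α → CT} {b : α → ℕ → Tm} {s : α → ℕ → CT} (hNb : UPoly Nb)
    (hx : Poly x) (hb : Poly (fun q : α × ℕ => b q.1 q.2))
    (hs : Poly (fun q : α × ℕ => s q.1 q.2)) :
    Poly (fun a => powF (Nb a) (x a) (b a) (s a)) := by
  unfold powF
  have h0 : Poly (fun a => s a 0) :=
    Poly.comp (g := fun p : α × ℕ => s p.1 p.2) hs (Poly.pair Poly.id (Poly.const 0))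
  have h1 : Poly (fun q : α × ℕ => s q.1 (q.2 + 1)) :=
    Poly.comp (g := fun p : α × ℕ => s p.1 p.2) hs (Poly.pair (Poly.fst Poly.id) (Poly.succ pl))
  refine poly_fand (poly_ceq h0 (Poly.const _)) (poly_allR hNb (poly_ceq h1 ?_))
  exact poly_cmul (poly_cmul hs hs) (poly_cadd (poly_cmul (poly_creal hb) (up hx))
    (poly_creal (poly_subT (Poly.const _) hb)))

/-! ### Variables -/

theorem poly_lamC {i : α → ℕ} (hi : Poly i) : Poly (fun a => lamC (i a)) :=
  poly_cv (Poly.const _) hi (Poly.const _) (Poly.const _)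

theorem poly_cC {i j : α → ℕ} (hi : Poly i) (hj : Poly j) : Poly (fun a => cC (i a) (j a)) :=
  poly_cv (Poly.const _) hi hj (Poly.const _)

theorem poly_AT {i : α → ℕ} (hi : Poly i) : Poly (fun a => AT (i a)) :=
  poly_rv (Poly.const _) hi (Poly.const _) (Poly.const _)

theorem poly_UT {i : α → ℕ} (hi : Poly i) : Poly (fun a => UT (i a)) :=
  poly_rv (Poly.const _) hi (Poly.const _) (Poly.const _)

theorem poly_qB {i : α → ℕ} (hi : Poly i) : Poly (fun a => qB (i a)) :=
  poly_rv (Poly.const _) hi (Poly.const _) (Poly.const _)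

theorem poly_mB {i : α → ℕ} (hi : Poly i) : Poly (fun a => mB (i a)) :=
  poly_rv (Poly.const _) hi (Poly.const _) (Poly.const _)

theorem poly_PB {i j : α → ℕ} (hi : Poly i) (hj : Poly j) : Poly (fun a => PB (i a) (j a)) :=
  poly_rv (Poly.const _) hi hj (Poly.const _)

theorem poly_aB {j i t : α → ℕ} (hj : Poly j) (hi : Poly i) (ht : Poly t) :
    Poly (fun a => aB (j a) (i a) (t a)) := poly_rv (Poly.const _) hj hi ht

theorem poly_bB {j i t : α → ℕ} (hj : Poly j) (hi : Poly i) (ht : Poly t) :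
    Poly (fun a => bB (j a) (i a) (t a)) := poly_rv (Poly.const _) hj hi ht

theorem poly_WC {i j : α → ℕ} (hi : Poly i) (hj : Poly j) : Poly (fun a => WC (i a) (j a)) :=
  poly_cv (Poly.const _) hi hj (Poly.const _)

theorem poly_ZC {i j : α → ℕ} (hi : Poly i) (hj : Poly j) : Poly (fun a => ZC (i a) (j a)) :=
  poly_cv (Poly.const _) hi hj (Poly.const _)

theorem poly_BT {i j : α → ℕ} (hi : Poly i) (hj : Poly j) : Poly (fun a => BT (i a) (j a)) :=
  poly_rv (Poly.const _) hi hj (Poly.const _)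

theorem poly_FT' {i j : α → ℕ} (hi : Poly i) (hj : Poly j) :
    Poly (fun a => Pool.Agent.H612.LR.FT (i a) (j a)) :=
  poly_rv (Poly.const _) hi hj (Poly.const _)

theorem poly_KT {i j : α → ℕ} (hi : Poly i) (hj : Poly j) : Poly (fun a => KT (i a) (j a)) :=
  poly_rv (Poly.const _) hi hj (Poly.const _)

theorem poly_xiC {i : α → ℕ} (hi : Poly i) : Poly (fun a => xiC (i a)) :=
  poly_cv (Poly.const _) hi (Poly.const _) (Poly.const _)

theorem poly_xC {i : α → ℕ} (hi : Poly i) : Poly (fun a => xC (i a)) :=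
  poly_cv (Poly.const _) hi (Poly.const _) (Poly.const _)

theorem poly_hC {j i : α → ℕ} (hj : Poly j) (hi : Poly i) : Poly (fun a => hC (j a) (i a)) :=
  poly_cv (Poly.const _) hj hi (Poly.const _)

/-- the variables of a computation of a power -/
theorem poly_cvt (n : ℕ) {a b c : α → ℕ} (ha : Poly a) (hb : Poly b) (hc : Poly c) :
    Poly (fun x => cv n (a x) (b x) (c x)) := poly_cv (Poly.const n) ha hb hc

/-! ### The parts -/

theorem poly_coef {l : α → Rec} {i : α → ℕ} (hl : Poly l) (hi : Poly i) :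
    Poly (fun a => coef (l a) (i a)) := Poly.fst (Poly.getD hl hi (Poly.const (0, 0)))

theorem poly_ini {l : α → Rec} {i : α → ℕ} (hl : Poly l) (hi : Poly i) :
    Poly (fun a => ini (l a) (i a)) := Poly.snd (Poly.getD hl hi (Poly.const (0, 0)))

theorem poly_g1 {l : α → Rec} (hl : Poly l) : Poly (fun a => g1 (l a)) :=
  poly_allR (UPoly.length hl) (ER.poly_eqRat (poly_AT pl) (poly_coef (up hl) pl))

theorem poly_g2 {l : α → Rec} (hl : Poly l) : Poly (fun a => g2 (l a)) :=
  poly_allR (UPoly.length hl) (ER.poly_eqRat (poly_UT pl) (poly_ini (up hl) pl))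

theorem poly_g3 {k : α → ℕ} (hk : UPoly k) : Poly (fun a => g3 (k a)) := by
  have hk' := hk.toPoly
  unfold g3
  refine poly_allR (UPoly.add hk (upoly_sq hk)) ?_
  refine poly_feq (poly_UT (Poly.add pl (up hk'))) ?_
  refine poly_sumR (uup hk) (poly_tmul (poly_AT pl) ?_)
  exact poly_UT (Poly.sub (Poly.sub (Poly.add (up pl) (up (up hk'))) (Poly.const 1)) pl)

theorem poly_g4 {k R : α → ℕ} (hk : UPoly k) (hR : UPoly R) : Poly (fun a => g4 (k a) (R a)) := by
  unfold g4
  refine poly_fand (poly_fand (Poly.const _) (poly_allR hk (poly_feq (poly_BT (Poly.const _)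
    (Poly.succ pl)) (Poly.const _)))) (poly_allR hR (poly_fand (poly_feq (poly_BT (Poly.succ pl)
    (Poly.const _)) (Poly.const _)) (poly_allR (uup hk) ?_)))
  exact poly_feq (poly_BT (Poly.succ (up pl)) (Poly.succ pl))
    (poly_tadd (poly_BT (up pl) pl) (poly_BT (up pl) (Poly.succ pl)))

theorem poly_g5 {k R : α → ℕ} (hk : UPoly k) (hR : UPoly R) : Poly (fun a => g5 (k a) (R a)) := by
  unfold g5
  refine poly_allR hk (poly_fand (poly_ceq (poly_WC pl (Poly.const _)) (Poly.const _))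
    (poly_allR (uup hR) ?_))
  exact poly_ceq (poly_WC (up pl) (Poly.succ pl)) (poly_cmul (poly_WC (up pl) pl)
    (poly_lamC (up pl)))

theorem poly_g6 {k : α → ℕ} (hk : UPoly k) : Poly (fun a => g6 (k a)) := by
  unfold g6
  refine poly_allR hk (poly_fand (poly_flt (Poly.const _) (poly_cns (poly_lamC pl)))
    (poly_allR (uup hk) ?_))
  exact Poly.ite (Poly.decide_eq (up pl) pl) (Poly.const _) (poly_flt (Poly.const _)
    (poly_cns (poly_csub (poly_lamC (up pl)) (poly_lamC pl))))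

theorem poly_g7 {k : α → ℕ} (hk : UPoly k) : Poly (fun a => g7 (k a)) := by
  have hk' := hk.toPoly
  unfold g7
  refine poly_allR (UPoly.add hk (upoly_sq hk)) ?_
  refine poly_ceq (poly_creal (poly_UT (Poly.add pl (up hk')))) ?_
  refine poly_csum (uup hk) (poly_csum (uup (uup hk)) ?_)
  have hn : Poly (fun q : ((α × ℕ) × ℕ) × ℕ => q.1.1.2 + k q.1.1.1) :=
    Poly.add (up (up pl)) (up (up (up hk')))
  exact poly_cmul (poly_cmul (poly_cC (up pl) pl) (poly_creal (poly_BT hn pl)))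
    (poly_WC (up pl) hn)

theorem poly_g8 {k Nb : α → ℕ} (hk : UPoly k) (hNb : UPoly Nb) :
    Poly (fun a => g8 (k a) (Nb a)) := by
  unfold g8
  refine poly_allR hNb (poly_fand (poly_fand (poly_bitF (poly_qB pl)) (poly_bitF (poly_mB pl)))
    (poly_allR (uup hk) (poly_fand (poly_bitF (poly_PB pl (up pl))) (poly_allR (uup (uup hk)) ?_))))
  exact poly_fand (poly_bitF (poly_aB pl (up pl) (up (up pl))))
    (poly_bitF (poly_bB pl (up pl) (up (up pl))))

theorem poly_g9 {k Nb : α → ℕ} (hk : UPoly k) (hNb : UPoly Nb) :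
    Poly (fun a => g9 (k a) (Nb a)) := by
  unfold g9
  refine poly_allR hk (poly_fand (poly_powF (uup hNb) (poly_lamC pl) (poly_qB pl) ?_)
    (poly_powF (uup hNb) (poly_lamC pl) (poly_mB pl) ?_))
  · exact poly_cvt 16 (up pl) (Poly.const _) pl
  · exact poly_cvt 17 (up pl) (Poly.const _) pl

theorem poly_g10 {Nb : α → ℕ} (hNb : UPoly Nb) : Poly (fun a => g10 (Nb a)) := by
  unfold g10
  exact poly_fand (Poly.const _) (poly_fle (Poly.const _) (poly_numB hNb (poly_qB pl)))

theorem poly_rootF {k i : α → ℕ} (hk : UPoly k) (hi : Poly i) :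
    Poly (fun a => rootF (k a) (i a)) := by
  have hk' := hk.toPoly
  unfold rootF
  refine poly_ceq (poly_WC hi hk') (poly_csum hk (poly_cmul (poly_creal (poly_AT pl)) ?_))
  exact poly_WC (up hi) (Poly.sub (Poly.sub (up hk') (Poly.const 1)) pl)

theorem poly_flagF {i : α → ℕ} (hi : Poly i) (t : ℕ) : Poly (fun a => flagF (i a) t) := by
  unfold flagF
  refine poly_allR (UPoly.const 3) (poly_feq (poly_FT' (up hi) pl) ?_)
  exact Poly.ite (Poly.decide_eq pl (Poly.const t)) (Poly.const _) (Poly.const _)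

theorem poly_g11 {k : α → ℕ} (hk : UPoly k) : Poly (fun a => g11 (k a)) := by
  unfold g11
  refine poly_allR hk (poly_for (poly_flagF pl 0) (poly_for (poly_fand (poly_flagF pl 1)
    (poly_fand (poly_feq (poly_cns (poly_lamC pl)) (Poly.const _)) (poly_rootF (uup hk) pl)))
    (poly_fand (poly_flagF pl 2) (poly_flt (poly_cns (poly_lamC pl)) (Poly.const _)))))

theorem poly_g12 {k Nb : α → ℕ} (hk : UPoly k) (hNb : UPoly Nb) :
    Poly (fun a => g12 (k a) (Nb a)) := by
  have hN := hNb.toPoly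
  unfold g12
  refine poly_allR hk (poly_exR (uup hk) (poly_fand (poly_allR (uup (uup hk)) ?_) ?_))
  · exact poly_feq (poly_KT (up (up pl)) pl) (Poly.ite (Poly.decide_eq pl (up pl)) (Poly.const _)
      (Poly.const _))
  · exact poly_ceq (poly_cvt 16 (up pl) (Poly.const _) (up (up hN)))
      (poly_cvt 16 pl (Poly.const _) (up (up hN)))

theorem poly_canF {k Nb s j : α → ℕ} (t : ℕ) (hk : UPoly k) (hNb : Poly Nb) (hs : Poly s)
    (hj : Poly j) : Poly (fun a => canF (k a) (Nb a) t (s a) (j a)) := by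
  unfold canF
  refine poly_ceq (poly_csum hk (poly_cmul (poly_creal (poly_tmul (poly_FT' pl (Poly.const t))
    (poly_KT pl (up hs)))) (poly_cmul (poly_cC pl (up hj)) ?_))) (Poly.const _)
  exact poly_cvt 17 pl (Poly.const _) (up hNb)

theorem poly_g13 {k Nb : α → ℕ} (hk : UPoly k) (hNb : UPoly Nb) :
    Poly (fun a => g13 (k a) (Nb a)) := by
  have hN := hNb.toPoly
  unfold g13
  exact poly_allR hk (poly_allR (uup hk) (poly_canF 0 (uup (uup hk)) (up (up hN)) (up pl) pl))

theorem poly_g14 {k Nb J : α → ℕ} (hk : UPoly k) (hNb : UPoly Nb) (hJ : Poly J) :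
    Poly (fun a => g14 (k a) (Nb a) (J a)) := by
  have hN := hNb.toPoly
  unfold g14
  refine poly_allR hk (poly_allR (uup hk) ?_)
  exact Poly.ite (Poly.decide_lt (up (up hJ)) pl)
    (poly_canF 1 (uup (uup hk)) (up (up hN)) (up pl) pl) (Poly.const _)

theorem poly_n1 {k Nb : α → ℕ} (hk : UPoly k) (hNb : UPoly Nb) :
    Poly (fun a => n1 (k a) (Nb a)) := by
  have hN := hNb.toPoly
  unfold n1
  refine poly_fand (poly_fand (poly_powF hNb (Poly.const _) (poly_qB pl)
    (poly_cvt 18 (Poly.const _) (Poly.const _) pl)) (poly_powF hNb (Poly.const _) (poly_mB pl)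
    (poly_cvt 19 (Poly.const _) (Poly.const _) pl))) (poly_allR hk (poly_fand (poly_fand
    (poly_powF (uup hNb) (Poly.const _) ?_ ?_) (poly_powF (uup hNb) ?_ ?_ ?_))
    (poly_allR (uup hk) (poly_fand (poly_fand (poly_powF (uup (uup hNb)) ?_ ?_ ?_)
      (poly_powF (uup (uup hNb)) ?_ ?_ ?_)) (poly_fand (poly_powF (uup (uup hNb)) ?_ ?_ ?_)
      (poly_powF (uup (uup hNb)) ?_ ?_ ?_))))))
  · exact poly_PB (up pl) pl
  · exact poly_cvt 20 (up pl) (Poly.const _) pl
  · exact poly_cvt 19 (Poly.const _) (Poly.const _) (up hN)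
  · exact poly_PB (up pl) pl
  · exact poly_cvt 21 (up pl) (Poly.const _) pl
  · exact poly_xiC pl
  · exact poly_aB (up pl) (up (up pl)) pl
  · exact poly_cvt 22 (up pl) (up (up pl)) pl
  · exact poly_cconj (poly_xiC pl)
  · exact poly_bB (up pl) (up (up pl)) pl
  · exact poly_cvt 23 (up pl) (up (up pl)) pl
  · exact poly_xC pl
  · exact poly_aB (up pl) (up (up pl)) pl
  · exact poly_cvt 24 (up pl) (up (up pl)) pl
  · exact poly_cconj (poly_xC pl)
  · exact poly_bB (up pl) (up (up pl)) pl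
  · exact poly_cvt 25 (up pl) (up (up pl)) pl

theorem poly_n2 {k Nb : α → ℕ} (hk : UPoly k) (hNb : UPoly Nb) :
    Poly (fun a => n2 (k a) (Nb a)) := by
  have hN := hNb.toPoly
  unfold n2
  refine poly_fand (poly_ceq (poly_cvt 18 (Poly.const _) (Poly.const _) hN) (Poly.const _))
    (poly_allR hk (poly_fand (poly_fand (poly_feq (poly_cns (poly_xiC pl)) (Poly.const _))
    (poly_feq (poly_cns (poly_xC pl)) (Poly.const _))) (poly_for (poly_fnot
    (poly_ceq (poly_xiC pl) (Poly.const _))) (poly_ceq (poly_xC pl) (Poly.const _)))))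

theorem poly_n3 {k Nb N0 i : α → ℕ} (hk : UPoly k) (hNb : UPoly Nb) (hN0 : UPoly N0)
    (hi : Poly i) : Poly (fun a => n3 (k a) (Nb a) (N0 a) (i a)) := by
  have hN := hNb.toPoly
  have hk' := hk.toPoly
  unfold n3
  refine poly_fand (poly_fand (poly_ceq (poly_lamC hi) (poly_cmul (Poly.const _) (poly_cmul
    (poly_cvt 20 hi (Poly.const _) hN) (poly_hC (Poly.const _) hi)))) (poly_fand
    (poly_ceq (poly_hC hk' hi) (Poly.const _)) (poly_fle (poly_tmul (poly_sqT' (poly_tmul
    (poly_numB hNb (poly_qB pl)) (poly_pow2T hN0))) (poly_cns (poly_csub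
    (poly_hC (Poly.const _) hi) (Poly.const _)))) (Poly.const _)))) (poly_allR hk (poly_fand
    (poly_ceq (poly_hC pl (up hi)) (poly_cmul (poly_cmul ?_ ?_) (poly_hC (Poly.succ pl) (up hi))))
    (poly_fand (poly_fle (poly_tmul (poly_sqT' (poly_tmul (poly_tadd (poly_tadd
      (poly_numB (uup hNb) ?_) (poly_numB (uup hNb) ?_)) (Poly.const _))
      (poly_pow2T (uup hN0)))) (poly_cns (poly_csub (poly_xiC pl) (Poly.const _)))) (Poly.const _))
      (poly_fle (poly_tmul (poly_sqT' (poly_pow2T (uup hN0))) (poly_cns (poly_csub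
        (poly_hC (Poly.succ pl) (up hi)) (Poly.const _)))) (poly_cns (poly_csub (poly_xiC pl)
        (Poly.const _)))))))
  · exact poly_cvt 22 pl (up hi) (up hN)
  · exact poly_cvt 23 pl (up hi) (up hN)
  · exact poly_aB (up pl) (up (up hi)) pl
  · exact poly_bB (up pl) (up (up hi)) pl

theorem poly_n4 {k Nb : α → ℕ} (hk : UPoly k) (hNb : UPoly Nb) :
    Poly (fun a => n4 (k a) (Nb a)) := by
  have hN := hNb.toPoly
  unfold n4
  refine poly_allR hk (poly_fand (poly_ceq (poly_ZC pl (Poly.const _))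
    (poly_cvt 21 pl (Poly.const _) (up hN))) (poly_allR (uup hk) (poly_ceq
    (poly_ZC (up pl) (Poly.succ pl)) (poly_cmul (poly_ZC (up pl) pl) (poly_cmul
    (poly_cvt 24 pl (up pl) (up (up hN))) (poly_cvt 25 pl (up pl) (up (up hN))))))))

theorem poly_n5 {k J : α → ℕ} (hk : UPoly k) (hJ : Poly J) : Poly (fun a => n5 (k a) (J a)) := by
  have hk' := hk.toPoly
  unfold n5
  refine poly_flt (Poly.fst (poly_csum hk (poly_cmul (poly_creal (poly_FT' pl (Poly.const _)))
    (poly_cmul (poly_cC pl (up hJ)) (poly_ZC pl (up hk')))))) (Poly.const _)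

theorem poly_negF {k Nb N0 J : α → ℕ} (hk : UPoly k) (hNb : UPoly Nb) (hN0 : UPoly N0)
    (hJ : Poly J) : Poly (fun a => negF (k a) (Nb a) (N0 a) (J a)) := by
  unfold negF
  exact poly_fand (poly_fand (poly_n1 hk hNb) (poly_n2 hk hNb)) (poly_fand (poly_allR hk
    (poly_for (poly_feq (poly_FT' pl (Poly.const _)) (Poly.const _))
      (poly_n3 (uup hk) (uup hNb) (uup hN0) pl))) (poly_fand (poly_n4 hk hNb) (poly_n5 hk hJ)))

theorem poly_lrFm {l : α → Rec} {Nb N0 : α → ℕ} (hl : Poly l) (hNb : UPoly Nb) (hN0 : UPoly N0) :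
    Poly (fun a => lrFm (l a) (Nb a) (N0 a)) := by
  have hk : UPoly (fun a => (l a).length) := UPoly.length hl
  have hR : UPoly (fun a => 2 * (l a).length + (l a).length ^ 2) :=
    UPoly.add (UPoly.mul (UPoly.const 2) hk) (upoly_sq hk)
  unfold lrFm
  refine poly_conj (Poly.cons (poly_g1 hl) (Poly.cons (poly_g2 hl) (Poly.cons (poly_g3 hk)
    (Poly.cons (poly_g4 hk hR) (Poly.cons (poly_g5 hk hR) (Poly.cons (poly_g6 hk)
    (Poly.cons (poly_g7 hk) (Poly.cons (poly_g8 hk hNb) (Poly.cons (poly_g9 hk hNb)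
    (Poly.cons (poly_g10 hNb) (Poly.cons (poly_g11 hk) (Poly.cons (poly_g12 hk hNb)
    (Poly.cons (poly_g13 hk hNb) (Poly.cons ?_ (Poly.const [])))))))))))))))
  exact poly_exR hk (poly_fand (poly_g14 (uup hk) (uup hNb) pl) (poly_for (Poly.const _)
    (poly_negF (uup hk) (uup hNb) (uup hN0) pl)))

theorem upoly_sz {l : α → Rec} (hl : Poly l) : UPoly (fun a => Pool.Agent.H612.LR.sz (l a)) := by
  refine UPoly.length (Poly.flatMap hl (Poly.cons (Poly.const _) (Poly.append (Poly.natBits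
    (ER.poly_natAbs (ER.poly_ratNum (Poly.fst pl)))) (Poly.append (Poly.natBits
    (ER.poly_ratDen (Poly.fst pl))) (Poly.append (Poly.natBits
    (ER.poly_natAbs (ER.poly_ratNum (Poly.snd pl)))) (Poly.natBits
    (ER.poly_ratDen (Poly.snd pl))))))))

theorem upoly_pow {n : α → ℕ} (hn : UPoly n) (A : ℕ) : UPoly (fun a => A * n a ^ A) := by
  have h := UPoly.eval hn (Polynomial.C A * Polynomial.X ^ A)
  simpa only [Polynomial.eval_mul, Polynomial.eval_C, Polynomial.eval_pow, Polynomial.eval_X]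
    using h

end

end Pool.Agent.NPC.H612.LRP

namespace Pool.Agent.H612.LR

open Pool.Agent.NPC Pool.Agent.NPC.H612.LRP

/-- PLY -/
theorem t_PLY : S_PLY := fun A0 A1 => poly_lrFm Poly.id (upoly_pow (upoly_sz Poly.id) A1)
  (upoly_pow (upoly_sz Poly.id) A0)

end Pool.Agent.H612.LR
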