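import Pool.Agent.H612.LR.Stm

namespace Pool.Agent.H612.LR

open Polynomial

theorem chi_monic' (l : Rec) (h : 1 ≤ l.length) : (chi l).Monic := by
  unfold chi
  apply monic_X_pow_sub
  refine lt_of_le_of_lt (degree_sum_le _ _) ?_
  rw [Finset.sup_lt_iff (by exact WithBot.bot_lt_coe _)]
  intro i hi
  refine lt_of_le_of_lt (degree_C_mul_X_pow_le _ _) ?_
  rw [Nat.cast_lt]
  omega

theorem chi_natDegree' (l : Rec) (h : 1 ≤ l.length) : (chi l).natDegree = l.length := by
  unfold chi
  rw [natDegree_sub_eq_left_of_natDegree_lt, natDegree_X_pow]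
  rw [natDegree_X_pow]
  rcases Nat.eq_zero_or_pos (∑ i ∈ Finset.range l.length, C (coef l i) * X ^ (l.length - 1 - i)).natDegree with h0 | h0
  · omega
  · have : (∑ i ∈ Finset.range l.length, C (coef l i) * X ^ (l.length - 1 - i)).natDegree ≤ l.length - 1 := by
      apply natDegree_sum_le_of_forall_le
      intro i hi
      refine le_trans (natDegree_C_mul_X_pow_le _ _) ?_
      omega
    omega

theorem isRoot_iff_aeval' (l : Rec) (z : ℂ) : IsRoot l z ↔ aeval z (chi l) = 0 := by
  unfold chi IsRoot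
  simp only [map_sub, map_pow, aeval_X, map_sum, map_mul, aeval_C, sub_eq_zero]
  rfl

theorem t_ROOT : S_ROOT := by
  intro l z hl
  unfold croots
  rw [mem_roots ((chi_monic' l hl).map (algebraMap ℚ ℂ)).ne_zero, isRoot_iff_aeval',
    Polynomial.IsRoot.def, eval_map_algebraMap]

end Pool.Agent.H612.LR
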