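import Pool.Agent.H612.LR.Stm

/-!
# Task RPE: representation of linear recurrences by exponential polynomials (helper9)
-/

set_option autoImplicit false

namespace Pool.Agent.H612.LR

open Polynomial

section RPE

variable {A : Type*} [Field A]

/-- the shift -/
def rpeS (A : Type*) [Field A] : Module.End A (ℕ → A) := LinearMap.funLeft A A Nat.succ

theorem rpeS_apply (u : ℕ → A) (n : ℕ) : rpeS A u n = u (n + 1) := rfl

theorem rpeS_pow (m : ℕ) : ∀ (u : ℕ → A) (n : ℕ), (rpeS A ^ m) u n = u (n + m) := by
  induction m with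
  | zero => intro u n; simp
  | succ m ih =>
    intro u n
    rw [pow_succ, Module.End.mul_apply, ih, rpeS_apply, add_assoc]

/-- the basic solutions -/
def rpeG (z : A) (j : ℕ) : ℕ → A := fun n => (n.choose j : A) * z ^ n

theorem rpeG_succ (w z : A) (j : ℕ) : rpeS A (rpeG z (j + 1)) - w • rpeG z (j + 1) =
    (z - w) • rpeG z (j + 1) + z • rpeG z j := by
  funext n
  simp only [Pi.sub_apply, Pi.add_apply, Pi.smul_apply, smul_eq_mul, rpeS_apply, rpeG,
    Nat.choose_succ_succ, Nat.cast_add]
  ring

theorem rpeG_zero (w z : A) : rpeS A (rpeG z 0) - w • rpeG z 0 = (z - w) • rpeG z 0 := by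
  funext n
  simp only [Pi.sub_apply, Pi.smul_apply, smul_eq_mul, rpeS_apply, rpeG, Nat.choose_zero_right,
    Nat.cast_one]
  ring

variable [DecidableEq A]

/-- the space of exponential polynomials -/
def rpeV (R : Multiset A) : Submodule A (ℕ → A) :=
  Submodule.span A {f | ∃ z : A, z ≠ 0 ∧ ∃ j, j < R.count z ∧ f = rpeG z j}

theorem rpeG_mem {R : Multiset A} {z : A} (hz : z ≠ 0) {j : ℕ} (hj : j < R.count z) :
    rpeG z j ∈ rpeV R := Submodule.subset_span ⟨z, hz, j, hj, rfl⟩

theorem rpe_surj (w : A) (R : Multiset A) (g : ℕ → A) (hg : g ∈ rpeV R) :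
    ∃ h ∈ rpeV (w ::ₘ R), rpeS A h - w • h = g := by
  unfold rpeV at hg
  induction hg using Submodule.span_induction with
  | mem x hx =>
    obtain ⟨z, hz, j, hj, rfl⟩ := hx
    by_cases hzw : z = w
    · subst hzw
      refine ⟨z⁻¹ • rpeG z (j + 1), Submodule.smul_mem _ _ (rpeG_mem hz ?_), ?_⟩
      · rw [Multiset.count_cons_self]
        omega
      · have h1 := rpeG_succ z z j
        rw [map_smul, smul_comm z z⁻¹, ← smul_sub, h1, sub_self, zero_smul, zero_add, smul_smul,
          inv_mul_cancel₀ hz, one_smul]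
    · have hzw' : z - w ≠ 0 := sub_ne_zero.2 hzw
      have hcount : (w ::ₘ R).count z = R.count z := Multiset.count_cons_of_ne hzw R
      induction j with
      | zero =>
        refine ⟨(z - w)⁻¹ • rpeG z 0, Submodule.smul_mem _ _ (rpeG_mem hz ?_), ?_⟩
        · rw [hcount]
          exact hj
        · rw [map_smul, smul_comm w (z - w)⁻¹, ← smul_sub, rpeG_zero, smul_smul,
            inv_mul_cancel₀ hzw', one_smul]
      | succ j ih =>
        obtain ⟨h, hh, hh2⟩ := ih (by omega)
        refine ⟨(z - w)⁻¹ • (rpeG z (j + 1) - z • h), Submodule.smul_mem _ _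
          (Submodule.sub_mem _ (rpeG_mem hz ?_) (Submodule.smul_mem _ _ hh)), ?_⟩
        · rw [hcount]
          exact hj
        · have h1 := rpeG_succ w z j
          have h2 : rpeS A (rpeG z (j + 1) - z • h) - w • (rpeG z (j + 1) - z • h) =
              (z - w) • rpeG z (j + 1) := by
            have h3 : rpeS A (rpeG z (j + 1) - z • h) - w • (rpeG z (j + 1) - z • h) =
                (rpeS A (rpeG z (j + 1)) - w • rpeG z (j + 1)) - z • (rpeS A h - w • h) := by
              rw [map_sub, map_smul, smul_sub, smul_sub, smul_comm w z h]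
              abel
            rw [h3, h1, hh2]
            abel
          rw [map_smul, smul_comm w (z - w)⁻¹, ← smul_sub, h2, smul_smul,
            inv_mul_cancel₀ hzw', one_smul]
  | zero => exact ⟨0, Submodule.zero_mem _, by simp⟩
  | add x y _ _ hx hy =>
    obtain ⟨h1, m1, e1⟩ := hx
    obtain ⟨h2, m2, e2⟩ := hy
    refine ⟨h1 + h2, Submodule.add_mem _ m1 m2, ?_⟩
    rw [map_add, smul_add, ← e1, ← e2]
    abel
  | smul a x _ hx =>
    obtain ⟨h1, m1, e1⟩ := hx
    refine ⟨a • h1, Submodule.smul_mem _ _ m1, ?_⟩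
    rw [map_smul, smul_comm w a, ← smul_sub, e1]

theorem rpe_main (R : Multiset A) : ∀ (u : ℕ → A) (N : ℕ),
    (∀ n, N ≤ n → (aeval (rpeS A) (R.map (fun z => X - C z)).prod) u n = 0) →
    ∃ g ∈ rpeV R, ∀ n, N + R.count 0 ≤ n → u n = g n := by
  induction R using Multiset.induction_on with
  | empty =>
    intro u N h
    refine ⟨0, Submodule.zero_mem _, fun n hn => ?_⟩
    have := h n (by simpa using hn)
    simpa using this
  | cons w R ih =>
    intro u N h
    set v : ℕ → A := rpeS A u - w • u with hv
    have h1 : ∀ n, N ≤ n → (aeval (rpeS A) (R.map (fun z => X - C z)).prod) v n = 0 := by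
      intro n hn
      have h2 := h n hn
      rw [Multiset.map_cons, Multiset.prod_cons, mul_comm, map_mul, Module.End.mul_apply,
        map_sub, aeval_X, aeval_C] at h2
      rw [LinearMap.sub_apply, Module.algebraMap_end_apply] at h2
      exact h2
    obtain ⟨g', hg', hg2⟩ := ih v N h1
    obtain ⟨h0, hh0, hh1⟩ := rpe_surj w R g' hg'
    have h3 : ∀ n, N + R.count 0 ≤ n → u (n + 1) - h0 (n + 1) = w * (u n - h0 n) := by
      intro n hn
      have a1 := hg2 n hn
      have a2 := congrFun hh1 n
      rw [hv] at a1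
      simp only [Pi.sub_apply, Pi.smul_apply, smul_eq_mul, rpeS_apply] at a1 a2
      rw [← a2] at a1
      linear_combination a1
    by_cases hw : w = 0
    · subst hw
      refine ⟨h0, hh0, fun n hn => ?_⟩
      rw [Multiset.count_cons_self] at hn
      obtain ⟨n', rfl⟩ : ∃ n', n = n' + 1 := ⟨n - 1, by omega⟩
      have := h3 n' (by omega)
      rw [zero_mul] at this
      exact sub_eq_zero.1 this
    · have hcount : (w ::ₘ R).count 0 = R.count 0 :=
        Multiset.count_cons_of_ne (Ne.symm hw) R
      set N' := N + R.count 0 with hN'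
      set b : A := (u N' - h0 N') * (w ^ N')⁻¹ with hb
      refine ⟨h0 + b • rpeG w 0, Submodule.add_mem _ hh0 (Submodule.smul_mem _ _
        (rpeG_mem hw ?_)), fun n hn => ?_⟩
      · rw [Multiset.count_cons_self]
        omega
      · rw [hcount, ← hN'] at hn
        have h4 : ∀ m, u (N' + m) - h0 (N' + m) = b * w ^ (N' + m) := by
          intro m
          induction m with
          | zero =>
            rw [hb, add_zero, mul_assoc, inv_mul_cancel₀ (pow_ne_zero _ hw), mul_one]
          | succ m ihm =>
            rw [← add_assoc, h3 _ (by omega), ihm, pow_succ]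
            ring
        obtain ⟨m, rfl⟩ := Nat.exists_eq_add_of_le hn
        have h5 := h4 m
        simp only [Pi.add_apply, Pi.smul_apply, smul_eq_mul, rpeG, Nat.choose_zero_right,
          Nat.cast_one, one_mul]
        rw [← h5]
        ring

theorem rpe_coeff (R : Multiset A) (k : ℕ) (hk : ∀ z, R.count z ≤ k) (g : ℕ → A)
    (hg : g ∈ rpeV R) : ∃ c : A → ℕ → A, (∀ z j, R.count z ≤ j → c z j = 0) ∧
    ∀ W : Finset A, (∀ z ∈ R, z ≠ 0 → z ∈ W) → ∀ n,
      g n = ∑ z ∈ W, ∑ j ∈ Finset.range k, c z j * (n.choose j : A) * z ^ n := by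
  unfold rpeV at hg
  induction hg using Submodule.span_induction with
  | mem x hx =>
    obtain ⟨z0, hz0, j0, hj0, rfl⟩ := hx
    refine ⟨fun z j => if z = z0 ∧ j = j0 then 1 else 0, ?_, ?_⟩
    · intro z j hzj
      refine if_neg ?_
      rintro ⟨rfl, rfl⟩
      omega
    · intro W hW n
      have hzW : z0 ∈ W := hW z0 (Multiset.count_pos.1 (by omega)) hz0
      rw [Finset.sum_eq_single z0, Finset.sum_eq_single j0]
      · simp [rpeG]
      · intro j _ hj
        simp [hj]
      · intro h
        exact absurd (Finset.mem_range.2 (lt_of_lt_of_le hj0 (hk z0))) h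
      · intro z _ hz
        refine Finset.sum_eq_zero fun j _ => ?_
        simp [hz]
      · intro h
        exact absurd hzW h
  | zero => exact ⟨fun _ _ => 0, fun _ _ _ => rfl, fun W _ n => by simp⟩
  | add x y _ _ hx hy =>
    obtain ⟨c1, m1, e1⟩ := hx
    obtain ⟨c2, m2, e2⟩ := hy
    refine ⟨fun z j => c1 z j + c2 z j, fun z j h => by simp only [m1 z j h, m2 z j h, add_zero],
      fun W hW n => ?_⟩
    rw [Pi.add_apply, e1 W hW n, e2 W hW n, ← Finset.sum_add_distrib]
    refine Finset.sum_congr rfl fun z _ => ?_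
    rw [← Finset.sum_add_distrib]
    refine Finset.sum_congr rfl fun j _ => ?_
    ring
  | smul a x _ hx =>
    obtain ⟨c1, m1, e1⟩ := hx
    refine ⟨fun z j => a * c1 z j, fun z j h => by simp only [m1 z j h, mul_zero],
      fun W hW n => ?_⟩
    rw [Pi.smul_apply, e1 W hW n, smul_eq_mul, Finset.mul_sum]
    refine Finset.sum_congr rfl fun z _ => ?_
    rw [Finset.mul_sum]
    refine Finset.sum_congr rfl fun j _ => ?_
    ring

end RPE

theorem rpe_seq (l : Rec) (n : ℕ) : seq l (n + l.length) =
    ∑ i ∈ Finset.range l.length, coef l i * seq l (n + (l.length - 1 - i)) := by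
  rw [seq, if_neg (by omega), Finset.sum_range]
  refine Finset.sum_congr rfl fun i _ => ?_
  have hi := i.2
  congr 2
  omega

theorem rpe_monic (l : Rec) (h1 : 1 ≤ l.length) : (chi l).Monic := by
  unfold chi
  refine Monic.sub_of_left (monic_X_pow _) ?_
  rw [degree_X_pow]
  refine (degree_sum_le _ _).trans_lt ?_
  rw [Finset.sup_lt_iff (WithBot.bot_lt_coe _)]
  intro i hi
  refine (degree_C_mul_X_pow_le _ _).trans_lt ?_
  have := Finset.mem_range.1 hi
  exact_mod_cast (by omega : l.length - 1 - i < l.length)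

theorem t_RPE : S_RPE := by
  intro l hl
  set k := l.length with hk
  set A : IntermediateField ℚ ℂ := algebraicClosure ℚ ℂ with hA
  have hcl : IsAlgClosure ℚ A := algebraicClosure.isAlgClosure ℚ ℂ
  have : IsAlgClosed A := IsAlgClosure.isAlgClosed ℚ
  set pA : A[X] := (chi l).map (algebraMap ℚ A) with hpA
  have hmon : pA.Monic := (rpe_monic l hl).map _
  have hsp : pA.Splits := IsAlgClosed.splits pA
  set R : Multiset A := pA.roots with hR
  have hprod : (R.map (fun z => X - C z)).prod = pA := (hsp.eq_prod_roots_of_monic hmon).symm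
  have hcr : croots l = R.map (algebraMap A ℂ) := by
    unfold croots
    rw [hR, ← hsp.roots_map (algebraMap A ℂ), hpA, Polynomial.map_map,
      ← IsScalarTower.algebraMap_eq]
  -- the cardinality of R
  have hcardR : R.card ≤ k := by
    rw [hR]
    refine (card_roots' pA).trans ?_
    rw [hpA]
    refine natDegree_map_le.trans ?_
    unfold chi
    refine (natDegree_sub_le _ _).trans (max_le (natDegree_X_pow_le _) ?_)
    refine natDegree_sum_le_of_forall_le _ _ fun i hi => ?_
    refine (natDegree_C_mul_X_pow_le _ _).trans ?_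
    omega
  have hcount : ∀ z, R.count z ≤ k := fun z => (Multiset.count_le_card z R).trans hcardR
  -- the sequence
  set u : ℕ → A := fun n => algebraMap ℚ A (seq l n) with hu
  have hrec : ∀ n, 0 ≤ n → (aeval (rpeS A) (R.map (fun z => X - C z)).prod) u n = 0 := by
    intro n _
    rw [hprod, hpA]
    unfold chi
    rw [Polynomial.map_sub, Polynomial.map_pow, Polynomial.map_X, Polynomial.map_sum, map_sub,
      map_pow, aeval_X, map_sum]
    simp only [Polynomial.map_mul, Polynomial.map_C, Polynomial.map_pow, Polynomial.map_X,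
      map_mul, aeval_C, map_pow, aeval_X]
    rw [LinearMap.sub_apply, Pi.sub_apply, rpeS_pow, LinearMap.sum_apply, Finset.sum_apply]
    have h2 : ∀ i ∈ Finset.range l.length,
        ((algebraMap A (Module.End A (ℕ → A)) (algebraMap ℚ A (coef l i)) *
          rpeS A ^ (l.length - 1 - i)) u) n =
        algebraMap ℚ A (coef l i) * u (n + (l.length - 1 - i)) := by
      intro i _
      rw [Module.End.mul_apply, Module.algebraMap_end_apply, Pi.smul_apply, rpeS_pow, smul_eq_mul]
    rw [Finset.sum_congr rfl h2, hu]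
    simp only
    rw [rpe_seq, map_sum]
    simp only [map_mul]
    exact sub_self _
  obtain ⟨g, hg, hgu⟩ := rpe_main R u 0 hrec
  obtain ⟨c, hc0, hcsum⟩ := rpe_coeff R k hcount g hg
  -- enumeration of the bases
  have hins : (insert 0 R.toFinset).card ≤ k + 1 := by
    refine (Finset.card_insert_le _ _).trans ?_
    have := Multiset.toFinset_card_le R
    omega
  obtain ⟨t, ht1, ht2⟩ := Infinite.exists_superset_card_eq (insert 0 R.toFinset) (k + 1) hins
  set W : Finset A := t.erase 0 with hW
  have hWcard : W.card = k := by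
    rw [hW, Finset.card_erase_of_mem (ht1 (Finset.mem_insert_self _ _)), ht2]
    omega
  have hWR : ∀ z ∈ R, z ≠ 0 → z ∈ W := by
    intro z hz hz0
    rw [hW, Finset.mem_erase]
    exact ⟨hz0, ht1 (Finset.mem_insert_of_mem (Multiset.mem_toFinset.2 hz))⟩
  set e : Fin k ≃ W := (Finset.equivFinOfCardEq hWcard).symm with he
  set lamA : ℕ → A := fun i => if h : i < k then (e ⟨i, h⟩ : A) else 1 with hlamA
  have hlam : ∀ (i : ℕ) (h : i < k), lamA i = (e ⟨i, h⟩ : A) := fun i h => dif_pos h
  have hinj : Function.Injective (algebraMap A ℂ) := (algebraMap A ℂ).injective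
  refine ⟨fun i => algebraMap A ℂ (lamA i), fun i j => algebraMap A ℂ (c (lamA i) j), ?_, ?_, ?_⟩
  · intro N
    refine ⟨?_, ?_, ?_⟩
    · intro i hi h0
      rw [map_eq_zero_iff _ hinj, hlam i hi] at h0
      have h1 := (e ⟨i, hi⟩).2
      rw [h0, hW] at h1
      exact absurd rfl (Finset.ne_of_mem_erase h1)
    · intro i hi i' hi' h0
      have h1 := hinj h0
      rw [hlam i hi, hlam i' hi'] at h1
      have h2 := e.injective (Subtype.ext h1)
      exact congrArg Fin.val h2
    · intro n hn _
      have h1 : 0 + R.count 0 ≤ n := by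
        rw [zero_add]
        exact (hcount 0).trans hn
      have h2 := hgu n h1
      rw [hcsum W hWR n] at h2
      have h3 : ((seq l n : ℚ) : ℂ) = algebraMap A ℂ (u n) := by
        rw [hu]
        simp only
        rw [← IsScalarTower.algebraMap_apply]
        rfl
      rw [h3, h2]
      unfold expo
      rw [map_sum]
      have h4 : ∑ z ∈ W, algebraMap A ℂ (∑ j ∈ Finset.range k, c z j * (n.choose j : A) * z ^ n) =
          ∑ i : Fin k, algebraMap A ℂ (∑ j ∈ Finset.range k,
            c (e i : A) j * (n.choose j : A) * (e i : A) ^ n) := by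
        rw [← Finset.sum_coe_sort W]
        exact (Equiv.sum_comp e (fun z : W => algebraMap A ℂ (∑ j ∈ Finset.range k,
          c (z : A) j * (n.choose j : A) * (z : A) ^ n))).symm
      rw [h4, Finset.sum_range]
      refine Finset.sum_congr rfl fun i _ => ?_
      rw [map_sum]
      refine Finset.sum_congr rfl fun j _ => ?_
      beta_reduce
      rw [hlam i i.2, map_mul, map_mul, map_natCast, map_pow]
  · intro i hi j hj hcnt
    simp only
    rw [hcr, Multiset.count_map_eq_count' _ _ hinj] at hcnt
    rw [hc0 _ _ hcnt, map_zero]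
  · intro i hi j hj
    have h1 := (c (lamA i) j).2
    exact mem_algebraicClosure_iff.1 h1

end Pool.Agent.H612.LR
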