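import Pool.Agent.H612.LR.Stm

/-!
# RPU: a representation which is correct on a long enough interval is correct
-/

namespace Pool.Agent.H612.LR

open Polynomial

/-- the shift operator -/
noncomputable def rpuS : Module.End ℂ (ℕ → ℂ) where
  toFun f n := f (n + 1)
  map_add' _ _ := rfl
  map_smul' _ _ := rfl

theorem rpu_pow (i : ℕ) (f : ℕ → ℂ) (n : ℕ) : (rpuS ^ i) f n = f (n + i) := by
  induction i generalizing n with
  | zero => simp
  | succ i ih =>
    rw [pow_succ', Module.End.mul_apply]
    show (rpuS ^ i) f (n + 1) = _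
    rw [ih, show n + 1 + i = n + (i + 1) by ring]

theorem rpu_aeval (p : ℂ[X]) (f : ℕ → ℂ) (n : ℕ) :
    (aeval rpuS p) f n = ∑ i ∈ Finset.range (p.natDegree + 1), p.coeff i * f (n + i) := by
  rw [aeval_eq_sum_range, LinearMap.sum_apply, Finset.sum_apply]
  refine Finset.sum_congr rfl fun i _ => ?_
  rw [LinearMap.smul_apply, Pi.smul_apply, rpu_pow, smul_eq_mul]

theorem rpu_zero (F : ℂ[X]) (hF : F.Monic) (d : ℕ → ℂ) (h : (aeval rpuS F) d = 0) (k : ℕ)
    (h0 : ∀ n, k ≤ n → n < k + F.natDegree → d n = 0) : ∀ n, k ≤ n → d n = 0 := by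
  intro n
  induction n using Nat.strong_induction_on with
  | _ n ih =>
    intro hn
    by_cases hlt : n < k + F.natDegree
    · exact h0 n hn hlt
    · push Not at hlt
      have h1 := congrFun h (n - F.natDegree)
      rw [rpu_aeval, Finset.sum_range_succ, hF.coeff_natDegree, one_mul,
        Nat.sub_add_cancel (by omega), Finset.sum_eq_zero, zero_add] at h1
      · simpa using h1
      · intro i hi
        rw [Finset.mem_range] at hi
        rw [ih _ (by omega) (by omega), mul_zero]

theorem rpu_binom (a : ℂ) (j : ℕ) :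
    (aeval rpuS ((X - C a) ^ (j + 1))) (fun n => (n.choose j : ℂ) * a ^ n) = 0 := by
  induction j with
  | zero =>
    funext n
    simp only [zero_add, pow_one, map_sub, aeval_X, aeval_C, LinearMap.sub_apply, Pi.sub_apply,
      Nat.choose_zero_right, Nat.cast_one, one_mul, Pi.zero_apply]
    show a ^ (n + 1) - a * a ^ n = 0
    ring
  | succ j ih =>
    rw [pow_succ, map_mul, Module.End.mul_apply]
    have h1 : (aeval rpuS (X - C a)) (fun n => (n.choose (j + 1) : ℂ) * a ^ n) =
        a • (fun n => (n.choose j : ℂ) * a ^ n) := by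
      funext n
      simp only [map_sub, aeval_X, aeval_C, LinearMap.sub_apply, Pi.sub_apply, Pi.smul_apply,
        smul_eq_mul]
      show ((n + 1).choose (j + 1) : ℂ) * a ^ (n + 1) - a * ((n.choose (j + 1) : ℂ) * a ^ n) = _
      rw [Nat.choose_succ_succ]
      push_cast
      ring
    rw [h1, map_smul, ih, smul_zero]

theorem rpu_binom' (a : ℂ) (j k : ℕ) (hj : j < k) :
    (aeval rpuS ((X - C a) ^ k)) (fun n => (n.choose j : ℂ) * a ^ n) = 0 := by
  obtain ⟨i, rfl⟩ := Nat.exists_eq_add_of_le (show j + 1 ≤ k from hj)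
  rw [add_comm (j + 1) i, pow_add, map_mul, Module.End.mul_apply, rpu_binom, map_zero]

theorem rpu_chi (l : Rec) : (aeval rpuS ((chi l).map (algebraMap ℚ ℂ)))
    (fun n => ((seq l n : ℚ) : ℂ)) = 0 := by
  funext n
  unfold chi
  simp only [Polynomial.map_sub, Polynomial.map_pow, map_X, Polynomial.map_sum, Polynomial.map_mul,
    map_C, map_sub, map_pow, aeval_X, map_sum, map_mul, aeval_C, LinearMap.sub_apply,
    LinearMap.sum_apply, Pi.sub_apply, Finset.sum_apply, Pi.zero_apply]
  rw [rpu_pow]
  have h1 : seq l (n + l.length) =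
      ∑ i : Fin l.length, coef l i * seq l (n + l.length - 1 - i) := by
    rw [seq, if_neg (by omega)]
  rw [h1, ← Fin.sum_univ_eq_sum_range (fun i => ((algebraMap ℂ (Module.End ℂ (ℕ → ℂ)))
    ((algebraMap ℚ ℂ) (coef l i)) * rpuS ^ (l.length - 1 - i))
    (fun n => ((seq l n : ℚ) : ℂ)) n)]
  push_cast
  rw [sub_eq_zero]
  refine Finset.sum_congr rfl fun i _ => ?_
  rw [Module.End.mul_apply, Module.algebraMap_end_apply, Pi.smul_apply, rpu_pow, smul_eq_mul]
  have hi := i.2
  rw [show n + l.length - 1 - (i : ℕ) = n + (l.length - 1 - i) by omega]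
  rfl

theorem rpu_chi_monic (l : Rec) : (chi l).Monic ∧ (chi l).natDegree = l.length := by
  have hdeg : (∑ i ∈ Finset.range l.length, C (coef l i) * X ^ (l.length - 1 - i)).degree <
      (l.length : WithBot ℕ) := by
    refine lt_of_le_of_lt (degree_sum_le _ _) ?_
    rw [Finset.sup_lt_iff (WithBot.bot_lt_coe _)]
    intro i hi
    refine lt_of_le_of_lt (degree_C_mul_X_pow_le _ _) ?_
    rw [Finset.mem_range] at hi
    exact_mod_cast (by omega : l.length - 1 - i < l.length)
  constructor
  · unfold chi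
    exact monic_X_pow_sub hdeg
  · unfold chi
    apply natDegree_eq_of_degree_eq_some
    rw [degree_sub_eq_left_of_degree_lt]
    · rw [degree_X_pow]
    · rw [degree_X_pow]; exact hdeg

theorem t_RPU : S_RPU := by
  intro l lam c hl hrep
  obtain ⟨h0, hinj, hrep⟩ := hrep
  obtain ⟨hmon, hdeg⟩ := rpu_chi_monic l
  set k := l.length with hk
  set chiC := (chi l).map (algebraMap ℚ ℂ) with hchiC
  set G : ℂ[X] := ∏ i ∈ Finset.range k, (X - C (lam i)) ^ k with hG
  have hGmon : G.Monic := monic_prod_of_monic _ _ fun i _ => (monic_X_sub_C _).pow k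
  have hGdeg : G.natDegree = k * k := by
    rw [hG, natDegree_prod_of_monic _ _ fun i _ => (monic_X_sub_C _).pow k]
    simp [Monic.natDegree_pow (monic_X_sub_C _)]
  have hCmon : chiC.Monic := hmon.map _
  have hCdeg : chiC.natDegree = k := by rw [hchiC, hmon.natDegree_map, hdeg]
  set F := chiC * G with hF
  have hFmon : F.Monic := hCmon.mul hGmon
  have hFdeg : F.natDegree = k + k * k := by
    rw [hF, hCmon.natDegree_mul hGmon, hCdeg, hGdeg]
  set e : ℕ → ℂ := fun n => expo k lam c n with he
  have hkillG : (aeval rpuS G) e = 0 := by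
    have h1 : e = ∑ i ∈ Finset.range k, ∑ j ∈ Finset.range k,
        c i j • (fun n : ℕ => (n.choose j : ℂ) * lam i ^ n) := by
      funext n
      simp only [he, expo, Finset.sum_apply, Pi.smul_apply, smul_eq_mul]
      refine Finset.sum_congr rfl fun i _ => Finset.sum_congr rfl fun j _ => ?_
      ring
    rw [h1, map_sum]
    refine Finset.sum_eq_zero fun i hi => ?_
    rw [map_sum]
    refine Finset.sum_eq_zero fun j hj => ?_
    rw [map_smul, hG, ← Finset.prod_erase_mul _ _ hi, map_mul, Module.End.mul_apply,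
      rpu_binom' _ _ _ (Finset.mem_range.mp hj), map_zero, smul_zero]
  have hkill : (aeval rpuS F) ((fun n => ((seq l n : ℚ) : ℂ)) - e) = 0 := by
    rw [map_sub]
    have h1 : (aeval rpuS F) (fun n => ((seq l n : ℚ) : ℂ)) = 0 := by
      rw [hF, mul_comm, map_mul, Module.End.mul_apply, rpu_chi, map_zero]
    have h2 : (aeval rpuS F) e = 0 := by
      rw [hF, map_mul, Module.End.mul_apply, hkillG, map_zero]
    rw [h1, h2, sub_zero]
  have hz := rpu_zero F hFmon _ hkill k (by
    intro n hn hn'
    rw [hFdeg] at hn'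
    show ((seq l n : ℚ) : ℂ) - expo k lam c n = 0
    rw [hrep n hn (by nlinarith), sub_self])
  intro N
  refine ⟨h0, hinj, fun n hn _ => ?_⟩
  have := hz n hn
  exact sub_eq_zero.mp this

end Pool.Agent.H612.LR
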