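import Pool.Agent.H612.LR.Stm

/-!
# SND: certificates are sound
-/

namespace Pool.Agent.H612.LR

open Polynomial Filter Topology

theorem snd_sz (l : Rec) : l.length ≤ sz l := by
  unfold sz szList
  induction l with
  | nil => simp
  | cons a l ih =>
    rw [List.flatMap_cons, List.length_append, List.length_cons, List.length_cons]
    omega

theorem snd_exp (C s k : ℕ) (hk : 1 ≤ k) (hs : k ≤ s) :
    8 * (k * 2 ^ (C * s ^ C)) ≤ 2 ^ ((C + 4) * s ^ (C + 4)) := by
  have hs1 : 1 ≤ s := hk.trans hs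
  have e1 : s ≤ s ^ (C + 4) := by
    calc s = s ^ 1 := (pow_one _).symm
      _ ≤ _ := Nat.pow_le_pow_right hs1 (by omega)
  have e2 : s ^ C ≤ s ^ (C + 4) := Nat.pow_le_pow_right hs1 (by omega)
  have e3 : 1 ≤ s ^ (C + 4) := Nat.one_le_pow _ _ hs1
  have e4 : k ≤ 2 ^ s := hs.trans (Nat.lt_two_pow_self).le
  calc 8 * (k * 2 ^ (C * s ^ C)) ≤ 2 ^ 3 * (2 ^ s * 2 ^ (C * s ^ C)) := by
        apply Nat.mul_le_mul (by norm_num) (Nat.mul_le_mul_right _ e4)
    _ = 2 ^ (3 + (s + C * s ^ C)) := by rw [← pow_add, ← pow_add]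
    _ ≤ _ := by
      apply Nat.pow_le_pow_right (by norm_num)
      calc 3 + (s + C * s ^ C) ≤ 3 * s ^ (C + 4) + (s ^ (C + 4) + C * s ^ (C + 4)) := by
            gcongr
            omega
        _ = _ := by ring

/-- splitting the exponential polynomial by the flags -/
theorem snd_split (h6 : S_VAN) (l : Rec) (d : CD) (hlev : d.Lev l) (hJ : d.J < l.length) (t : ℕ) :
    expo l.length d.lam d.c (d.m + d.q * t) =
      ∑ i ∈ d.S l.length 1, ∑ j ∈ Finset.range (d.J + 1),
        d.c i j * ((d.m + d.q * t).choose j : ℂ) * d.lam i ^ (d.m + d.q * t) +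
      ∑ i ∈ d.S l.length 2, ∑ j ∈ Finset.range l.length,
        d.c i j * ((d.m + d.q * t).choose j : ℂ) * d.lam i ^ (d.m + d.q * t) := by
  set n := d.m + d.q * t with hn
  set k := l.length with hk
  set F : ℕ → ℂ := fun i => ∑ j ∈ Finset.range k, d.c i j * (n.choose j : ℂ) * d.lam i ^ n with hF
  have hcls : ∀ u, ∀ i ∈ d.S k u, d.κ i < k ∧ d.lam i ^ d.q = d.lam (d.κ i) ^ d.q := by
    intro u i hi
    unfold CD.S at hi
    rw [Finset.mem_filter, Finset.mem_range] at hi
    exact hlev.cls i hi.1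
  have hdis : ∑ i ∈ Finset.range k, F i = ∑ i ∈ d.S k 0, F i + ∑ i ∈ d.S k 1, F i +
      ∑ i ∈ d.S k 2, F i := by
    have h1 : Finset.range k = (d.S k 0 ∪ d.S k 1) ∪ d.S k 2 := by
      ext i
      unfold CD.S
      simp only [Finset.mem_union, Finset.mem_filter, Finset.mem_range]
      constructor
      · intro hi
        rcases hlev.flag i hi with h | ⟨h, -⟩ | ⟨h, -⟩
        · exact Or.inl (Or.inl ⟨hi, h⟩)
        · exact Or.inl (Or.inr ⟨hi, h⟩)
        · exact Or.inr ⟨hi, h⟩
      · rintro ((h | h) | h) <;> exact h.1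
    have h2 : Disjoint (d.S k 0 ∪ d.S k 1) (d.S k 2) := by
      rw [Finset.disjoint_left]
      intro i hi hi2
      unfold CD.S at hi hi2
      simp only [Finset.mem_union, Finset.mem_filter, Finset.mem_range] at hi hi2
      omega
    have h3 : Disjoint (d.S k 0) (d.S k 1) := by
      rw [Finset.disjoint_left]
      intro i hi hi2
      unfold CD.S at hi hi2
      simp only [Finset.mem_filter, Finset.mem_range] at hi hi2
      omega
    rw [h1, Finset.sum_union h2, Finset.sum_union h3]
  have hswap : ∀ U : Finset ℕ, ∀ R : Finset ℕ,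
      ∑ i ∈ U, ∑ j ∈ R, d.c i j * (n.choose j : ℂ) * d.lam i ^ n =
      ∑ j ∈ R, (n.choose j : ℂ) * ∑ i ∈ U, d.c i j * d.lam i ^ n := by
    intro U R
    rw [Finset.sum_comm]
    refine Finset.sum_congr rfl fun j _ => ?_
    rw [Finset.mul_sum]
    refine Finset.sum_congr rfl fun i _ => ?_
    ring
  have h0 : ∑ i ∈ d.S k 0, F i = 0 := by
    simp only [hF]
    rw [hswap]
    refine Finset.sum_eq_zero fun j hj => ?_
    rw [hn, h6 (d.S k 0) k d.κ d.lam (fun i => d.c i j) d.m d.q (hcls 0)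
      (fun s hs => hlev.can0 s hs j (Finset.mem_range.mp hj)) t, mul_zero]
  have h1 : ∑ i ∈ d.S k 1, F i = ∑ i ∈ d.S k 1, ∑ j ∈ Finset.range (d.J + 1),
        d.c i j * (n.choose j : ℂ) * d.lam i ^ n := by
    simp only [hF]
    rw [hswap, hswap]
    symm
    apply Finset.sum_subset
    · intro j hj
      rw [Finset.mem_range] at hj ⊢
      omega
    · intro j hj hj'
      rw [Finset.mem_range] at hj hj'
      rw [hn, h6 (d.S k 1) k d.κ d.lam (fun i => d.c i j) d.m d.q (hcls 1)
        (fun s hs => hlev.can1 s hs j hj (by omega)) t, mul_zero]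
  show ∑ i ∈ Finset.range k, F i = _
  rw [hdis, h0, h1, zero_add]

theorem snd_pw (x : ℂ) (hx : ‖x‖ = 1) (a b : ℕ) : pw x a b = x ^ ((a : ℤ) - (b : ℤ)) := by
  have hx0 : x ≠ 0 := by
    intro h; rw [h, norm_zero] at hx; exact zero_ne_one hx
  have hinv : (starRingEnd ℂ) x = x⁻¹ := by
    rw [Complex.inv_def, Complex.normSq_eq_norm_sq, hx]
    simp
  unfold pw
  rw [hinv, zpow_sub₀ hx0, zpow_natCast, zpow_natCast, inv_pow, div_eq_mul_inv]

theorem snd_prod_zpow (y : ℂ) (hy : y ≠ 0) (s : Finset ℕ) (f : ℕ → ℤ) :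
    ∏ i ∈ s, y ^ f i = y ^ ∑ i ∈ s, f i := by
  classical
  induction s using Finset.induction_on with
  | empty => simp
  | insert a s ha ih => rw [Finset.prod_insert ha, Finset.sum_insert ha, ih, zpow_add₀ hy]

theorem snd_chain {k q N : ℕ} {D : Finset ℕ} {g : ℕ → ℂ} {P : ℕ → ℕ} {a b : ℕ → ℕ → ℕ} {ζ : ℂ}
    {ξ : ℕ → ℂ} {h : ℕ → ℕ → ℂ} (H : Chain k q N D g P a b ζ ξ h) (i : ℕ) (hi : i ∈ D) :
    g i = ζ ^ P i * ∏ j ∈ Finset.range k, pw (ξ j) (a j i) (b j i) := by
  have h1 : ∀ n ≤ k, h 0 i = (∏ j ∈ Finset.range n, pw (ξ j) (a j i) (b j i)) * h n i := by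
    intro n
    induction n with
    | zero => simp
    | succ n ih =>
      intro hn
      rw [ih (by omega), Finset.prod_range_succ, H.step i hi n (by omega)]
      ring
  rw [H.fac i hi, h1 k le_rfl, H.last i hi, mul_one]

theorem t_SND (h1 : S_CORE) (h2 : S_LIN) (h3 : S_MAS) (h4 : S_KRO) (h5 : S_ASY) (h6 : S_VAN)
    (h7 : S_RPU) : S_SND := by
  obtain ⟨C, hC⟩ := h3
  refine ⟨C + 4, ?_⟩
  rintro l Nb hl ⟨d, hd⟩ ⟨N1, hU⟩
  have hrep := h7 l d.lam d.c hl hd.rep
  obtain ⟨hl0, -, -⟩ := hrep 0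
  have hseq : ∀ n, l.length ≤ n → ((seq l n : ℚ) : ℂ) = expo l.length d.lam d.c n :=
    fun n hn => (hrep (n + 1)).2.2 n hn (Nat.lt_succ_self n)
  have hlev := hd.lev
  have hq1 := hlev.q1
  have hkey : ∀ t, l.length ≤ t → ((seq l (d.m + d.q * t) : ℚ) : ℂ) =
      expo l.length d.lam d.c (d.m + d.q * t) := fun t ht => by
    have : t ≤ d.q * t := Nat.le_mul_of_pos_left _ hq1
    exact hseq _ (by omega)
  have hS1 : ∀ i ∈ d.S l.length 1, i < l.length ∧ ‖d.lam i‖ = d.ρ ∧ IsRoot l (d.lam i) := by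
    intro i hi
    unfold CD.S at hi
    rw [Finset.mem_filter, Finset.mem_range] at hi
    rcases hlev.flag i hi.1 with h | ⟨-, h⟩ | ⟨h, -⟩
    · omega
    · exact ⟨hi.1, h⟩
    · omega
  have hS2 : ∀ i ∈ d.S l.length 2, ‖d.lam i‖ < d.ρ := by
    intro i hi
    unfold CD.S at hi
    rw [Finset.mem_filter, Finset.mem_range] at hi
    rcases hlev.flag i hi.1 with h | ⟨h, -⟩ | ⟨-, h⟩
    · omega
    · omega
    · exact h
  by_cases hρ : d.ρ = 0
  · -- no dominant part at all
    have e1 : d.S l.length 1 = ∅ := by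
      rw [Finset.eq_empty_iff_forall_notMem]
      intro i hi
      have := hS1 i hi
      rw [hρ, norm_eq_zero] at this
      exact hl0 i this.1 this.2.1
    have e2 : d.S l.length 2 = ∅ := by
      rw [Finset.eq_empty_iff_forall_notMem]
      intro i hi
      have := hS2 i hi
      rw [hρ] at this
      exact absurd this (not_lt.mpr (norm_nonneg _))
    have h := hkey (N1 + l.length) (by omega)
    rw [snd_split h6 l d hlev hd.jlt, e1, e2, Finset.sum_empty, Finset.sum_empty, add_zero] at h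
    have h' : seq l (d.m + d.q * (N1 + l.length)) = 0 := by exact_mod_cast h
    have h'' := hU (d.m + d.q * (N1 + l.length)) (by
      have : N1 + l.length ≤ d.q * (N1 + l.length) := Nat.le_mul_of_pos_left _ hq1
      omega)
    rw [h'] at h''
    exact lt_irrefl _ h''
  · have hρ' : 0 < d.ρ := lt_of_le_of_ne hlev.rho (Ne.symm hρ)
    obtain ⟨hch, hx, hneg⟩ := hd.neg.resolve_left hρ
    set D := d.S l.length 1 with hD
    set g : ℕ → ℂ := fun i => d.lam i / (d.ρ : ℂ) with hg
    have hgn : ∀ i ∈ D, ‖g i‖ = 1 := by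
      intro i hi
      simp only [hg]
      rw [norm_div, (hS1 i hi).2.1, Complex.norm_real, Real.norm_of_nonneg hρ'.le, div_self hρ]
    have hg0 : ∀ i ∈ D, g i ≠ 0 := by
      intro i hi h
      have := hgn i hi
      rw [h, norm_zero] at this
      exact zero_ne_one this
    have hcard : D.card ≤ l.length :=
      (Finset.card_filter_le _ _).trans (by rw [Finset.card_range])
    -- (a)
    have hA : ∀ e : ℕ → ℤ, mon D g e = 1 → ∀ j < l.length, d.ξ j ≠ 1 →
        ∑ i ∈ D, e i * ((d.a j i : ℤ) - (d.b j i : ℤ)) = 0 := by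
      intro e he j hj hξ
      refine h2 D g (2 ^ (C * sz l ^ C)) (fun i => (d.a j i : ℤ) - (d.b j i : ℤ)) hg0 ?_ ?_ e he
      · intro e he hne
        exact hC l hl D d.lam d.ρ hρ' hcard (fun i hi => ⟨(hS1 i hi).2.2, (hS1 i hi).2.1⟩) e he hne
      · intro e he hB
        refine h1 l.length d.q ((C + 4) * sz l ^ (C + 4)) D g d.P d.a d.b d.ζ d.ξ d.h hq1 hch e he
          ?_ j hj hξ
        have hsum : ∑ i ∈ D, |e i| ≤ (l.length : ℤ) * 2 ^ (C * sz l ^ C) := by
          calc ∑ i ∈ D, |e i| ≤ ∑ i ∈ D, (2 : ℤ) ^ (C * sz l ^ C) := Finset.sum_le_sum hB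
            _ = (D.card : ℤ) * 2 ^ (C * sz l ^ C) := by rw [Finset.sum_const, nsmul_eq_mul]
            _ ≤ _ := by
              apply mul_le_mul_of_nonneg_right _ (by positivity)
              exact_mod_cast hcard
        have hexp : (8 : ℤ) * ((l.length : ℤ) * 2 ^ (C * sz l ^ C)) ≤
            2 ^ ((C + 4) * sz l ^ (C + 4)) := by
          exact_mod_cast snd_exp C (sz l) l.length hl (snd_sz l)
        linarith
    -- (b)
    have hζ0 : d.ζ ≠ 0 := by
      intro h
      have := hch.root
      rw [h, zero_pow (by omega)] at this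
      exact zero_ne_one this
    have hζn : ‖d.ζ‖ = 1 := by
      have := congrArg norm hch.root
      rw [norm_pow, norm_one] at this
      exact (pow_eq_one_iff_of_nonneg (norm_nonneg _) (by omega)).mp this
    have hx0 : ∀ j < l.length, d.x j ≠ 0 := by
      intro j hj h
      have := (hx j hj).1
      rw [h, norm_zero] at this
      exact zero_ne_one this
    have hξ0 : ∀ j < l.length, d.ξ j ≠ 0 := by
      intro j hj h
      have := hch.unit j hj
      rw [h, norm_zero] at this
      exact zero_ne_one this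
    set y : ℕ → ℂ := fun j => d.x j / d.ξ j ^ d.m with hy
    have hy0 : ∀ j < l.length, y j ≠ 0 := fun j hj => div_ne_zero (hx0 j hj) (pow_ne_zero _ (hξ0 j hj))
    have hyn : ∀ j < l.length, ‖y j‖ = 1 := by
      intro j hj
      simp only [hy]
      rw [norm_div, norm_pow, (hx j hj).1, hch.unit j hj, one_pow, div_one]
    set w : ℕ → ℂ := fun i => ∏ j ∈ Finset.range l.length, y j ^ ((d.a j i : ℤ) - (d.b j i : ℤ))
      with hw
    have hz : ∀ i ∈ D, d.z l.length i = g i ^ d.m * w i := by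
      intro i hi
      rw [snd_chain hch i hi]
      unfold CD.z
      simp only [hw]
      rw [mul_pow, ← Finset.prod_pow, mul_assoc, ← Finset.prod_mul_distrib]
      congr 1
      · rw [← pow_mul, ← pow_mul, mul_comm]
      · refine Finset.prod_congr rfl fun j hj => ?_
        rw [Finset.mem_range] at hj
        rw [snd_pw _ (hx j hj).1, snd_pw _ (hch.unit j hj)]
        simp only [hy]
        rw [div_zpow, ← zpow_natCast (d.ξ j ^ ((d.a j i : ℤ) - (d.b j i : ℤ))) d.m,
          ← zpow_natCast (d.ξ j) d.m, ← zpow_mul, ← zpow_mul, mul_comm (d.m : ℤ)]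
        have h0 : d.ξ j ^ (((d.a j i : ℤ) - (d.b j i : ℤ)) * (d.m : ℤ)) ≠ 0 :=
          zpow_ne_zero _ (hξ0 j hj)
        field_simp
    have hwn : ∀ i ∈ D, ‖w i‖ = 1 := by
      intro i _
      simp only [hw]
      rw [norm_prod]
      refine Finset.prod_eq_one fun j hj => ?_
      rw [norm_zpow, hyn j (Finset.mem_range.mp hj), one_zpow]
    have hrel : ∀ e : ℕ → ℤ, mon D (fun i => g i ^ d.q) e = 1 → mon D w e = 1 := by
      intro e he
      have he' : mon D g (fun i => (d.q : ℤ) * e i) = 1 := by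
        rw [← he]
        unfold mon
        refine Finset.prod_congr rfl fun i _ => ?_
        rw [zpow_mul, zpow_natCast]
      have h0 : ∀ j < l.length, d.ξ j ≠ 1 →
          ∑ i ∈ D, e i * ((d.a j i : ℤ) - (d.b j i : ℤ)) = 0 := by
        intro j hj hξ
        have := hA _ he' j hj hξ
        simp only [mul_assoc] at this
        rw [← Finset.mul_sum] at this
        rcases mul_eq_zero.mp this with h | h
        · exfalso
          have : d.q = 0 := by exact_mod_cast h
          omega
        · exact h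
      unfold mon
      simp only [hw]
      calc ∏ i ∈ D, (∏ j ∈ Finset.range l.length, y j ^ ((d.a j i : ℤ) - (d.b j i : ℤ))) ^ e i
          = ∏ i ∈ D, ∏ j ∈ Finset.range l.length,
              y j ^ (e i * ((d.a j i : ℤ) - (d.b j i : ℤ))) := by
            refine Finset.prod_congr rfl fun i _ => ?_
            rw [← Finset.prod_zpow]
            refine Finset.prod_congr rfl fun j _ => ?_
            rw [← zpow_mul, mul_comm]
        _ = ∏ j ∈ Finset.range l.length, ∏ i ∈ D,
              y j ^ (e i * ((d.a j i : ℤ) - (d.b j i : ℤ))) := Finset.prod_comm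
        _ = 1 := by
            refine Finset.prod_eq_one fun j hj => ?_
            rw [Finset.mem_range] at hj
            by_cases hξ : d.ξ j = 1
            · have : y j = 1 := by
                simp only [hy]
                rw [(hx j hj).2 hξ, hξ, one_pow, div_one]
              simp [this]
            · rw [snd_prod_zpow _ (hy0 j hj), h0 j hj hξ, zpow_zero]
    -- (c)
    set R := (∑ i ∈ D, d.c i d.J * d.z l.length i).re with hR
    set δ := -R / 2 with hδ
    have hδ0 : 0 < δ := by rw [hδ]; linarith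
    obtain ⟨T', hT'⟩ := h5 l.length D (d.S l.length 2) d.lam d.c d.ρ δ d.J hρ' hδ0 hd.jlt
      (fun i hi => (hS1 i hi).2.1) hS2
    set ε := δ / (1 + ∑ i ∈ D, ‖d.c i d.J‖) with hε
    have hden : 0 < 1 + ∑ i ∈ D, ‖d.c i d.J‖ := by
      have := Finset.sum_nonneg (s := D) (f := fun i => ‖d.c i d.J‖) fun i _ => norm_nonneg _
      linarith
    have hε0 : 0 < ε := div_pos hδ0 hden
    obtain ⟨t, ht, hclose⟩ := h4 D (fun i => g i ^ d.q) w (fun i hi =>
      ⟨by rw [norm_pow, hgn i hi, one_pow], hwn i hi⟩) hrel ε hε0 (T' + N1 + l.length)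
    have htq : t ≤ d.q * t := Nat.le_mul_of_pos_left _ hq1
    have hre : (∑ i ∈ D, d.c i d.J * (d.lam i / (d.ρ : ℂ)) ^ (d.m + d.q * t)).re ≤ -δ := by
      have hdiff : ‖∑ i ∈ D, d.c i d.J * (d.lam i / (d.ρ : ℂ)) ^ (d.m + d.q * t) -
          ∑ i ∈ D, d.c i d.J * d.z l.length i‖ ≤ δ := by
        rw [← Finset.sum_sub_distrib]
        calc ‖∑ i ∈ D, (d.c i d.J * (d.lam i / (d.ρ : ℂ)) ^ (d.m + d.q * t) -
              d.c i d.J * d.z l.length i)‖
            ≤ ∑ i ∈ D, ‖d.c i d.J * (d.lam i / (d.ρ : ℂ)) ^ (d.m + d.q * t) -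
              d.c i d.J * d.z l.length i‖ := norm_sum_le _ _
          _ ≤ ∑ i ∈ D, ‖d.c i d.J‖ * ε := by
              refine Finset.sum_le_sum fun i hi => ?_
              have e1 : d.c i d.J * (d.lam i / (d.ρ : ℂ)) ^ (d.m + d.q * t) -
                  d.c i d.J * d.z l.length i =
                  d.c i d.J * (g i ^ d.m * ((g i ^ d.q) ^ t - w i)) := by
                rw [hz i hi]
                simp only [hg]
                rw [pow_add, pow_mul]
                ring
              rw [e1, norm_mul, norm_mul, norm_pow, hgn i hi, one_pow, one_mul]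
              exact mul_le_mul_of_nonneg_left (hclose i hi).le (norm_nonneg _)
          _ = (∑ i ∈ D, ‖d.c i d.J‖) * ε := by rw [Finset.sum_mul]
          _ ≤ (1 + ∑ i ∈ D, ‖d.c i d.J‖) * ε := by
              apply mul_le_mul_of_nonneg_right _ hε0.le
              linarith
          _ = δ := by
              rw [hε]
              field_simp
      have h := (Complex.abs_re_le_norm _).trans hdiff
      rw [Complex.sub_re, abs_le] at h
      have h2 := h.2
      have : R = -2 * δ := by rw [hδ]; ring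
      rw [← hR] at h2
      linarith
    have hfin := hT' (d.m + d.q * t) (by omega) hre
    rw [← snd_split h6 l d hlev hd.jlt t, ← hkey t (by omega)] at hfin
    have hpos := hU (d.m + d.q * t) (by omega)
    have hre' : (((seq l (d.m + d.q * t) : ℚ) : ℂ)).re = ((seq l (d.m + d.q * t) : ℚ) : ℝ) := by
      rw [← Complex.ofReal_ratCast, Complex.ofReal_re]
    rw [hre'] at hfin
    have : (0 : ℝ) < ((seq l (d.m + d.q * t) : ℚ) : ℝ) := by exact_mod_cast hpos
    linarith

end Pool.Agent.H612.LR
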