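import Pool.Agent.H612.LR.StmF

set_option autoImplicit false

/-!
# Every value of the variables comes from an assignment
-/

namespace Pool.Agent.H612.LR

open Pool.Agent.NPC Pool.Agent.NPC.ER Pool.Agent.NPC.H612 Pool.Agent.H612.PG

/-- Real and imaginary part. -/
noncomputable def riSUR (z : ℂ) : ℕ → ℝ
  | 0 => z.re
  | _ => z.im

/-- The table of the values. -/
noncomputable def tabSUR (v : V) : ℕ → ℕ → ℕ → ℕ → ℕ → ℝ
  | 0, a, _, _, e => riSUR (v.lam a) e
  | 1, a, b, _, e => riSUR (v.c a b) e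
  | 2, _, _, _, _ => v.ρ
  | 3, a, _, _, _ => v.q a
  | 4, a, _, _, _ => v.m a
  | 5, a, b, _, _ => v.P a b
  | 6, a, b, c, _ => v.a a b c
  | 7, a, b, c, _ => v.b a b c
  | 8, a, _, _, _ => v.A a
  | 9, a, _, _, _ => v.U a
  | 10, _, _, _, e => riSUR v.ζ e
  | 11, a, _, _, e => riSUR (v.ξ a) e
  | 12, a, _, _, e => riSUR (v.x a) e
  | 13, a, b, _, e => riSUR (v.h a b) e
  | 14, a, b, _, _ => v.F a b
  | 15, a, b, _, _ => v.K a b
  | 16, a, _, c, e => riSUR (v.s16 a c) e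
  | 17, a, _, c, e => riSUR (v.s17 a c) e
  | 18, _, _, c, e => riSUR (v.s18 c) e
  | 19, _, _, c, e => riSUR (v.s19 c) e
  | 20, a, _, c, e => riSUR (v.s20 a c) e
  | 21, a, _, c, e => riSUR (v.s21 a c) e
  | 22, a, b, c, e => riSUR (v.s22 a b c) e
  | 23, a, b, c, e => riSUR (v.s23 a b c) e
  | 24, a, b, c, e => riSUR (v.s24 a b c) e
  | 25, a, b, c, e => riSUR (v.s25 a b c) e
  | 26, a, b, _, e => riSUR (v.W a b) e
  | 27, a, b, _, _ => v.B a b
  | 28, a, b, _, e => riSUR (v.Z a b) e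
  | _, _, _, _, _ => 0

/-- The assignment. -/
noncomputable def xSUR (v : V) (n : ℕ) : ℝ :=
  tabSUR v n.unpair.1 n.unpair.2.unpair.1 n.unpair.2.unpair.2.unpair.1
    n.unpair.2.unpair.2.unpair.2.unpair.1 n.unpair.2.unpair.2.unpair.2.unpair.2.unpair.1

theorem xSUR_nm (v : V) (T a b c e K s t : ℕ) :
    xSUR v (nm T a b c e K s t) = tabSUR v T a b c e := by
  unfold xSUR nm
  simp only [Nat.unpair_pair]

theorem t_SUR : S_SUR := by
  intro v
  refine ⟨xSUR v, ?_⟩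
  unfold VOf cval rval
  simp only [xSUR_nm, tabSUR, riSUR, Complex.eta]

end Pool.Agent.H612.LR
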