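import Pool.Agent.H612.LR.Stm

/-!
# TOR: a common exponent for the quotients of characteristic roots which are roots of unity
-/

namespace Pool.Agent.H612.LR

open Polynomial IntermediateField

namespace TOR

lemma len_le_sz (l : Rec) : l.length ≤ sz l := by
  unfold sz szList
  induction l with
  | nil => simp
  | cons p l ih =>
    simp only [List.flatMap_cons, List.length_append, List.length_cons] at ih ⊢
    omega

lemma monic_chi (l : Rec) : (chi l).Monic ∧ (chi l).natDegree = l.length := by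
  have hdeg : (∑ i ∈ Finset.range l.length, C (coef l i) * X ^ (l.length - 1 - i) : ℚ[X]).degree
      < (l.length : WithBot ℕ) := by
    refine (Polynomial.degree_sum_le _ _).trans_lt ?_
    rw [Finset.sup_lt_iff (by exact WithBot.bot_lt_coe _)]
    intro i hi
    refine (Polynomial.degree_C_mul_X_pow_le _ _).trans_lt ?_
    have := Finset.mem_range.mp hi
    exact_mod_cast (by omega : l.length - 1 - i < l.length)
  have hX : (X ^ l.length : ℚ[X]).Monic := monic_X_pow _
  have hXd : (X ^ l.length : ℚ[X]).degree = l.length := degree_X_pow _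
  constructor
  · exact hX.sub_of_left (by rw [hXd]; exact hdeg)
  · have : (chi l).degree = l.length := by
      unfold chi
      rw [Polynomial.degree_sub_eq_left_of_degree_lt (by rw [hXd]; exact hdeg), hXd]
    exact Polynomial.natDegree_eq_of_degree_eq_some this

lemma aeval_chi (l : Rec) (z : ℂ) (hz : IsRoot l z) : aeval z (chi l) = 0 := by
  unfold chi
  simp only [map_sub, map_pow, aeval_X, map_sum, map_mul, aeval_C]
  unfold IsRoot at hz
  rw [hz, sub_eq_zero]
  refine Finset.sum_congr rfl fun i _ => ?_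
  congr 1

lemma int_root (l : Rec) (z : ℂ) (hz : IsRoot l z) :
    IsIntegral ℚ z ∧ (minpoly ℚ z).natDegree ≤ l.length := by
  obtain ⟨hm, hd⟩ := monic_chi l
  refine ⟨⟨chi l, hm, aeval_chi l z hz⟩, ?_⟩
  rw [← hd]
  exact Polynomial.natDegree_le_natDegree (minpoly.min ℚ z hm (aeval_chi l z hz))

end TOR

open TOR in
theorem t_TOR (h1 : S_TORK) : S_TOR := by
  obtain ⟨C, hC⟩ := h1
  refine ⟨C ^ (2 * C) + 4 * C, fun l hl => ?_⟩
  set k := l.length with hk
  set N := (C * k ^ 2) ^ C with hN
  refine ⟨N.factorial, Nat.factorial_pos N, ?_, ?_⟩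
  · -- the bound
    have hs : k ≤ sz l := len_le_sz l
    have hs1 : 1 ≤ sz l := hl.trans hs
    have h2 : N.factorial ≤ 2 ^ (N ^ 2) := by
      calc N.factorial ≤ N ^ N := Nat.factorial_le_pow N
        _ ≤ (2 ^ N) ^ N := Nat.pow_le_pow_left (Nat.lt_two_pow_self).le _
        _ = 2 ^ (N ^ 2) := by rw [← pow_mul, sq]
    refine h2.trans (Nat.pow_le_pow_right (by norm_num) ?_)
    calc N ^ 2 = (C * k ^ 2) ^ (2 * C) := by rw [hN, ← pow_mul, mul_comm C 2]
      _ ≤ (C * sz l ^ 2) ^ (2 * C) := by gcongr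
      _ = C ^ (2 * C) * sz l ^ (4 * C) := by rw [mul_pow, ← pow_mul]; congr 2; ring
      _ ≤ (C ^ (2 * C) + 4 * C) * sz l ^ (C ^ (2 * C) + 4 * C) := by
        apply Nat.mul_le_mul (Nat.le_add_right _ _)
        exact Nat.pow_le_pow_right hs1 (Nat.le_add_left _ _)
  · intro z w hz hw hz0 hw0 t ht hzw
    obtain ⟨iz, dz⟩ := int_root l z hz
    obtain ⟨iw, dw⟩ := int_root l w hw
    have : FiniteDimensional ℚ ℚ⟮z⟯ := IntermediateField.adjoin.finiteDimensional iz
    have : FiniteDimensional ℚ ℚ⟮w⟯ := IntermediateField.adjoin.finiteDimensional iw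
    let F : IntermediateField ℚ ℂ := ℚ⟮z⟯ ⊔ ℚ⟮w⟯
    have : FiniteDimensional ℚ F := IntermediateField.finiteDimensional_sup _ _
    have : NumberField F := ⟨⟩
    have hfr : Module.finrank ℚ F ≤ k ^ 2 := by
      calc Module.finrank ℚ F ≤ Module.finrank ℚ ℚ⟮z⟯ * Module.finrank ℚ ℚ⟮w⟯ :=
            IntermediateField.finrank_sup_le _ _
        _ ≤ k * k := by
            rw [IntermediateField.adjoin.finrank iz, IntermediateField.adjoin.finrank iw]
            exact Nat.mul_le_mul dz dw
        _ = k ^ 2 := (sq k).symm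
    have mz : z ∈ F := (le_sup_left : ℚ⟮z⟯ ≤ F) (mem_adjoin_simple_self ℚ z)
    have mw : w ∈ F := (le_sup_right : ℚ⟮w⟯ ≤ F) (mem_adjoin_simple_self ℚ w)
    let x : F := (⟨z, mz⟩ : F) / ⟨w, mw⟩
    have hx : (x : ℂ) = z / w := rfl
    have hxt : x ^ t = 1 := by
      apply Subtype.ext
      have : ((x ^ t : F) : ℂ) = (z / w) ^ t := by
        rw [← hx]; push_cast; rfl
      rw [this, div_pow, hzw, div_self (pow_ne_zero _ hw0)]
      rfl
    obtain ⟨n, hn1, hn2, hn3⟩ := hC F x ⟨t, ht, hxt⟩
    have hnN : n ≤ N := by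
      refine hn2.trans ?_
      exact Nat.pow_le_pow_left (Nat.mul_le_mul_left _ hfr) _
    have hdvd : n ∣ N.factorial := Nat.dvd_factorial hn1 hnN
    obtain ⟨m, hm⟩ := hdvd
    have hxn : (z / w) ^ n = 1 := by
      have h := congrArg (fun y : F => (y : ℂ)) hn3
      have h' : ((x ^ n : F) : ℂ) = (z / w) ^ n := by
        rw [← hx]; push_cast; rfl
      rw [← h', h]
      rfl
    have : (z / w) ^ N.factorial = 1 := by rw [hm, pow_mul, hxn, one_pow]
    rw [div_pow, div_eq_one_iff_eq (pow_ne_zero _ hw0)] at this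
    exact this

end Pool.Agent.H612.LR
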