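import Pool.Agent.H612.LR.Stm

/-! Task VAN: cancellation in a residue class (helper287). -/

namespace Pool.Agent.H612.LR

theorem t_VAN : S_VAN := by
  intro U K κ lam d m q h1 h2 t
  have e1 : ∀ i ∈ U, d i * lam i ^ (m + q * t) = (lam (κ i) ^ q) ^ t * (d i * lam i ^ m) := by
    intro i hi
    rw [← (h1 i hi).2, pow_add, pow_mul]
    ring
  rw [Finset.sum_congr rfl e1]
  have hmap : ∀ i ∈ U, κ i ∈ Finset.range K := fun i hi => Finset.mem_range.2 (h1 i hi).1
  rw [← Finset.sum_fiberwise_of_maps_to hmap]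
  refine Finset.sum_eq_zero fun s hs => ?_
  have e2 : ∀ i ∈ U.filter (fun i => κ i = s),
      (lam (κ i) ^ q) ^ t * (d i * lam i ^ m) = (lam s ^ q) ^ t * (d i * lam i ^ m) := by
    intro i hi
    rw [(Finset.mem_filter.1 hi).2]
  rw [Finset.sum_congr rfl e2, ← Finset.mul_sum, h2 s (Finset.mem_range.1 hs), mul_zero]

end Pool.Agent.H612.LR
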