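import Pool.Agent.H612.LR.StmF

/-!
# From values to certificates

Proof of `S_VC1`.
-/

namespace Pool.Agent.H612.LR

open Pool.Agent.NPC Pool.Agent.NPC.ER Pool.Agent.NPC.H612 Pool.Agent.H612.PG

namespace VC1

/-- The number with binary digits `f` (most significant first). -/
noncomputable def hb (f : ℕ → ℝ) : ℕ → ℕ
  | 0 => 0
  | t + 1 => 2 * hb f t + (by classical exact if f t = 1 then 1 else 0)

theorem hb_lt (f : ℕ → ℝ) (t : ℕ) : hb f t < 2 ^ t := by
  induction t with
  | zero => simp [hb]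
  | succ t ih =>
    have h1 : hb f (t + 1) ≤ 2 * hb f t + 1 := by
      rw [hb]
      split_ifs <;> omega
    rw [pow_succ]
    omega

theorem hb_succ (f : ℕ → ℝ) (t : ℕ) (hf : IsBit (f t)) :
    ((hb f (t + 1) : ℕ) : ℝ) = 2 * (hb f t : ℝ) + f t := by
  rcases hf with h | h
  · simp [hb, h]
  · simp [hb, h]

theorem numV_eq (f : ℕ → ℝ) (n : ℕ) (hf : ∀ t < n, IsBit (f t)) : numV n f = (hb f n : ℝ) := by
  induction n with
  | zero => simp [numV, hb]
  | succ n ih =>
    rw [hb_succ f n (hf n (Nat.lt_succ_self n)), ← ih fun t ht => hf t (ht.trans (Nat.lt_succ_self n))]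
    unfold numV
    rw [Finset.sum_range_succ, Finset.mul_sum]
    congr 1
    · apply Finset.sum_congr rfl
      intro t ht
      have h1 : n + 1 - 1 - t = (n - 1 - t) + 1 := by
        have := Finset.mem_range.1 ht
        omega
      rw [h1, pow_succ]
      ring
    · simp

theorem powV_eq {Nb : ℕ} {x : ℂ} {b : ℕ → ℝ} {s : ℕ → ℂ} (h : PowV Nb x b s)
    (hb' : ∀ t < Nb, IsBit (b t)) : ∀ t ≤ Nb, s t = x ^ hb b t := by
  intro t
  induction t with
  | zero => intro _; simp [hb, h.1]
  | succ t ih =>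
    intro ht
    rw [h.2 t (by omega), ih (by omega)]
    rcases hb' t (by omega) with h1 | h1
    · simp [hb, h1, two_mul, pow_add]
    · simp [hb, h1, two_mul, pow_add]

theorem B_eq (l : Rec) (Nb : ℕ) (v : V) (g : v.Good1 l Nb) :
    ∀ n ≤ 2 * l.length + l.length ^ 2, ∀ j ≤ l.length, v.B n j = (n.choose j : ℝ) := by
  intro n
  induction n with
  | zero =>
    intro _ j hj
    cases j with
    | zero => simp [g.a4.1]
    | succ j => simp [g.a4.2.1 j (by omega)]
  | succ n ih =>
    intro hn j hj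
    obtain ⟨h1, h2⟩ := g.a4.2.2 n (by omega)
    cases j with
    | zero => simp [h1]
    | succ j =>
      rw [h2 j (by omega), ih (by omega) j (by omega), ih (by omega) (j + 1) (by omega),
        Nat.choose_succ_succ]
      push_cast
      ring

theorem W_eq (l : Rec) (Nb : ℕ) (v : V) (g : v.Good1 l Nb) {i : ℕ} (hi : i < l.length) :
    ∀ n ≤ 2 * l.length + l.length ^ 2, v.W i n = v.lam i ^ n := by
  intro n
  induction n with
  | zero => intro _; simp [(g.a5 i hi).1]
  | succ n ih =>
    intro hn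
    rw [(g.a5 i hi).2 n (by omega), ih (by omega), pow_succ]

theorem seq_ini (l : Rec) (n : ℕ) (h : n < l.length) : seq l n = ini l n := by
  rw [seq]
  simp [h]

theorem seq_rec (l : Rec) (n : ℕ) (h : ¬ n < l.length) :
    seq l n = ∑ i ∈ Finset.range l.length, coef l i * seq l (n - 1 - i) := by
  rw [seq]
  rw [if_neg h]
  exact Fin.sum_univ_eq_sum_range (fun i => coef l i * seq l (n - 1 - i)) l.length

theorem U_eq (l : Rec) (Nb : ℕ) (v : V) (g : v.Good1 l Nb) :
    ∀ n < 2 * l.length + l.length ^ 2, v.U n = ((seq l n : ℚ) : ℝ) := by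
  intro n
  induction n using Nat.strong_induction_on with
  | _ n ih =>
    intro hn
    by_cases h : n < l.length
    · rw [seq_ini l n h, g.a2 n h]
    · rw [seq_rec l n h]
      obtain ⟨n', rfl⟩ : ∃ n', n = n' + l.length := ⟨n - l.length, by omega⟩
      rw [g.a3 n' (by omega)]
      push_cast
      apply Finset.sum_congr rfl
      intro i hi
      have hi' := Finset.mem_range.1 hi
      rw [g.a1 i hi', ih (n' + l.length - 1 - i) (by omega) (by omega)]

/-- The flags. -/
noncomputable def flg (v : V) (i : ℕ) : ℕ := by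
  classical exact if v.F i 0 = 1 then 0 else if v.F i 1 = 1 then 1 else 2

theorem flg_eq (v : V) (i t : ℕ) (ht : t < 3) (h : v.Flag i t) : flg v i = t := by
  have h0 := h 0 (by norm_num)
  have h1 := h 1 (by norm_num)
  have h2 := h 2 (by norm_num)
  unfold flg
  interval_cases t
  · simp at h0
    simp [h0]
  · simp at h0 h1
    simp [h0, h1]
  · simp at h0 h1
    simp [h0, h1]

/-- The conditions on the flags. -/
theorem F_eq (l : Rec) (Nb : ℕ) (v : V) (g : v.Good1 l Nb) {i : ℕ} (hi : i < l.length) (t : ℕ)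
    (ht : t < 3) : v.F i t = if flg v i = t then 1 else 0 := by
  rcases g.a11 i hi with h | ⟨h, -⟩ | ⟨h, -⟩
  · rw [flg_eq v i 0 (by norm_num) h, h t ht]
    simp only [eq_comm]
  · rw [flg_eq v i 1 (by norm_num) h, h t ht]
    simp only [eq_comm]
  · rw [flg_eq v i 2 (by norm_num) h, h t ht]
    simp only [eq_comm]

theorem can_eq {l : Rec} {Nb : ℕ} {v : V} (g : v.Good1 l Nb) {κ : ℕ → ℕ}
    (hκ : ∀ i < l.length, ∀ s < l.length, v.K i s = if s = κ i then 1 else 0) {t s j : ℕ}
    (ht : t < 3) (hs : s < l.length) (h : v.Can l.length Nb t s j) :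
    ∑ i ∈ ((Finset.range l.length).filter fun i => flg v i = t).filter (fun i => κ i = s),
      v.c i j * v.lam i ^ hb v.m Nb = 0 := by
  rw [Finset.sum_filter, Finset.sum_filter]
  refine Eq.trans ?_ h
  apply Finset.sum_congr rfl
  intro i hi
  have hi' := Finset.mem_range.1 hi
  rw [F_eq l Nb v g hi' t ht, hκ i hi' s hs,
    powV_eq (g.a9 i hi').2 (fun t ht => (g.a8 t ht).1.2) Nb le_rfl]
  by_cases h1 : flg v i = t
  · by_cases h2 : κ i = s
    · simp [h1, h2]
    · simp [h1, h2, Ne.symm h2]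
  · simp [h1]

theorem le_one_of_sq {x : ℝ} (h : x ^ 2 ≤ 1) : x ≤ 1 := by
  nlinarith [sq_nonneg (x - 1)]

end VC1

open VC1 in
theorem t_VC1 : S_VC1 := by
  intro l Nb N0 v hk ⟨g, J, hJ, hc, hn⟩
  classical
  have hκ0 : ∀ i, ∃ s, i < l.length → (s < l.length ∧
      (∀ s' < l.length, v.K i s' = if s' = s then 1 else 0) ∧ v.s16 i Nb = v.s16 s Nb) := by
    intro i
    by_cases hi : i < l.length
    · obtain ⟨s, h1, h2⟩ := g.a12 i hi
      exact ⟨s, fun _ => ⟨h1, h2⟩⟩
    · exact ⟨0, fun h => absurd h hi⟩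
  choose κ hκ using hκ0
  refine ⟨⟨v.lam, v.c, v.ρ, J, hb v.m Nb, hb v.q Nb, fun i => hb (v.P i) Nb,
    fun j i => hb (v.a j i) Nb, fun j i => hb (v.b j i) Nb, v.ζ, v.ξ, v.x, v.h, flg v, κ⟩, ?_⟩
  have hq : numV Nb v.q = (hb v.q Nb : ℝ) := numV_eq _ _ fun t ht => (g.a8 t ht).1.1
  constructor
  · -- rep
    refine ⟨fun i hi => (g.a6 i hi).1, fun i hi i' hi' h => ?_, ?_⟩
    · rcases (g.a6 i hi).2 i' hi' with h1 | h1
      · exact h1
      · exact absurd h h1
    · intro n hn1 hn2
      obtain ⟨n', rfl⟩ : ∃ n', n = n' + l.length := ⟨n - l.length, by omega⟩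
      have h1 := g.a7 n' (by omega)
      rw [U_eq l Nb v g _ hn2] at h1
      have h2 : (((seq l (n' + l.length) : ℚ) : ℝ) : ℂ) = ((seq l (n' + l.length) : ℚ) : ℂ) := by
        push_cast
        rfl
      rw [← h2, h1]
      unfold expo
      apply Finset.sum_congr rfl
      intro i hi
      apply Finset.sum_congr rfl
      intro j hj
      rw [B_eq l Nb v g _ (by omega) j (Finset.mem_range.1 hj).le,
        W_eq l Nb v g (Finset.mem_range.1 hi) _ (by omega)]
      push_cast
      rfl
  · exact hJ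
  · exact hb_lt _ _
  · exact hb_lt _ _
  · intro i _
    exact hb_lt _ _
  · intro j _ i _
    exact hb_lt _ _
  · intro j _ i _
    exact hb_lt _ _
  · -- lev
    constructor
    · exact g.a10.1
    · have h1 := g.a10.2
      rw [hq] at h1
      exact_mod_cast h1
    · intro i hi
      rcases g.a11 i hi with h | ⟨h, h1, h2⟩ | ⟨h, h1⟩
      · left
        exact flg_eq v i 0 (by norm_num) h
      · right
        left
        refine ⟨flg_eq v i 1 (by norm_num) h, ?_, ?_⟩
        · exact (sq_eq_sq₀ (norm_nonneg _) g.a10.1).1 h1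
        · unfold V.Root at h2
          rw [W_eq l Nb v g hi _ (by nlinarith)] at h2
          show v.lam i ^ l.length = _
          rw [h2]
          apply Finset.sum_congr rfl
          intro j hj
          have hj' := Finset.mem_range.1 hj
          rw [W_eq l Nb v g hi _ (by omega), g.a1 j hj']
          push_cast
          rfl
      · right
        right
        refine ⟨flg_eq v i 2 (by norm_num) h, ?_⟩
        exact lt_of_pow_lt_pow_left₀ 2 g.a10.1 h1
    · intro i hi
      obtain ⟨h1, h2, h3⟩ := hκ i hi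
      refine ⟨h1, ?_⟩
      rw [powV_eq (g.a9 i hi).1 (fun t ht => (g.a8 t ht).1.1) Nb le_rfl,
        powV_eq (g.a9 _ h1).1 (fun t ht => (g.a8 t ht).1.1) Nb le_rfl] at h3
      exact h3
    · intro s hs j hj
      exact can_eq g (fun i hi s hs => (hκ i hi).2.1 s hs) (by norm_num) hs (g.a13 s hs j hj)
    · intro s hs j hj hJj
      exact can_eq g (fun i hi s hs => (hκ i hi).2.1 s hs) (by norm_num) hs (hc s hs j hj hJj)
  · -- neg
    rcases hn with hn | hn
    · left
      exact hn
    by_cases hρ : v.ρ = 0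
    · left
      exact hρ
    right
    have hqb : ∀ t < Nb, IsBit (v.q t) := fun t ht => (g.a8 t ht).1.1
    have hmb : ∀ t < Nb, IsBit (v.m t) := fun t ht => (g.a8 t ht).1.2
    have hPb : ∀ i < l.length, ∀ t < Nb, IsBit (v.P i t) := fun i hi t ht =>
      ((g.a8 t ht).2 i hi).1
    have hab : ∀ i < l.length, ∀ j < l.length, ∀ t < Nb, IsBit (v.a j i t) :=
      fun i hi j hj t ht => (((g.a8 t ht).2 i hi).2 j hj).1
    have hbb : ∀ i < l.length, ∀ j < l.length, ∀ t < Nb, IsBit (v.b j i t) :=
      fun i hi j hj t ht => (((g.a8 t ht).2 i hi).2 j hj).2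
    have hF : ∀ i ∈ (Finset.range l.length).filter (fun i => flg v i = 1), i < l.length ∧
        v.F i 1 ≠ 0 := by
      intro i hi
      rw [Finset.mem_filter, Finset.mem_range] at hi
      refine ⟨hi.1, ?_⟩
      rw [F_eq l Nb v g hi.1 1 (by norm_num), if_pos hi.2]
      exact one_ne_zero
    have h6 : ∀ i ∈ (Finset.range l.length).filter (fun i => flg v i = 1),
        v.lam i = (v.ρ : ℂ) * (v.s20 i Nb * v.h 0 i) ∧ v.h l.length i = 1 ∧
        (numV Nb v.q * 2 ^ N0 * ‖v.h 0 i - 1‖) ^ 2 ≤ 1 ∧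
        ∀ j < l.length, v.h j i = v.s22 j i Nb * v.s23 j i Nb * v.h (j + 1) i ∧
          ((numV Nb (v.a j i) + numV Nb (v.b j i) + 1) * 2 ^ N0 * ‖v.ξ j - 1‖) ^ 2 ≤ 1 ∧
          (2 ^ N0 * ‖v.h (j + 1) i - 1‖) ^ 2 ≤ ‖v.ξ j - 1‖ ^ 2 := by
      intro i hi
      rcases hn.b6 i (hF i hi).1 with h | h
      · exact absurd h (hF i hi).2
      · exact h
    have hρ' : (v.ρ : ℂ) ≠ 0 := by exact_mod_cast hρ
    refine ⟨?_, ?_, ?_⟩
    · constructor
      · have h1 := powV_eq hn.b1.1 hqb Nb le_rfl
        rw [hn.b4] at h1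
        exact h1.symm
      · intro j hj
        exact (hn.b5 j hj).1
      · intro i hi
        have h1 := (h6 i hi).1
        rw [powV_eq (hn.b2 i (hF i hi).1).1 (hPb i (hF i hi).1) Nb le_rfl] at h1
        show v.lam i / (v.ρ : ℂ) = _
        rw [h1]
        field_simp
      · intro i hi j hj
        have h1 := ((h6 i hi).2.2.2 j hj).1
        have h2 := (hn.b3 i (hF i hi).1 j hj).1
        rw [powV_eq h2.1 (hab i (hF i hi).1 j hj) Nb le_rfl,
          powV_eq h2.2 (hbb i (hF i hi).1 j hj) Nb le_rfl] at h1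
        exact h1
      · intro i hi
        exact (h6 i hi).2.1
      · intro i hi
        have h1 := (h6 i hi).2.2.1
        rw [hq] at h1
        exact le_one_of_sq h1
      · intro i hi j hj
        have h1 := ((h6 i hi).2.2.2 j hj).2.1
        rw [numV_eq _ _ (hab i (hF i hi).1 j hj), numV_eq _ _ (hbb i (hF i hi).1 j hj)] at h1
        push_cast
        exact le_one_of_sq h1
      · intro i hi j hj
        have h1 := ((h6 i hi).2.2.2 j hj).2.2
        exact le_of_sq_le_sq h1 (norm_nonneg _)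
    · intro j hj
      obtain ⟨h1, h2, h3⟩ := hn.b5 j hj
      refine ⟨h2, fun h => ?_⟩
      rcases h3 with h3 | h3
      · exact absurd h h3
      · exact h3
    · have hZ : ∀ i < l.length, ∀ t ≤ l.length, v.Z i t = (v.ζ ^ hb v.m Nb) ^ hb (v.P i) Nb *
          ∏ j ∈ Finset.range t, pw (v.x j) (hb (v.a j i) Nb) (hb (v.b j i) Nb) := by
        intro i hi t
        induction t with
        | zero =>
          intro _
          rw [(hn.b7 i hi).1, powV_eq (hn.b2 i hi).2 (hPb i hi) Nb le_rfl,
            powV_eq hn.b1.2 hmb Nb le_rfl]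
          simp
        | succ t ih =>
          intro ht
          have h2 := (hn.b3 i hi t (by omega)).2
          rw [(hn.b7 i hi).2 t (by omega), ih (by omega), Finset.prod_range_succ,
            powV_eq h2.1 (hab i hi t (by omega)) Nb le_rfl,
            powV_eq h2.2 (hbb i hi t (by omega)) Nb le_rfl]
          unfold pw
          ring
      have h8 := hn.b8
      have h9 : ∑ i ∈ Finset.range l.length, ((v.F i 1 : ℝ) : ℂ) * (v.c i J * v.Z i l.length) =
          ∑ i ∈ (Finset.range l.length).filter (fun i => flg v i = 1), v.c i J *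
            ((v.ζ ^ hb v.m Nb) ^ hb (v.P i) Nb *
              ∏ j ∈ Finset.range l.length, pw (v.x j) (hb (v.a j i) Nb) (hb (v.b j i) Nb)) := by
        rw [Finset.sum_filter]
        apply Finset.sum_congr rfl
        intro i hi
        have hi' := Finset.mem_range.1 hi
        rw [F_eq l Nb v g hi' 1 (by norm_num), hZ i hi' _ le_rfl]
        by_cases h1 : flg v i = 1
        · simp [h1]
        · simp [h1]
      rw [h9] at h8
      exact h8

end Pool.Agent.H612.LR
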