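import Pool.Agent.H612.LR.StmF

/-!
# VC2: from certificates to values
-/

namespace Pool.Agent.H612.LR

open Pool.Agent.NPC Pool.Agent.NPC.ER Pool.Agent.NPC.H612 Pool.Agent.H612.PG

/-- the number given by the first `t` digits of `n` -/
private def vc2H (Nb n t : ℕ) : ℕ := n / 2 ^ (Nb - t)

/-- the digit number `t` of `n` -/
private def vc2B (Nb n t : ℕ) : ℕ := (n / 2 ^ (Nb - 1 - t)) % 2

private theorem vc2H_zero (Nb n : ℕ) (h : n < 2 ^ Nb) : vc2H Nb n 0 = 0 := by
  simp only [vc2H, Nat.sub_zero]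
  exact Nat.div_eq_of_lt h

private theorem vc2H_last (Nb n : ℕ) : vc2H Nb n Nb = n := by
  simp [vc2H]

private theorem vc2H_succ (Nb n t : ℕ) (ht : t < Nb) :
    vc2H Nb n (t + 1) = 2 * vc2H Nb n t + vc2B Nb n t := by
  simp only [vc2H, vc2B]
  have h1 : Nb - t = (Nb - 1 - t) + 1 := by omega
  have h2 : Nb - (t + 1) = Nb - 1 - t := by omega
  rw [h1, h2, pow_succ, ← Nat.div_div_eq_div_mul]
  omega

private theorem vc2B_bit (Nb n t : ℕ) : IsBit ((vc2B Nb n t : ℕ) : ℝ) := by
  have : vc2B Nb n t = 0 ∨ vc2B Nb n t = 1 := by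
    unfold vc2B; omega
  rcases this with h | h
  · left; rw [h]; simp
  · right; rw [h]; simp

private theorem vc2_num (Nb n : ℕ) (h : n < 2 ^ Nb) :
    numV Nb (fun t => ((vc2B Nb n t : ℕ) : ℝ)) = n := by
  have key : ∀ T ≤ Nb, ∑ t ∈ Finset.range T, ((vc2B Nb n t : ℕ) : ℝ) * 2 ^ (Nb - 1 - t) =
      (vc2H Nb n T : ℝ) * 2 ^ (Nb - T) := by
    intro T
    induction T with
    | zero =>
      intro _
      rw [vc2H_zero Nb n h]; simp
    | succ T ih =>
      intro hT
      rw [Finset.sum_range_succ, ih (by omega), vc2H_succ Nb n T (by omega)]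
      have h1 : Nb - T = (Nb - 1 - T) + 1 := by omega
      have h2 : Nb - (T + 1) = Nb - 1 - T := by omega
      rw [h1, h2, pow_succ]
      push_cast
      ring
  rw [numV, key Nb le_rfl, vc2H_last]
  simp

private theorem vc2_pow (Nb n : ℕ) (h : n < 2 ^ Nb) (x : ℂ) :
    PowV Nb x (fun t => ((vc2B Nb n t : ℕ) : ℝ)) (fun t => x ^ vc2H Nb n t) := by
  refine ⟨by simp only [vc2H_zero Nb n h, pow_zero], ?_⟩
  intro t ht
  simp only
  rw [vc2H_succ Nb n t ht]
  have : vc2B Nb n t = 0 ∨ vc2B Nb n t = 1 := by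
    unfold vc2B; omega
  rcases this with h | h
  · rw [h]; simp; ring
  · rw [h]; simp; ring

/-- the values -/
private noncomputable def vc2V (l : Rec) (Nb : ℕ) (d : CD) : V where
  lam := d.lam
  c := d.c
  ρ := d.ρ
  q t := ((vc2B Nb d.q t : ℕ) : ℝ)
  m t := ((vc2B Nb d.m t : ℕ) : ℝ)
  P i t := ((vc2B Nb (d.P i) t : ℕ) : ℝ)
  a j i t := ((vc2B Nb (d.a j i) t : ℕ) : ℝ)
  b j i t := ((vc2B Nb (d.b j i) t : ℕ) : ℝ)
  A i := (coef l i : ℝ)
  U n := (seq l n : ℝ)
  ζ := d.ζ
  ξ := d.ξ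
  x := d.x
  h := d.h
  F i t := if d.fl i = t then 1 else 0
  K i s := if d.κ i = s then 1 else 0
  s16 i t := d.lam i ^ vc2H Nb d.q t
  s17 i t := d.lam i ^ vc2H Nb d.m t
  s18 t := d.ζ ^ vc2H Nb d.q t
  s19 t := d.ζ ^ vc2H Nb d.m t
  s20 i t := d.ζ ^ vc2H Nb (d.P i) t
  s21 i t := (d.ζ ^ d.m) ^ vc2H Nb (d.P i) t
  s22 j i t := d.ξ j ^ vc2H Nb (d.a j i) t
  s23 j i t := (starRingEnd ℂ (d.ξ j)) ^ vc2H Nb (d.b j i) t
  s24 j i t := d.x j ^ vc2H Nb (d.a j i) t
  s25 j i t := (starRingEnd ℂ (d.x j)) ^ vc2H Nb (d.b j i) t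
  W i n := d.lam i ^ n
  B n j := (n.choose j : ℝ)
  Z i j := (d.ζ ^ d.m) ^ d.P i * ∏ j' ∈ Finset.range j, pw (d.x j') (d.a j' i) (d.b j' i)

private theorem vc2_can (l : Rec) (Nb : ℕ) (d : CD) (k t s j : ℕ)
    (h : ∑ i ∈ (d.S k t).filter (fun i => d.κ i = s), d.c i j * d.lam i ^ d.m = 0) :
    (vc2V l Nb d).Can k Nb t s j := by
  simp only [V.Can, vc2V, vc2H_last]
  rw [CD.S, Finset.filter_filter, Finset.sum_filter] at h
  rw [← h]
  apply Finset.sum_congr rfl
  intro i _
  by_cases h1 : d.fl i = t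
  · by_cases h2 : d.κ i = s
    · rw [if_pos h1, if_pos h2, if_pos ⟨h1, h2⟩]; simp
    · simp [h2]
  · simp [h1]

private theorem vc2_flag (l : Rec) (Nb : ℕ) (d : CD) (i t : ℕ) (h : d.fl i = t) :
    (vc2V l Nb d).Flag i t := by
  intro t' _
  simp only [vc2V, h]
  exact if_congr eq_comm rfl rfl

private theorem vc2_sq (r : ℝ) (h0 : 0 ≤ r) (h1 : r ≤ 1) : r ^ 2 ≤ 1 :=
  pow_le_one₀ h0 h1

/-- VC2: from certificates to values. -/
theorem t_VC2 : S_VC2 := by
  rintro l Nb N0 _ ⟨d, hd⟩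
  refine ⟨vc2V l Nb d, ⟨?_, d.J, hd.jlt, ?_, ?_⟩⟩
  · constructor
    · intro i _; rfl
    · intro n hn
      change ((seq l n : ℚ) : ℝ) = _
      rw [seq, if_pos hn]
    · intro n hn
      change ((seq l (n + l.length) : ℚ) : ℝ) = ∑ i ∈ Finset.range l.length,
        ((coef l i : ℚ) : ℝ) * ((seq l (n + l.length - 1 - i) : ℚ) : ℝ)
      rw [seq, if_neg (by omega), Finset.sum_range]
      push_cast
      rfl
    · refine ⟨by simp [vc2V], fun j _ => by simp [vc2V], fun n _ => ⟨by simp [vc2V], ?_⟩⟩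
      intro j _
      simp only [vc2V]
      rw [Nat.choose_succ_succ]
      push_cast
      rfl
    · intro i _
      refine ⟨by simp [vc2V], fun n _ => ?_⟩
      simp only [vc2V]
      rw [pow_succ]
    · intro i hi
      refine ⟨hd.rep.1 i hi, fun i' hi' => ?_⟩
      by_cases h : i = i'
      · exact Or.inl h
      · exact Or.inr fun h2 => h (hd.rep.2.1 i hi i' hi' h2)
    · intro n hn
      have h := hd.rep.2.2 (n + l.length) (by omega) (by
        have : n < l.length + l.length ^ 2 := hn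
        omega)
      simp only [vc2V]
      rw [expo] at h
      push_cast
      rw [h]
    · intro t _
      exact ⟨⟨vc2B_bit _ _ _, vc2B_bit _ _ _⟩, fun i _ => ⟨vc2B_bit _ _ _, fun j _ =>
        ⟨vc2B_bit _ _ _, vc2B_bit _ _ _⟩⟩⟩
    · intro i _
      exact ⟨vc2_pow Nb d.q hd.qlt _, vc2_pow Nb d.m hd.mlt _⟩
    · refine ⟨hd.lev.rho, ?_⟩
      have h := vc2_num Nb d.q hd.qlt
      change 1 ≤ numV Nb (fun t => ((vc2B Nb d.q t : ℕ) : ℝ))
      rw [h]
      exact_mod_cast hd.lev.q1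
    · intro i hi
      have hρ := hd.lev.rho
      rcases hd.lev.flag i hi with h | ⟨h, h2, h3⟩ | ⟨h, h2⟩
      · exact Or.inl (vc2_flag l Nb d i 0 h)
      · refine Or.inr (Or.inl ⟨vc2_flag l Nb d i 1 h, ?_, ?_⟩)
        · change ‖d.lam i‖ ^ 2 = d.ρ ^ 2
          rw [h2]
        · change d.lam i ^ l.length = ∑ j ∈ Finset.range l.length,
            (((coef l j : ℚ) : ℝ) : ℂ) * d.lam i ^ (l.length - 1 - j)
          rw [IsRoot] at h3
          rw [h3]
          apply Finset.sum_congr rfl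
          intro j _
          push_cast
          rfl
      · refine Or.inr (Or.inr ⟨vc2_flag l Nb d i 2 h, ?_⟩)
        change ‖d.lam i‖ ^ 2 < d.ρ ^ 2
        exact pow_lt_pow_left₀ h2 (norm_nonneg _) (by norm_num)
    · intro i hi
      obtain ⟨h1, h2⟩ := hd.lev.cls i hi
      refine ⟨d.κ i, h1, ?_, ?_⟩
      · intro s' _
        simp only [vc2V]
        exact if_congr eq_comm rfl rfl
      · simp only [vc2V, vc2H_last]
        exact h2
    · intro s hs j hj
      exact vc2_can l Nb d l.length 0 s j (hd.lev.can0 s hs j hj)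
  · intro s hs j hj hJ
    exact vc2_can l Nb d l.length 1 s j (hd.lev.can1 s hs j hj hJ)
  · by_cases hρ0 : d.ρ = 0
    · exact Or.inl hρ0
    · right
      obtain ⟨hch, hx, hneg⟩ := hd.neg.resolve_left hρ0
      have hρ1 : (d.ρ : ℂ) ≠ 0 := by exact_mod_cast hρ0
      constructor
      · exact ⟨vc2_pow Nb d.q hd.qlt _, vc2_pow Nb d.m hd.mlt _⟩
      · intro i hi
        refine ⟨vc2_pow Nb (d.P i) (hd.plt i hi) _, ?_⟩
        have h := vc2_pow Nb (d.P i) (hd.plt i hi) (d.ζ ^ d.m)
        simp only [vc2V, vc2H_last]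
        exact h
      · intro i hi j hj
        exact ⟨⟨vc2_pow Nb _ (hd.alt j hj i hi) _, vc2_pow Nb _ (hd.blt j hj i hi) _⟩,
          ⟨vc2_pow Nb _ (hd.alt j hj i hi) _, vc2_pow Nb _ (hd.blt j hj i hi) _⟩⟩
      · simp only [vc2V, vc2H_last]
        exact hch.root
      · intro j hj
        refine ⟨hch.unit j hj, (hx j hj).1, ?_⟩
        by_cases h : d.ξ j = 1
        · exact Or.inr ((hx j hj).2 h)
        · exact Or.inl h
      · intro i hi
        by_cases hf : d.fl i = 1
        · right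
          have hiS : i ∈ d.S l.length 1 := by
            rw [CD.S, Finset.mem_filter]
            exact ⟨Finset.mem_range.2 hi, hf⟩
          refine ⟨?_, hch.last i hiS, ?_, ?_⟩
          · have h := hch.fac i hiS
            simp only [vc2V, vc2H_last]
            rw [div_eq_iff hρ1] at h
            rw [h]; ring
          · have h := hch.small0 i hiS
            change (numV Nb (fun t => ((vc2B Nb d.q t : ℕ) : ℝ)) * 2 ^ N0 * ‖d.h 0 i - 1‖) ^ 2 ≤ 1
            rw [vc2_num Nb d.q hd.qlt]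
            exact vc2_sq _ (by positivity) h
          · intro j hj
            refine ⟨?_, ?_, ?_⟩
            · simp only [vc2V, vc2H_last]
              exact hch.step i hiS j hj
            · have h := hch.small1 i hiS j hj
              change ((numV Nb (fun t => ((vc2B Nb (d.a j i) t : ℕ) : ℝ)) +
                numV Nb (fun t => ((vc2B Nb (d.b j i) t : ℕ) : ℝ)) + 1) * 2 ^ N0 *
                ‖d.ξ j - 1‖) ^ 2 ≤ 1
              rw [vc2_num Nb _ (hd.alt j hj i hi), vc2_num Nb _ (hd.blt j hj i hi)]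
              push_cast at h
              exact vc2_sq _ (by positivity) h
            · have h := hch.small2 i hiS j hj
              change (2 ^ N0 * ‖d.h (j + 1) i - 1‖) ^ 2 ≤ ‖d.ξ j - 1‖ ^ 2
              exact pow_le_pow_left₀ (by positivity) h 2
        · left
          simp only [vc2V]
          rw [if_neg hf]
      · intro i hi
        refine ⟨by simp [vc2V, vc2H_last], fun j hj => ?_⟩
        simp only [vc2V, vc2H_last]
        rw [Finset.prod_range_succ, pw]
        ring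
      · have e : (∑ i ∈ Finset.range l.length, (((vc2V l Nb d).F i 1 : ℝ) : ℂ) *
            ((vc2V l Nb d).c i d.J * (vc2V l Nb d).Z i l.length)) =
            ∑ i ∈ d.S l.length 1, d.c i d.J * d.z l.length i := by
          rw [CD.S, Finset.sum_filter]
          apply Finset.sum_congr rfl
          intro i _
          simp only [vc2V, CD.z]
          by_cases h : d.fl i = 1
          · rw [if_pos h, if_pos h]; simp
          · rw [if_neg h, if_neg h]; simp
        rw [e]
        exact hneg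

end Pool.Agent.H612.LR
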