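import Pool.Agent.H612.LR.StmF
import Pool.Agent.H612.LR.Stm
import Pool.Agent.ER.Rat
import Pool.Agent.H612.LR.T_ASY
import Pool.Agent.H612.LR.T_CLA
import Pool.Agent.H612.LR.T_CLB
import Pool.Agent.H612.LR.T_CLC
import Pool.Agent.H612.LR.T_CMP
import Pool.Agent.H612.LR.T_CORE
import Pool.Agent.H612.LR.T_DEC
import Pool.Agent.H612.LR.T_DENS
import Pool.Agent.H612.LR.T_DIR
import Pool.Agent.H612.LR.T_FLD
import Pool.Agent.H612.LR.T_HLD
import Pool.Agent.H612.LR.T_HLOW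
import Pool.Agent.H612.LR.T_HROOT
import Pool.Agent.H612.LR.T_KRO
import Pool.Agent.H612.LR.T_LIN
import Pool.Agent.H612.LR.T_MAS
import Pool.Agent.H612.LR.T_MASK
import Pool.Agent.H612.LR.T_MEAN
import Pool.Agent.H612.LR.T_PLY
import Pool.Agent.H612.LR.T_ROOT
import Pool.Agent.H612.LR.T_RPE
import Pool.Agent.H612.LR.T_RPU
import Pool.Agent.H612.LR.T_SML
import Pool.Agent.H612.LR.T_SND
import Pool.Agent.H612.LR.T_SUR
import Pool.Agent.H612.LR.T_TOR
import Pool.Agent.H612.LR.T_TORK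
import Pool.Agent.H612.LR.T_VAN
import Pool.Agent.H612.LR.T_VC1
import Pool.Agent.H612.LR.T_VC2

/-!
# Ultimate Positivity in `∀ℝ`: assembly
-/

namespace Pool.Agent.H612.LR

open Pool.Agent.NPC Pool.Agent.NPC.ER Pool.Agent.NPC.H612 Pool.Agent.H612.PG

theorem etr_iff (h1 : S_HLD) (h2 : S_SUR) (h3 : S_VC1) (h4 : S_VC2) (l : Rec) (Nb N0 : ℕ)
    (hl : 1 ≤ l.length) : ETR (lrFm l Nb N0) ↔ Cert l Nb N0 := by
  constructor
  · rintro ⟨x, hx⟩
    exact h3 l Nb N0 _ hl ((h1 l Nb N0 x).1 hx)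
  · intro h
    obtain ⟨v, hv⟩ := h4 l Nb N0 hl h
    obtain ⟨x, rfl⟩ := h2 v
    exact ⟨x, (h1 l Nb N0 x).2 hv⟩

theorem kro : S_KRO := t_KRO
theorem mas : S_MAS := t_MAS (t_MASK t_DIR t_HLOW t_TORK) t_FLD t_HROOT
theorem dens : S_DENS := t_DENS t_CORE t_LIN mas kro

/-- The typed reduction. -/
theorem main_up : ∃ g : Rec → Fm, Poly g ∧ ∀ l : Rec, l ≠ [] →
    (ETR (g l) → ¬ UltPositive l) ∧
    ((NonTight l ∨ (Simple l ∧ EqualModulus l)) → ¬ UltPositive l → ETR (g l)) ∧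
    (GrowthTheorem → Simple l → ¬ UltPositive l → ETR (g l)) := by
  obtain ⟨A0, hA0⟩ := t_SND t_CORE t_LIN mas kro t_ASY t_VAN t_RPU
  obtain ⟨C, hC⟩ := t_TOR t_TORK
  obtain ⟨A1, hA1⟩ := t_CMP (t_DEC t_DIR) A0 C
  refine ⟨fun l => lrFm l (A1 * sz l ^ A1) (A0 * sz l ^ A0), t_PLY A0 A1, fun l hl => ?_⟩
  have hk : 1 ≤ l.length := List.length_pos_iff.2 hl
  have hiff := etr_iff t_HLD t_SUR t_VC1 t_VC2 l (A1 * sz l ^ A1) (A0 * sz l ^ A0) hk
  obtain ⟨lam, c, hrep, hmul, halg⟩ := t_RPE l hk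
  obtain ⟨q0, hq1, hq2, hq3⟩ := hC l hk
  have hroot : ∀ i < l.length, (∃ j < l.length, c i j ≠ 0) → IsRoot l (lam i) := by
    rintro i hi ⟨j, hj, hne⟩
    rw [t_ROOT l _ hk]
    by_contra hcon
    exact hne (hmul i hi j hj (by rw [Multiset.count_eq_zero.2 hcon]; exact Nat.zero_le _))
  have hsim : Simple l → ∀ i < l.length, ∀ j < l.length, 0 < j → c i j = 0 := by
    intro hs i hi j hj hj0
    apply hmul i hi j hj
    have := Multiset.nodup_iff_count_le_one.1 hs (lam i)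
    omega
  have fin : ∀ d : CD, d.lam = lam → d.c = c → d.q ≤ 2 ^ (C * sz l ^ C) → d.Pre l →
      ETR (lrFm l (A1 * sz l ^ A1) (A0 * sz l ^ A0)) := by
    intro d e1 e2 e3 e4
    exact hiff.2 (hA1 l d hk (by rw [e1, e2]; exact hrep) e4 e3)
  refine ⟨fun h => hA0 l _ hk (hiff.1 h), fun hcl hnup => ?_, fun hG hs hnup => ?_⟩
  · rcases hcl with h | ⟨hs, he⟩
    · obtain ⟨d, e1, e2, e3, e4⟩ := t_CLA t_MEAN l lam c hk hrep hroot h hnup
      exact fin d e1 e2 (by rw [e3]; exact Nat.one_le_two_pow) e4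
    · obtain ⟨d, e1, e2, e3, e4⟩ := t_CLB t_SML l lam c q0 hk hrep hroot (hsim hs) hq1 hq3
        (fun z w hz hw => he z ((t_ROOT l z hk).1 hz) w ((t_ROOT l w hk).1 hw)) hnup
      exact fin d e1 e2 (by rw [e3]; exact hq2) e4
  · obtain ⟨d, e1, e2, e3, e4⟩ := t_CLC hG l lam c q0 hk hrep hroot (hsim hs)
      (fun i hi => halg i hi 0 (by omega)) hq1 hq3 hnup
    exact fin d e1 e2 (by rw [e3]; exact hq2) e4

/-- From typed reductions to functions on strings. -/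
theorem toStr {g : Rec → Fm} (hg : Poly g) : ∃ f : List Bool → Fm,
    PolyTime (fun w => bits (f w)) ∧ ∀ l, f (bits l) = g l := by
  refine ⟨fun w => match unbits Rec w with | none => Fm.ff | some a => g a, ?_, fun l => ?_⟩
  · refine polyTime_bits (g := fun w => match unbits Rec w with | none => Fm.ff | some a => g a) ?_
    refine (Pool.Agent.NPC.Poly.optCases (g := fun _ => Fm.ff) (h := fun _ a => g a) poly_unbits
      (Pool.Agent.NPC.Poly.const _)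
      (hg.comp (Pool.Agent.NPC.Poly.snd Pool.Agent.NPC.Poly.id))).congr fun w => ?_
    cases unbits Rec w <;> rfl
  · simp only [unbits_bits]

end Pool.Agent.H612.LR
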