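import Pool.Agent.H612.LR.Stm
import Pool.Agent.H612.LR.FmP

/-!
# Positivity in `∀ℝ`: the statements of the lemmas
-/

namespace Pool.Agent.H612.LR

open Pool.Agent.NPC Pool.Agent.NPC.ER Pool.Agent.NPC.H612 Pool.Agent.H612.PG

/-- The sequence is not tight and its dominant characteristic roots are simple: for some `ρ > 0`
the quotients `u_n / ρ^n` are bounded and their lower limit is not zero. -/
def NonTight0 (l : Rec) : Prop :=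
  ∃ ρ C c : ℝ, 0 < ρ ∧ 0 < c ∧ (∀ n : ℕ, |(seq l n : ℝ)| ≤ C * ρ ^ n) ∧
    ((∃ N : ℕ, ∀ n, N ≤ n → c * ρ ^ n ≤ (seq l n : ℝ)) ∨
      (∀ N : ℕ, ∃ n, N ≤ n ∧ (seq l n : ℝ) ≤ -(c * ρ ^ n)))

/-- The data of a point of the torus of the dominant part. -/
structure CD.GoodT (d : CD) (l : Rec) (Nb N0 : ℕ) : Prop where
  rep : RepF l d.lam d.c (2 * l.length + l.length ^ 2)
  mlt : d.m < 2 ^ Nb
  qlt : d.q < 2 ^ Nb
  plt : ∀ i < l.length, d.P i < 2 ^ Nb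
  alt : ∀ j < l.length, ∀ i < l.length, d.a j i < 2 ^ Nb
  blt : ∀ j < l.length, ∀ i < l.length, d.b j i < 2 ^ Nb
  lev : d.Lev l
  jzero : d.J = 0
  rpos : 0 < d.ρ
  top0 : ∀ i < l.length, d.fl i = 0 → ∀ j < l.length, d.c i j = 0
  top1 : ∀ i < l.length, d.fl i = 1 → ∀ j < l.length, 0 < j → d.c i j = 0
  act : ∃ i < l.length, d.fl i = 1 ∧ d.c i 0 ≠ 0
  chain : Chain l.length d.q N0 (d.S l.length 1) (fun i => d.lam i / (d.ρ : ℂ)) d.P d.a d.b d.ζ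
    d.ξ d.h
  xc : ∀ j < l.length, ‖d.x j‖ = 1 ∧ (d.ξ j = 1 → d.x j = 1)

/-- The value of the dominant part. -/
noncomputable def CD.val (d : CD) (k : ℕ) : ℝ := (∑ i ∈ d.S k 1, d.c i 0 * d.z k i).re

/-- VC1V: from assignments to data (valFm). -/
def S_VC1V : Prop := ∀ (l : Rec) (Nb N0 : ℕ) (x : ℕ → ℝ), 1 ≤ l.length →
  (valFm l Nb N0).Holds x → ∃ d : CD, d.GoodT l Nb N0 ∧ x valIx = d.val l.length

/-- VC2V: from data to assignments (valFm). -/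
def S_VC2V : Prop := ∀ (l : Rec) (Nb N0 : ℕ) (d : CD), 1 ≤ l.length → d.GoodT l Nb N0 →
  ∃ x : ℕ → ℝ, (valFm l Nb N0).Holds x ∧ x valIx = d.val l.length

/-- VAL: all values of the dominant part are at least the lower limit. -/
def S_VAL : Prop := ∃ A0 : ℕ, ∀ (l : Rec) (Nb : ℕ) (d : CD) (ρ C c : ℝ) (N : ℕ), 1 ≤ l.length →
  0 < ρ → 0 < c → (∀ n : ℕ, |(seq l n : ℝ)| ≤ C * ρ ^ n) →
  (∀ n, N ≤ n → c * ρ ^ n ≤ (seq l n : ℝ)) → d.GoodT l Nb (A0 * sz l ^ A0) →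
    c ≤ d.val l.length

/-- The exponential polynomial has modulus `ρ`, with simple dominant part. -/
def TopRho (l : Rec) (lam : ℕ → ℂ) (c : ℕ → ℕ → ℂ) (ρ : ℝ) : Prop :=
  0 < ρ ∧ (∀ i < l.length, (∃ j < l.length, c i j ≠ 0) → IsRoot l (lam i) ∧ ‖lam i‖ ≤ ρ) ∧
    (∀ i < l.length, ‖lam i‖ = ρ → ∀ j < l.length, 0 < j → c i j = 0) ∧
    ∃ i < l.length, ‖lam i‖ = ρ ∧ c i 0 ≠ 0

/-- The dominant part at `n`. -/
noncomputable def dom (k : ℕ) (lam : ℕ → ℂ) (c : ℕ → ℕ → ℂ) (ρ : ℝ) (n : ℕ) : ℂ :=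
  ∑ i ∈ (Finset.range k).filter (fun i => ‖lam i‖ = ρ), c i 0 * (lam i / (ρ : ℂ)) ^ n

/-- CMPT: the values of the dominant part at integers are values of data. -/
def S_CMPT : Prop := ∀ A0 : ℕ, ∃ A1 : ℕ, ∀ (l : Rec) (lam : ℕ → ℂ) (c : ℕ → ℕ → ℂ) (ρ : ℝ),
  1 ≤ l.length → Rep l lam c → TopRho l lam c ρ → ∀ n : ℕ, ∃ d : CD,
    d.GoodT l (A1 * sz l ^ A1) (A0 * sz l ^ A0) ∧ d.val l.length = (dom l.length lam c ρ n).re

/-- The exponent of the lower bound for the dominant part. -/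
def K1 (A0 A1 : ℕ) (l : Rec) : ℕ :=
  kap (sysOf (valFm l (A1 * sz l ^ A1) (A0 * sz l ^ A0))).length

/-- The exponent of the upper bound for the coefficients. -/
def K2 (l : Rec) : ℕ := kap (sysOf (cFm l)).length

/-- EF1: effective lower bound for the dominant part. -/
def S_EF1 : Prop := ∃ A0 A1 : ℕ, ∀ (l : Rec) (lam : ℕ → ℂ) (c : ℕ → ℕ → ℂ) (ρ : ℝ)
  (ρ' C' c' : ℝ) (N : ℕ), 1 ≤ l.length → Rep l lam c → TopRho l lam c ρ → 0 < ρ' → 0 < c' →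
  (∀ n : ℕ, |(seq l n : ℝ)| ≤ C' * ρ' ^ n) → (∀ n, N ≤ n → c' * ρ' ^ n ≤ (seq l n : ℝ)) →
    ∀ n : ℕ, 1 < (dom l.length lam c ρ n).re * 2 ^ (2 ^ K1 A0 A1 l)

/-- RUN: uniqueness of the coefficients. -/
def S_RUN : Prop := ∀ (l : Rec) (lam lam' : ℕ → ℂ) (c c' : ℕ → ℕ → ℂ), 1 ≤ l.length →
  Rep l lam c → Rep l lam' c' →
    ∑ i ∈ Finset.range l.length, ∑ j ∈ Finset.range l.length, ‖c i j‖ ^ 2 =
      ∑ i ∈ Finset.range l.length, ∑ j ∈ Finset.range l.length, ‖c' i j‖ ^ 2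

/-- CF: meaning of `cFm`. -/
def S_CF : Prop := ∀ (l : Rec), 1 ≤ l.length →
  (∀ x : ℕ → ℝ, (cFm l).Holds x → ∃ (lam : ℕ → ℂ) (c : ℕ → ℕ → ℂ),
    RepF l lam c (2 * l.length + l.length ^ 2) ∧ x invIx * (1 +
      ∑ i ∈ Finset.range l.length, ∑ j ∈ Finset.range l.length, ‖c i j‖ ^ 2) = 1) ∧
  ∀ (lam : ℕ → ℂ) (c : ℕ → ℕ → ℂ), Rep l lam c → ∃ x : ℕ → ℝ, (cFm l).Holds x ∧
    x invIx * (1 +
      ∑ i ∈ Finset.range l.length, ∑ j ∈ Finset.range l.length, ‖c i j‖ ^ 2) = 1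

/-- EF2: effective upper bound for the coefficients. -/
def S_EF2 : Prop := ∀ (l : Rec) (lam : ℕ → ℂ) (c : ℕ → ℕ → ℂ), 1 ≤ l.length → Rep l lam c →
  ∀ i < l.length, ∀ j < l.length, ‖c i j‖ ≤ 2 ^ (2 ^ K2 l)

/-- GAPM: effective gap between different moduli of characteristic roots. -/
def S_GAPM : Prop := ∃ C : ℕ, ∀ (l : Rec) (z w : ℂ), 1 ≤ l.length → IsRoot l z → IsRoot l w →
  ‖z‖ < ‖w‖ → ‖z‖ ≤ ‖w‖ * (1 - 1 / 2 ^ (C * sz l ^ C))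

/-- NUM: the numerical inequality. -/
def S_NUM : Prop := ∀ k p B1 B2 n : ℕ, 1 ≤ k → 2 ^ (2 * p + B1 + B2 + 2 * k + 30) ≤ n →
  (k : ℝ) ^ 2 * 2 ^ (2 ^ B2) * (n : ℝ) ^ k * (1 - 1 / 2 ^ p) ^ n * 2 ^ (2 ^ B1) < 1

/-- The number of binary digits of the large terms. -/
def N1 (C A0 A1 : ℕ) (l : Rec) : ℕ :=
  2 * (C * sz l ^ C) + K1 A0 A1 l + K2 l + 2 * l.length + 30

/-- EFF: effective positivity of large terms. -/
def S_EFF : Prop := ∃ C A0 A1 : ℕ, ∀ l : Rec, 1 ≤ l.length → NonTight0 l → UltPositive l →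
  ∀ n : ℕ, 2 ^ N1 C A0 A1 l ≤ n → 0 < seq l n

/-- TM: meaning of `tmFm`. -/
def S_TM : Prop := ∀ (l : Rec) (Nb : ℕ), 1 ≤ l.length →
  (ETR (tmFm l Nb) ↔ ∃ n, l.length ≤ n ∧ n < 2 ^ Nb ∧ seq l n ≤ 0)

/-- SM: meaning of `smFm`. -/
def S_SM : Prop := ∀ l : Rec, ETR (smFm l) ↔ ∃ n < l.length, seq l n ≤ 0

/-- PLP: the formulas are computable in polynomial time. -/
def S_PLP : Prop :=
  (∀ A0 A1 : ℕ, Poly (fun l : Rec => valFm l (A1 * sz l ^ A1) (A0 * sz l ^ A0))) ∧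
  Poly (fun l : Rec => cFm l) ∧
  (∀ N : Rec → ℕ, UPoly N → Poly (fun l : Rec => tmFm l (N l))) ∧
  Poly (fun l : Rec => smFm l)

end Pool.Agent.H612.LR
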