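import Pool.Agent.H612.LR.StmP
import Pool.Agent.H612.LR.T_HLD
import Pool.Agent.H612.LR.T_SUR

set_option autoImplicit false

/-!
# The meaning of the formula `cFm` (helper355)
-/

namespace Pool.Agent.H612.LR

open Pool.Agent.NPC Pool.Agent.NPC.ER Pool.Agent.NPC.H612 Pool.Agent.H612.PG

namespace CFaux

/-- the conditions `g1, ..., g7` -/
structure G7 (v : V) (l : Rec) : Prop where
  a1 : ∀ i < l.length, v.A i = (coef l i : ℝ)
  a2 : ∀ n < l.length, v.U n = (ini l n : ℝ)
  a3 : ∀ n < l.length + l.length ^ 2, v.U (n + l.length) =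
    ∑ i ∈ Finset.range l.length, v.A i * v.U (n + l.length - 1 - i)
  a4 : v.B 0 0 = 1 ∧ (∀ j < l.length, v.B 0 (j + 1) = 0) ∧
    ∀ n < 2 * l.length + l.length ^ 2, v.B (n + 1) 0 = 1 ∧
      ∀ j < l.length, v.B (n + 1) (j + 1) = v.B n j + v.B n (j + 1)
  a5 : ∀ i < l.length, v.W i 0 = 1 ∧
    ∀ n < 2 * l.length + l.length ^ 2, v.W i (n + 1) = v.W i n * v.lam i
  a6 : ∀ i < l.length, v.lam i ≠ 0 ∧ ∀ i' < l.length, i = i' ∨ v.lam i ≠ v.lam i'
  a7 : ∀ n < l.length + l.length ^ 2, ((v.U (n + l.length) : ℝ) : ℂ) =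
    ∑ i ∈ Finset.range l.length, ∑ j ∈ Finset.range l.length,
      v.c i j * (v.B (n + l.length) j : ℂ) * v.W i (n + l.length)

theorem B_eq {l : Rec} {v : V} (g : G7 v l) :
    ∀ n ≤ 2 * l.length + l.length ^ 2, ∀ j ≤ l.length, v.B n j = (n.choose j : ℝ) := by
  intro n
  induction n with
  | zero =>
    intro _ j hj
    cases j with
    | zero => simp [g.a4.1]
    | succ j => simp [g.a4.2.1 j (by omega)]
  | succ n ih =>
    intro hn j hj
    obtain ⟨h1, h2⟩ := g.a4.2.2 n (by omega)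
    cases j with
    | zero => simp [h1]
    | succ j =>
      rw [h2 j (by omega), ih (by omega) j (by omega), ih (by omega) (j + 1) (by omega),
        Nat.choose_succ_succ]
      push_cast
      ring

theorem W_eq {l : Rec} {v : V} (g : G7 v l) {i : ℕ} (hi : i < l.length) :
    ∀ n ≤ 2 * l.length + l.length ^ 2, v.W i n = v.lam i ^ n := by
  intro n
  induction n with
  | zero => intro _; simp [(g.a5 i hi).1]
  | succ n ih =>
    intro hn
    rw [(g.a5 i hi).2 n (by omega), ih (by omega), pow_succ]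

theorem seq_ini (l : Rec) (n : ℕ) (h : n < l.length) : seq l n = ini l n := by
  rw [seq]
  simp [h]

theorem seq_rec (l : Rec) (n : ℕ) (h : ¬ n < l.length) :
    seq l n = ∑ i ∈ Finset.range l.length, coef l i * seq l (n - 1 - i) := by
  rw [seq]
  rw [if_neg h]
  exact Fin.sum_univ_eq_sum_range (fun i => coef l i * seq l (n - 1 - i)) l.length

theorem U_eq {l : Rec} {v : V} (g : G7 v l) :
    ∀ n < 2 * l.length + l.length ^ 2, v.U n = ((seq l n : ℚ) : ℝ) := by
  intro n
  induction n using Nat.strong_induction_on with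
  | _ n ih =>
    intro hn
    by_cases h : n < l.length
    · rw [seq_ini l n h, g.a2 n h]
    · rw [seq_rec l n h]
      obtain ⟨n', rfl⟩ : ∃ n', n = n' + l.length := ⟨n - l.length, by omega⟩
      rw [g.a3 n' (by omega)]
      push_cast
      apply Finset.sum_congr rfl
      intro i hi
      have hi' := Finset.mem_range.1 hi
      rw [g.a1 i hi', ih (n' + l.length - 1 - i) (by omega) (by omega)]

theorem rep_of {l : Rec} {v : V} (g : G7 v l) :
    RepF l v.lam v.c (2 * l.length + l.length ^ 2) := by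
  refine ⟨fun i hi => (g.a6 i hi).1, fun i hi i' hi' h => ?_, ?_⟩
  · rcases (g.a6 i hi).2 i' hi' with h1 | h1
    · exact h1
    · exact absurd h h1
  · intro n hn1 hn2
    obtain ⟨n', rfl⟩ : ∃ n', n = n' + l.length := ⟨n - l.length, by omega⟩
    have h1 := g.a7 n' (by omega)
    rw [U_eq g _ hn2] at h1
    have h2 : (((seq l (n' + l.length) : ℚ) : ℝ) : ℂ) = ((seq l (n' + l.length) : ℚ) : ℂ) := by
      push_cast
      rfl
    rw [← h2, h1]
    unfold expo
    apply Finset.sum_congr rfl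
    intro i hi
    apply Finset.sum_congr rfl
    intro j hj
    rw [B_eq g _ (by omega) j (Finset.mem_range.1 hj).le,
      W_eq g (Finset.mem_range.1 hi) _ (by omega)]
    push_cast
    rfl

/-- The values for a representation. -/
noncomputable def vOf (l : Rec) (lam : ℕ → ℂ) (c : ℕ → ℕ → ℂ) : V where
  lam := lam
  c := c
  ρ := 0
  q _ := 0
  m _ := 0
  P _ _ := 0
  a _ _ _ := 0
  b _ _ _ := 0
  A i := (coef l i : ℝ)
  U n := ((seq l n : ℚ) : ℝ)
  ζ := 0
  ξ _ := 0
  x _ := 0
  h _ _ := 0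
  F _ _ := 0
  K _ _ := 0
  s16 _ _ := 0
  s17 _ _ := 0
  s18 _ := 0
  s19 _ := 0
  s20 _ _ := 0
  s21 _ _ := 0
  s22 _ _ _ := 0
  s23 _ _ _ := 0
  s24 _ _ _ := 0
  s25 _ _ _ := 0
  W i n := lam i ^ n
  B n j := (n.choose j : ℝ)
  Z _ _ := 0

theorem g7_vOf {l : Rec} {lam : ℕ → ℂ} {c : ℕ → ℕ → ℂ} (h : Rep l lam c) :
    G7 (vOf l lam c) l := by
  constructor
  · intro i _
    rfl
  · intro n hn
    show ((seq l n : ℚ) : ℝ) = _
    rw [seq_ini l n hn]
  · intro n _
    show ((seq l (n + l.length) : ℚ) : ℝ) = ∑ i ∈ Finset.range l.length,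
      (coef l i : ℝ) * ((seq l (n + l.length - 1 - i) : ℚ) : ℝ)
    rw [seq_rec l (n + l.length) (by omega)]
    push_cast
    rfl
  · refine ⟨?_, ?_, ?_⟩
    · show ((Nat.choose 0 0 : ℕ) : ℝ) = 1
      simp
    · intro j _
      show ((Nat.choose 0 (j + 1) : ℕ) : ℝ) = 0
      simp
    · intro n _
      refine ⟨?_, ?_⟩
      · show ((Nat.choose (n + 1) 0 : ℕ) : ℝ) = 1
        simp
      · intro j _
        show ((Nat.choose (n + 1) (j + 1) : ℕ) : ℝ) =
          ((Nat.choose n j : ℕ) : ℝ) + ((Nat.choose n (j + 1) : ℕ) : ℝ)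
        rw [Nat.choose_succ_succ]
        push_cast
        rfl
  · intro i _
    refine ⟨pow_zero _, fun n _ => ?_⟩
    exact pow_succ _ _
  · intro i hi
    obtain ⟨h1, h2, _⟩ := h 0
    refine ⟨h1 i hi, fun i' hi' => ?_⟩
    by_cases h3 : i = i'
    · exact Or.inl h3
    · exact Or.inr fun h4 => h3 (h2 i hi i' hi' h4)
  · intro n _
    obtain ⟨_, _, h3⟩ := h (n + l.length + 1)
    have h4 := h3 (n + l.length) (by omega) (by omega)
    show ((((seq l (n + l.length) : ℚ) : ℝ)) : ℂ) = ∑ i ∈ Finset.range l.length,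
      ∑ j ∈ Finset.range l.length,
      c i j * ((((n + l.length).choose j : ℕ) : ℝ) : ℂ) * lam i ^ (n + l.length)
    have h2 : (((seq l (n + l.length) : ℚ) : ℝ) : ℂ) = ((seq l (n + l.length) : ℚ) : ℂ) := by
      push_cast
      rfl
    rw [h2, h4]
    unfold expo
    refine Finset.sum_congr rfl fun i _ => Finset.sum_congr rfl fun j _ => ?_
    push_cast
    rfl

theorem nm_ne {T T' a b c e a' b' c' e' : ℕ} (h : T ≠ T') :
    nm T a b c e 0 0 0 ≠ nm T' a' b' c' e' 0 0 0 := by
  unfold nm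
  intro h1
  exact h (Nat.pair_eq_pair.1 h1).1

/-- Setting the two additional variables. -/
noncomputable def upd (x : ℕ → ℝ) (s t : ℝ) : ℕ → ℝ :=
  Function.update (Function.update x valIx s) invIx t

theorem upd_nm (x : ℕ → ℝ) (s t : ℝ) {T : ℕ} (hT : T < 30) (a b c e : ℕ) :
    upd x s t (nm T a b c e 0 0 0) = x (nm T a b c e 0 0 0) := by
  unfold upd valIx invIx
  rw [Function.update_of_ne (nm_ne (by omega)), Function.update_of_ne (nm_ne (by omega))]

theorem VOf_upd (x : ℕ → ℝ) (s t : ℝ) : VOf (upd x s t) = VOf x := by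
  unfold VOf cval rval
  simp only [upd_nm x s t (T := 0) (by norm_num), upd_nm x s t (T := 1) (by norm_num),
    upd_nm x s t (T := 2) (by norm_num), upd_nm x s t (T := 3) (by norm_num),
    upd_nm x s t (T := 4) (by norm_num), upd_nm x s t (T := 5) (by norm_num),
    upd_nm x s t (T := 6) (by norm_num), upd_nm x s t (T := 7) (by norm_num),
    upd_nm x s t (T := 8) (by norm_num), upd_nm x s t (T := 9) (by norm_num),
    upd_nm x s t (T := 10) (by norm_num), upd_nm x s t (T := 11) (by norm_num),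
    upd_nm x s t (T := 12) (by norm_num), upd_nm x s t (T := 13) (by norm_num),
    upd_nm x s t (T := 14) (by norm_num), upd_nm x s t (T := 15) (by norm_num),
    upd_nm x s t (T := 16) (by norm_num), upd_nm x s t (T := 17) (by norm_num),
    upd_nm x s t (T := 18) (by norm_num), upd_nm x s t (T := 19) (by norm_num),
    upd_nm x s t (T := 20) (by norm_num), upd_nm x s t (T := 21) (by norm_num),
    upd_nm x s t (T := 22) (by norm_num), upd_nm x s t (T := 23) (by norm_num),
    upd_nm x s t (T := 24) (by norm_num), upd_nm x s t (T := 25) (by norm_num),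
    upd_nm x s t (T := 26) (by norm_num), upd_nm x s t (T := 27) (by norm_num),
    upd_nm x s t (T := 28) (by norm_num)]

theorem upd_inv (x : ℕ → ℝ) (s t : ℝ) : upd x s t invIx = t := by
  unfold upd valIx invIx
  rw [Function.update_self]

theorem upd_val (x : ℕ → ℝ) (s t : ℝ) : upd x s t valIx = s := by
  unfold upd valIx invIx
  rw [Function.update_of_ne (nm_ne (by norm_num)), Function.update_self]

open HLDaux in
theorem holds_cFm (l : Rec) (x : ℕ → ℝ) : (cFm l).Holds x ↔ G7 (VOf x) l ∧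
    x valIx = ∑ i ∈ Finset.range l.length, ∑ j ∈ Finset.range l.length, ‖(VOf x).c i j‖ ^ 2 ∧
    (x valIx + 1) * x invIx = 1 := by
  unfold cFm
  rw [holds_conj]
  have e1 : (Fm.eq (Tm.var valIx) (sumR l.length fun i => sumR l.length fun j =>
      cns (cC i j))).Holds x ↔ x valIx = ∑ i ∈ Finset.range l.length,
        ∑ j ∈ Finset.range l.length, ‖(VOf x).c i j‖ ^ 2 := by
    simp only [Fm.Holds, eval_sumR, eval_cns]
    rfl
  have e2 : (Fm.eq (Tm.mul (Tm.add (Tm.var valIx) Tm.one) (Tm.var invIx)) Tm.one).Holds x ↔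
      (x valIx + 1) * x invIx = 1 := Iff.rfl
  simp only [List.forall_mem_cons, List.not_mem_nil, false_imp_iff, forall_const, and_true,
    h1, h2, h3, h4, h5, h6, h7, e1, e2]
  constructor
  · rintro ⟨a1, a2, a3, a4, a5, a6, a7, b1, b2⟩
    exact ⟨⟨a1, a2, a3, a4, a5, a6, a7⟩, b1, b2⟩
  · rintro ⟨⟨a1, a2, a3, a4, a5, a6, a7⟩, b1, b2⟩
    exact ⟨a1, a2, a3, a4, a5, a6, a7, b1, b2⟩

end CFaux

open CFaux in
theorem t_CF : S_CF := by
  intro l _
  constructor
  · intro x hx
    obtain ⟨g, h1, h2⟩ := (holds_cFm l x).1 hx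
    refine ⟨(VOf x).lam, (VOf x).c, rep_of g, ?_⟩
    rw [← h1, mul_comm, add_comm]
    exact h2
  · intro lam c h
    obtain ⟨y, hy⟩ := t_SUR (vOf l lam c)
    set s : ℝ := ∑ i ∈ Finset.range l.length, ∑ j ∈ Finset.range l.length, ‖c i j‖ ^ 2 with hs
    have hs0 : 0 ≤ s := Finset.sum_nonneg fun i _ => Finset.sum_nonneg fun j _ => by positivity
    have hs1 : 1 + s ≠ 0 := by linarith
    refine ⟨upd y s (1 + s)⁻¹, (holds_cFm l _).2 ⟨?_, ?_, ?_⟩, ?_⟩
    · rw [VOf_upd, hy]
      exact g7_vOf h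
    · rw [VOf_upd, hy, upd_val]
      exact hs
    · rw [upd_val, upd_inv, add_comm s 1]
      exact mul_inv_cancel₀ hs1
    · rw [upd_inv]
      exact inv_mul_cancel₀ hs1

end Pool.Agent.H612.LR
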