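import Pool.Agent.H612.LR.StmP

/-!
# CMPT: the values of the dominant part at integers are values of data (by helper379)
-/

namespace Pool.Agent.H612.LR

namespace CMPT

theorem length_le_sz (l : Rec) : l.length ≤ sz l := by
  unfold sz szList
  induction l with
  | nil => simp
  | cons p l ih =>
    rw [List.flatMap_cons, List.length_append, List.length_cons]
    simp only [List.length_cons] at ih ⊢
    omega

theorem pw_pow (x : ℂ) (a b n : ℕ) : pw (x ^ n) a b = (pw x a b) ^ n := by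
  unfold pw
  rw [map_pow, mul_pow, ← pow_mul, ← pow_mul, ← pow_mul, ← pow_mul, mul_comm n a, mul_comm n b]

theorem chain_prod {k q N : ℕ} {D : Finset ℕ} {g : ℕ → ℂ} {P : ℕ → ℕ} {a b : ℕ → ℕ → ℕ} {ζ : ℂ}
    {ξ : ℕ → ℂ} {h : ℕ → ℕ → ℂ} (hc : Chain k q N D g P a b ζ ξ h) {i : ℕ} (hi : i ∈ D) :
    g i = ζ ^ P i * ∏ j ∈ Finset.range k, pw (ξ j) (a j i) (b j i) := by
  rw [hc.fac i hi]
  congr 1
  have key : ∀ s, s ≤ k → h 0 i = (∏ j ∈ Finset.range s, pw (ξ j) (a j i) (b j i)) * h s i := by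
    intro s
    induction s with
    | zero => intro _; simp
    | succ s ih =>
      intro hs
      rw [ih (by omega), hc.step i hi s (by omega), Finset.prod_range_succ, mul_assoc]
  rw [key k le_rfl, hc.last i hi, mul_one]

theorem bound (A0 s k : ℕ) (hk : k ≤ s) (hs : 1 ≤ s) :
    (A0 * s ^ A0 + 6) * k < (A0 + 8) * s ^ (A0 + 8) := by
  have h1 : 1 ≤ s ^ A0 := Nat.one_le_pow _ _ hs
  have h2 : (A0 * s ^ A0 + 6) * k ≤ ((A0 + 6) * s ^ A0) * s := by
    apply Nat.mul_le_mul _ hk
    nlinarith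
  have h3 : s ^ A0 * s ≤ s ^ (A0 + 8) := by
    rw [← pow_succ]
    exact Nat.pow_le_pow_right hs (by omega)
  have h4 : 1 ≤ s ^ (A0 + 8) := Nat.one_le_pow _ _ hs
  calc (A0 * s ^ A0 + 6) * k ≤ ((A0 + 6) * s ^ A0) * s := h2
    _ = (A0 + 6) * (s ^ A0 * s) := by ring
    _ ≤ (A0 + 6) * s ^ (A0 + 8) := Nat.mul_le_mul_left _ h3
    _ < (A0 + 8) * s ^ (A0 + 8) := Nat.mul_lt_mul_of_pos_right (by omega) (by omega)

end CMPT

open CMPT Classical in
theorem t_CMPT (h1 : S_DEC) : S_CMPT := by
  intro A0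
  refine ⟨A0 + 8, ?_⟩
  intro l lam c ρ hl hrep htop n
  obtain ⟨hρ, hact, hone, i₀, hi₀, hi₀ρ, hi₀c⟩ := htop
  set k := l.length with hk
  set N := A0 * sz l ^ A0 with hN
  set fl : ℕ → ℕ := fun i => if ‖lam i‖ = ρ ∧ ∃ j < k, c i j ≠ 0 then 1 else
    if ‖lam i‖ < ρ then 2 else 0 with hfl
  have fl1 : ∀ i, fl i = 1 ↔ (‖lam i‖ = ρ ∧ ∃ j < k, c i j ≠ 0) := by
    intro i
    simp only [hfl]
    split_ifs with h1 h2
    · simpa using h1
    · simpa using h1
    · simpa using h1
  have fl0 : ∀ i < k, fl i = 0 → ∀ j < k, c i j = 0 := by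
    intro i hi h0 j hj
    by_contra hne
    have h2 := (hact i hi ⟨j, hj, hne⟩).2
    simp only [hfl] at h0
    split_ifs at h0 with h3 h4
    rcases lt_or_eq_of_le h2 with h5 | h5
    · exact h4 h5
    · exact h3 ⟨h5, j, hj, hne⟩
  set D : Finset ℕ := (Finset.range k).filter fun i => fl i = 1 with hD
  have hDmem : ∀ i, i ∈ D ↔ i < k ∧ fl i = 1 := by
    intro i
    rw [hD, Finset.mem_filter, Finset.mem_range]
  have hcard : D.card ≤ k := by
    refine (Finset.card_filter_le _ _).trans ?_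
    rw [Finset.card_range]
  have hρc : (ρ : ℂ) ≠ 0 := Complex.ofReal_ne_zero.2 hρ.ne'
  obtain ⟨Q, P, a, b, ζ, ξ, h, hQ1, hQ, hP, hab, hchain⟩ := h1 k N 1 D
    (fun i => lam i / (ρ : ℂ)) hcard le_rfl (by
      intro i hi
      have h2 := ((fl1 i).1 ((hDmem i).1 hi).2).1
      rw [norm_div, h2, Complex.norm_real, Real.norm_eq_abs, abs_of_pos hρ, div_self hρ.ne'])
  have hs1 : 1 ≤ sz l := hl.trans (length_le_sz l)
  have hbd := bound A0 (sz l) k (length_le_sz l) hs1
  rw [← hN] at hbd
  have hQlt : Q < 2 ^ ((A0 + 8) * sz l ^ (A0 + 8)) := by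
    refine lt_of_le_of_lt hQ ?_
    rw [one_mul, ← pow_mul]
    exact Nat.pow_lt_pow_right (by norm_num) hbd
  have habl : 2 ^ ((N + 2) * k) < 2 ^ ((A0 + 8) * sz l ^ (A0 + 8)) := by
    apply Nat.pow_lt_pow_right (by norm_num)
    refine lt_of_le_of_lt ?_ hbd
    exact Nat.mul_le_mul_right _ (by omega)
  rw [mul_one] at hchain
  have hmod : n % Q < Q := Nat.mod_lt _ hQ1
  set d : CD := { lam := lam, c := c, ρ := ρ, J := 0, m := n % Q, q := Q, P := P, a := a, b := b,
                  ζ := ζ, ξ := ξ, x := fun j => ξ j ^ n, h := h, fl := fl, κ := fun i => i } with hd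
  refine ⟨d, ?_, ?_⟩
  · constructor
    · exact hrep _
    · exact hmod.trans hQlt
    · exact hQlt
    · intro i _
      exact lt_of_le_of_lt (hP i) hQlt
    · intro j _ i _
      exact lt_of_le_of_lt (hab j i).1 habl
    · intro j _ i _
      exact lt_of_le_of_lt (hab j i).2 habl
    · constructor
      · exact hρ.le
      · exact hQ1
      · intro i hi
        show fl i = 0 ∨ (fl i = 1 ∧ ‖lam i‖ = ρ ∧ IsRoot l (lam i)) ∨ (fl i = 2 ∧ ‖lam i‖ < ρ)
        by_cases hA : ‖lam i‖ = ρ ∧ ∃ j < k, c i j ≠ 0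
        · right; left
          exact ⟨(fl1 i).2 hA, hA.1, (hact i hi hA.2).1⟩
        · by_cases hB : ‖lam i‖ < ρ
          · right; right
            refine ⟨?_, hB⟩
            simp only [hfl]
            rw [if_neg hA, if_pos hB]
          · left
            simp only [hfl]
            rw [if_neg hA, if_neg hB]
      · intro i hi
        exact ⟨hi, rfl⟩
      · intro s _ j hj
        apply Finset.sum_eq_zero
        intro i hi
        rw [Finset.mem_filter] at hi
        have h2 : i < k ∧ fl i = 0 := by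
          have := hi.1
          simp only [CD.S, Finset.mem_filter, Finset.mem_range] at this
          exact this
        show c i j * lam i ^ (n % Q) = 0
        rw [fl0 i h2.1 h2.2 j hj, zero_mul]
      · intro s _ j hj hJ
        apply Finset.sum_eq_zero
        intro i hi
        rw [Finset.mem_filter] at hi
        have h2 : i < k ∧ fl i = 1 := by
          have := hi.1
          simp only [CD.S, Finset.mem_filter, Finset.mem_range] at this
          exact this
        show c i j * lam i ^ (n % Q) = 0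
        rw [hone i h2.1 ((fl1 i).1 h2.2).1 j hj hJ, zero_mul]
    · rfl
    · exact hρ
    · exact fl0
    · intro i hi h2 j hj hj0
      exact hone i hi ((fl1 i).1 h2).1 j hj hj0
    · exact ⟨i₀, hi₀, (fl1 i₀).2 ⟨hi₀ρ, 0, hl, hi₀c⟩, hi₀c⟩
    · exact hchain
    · intro j hj
      refine ⟨?_, ?_⟩
      · show ‖ξ j ^ n‖ = 1
        rw [norm_pow, hchain.unit j hj, one_pow]
      · intro h2
        show ξ j ^ n = 1
        have h3 : ξ j = 1 := h2
        rw [h3, one_pow]
  · unfold CD.val dom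
    congr 1
    have hz : ∀ i ∈ D, d.z k i = (lam i / (ρ : ℂ)) ^ n := by
      intro i hi
      have h2 := chain_prod hchain hi
      rw [h2, mul_pow, ← Finset.prod_pow]
      show (ζ ^ (n % Q)) ^ P i * ∏ j ∈ Finset.range k, pw (ξ j ^ n) (a j i) (b j i) = _
      congr 1
      · have h3 : ζ ^ (n % Q) = ζ ^ n := by
          conv_rhs => rw [← Nat.mod_add_div n Q, pow_add, pow_mul, hchain.root, one_pow, mul_one]
        rw [h3, ← pow_mul, ← pow_mul, mul_comm]
      · refine Finset.prod_congr rfl fun j _ => ?_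
        exact pw_pow _ _ _ _
    have hS : d.S k 1 = D := rfl
    rw [hS]
    have hsub : D ⊆ (Finset.range k).filter (fun i => ‖lam i‖ = ρ) := by
      intro i hi
      rw [Finset.mem_filter, Finset.mem_range]
      have h2 := (hDmem i).1 hi
      exact ⟨h2.1, ((fl1 i).1 h2.2).1⟩
    rw [← Finset.sum_subset hsub]
    · refine Finset.sum_congr rfl fun i hi => ?_
      show c i 0 * d.z k i = _
      rw [hz i hi]
    · intro i hi hni
      rw [Finset.mem_filter, Finset.mem_range] at hi
      have h2 : c i 0 = 0 := by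
        by_contra hne
        exact hni ((hDmem i).2 ⟨hi.1, (fl1 i).2 ⟨hi.2, 0, hl, hne⟩⟩)
      rw [h2, zero_mul]

end Pool.Agent.H612.LR
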