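import Pool.Agent.H612.LR.StmP

/-!
# EF1: effective lower bound for the dominant part
-/

set_option autoImplicit false

namespace Pool.Agent.H612.LR

open Pool.Agent.NPC Pool.Agent.NPC.ER Pool.Agent.NPC.H612 Pool.Agent.H612.PG

theorem t_EF1 (h1 : S_VAL) (h2 : S_CMPT) (h3 : S_VC1V) (h4 : S_VC2V) : S_EF1 := by
  obtain ⟨A0, hA0⟩ := h1
  obtain ⟨A1, hA1⟩ := h2 A0
  refine ⟨A0, A1, ?_⟩
  intro l lam c ρ ρ' C' c' N hl hrep htop hρ' hc' hub hlb n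
  by_contra hcon
  have hcon' := not_lt.1 hcon
  obtain ⟨d, hd, hdval⟩ := hA1 l lam c ρ hl hrep htop n
  obtain ⟨x₀, hx₀, hx₀v⟩ := h4 l _ _ d hl hd
  have hlow : ∀ x : ℕ → ℝ, (valFm l (A1 * sz l ^ A1) (A0 * sz l ^ A0)).Holds x →
      c' ≤ x valIx := by
    intro x hx
    obtain ⟨d', hd', hv⟩ := h3 l _ _ x hl hx
    rw [hv]
    exact hA0 l _ d' ρ' C' c' N hl hρ' hc' hub hlb hd'
  have hsmall : x₀ valIx * 2 ^ (2 ^ kap (sysOf (valFm l (A1 * sz l ^ A1)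
      (A0 * sz l ^ A0))).length) ≤ 1 := by
    rw [hx₀v, hdval]
    exact hcon'
  obtain ⟨x, hx, hlt⟩ := gap_small (valFm l (A1 * sz l ^ A1) (A0 * sz l ^ A0)) valIx
    (fun x hx => lt_of_lt_of_le hc' (hlow x hx)) hx₀ hsmall c' hc'
  exact absurd (hlow x hx) (not_le.2 hlt)

end Pool.Agent.H612.LR
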