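import Pool.Agent.H612.LR.StmP

/-!
# EF2: effective upper bound for the coefficients
-/

set_option autoImplicit false

namespace Pool.Agent.H612.LR

open Pool.Agent.NPC Pool.Agent.NPC.ER Pool.Agent.NPC.H612 Pool.Agent.H612.PG

theorem t_EF2 (h1 : S_CF) (h2 : S_RUN) (h3 : S_RPU) : S_EF2 := by
  intro l lam c hl hrep i hi j hj
  obtain ⟨ha, hb⟩ := h1 l hl
  obtain ⟨x₀, hx₀, he₀⟩ := hb lam c hrep
  set S0 : ℝ := ∑ i ∈ Finset.range l.length, ∑ j ∈ Finset.range l.length, ‖c i j‖ ^ 2 with hS0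
  have hS0n : 0 ≤ S0 := Finset.sum_nonneg fun i _ => Finset.sum_nonneg fun j _ => by positivity
  have hall : ∀ x : ℕ → ℝ, (cFm l).Holds x → x invIx * (1 + S0) = 1 := by
    intro x hx
    obtain ⟨lam', c', hr, he⟩ := ha x hx
    rw [← h2 l lam lam' c c' hl hrep (h3 l lam' c' hl hr)] at he
    exact he
  have hpos : ∀ x : ℕ → ℝ, (cFm l).Holds x → 0 < x invIx := by
    intro x hx
    have h := hall x hx
    by_contra hcon
    push Not at hcon
    nlinarith [mul_nonneg (neg_nonneg.2 hcon) (by linarith : (0 : ℝ) ≤ 1 + S0)]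
  have hgap : 1 < x₀ invIx * 2 ^ (2 ^ kap (sysOf (cFm l)).length) := by
    by_contra hcon
    push Not at hcon
    obtain ⟨x, hx, hlt⟩ := gap_small (cFm l) invIx hpos hx₀ hcon (1 / (1 + S0)) (by positivity)
    have h := hall x hx
    have h5 : x invIx * (1 + S0) < 1 / (1 + S0) * (1 + S0) :=
      mul_lt_mul_of_pos_right hlt (by linarith)
    rw [one_div_mul_cancel (by linarith)] at h5
    linarith
  have hK : K2 l = kap (sysOf (cFm l)).length := rfl
  rw [hK]
  have hB1 : (1 : ℝ) ≤ 2 ^ (2 ^ kap (sysOf (cFm l)).length) := one_le_pow₀ (by norm_num)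
  revert hgap hB1
  generalize (2 : ℝ) ^ (2 ^ kap (sysOf (cFm l)).length) = B
  intro hgap hB1
  have h6 : 1 + S0 < B := by
    have h7 : (1 + S0) * 1 < (1 + S0) * (x₀ invIx * B) :=
      mul_lt_mul_of_pos_left hgap (by linarith)
    have h8 : (1 + S0) * (x₀ invIx * B) = (x₀ invIx * (1 + S0)) * B := by ring
    rw [h8, he₀] at h7
    linarith
  have h9 : ‖c i j‖ ^ 2 ≤ S0 := by
    have h10 : ‖c i j‖ ^ 2 ≤ ∑ j ∈ Finset.range l.length, ‖c i j‖ ^ 2 :=
      Finset.single_le_sum (f := fun j => ‖c i j‖ ^ 2) (fun j _ => by positivity)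
        (Finset.mem_range.2 hj)
    have h11 : ∑ j ∈ Finset.range l.length, ‖c i j‖ ^ 2 ≤ S0 :=
      Finset.single_le_sum (f := fun i => ∑ j ∈ Finset.range l.length, ‖c i j‖ ^ 2)
        (fun i _ => Finset.sum_nonneg fun j _ => by positivity) (Finset.mem_range.2 hi)
    linarith
  by_contra hcon
  push Not at hcon
  nlinarith [norm_nonneg (c i j)]

end Pool.Agent.H612.LR
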