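import Pool.Agent.H612.LR.StmP
import Pool.Agent.H612.LR.T_ASY

/-!
# EFF: effective positivity of large terms
-/

namespace Pool.Agent.H612.LR

open Filter Topology

theorem EFF_top (k : ℕ) (lam : ℕ → ℂ) (c : ℕ → ℕ → ℂ) (R : ℝ) (J : ℕ) (hR : 0 < R) (hJ : J < k)
    (hmax : ∀ i < k, ∀ j < k, c i j ≠ 0 → ‖lam i‖ < R ∨ (‖lam i‖ = R ∧ j ≤ J)) :
    Tendsto (fun n : ℕ => expo k lam c n / ((R ^ n * (n.choose J : ℝ) : ℝ) : ℂ) -
      ∑ i ∈ (Finset.range k).filter (fun i => ‖lam i‖ = R), c i J * (lam i / (R : ℂ)) ^ n)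
      atTop (𝓝 0) := by
  classical
  have hRC : (R : ℂ) ≠ 0 := by exact_mod_cast hR.ne'
  have hnorm : ∀ i, ‖lam i / (R : ℂ)‖ = ‖lam i‖ / R := fun i => by
    rw [norm_div, Complex.norm_real, Real.norm_eq_abs, abs_of_pos hR]
  set t : ℕ → ℕ → ℕ → ℂ := fun i j n =>
    c i j * (((n.choose j : ℝ) / (n.choose J : ℝ) : ℝ) : ℂ) * (lam i / (R : ℂ)) ^ n -
      (if ‖lam i‖ = R ∧ j = J then c i J * (lam i / (R : ℂ)) ^ n else 0) with ht
  have h0 : ∀ i ∈ Finset.range k, ∀ j ∈ Finset.range k, Tendsto (t i j) atTop (𝓝 0) := by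
    intro i hi j hj
    have hi' := Finset.mem_range.1 hi
    have hj' := Finset.mem_range.1 hj
    by_cases hc : c i j = 0
    · have : t i j = fun _ => 0 := by
        funext n
        simp only [ht, hc, zero_mul, zero_sub, neg_eq_zero]
        split_ifs with h
        · rw [← h.2, hc, zero_mul]
        · rfl
      rw [this]
      exact tendsto_const_nhds
    · rcases hmax i hi' j hj' hc with h | ⟨h, hjJ⟩
      · have hne : ¬ (‖lam i‖ = R ∧ j = J) := fun h' => absurd h'.1 h.ne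
        simp only [ht, hne, if_false, sub_zero]
        exact ASY_W _ _ _ _ (by rw [hnorm, div_lt_one hR]; exact h)
      · rcases Nat.lt_or_ge j J with hlt | hge
        · have hne : ¬ (‖lam i‖ = R ∧ j = J) := fun h' => absurd h'.2 hlt.ne
          simp only [ht, hne, if_false, sub_zero]
          exact ASY_D hlt _ _ (by rw [hnorm, h, div_self hR.ne'])
        · have hjJ' : j = J := le_antisymm hjJ hge
          refine (tendsto_const_nhds (x := (0 : ℂ))).congr' ?_
          filter_upwards [eventually_ge_atTop J] with n hn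
          have hC : ((n.choose J : ℝ)) ≠ 0 := by
            have : 0 < n.choose J := Nat.choose_pos hn
            exact_mod_cast this.ne'
          subst hjJ'
          simp only [ht, h, and_self, if_true, div_self hC]
          simp
  have h1 : Tendsto (fun n => ∑ i ∈ Finset.range k, ∑ j ∈ Finset.range k, t i j n) atTop
      (𝓝 0) := by
    have := tendsto_finsetSum (Finset.range k)
      (fun i hi => tendsto_finsetSum (Finset.range k) (fun j hj => h0 i hi j hj))
    simpa using this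
  refine h1.congr' ?_
  filter_upwards [eventually_ge_atTop J] with n hn
  have hC : ((n.choose J : ℂ)) ≠ 0 := by
    have : 0 < n.choose J := Nat.choose_pos hn
    exact_mod_cast this.ne'
  have hpn : (R : ℂ) ^ n ≠ 0 := pow_ne_zero _ hRC
  have hA : expo k lam c n / ((R ^ n * (n.choose J : ℝ) : ℝ) : ℂ) =
      ∑ i ∈ Finset.range k, ∑ j ∈ Finset.range k,
        c i j * (((n.choose j : ℝ) / (n.choose J : ℝ) : ℝ) : ℂ) * (lam i / (R : ℂ)) ^ n := by
    unfold expo
    rw [Finset.sum_div]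
    refine Finset.sum_congr rfl fun i _ => ?_
    rw [Finset.sum_div]
    refine Finset.sum_congr rfl fun j _ => ?_
    rw [div_pow]
    push_cast
    field_simp
  have hB : ∑ i ∈ (Finset.range k).filter (fun i => ‖lam i‖ = R), c i J * (lam i / (R : ℂ)) ^ n =
      ∑ i ∈ Finset.range k, ∑ j ∈ Finset.range k,
        (if ‖lam i‖ = R ∧ j = J then c i J * (lam i / (R : ℂ)) ^ n else 0) := by
    rw [Finset.sum_filter]
    refine Finset.sum_congr rfl fun i _ => ?_
    by_cases h : ‖lam i‖ = R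
    · simp only [h, true_and, if_true]
      rw [Finset.sum_ite_eq' (Finset.range k) J, if_pos (Finset.mem_range.2 hJ)]
    · simp only [h, false_and, if_false, Finset.sum_const_zero]
  rw [hA, hB, ← Finset.sum_sub_distrib]
  refine Finset.sum_congr rfl fun i _ => ?_
  rw [← Finset.sum_sub_distrib]

theorem EFF_norm_seq (l : Rec) (n : ℕ) : ‖((seq l n : ℚ) : ℂ)‖ = |(seq l n : ℝ)| := by
  have : ((seq l n : ℚ) : ℂ) = (((seq l n : ℚ) : ℝ) : ℂ) := by push_cast; rfl
  rw [this, Complex.norm_real, Real.norm_eq_abs]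

theorem EFF_topRho (h2 : S_ROOT) (h3 : S_MEAN) (l : Rec) (lam : ℕ → ℂ) (c : ℕ → ℕ → ℂ)
    (hk : 1 ≤ l.length) (hrep : Rep l lam c)
    (hcount : ∀ i < l.length, ∀ j < l.length, (croots l).count (lam i) ≤ j → c i j = 0)
    (ρ' C' c' : ℝ) (N : ℕ) (hρ : 0 < ρ') (hc' : 0 < c')
    (hup : ∀ n : ℕ, |(seq l n : ℝ)| ≤ C' * ρ' ^ n)
    (hlo : ∀ n, N ≤ n → c' * ρ' ^ n ≤ (seq l n : ℝ)) : TopRho l lam c ρ' := by
  classical
  have hroot : ∀ i < l.length, (∃ j < l.length, c i j ≠ 0) → IsRoot l (lam i) := by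
    rintro i hi ⟨j, hj, hc⟩
    have h0 : ¬ (croots l).count (lam i) ≤ j := fun h => hc (hcount i hi j hj h)
    exact (h2 l (lam i) hk).2 (Multiset.count_pos.1 (by omega))
  have hseq : ∀ n, l.length ≤ n → ((seq l n : ℚ) : ℂ) = expo l.length lam c n := fun n hn =>
    (hrep (n + 1)).2.2 n hn (Nat.lt_succ_self n)
  have hlam0 : ∀ i < l.length, lam i ≠ 0 := (hrep 0).1
  have hlaminj : ∀ i < l.length, ∀ i' < l.length, lam i = lam i' → i = i' := (hrep 0).2.1
  have hpos : ∀ n, N ≤ n → (0 : ℝ) < seq l n := fun n hn =>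
    lt_of_lt_of_le (by positivity) (hlo n hn)
  set k := l.length with hkdef
  set A := ((Finset.range k) ×ˢ (Finset.range k)).filter (fun p => c p.1 p.2 ≠ 0) with hA
  have hmemA : ∀ i j, (i, j) ∈ A ↔ (i < k ∧ j < k) ∧ c i j ≠ 0 := by
    intro i j
    rw [hA, Finset.mem_filter, Finset.mem_product, Finset.mem_range, Finset.mem_range]
  have hAne : A.Nonempty := by
    by_contra hne
    rw [Finset.not_nonempty_iff_eq_empty] at hne
    have hz : ∀ i < k, ∀ j < k, c i j = 0 := by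
      intro i hi j hj
      by_contra hc
      have : (i, j) ∈ A := (hmemA i j).2 ⟨⟨hi, hj⟩, hc⟩
      rw [hne] at this
      exact absurd this (Finset.notMem_empty _)
    have h0 : expo k lam c (max k N) = 0 := by
      unfold expo
      refine Finset.sum_eq_zero fun i hi => Finset.sum_eq_zero fun j hj => ?_
      rw [hz i (Finset.mem_range.1 hi) j (Finset.mem_range.1 hj), zero_mul, zero_mul]
    rw [← hseq _ (le_max_left _ _)] at h0
    have h1 : seq l (max k N) = 0 := by exact_mod_cast h0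
    have h2' := hpos (max k N) (le_max_right _ _)
    rw [h1] at h2'
    simp at h2'
  obtain ⟨p, hp, hpmax⟩ := A.exists_max_image (fun p => toLex (‖lam p.1‖, p.2)) hAne
  obtain ⟨i0, J⟩ := p
  obtain ⟨⟨hi0, hJ⟩, hcp⟩ := (hmemA i0 J).1 hp
  obtain ⟨R, hR⟩ : ∃ R : ℝ, R = ‖lam i0‖ := ⟨_, rfl⟩
  have hR0 : 0 < R := by rw [hR]; exact norm_pos_iff.2 (hlam0 i0 hi0)
  have hRC : (R : ℂ) ≠ 0 := by exact_mod_cast hR0.ne'
  have hmax : ∀ i < k, ∀ j < k, c i j ≠ 0 → ‖lam i‖ < R ∨ (‖lam i‖ = R ∧ j ≤ J) := by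
    intro i hi j hj hc
    have := hpmax (i, j) ((hmemA i j).2 ⟨⟨hi, hj⟩, hc⟩)
    rw [Prod.Lex.toLex_le_toLex] at this
    rw [hR]
    exact this
  have top := EFF_top k lam c R J hR0 hJ hmax
  have hnorm : ∀ i, ‖lam i / (R : ℂ)‖ = ‖lam i‖ / R := fun i => by
    rw [norm_div, Complex.norm_real, Real.norm_eq_abs, abs_of_pos hR0]
  have hf : ¬ Tendsto (fun n : ℕ => ∑ i ∈ (Finset.range k).filter (fun i => ‖lam i‖ = R),
      c i J * (lam i / (R : ℂ)) ^ n) atTop (𝓝 0) := by
    intro h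
    refine hcp (h3 _ (fun i => lam i / (R : ℂ)) (fun i => c i J) ?_ ?_ h i0 ?_)
    · intro i hi
      rw [hnorm, (Finset.mem_filter.1 hi).2, div_self hR0.ne']
    · intro i hi i' hi' hii
      refine hlaminj i (Finset.mem_range.1 (Finset.mem_filter.1 hi).1) i'
        (Finset.mem_range.1 (Finset.mem_filter.1 hi').1) ?_
      exact (div_left_inj' hRC).1 hii
    · exact Finset.mem_filter.2 ⟨Finset.mem_range.2 hi0, hR.symm⟩
  -- the top level is `(ρ', 0)`
  have claim2 : R < ρ' ∨ (R = ρ' ∧ J = 0) := by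
    by_contra hcon
    rw [not_or, not_lt, not_and] at hcon
    obtain ⟨hge, hJ0⟩ := hcon
    apply hf
    have b : Tendsto (fun n : ℕ => (C' : ℂ) * (((n.choose 0 : ℝ) / (n.choose J : ℝ) : ℝ) : ℂ) *
        (((ρ' / R : ℝ)) : ℂ) ^ n) atTop (𝓝 0) := by
      rcases eq_or_lt_of_le hge with heq | hlt
      · refine ASY_D (Nat.pos_of_ne_zero (hJ0 heq.symm)) _ _ ?_
        rw [heq, div_self hR0.ne']
        simp
      · refine ASY_W _ _ _ _ ?_
        rw [Complex.norm_real, Real.norm_eq_abs, abs_of_pos (by positivity), div_lt_one hR0]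
        exact hlt
    have hz : Tendsto (fun n : ℕ => expo k lam c n / ((R ^ n * (n.choose J : ℝ) : ℝ) : ℂ))
        atTop (𝓝 0) := by
      have bn := b.norm
      rw [norm_zero] at bn
      refine squeeze_zero_norm' ?_ bn
      filter_upwards [eventually_ge_atTop (max k J)] with n hn
      have hC : (0 : ℝ) < (n.choose J : ℝ) := by
        have : 0 < n.choose J := Nat.choose_pos (le_trans (le_max_right _ _) hn)
        exact_mod_cast this
      have hw : 0 < R ^ n * (n.choose J : ℝ) := by positivity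
      have hC' : 0 ≤ C' := by
        have h0 := hup 0
        rw [pow_zero, mul_one] at h0
        exact le_trans (abs_nonneg _) h0
      have a1 : |ρ' / R| = ρ' / R := abs_of_pos (by positivity)
      have a2 : |((n.choose 0 : ℕ) : ℝ) / (n.choose J : ℝ)| = 1 / (n.choose J : ℝ) := by
        rw [Nat.choose_zero_right, Nat.cast_one]
        exact abs_of_pos (by positivity)
      rw [← hseq n (le_trans (le_max_left _ _) hn), norm_div, EFF_norm_seq, Complex.norm_real,
        Real.norm_eq_abs, abs_of_pos hw, norm_mul, norm_mul, norm_pow, Complex.norm_real,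
        Complex.norm_real, Complex.norm_real, Real.norm_eq_abs, Real.norm_eq_abs,
        Real.norm_eq_abs, abs_of_nonneg hC', a1, a2, div_pow]
      calc |(seq l n : ℝ)| / (R ^ n * (n.choose J : ℝ))
          ≤ (C' * ρ' ^ n) / (R ^ n * (n.choose J : ℝ)) := by
            gcongr
            exact hup n
        _ = C' * (1 / (n.choose J : ℝ)) * (ρ' ^ n / R ^ n) := by
            field_simp
    have := hz.sub top
    rw [sub_zero] at this
    refine this.congr fun n => ?_
    ring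
  have claim3 : ¬ R < ρ' := by
    intro hlt
    have hmax' : ∀ i < k, ∀ j < k, c i j ≠ 0 → ‖lam i‖ < ρ' := by
      intro i hi j hj hc
      rcases hmax i hi j hj hc with h | ⟨h, -⟩ <;> linarith
    have top' := EFF_top k lam c ρ' 0 hρ (by omega)
      (fun i hi j hj hc => Or.inl (hmax' i hi j hj hc))
    have hz : Tendsto (fun n : ℕ => expo k lam c n / ((ρ' ^ n * (n.choose 0 : ℝ) : ℝ) : ℂ))
        atTop (𝓝 0) := by
      refine top'.congr fun n => ?_
      rw [Finset.sum_eq_zero, sub_zero]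
      intro i hi
      obtain ⟨hi1, hi2⟩ := Finset.mem_filter.1 hi
      have : c i 0 = 0 := by
        by_contra hc
        exact absurd hi2 (hmax' i (Finset.mem_range.1 hi1) 0 (by omega) hc).ne
      rw [this, zero_mul]
    obtain ⟨T, hT⟩ := Metric.tendsto_atTop.1 hz c' hc'
    have h4 := hT (max T (max k N)) (le_max_left _ _)
    have hkn : k ≤ max T (max k N) := le_trans (le_max_left _ _) (le_max_right _ _)
    have hNn : N ≤ max T (max k N) := le_trans (le_max_right _ _) (le_max_right _ _)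
    set n := max T (max k N) with hn
    rw [dist_zero_right, ← hseq n hkn, norm_div, EFF_norm_seq, Nat.choose_zero_right, Nat.cast_one,
      mul_one, Complex.norm_real, Real.norm_eq_abs, abs_of_pos (pow_pos hρ n),
      div_lt_iff₀ (pow_pos hρ n)] at h4
    have h5 := hlo n hNn
    have h6 := le_abs_self (seq l n : ℝ)
    linarith
  rcases claim2 with h | ⟨h, hJ0⟩
  · exact absurd h claim3
  refine ⟨hρ, ?_, ?_, i0, hi0, by rw [← hR, h], hJ0 ▸ hcp⟩
  · rintro i hi ⟨j, hj, hc⟩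
    refine ⟨hroot i hi ⟨j, hj, hc⟩, ?_⟩
    rcases hmax i hi j hj hc with h' | ⟨h', -⟩ <;> linarith
  · intro i hi hni j hj hj0
    by_contra hc
    rcases hmax i hi j hj hc with h' | ⟨-, h'⟩
    · linarith
    · omega

theorem t_EFF (h1 : S_RPE) (h2 : S_ROOT) (h3 : S_MEAN) (h4 : S_EF1) (h5 : S_EF2) (h6 : S_GAPM)
    (h7 : S_NUM) : S_EFF := by
  classical
  obtain ⟨C, hC⟩ := h6
  obtain ⟨A0, A1, hA⟩ := h4
  refine ⟨C, A0, A1, ?_⟩
  intro l hk hNT hUP n hn
  obtain ⟨lam, c, hrep, hcount, -⟩ := h1 l hk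
  obtain ⟨ρ', C', c', hρ, hc', hup, hlo⟩ := hNT
  have hlo' : ∃ N, ∀ n, N ≤ n → c' * ρ' ^ n ≤ (seq l n : ℝ) := by
    rcases hlo with h | h
    · exact h
    · exfalso
      obtain ⟨N0, hN0⟩ := hUP
      obtain ⟨n, hn, hle⟩ := h N0
      have h0 : (0 : ℝ) < seq l n := by exact_mod_cast hN0 n hn
      have h1' : 0 < c' * ρ' ^ n := by positivity
      linarith
  obtain ⟨N, hN⟩ := hlo'
  have hT := EFF_topRho h2 h3 l lam c hk hrep hcount ρ' C' c' N hρ hc' hup hN
  have hdom := hA l lam c ρ' ρ' C' c' N hk hrep hT hρ hc' hup hN n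
  have hcb := h5 l lam c hk hrep
  have hnum := h7 l.length (C * sz l ^ C) (K1 A0 A1 l) (K2 l) n hk (by
    refine le_trans (le_of_eq ?_) hn
    unfold N1
    rfl)
  have hNn : N1 C A0 A1 l ≤ n := le_trans Nat.lt_two_pow_self.le hn
  have hkn : l.length ≤ n := by
    unfold N1 at hNn
    omega
  clear hn hNn
  generalize K1 A0 A1 l = B1 at hdom hnum
  generalize K2 l = B2 at hcb hnum
  generalize hppd : C * sz l ^ C = pp at hnum
  have hseq : ((seq l n : ℚ) : ℂ) = expo l.length lam c n :=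
    (hrep (n + 1)).2.2 n hkn (Nat.lt_succ_self n)
  obtain ⟨-, hT1, hT2, i0, hi0, hi0n, hi0c⟩ := hT
  have hroot0 := (hT1 i0 hi0 ⟨0, by omega, hi0c⟩).1
  set k := l.length with hkdef
  have hρC : (ρ' : ℂ) ≠ 0 := by exact_mod_cast hρ.ne'
  have hpn : (ρ' : ℂ) ^ n ≠ 0 := pow_ne_zero _ hρC
  set eps : ℂ := ∑ i ∈ (Finset.range k).filter (fun i => ¬ ‖lam i‖ = ρ'),
    ∑ j ∈ Finset.range k, c i j * (n.choose j : ℂ) * (lam i / (ρ' : ℂ)) ^ n with heps
  have hid : expo k lam c n = ((ρ' ^ n : ℝ) : ℂ) * (dom k lam c ρ' n + eps) := by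
    unfold expo dom
    rw [← Finset.sum_filter_add_sum_filter_not (Finset.range k) (fun i => ‖lam i‖ = ρ'), mul_add]
    congr 1
    · rw [Finset.mul_sum]
      refine Finset.sum_congr rfl fun i hi => ?_
      obtain ⟨hi1, hi2⟩ := Finset.mem_filter.1 hi
      rw [Finset.sum_eq_single_of_mem 0 (Finset.mem_range.2 (by omega))]
      · rw [Nat.choose_zero_right, div_pow]
        push_cast
        field_simp
      · intro j hj hj0
        rw [hT2 i (Finset.mem_range.1 hi1) hi2 j (Finset.mem_range.1 hj) (by omega), zero_mul,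
          zero_mul]
    · rw [heps, Finset.mul_sum]
      refine Finset.sum_congr rfl fun i hi => ?_
      rw [Finset.mul_sum]
      refine Finset.sum_congr rfl fun j hj => ?_
      rw [div_pow]
      push_cast
      field_simp
  have h2p : (1 : ℝ) / 2 ^ pp ≤ 1 := by
    rw [div_le_one (by positivity)]
    exact one_le_pow₀ (by norm_num)
  have hq0 : (0 : ℝ) ≤ 1 - 1 / 2 ^ pp := by linarith
  have hn1 : (1 : ℝ) ≤ n := by
    have : 1 ≤ n := by omega
    exact_mod_cast this
  have hterm : ∀ i ∈ (Finset.range k).filter (fun i => ¬ ‖lam i‖ = ρ'), ∀ j ∈ Finset.range k,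
      ‖c i j * (n.choose j : ℂ) * (lam i / (ρ' : ℂ)) ^ n‖ ≤
        2 ^ (2 ^ B2) * (n : ℝ) ^ k * (1 - 1 / 2 ^ pp) ^ n := by
    intro i hi j hj
    obtain ⟨hi1, hi2⟩ := Finset.mem_filter.1 hi
    have hi1' := Finset.mem_range.1 hi1
    have hj' := Finset.mem_range.1 hj
    by_cases hc : c i j = 0
    · rw [hc, zero_mul, zero_mul, norm_zero]
      positivity
    · obtain ⟨hr, hle⟩ := hT1 i hi1' ⟨j, hj', hc⟩
      have hlt : ‖lam i‖ < ‖lam i0‖ := by
        rw [hi0n]
        exact lt_of_le_of_ne hle hi2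
      have hgap := hC l (lam i) (lam i0) hk hr hroot0 hlt
      rw [hi0n, hppd] at hgap
      have hz : ‖lam i / (ρ' : ℂ)‖ ≤ 1 - 1 / 2 ^ pp := by
        rw [norm_div, Complex.norm_real, Real.norm_eq_abs, abs_of_pos hρ, div_le_iff₀ hρ, mul_comm]
        exact hgap
      have hch : ‖(n.choose j : ℂ)‖ ≤ (n : ℝ) ^ k := by
        rw [Complex.norm_natCast]
        have e1 : (n.choose j : ℝ) ≤ (n : ℝ) ^ j := by
          refine (Nat.choose_le_pow_div j n).trans ?_
          have : (1 : ℝ) ≤ (j.factorial : ℝ) := by exact_mod_cast Nat.factorial_pos j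
          exact div_le_self (by positivity) this
        exact e1.trans (pow_le_pow_right₀ hn1 hj'.le)
      rw [norm_mul, norm_mul, norm_pow]
      have hcc := hcb i hi1' j hj'
      gcongr
  have hepsn : ‖eps‖ ≤ (k : ℝ) ^ 2 * (2 ^ (2 ^ B2) * (n : ℝ) ^ k * (1 - 1 / 2 ^ pp) ^ n) := by
    have hB0 : (0 : ℝ) ≤ 2 ^ (2 ^ B2) * (n : ℝ) ^ k * (1 - 1 / 2 ^ pp) ^ n := by positivity
    set B : ℝ := 2 ^ (2 ^ B2) * (n : ℝ) ^ k * (1 - 1 / 2 ^ pp) ^ n with hB
    calc ‖eps‖ ≤ ∑ i ∈ (Finset.range k).filter (fun i => ¬ ‖lam i‖ = ρ'),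
          ‖∑ j ∈ Finset.range k, c i j * (n.choose j : ℂ) * (lam i / (ρ' : ℂ)) ^ n‖ :=
          norm_sum_le _ _
      _ ≤ ∑ i ∈ (Finset.range k).filter (fun i => ¬ ‖lam i‖ = ρ'), (k : ℝ) * B := by
          refine Finset.sum_le_sum fun i hi => ?_
          calc ‖∑ j ∈ Finset.range k, c i j * (n.choose j : ℂ) * (lam i / (ρ' : ℂ)) ^ n‖
              ≤ ∑ j ∈ Finset.range k, ‖c i j * (n.choose j : ℂ) * (lam i / (ρ' : ℂ)) ^ n‖ :=
                norm_sum_le _ _
            _ ≤ ∑ _j ∈ Finset.range k, B := Finset.sum_le_sum fun j hj => hterm i hi j hj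
            _ = (k : ℝ) * B := by simp
      _ ≤ ∑ _i ∈ Finset.range k, (k : ℝ) * B :=
          Finset.sum_le_sum_of_subset_of_nonneg (Finset.filter_subset _ _)
            (fun _ _ _ => by positivity)
      _ = (k : ℝ) ^ 2 * B := by
          rw [Finset.sum_const, Finset.card_range, nsmul_eq_mul]
          ring
  have hP : (0 : ℝ) < 2 ^ (2 ^ B1) := by positivity
  have hepsr : -(‖eps‖) ≤ eps.re := by
    have := Complex.abs_re_le_norm eps
    exact (abs_le.1 this).1
  have hsum : 0 < (dom k lam c ρ' n).re + eps.re := by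
    have e1 : ‖eps‖ * 2 ^ (2 ^ B1) < 1 := by
      refine lt_of_le_of_lt (mul_le_mul_of_nonneg_right hepsn hP.le) ?_
      refine lt_of_le_of_lt (le_of_eq ?_) hnum
      ring
    have e2 : 0 < ((dom k lam c ρ' n).re + eps.re) * 2 ^ (2 ^ B1) := by
      have e3 : -(‖eps‖) * 2 ^ (2 ^ B1) ≤ eps.re * 2 ^ (2 ^ B1) :=
        mul_le_mul_of_nonneg_right hepsr hP.le
      rw [add_mul]
      linarith
    exact pos_of_mul_pos_left e2 hP.le
  have hre : (seq l n : ℝ) = ρ' ^ n * ((dom k lam c ρ' n).re + eps.re) := by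
    have e1 : ((seq l n : ℚ) : ℂ).re = (expo k lam c n).re := by rw [hseq]
    rw [hid, Complex.re_ofReal_mul, Complex.add_re] at e1
    rw [← e1]
    simp
  have hfin : (0 : ℝ) < seq l n := by
    rw [hre]
    exact mul_pos (pow_pos hρ n) hsum
  exact_mod_cast hfin

end Pool.Agent.H612.LR
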