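import Pool.Agent.H612.LR.StmP
import Pool.Agent.H612.LR.T_FLD
import Pool.Agent.H612.LR.T_TOR

/-!
# GAPM: effective gap between different moduli of characteristic roots
-/

namespace Pool.Agent.H612.LR

open Polynomial IntermediateField

namespace GAPM

theorem log_le_height {K : Type} [Field K] [NumberField K] (φ : K →+* ℂ) (x : K) :
    Real.log ‖φ x‖ ≤ Height.logHeight₁ x := by
  rw [NumberField.logHeight₁_eq]
  have h1 : 0 ≤ ∑ᶠ v : NumberField.FinitePlace K, Real.posLog (v x) :=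
    finsum_nonneg fun v => Real.posLog_nonneg
  have h2 : ((NumberField.InfinitePlace.mk φ).mult : ℝ) *
      Real.posLog ((NumberField.InfinitePlace.mk φ) x) ≤
      ∑ v : NumberField.InfinitePlace K, (v.mult : ℝ) * Real.posLog (v x) :=
    Finset.single_le_sum (f := fun v : NumberField.InfinitePlace K =>
      (v.mult : ℝ) * Real.posLog (v x))
      (fun v _ => mul_nonneg (Nat.cast_nonneg _) Real.posLog_nonneg)
      (Finset.mem_univ (NumberField.InfinitePlace.mk φ))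
  have h3 : (1 : ℝ) ≤ ((NumberField.InfinitePlace.mk φ).mult : ℝ) := by
    exact_mod_cast NumberField.InfinitePlace.mult_pos
  have h4 : Real.log ‖φ x‖ ≤ Real.posLog ((NumberField.InfinitePlace.mk φ) x) := by
    rw [NumberField.InfinitePlace.apply]
    exact le_max_right _ _
  have h5 : 0 ≤ Real.posLog ((NumberField.InfinitePlace.mk φ) x) := Real.posLog_nonneg
  nlinarith

theorem le_exp {K : Type} [Field K] [NumberField K] (φ : K →+* ℂ) (x : K) (A : ℝ)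
    (hA : Height.logHeight₁ x ≤ A) : ‖φ x‖ ≤ Real.exp A := by
  rcases eq_or_ne (φ x) 0 with h | h
  · rw [h, norm_zero]; positivity
  · rw [← Real.log_le_iff_le_exp (norm_pos_iff.2 h)]
    exact (log_le_height φ x).trans hA

theorem exp_le {K : Type} [Field K] [NumberField K] (φ : K →+* ℂ) (x : K) (hx : x ≠ 0) (A : ℝ)
    (hA : Height.logHeight₁ x ≤ A) : Real.exp (-A) ≤ ‖φ x‖ := by
  have h1 : φ x ≠ 0 := (map_ne_zero φ).2 hx
  have h2 := le_exp φ x⁻¹ A (by rw [Height.logHeight₁_inv]; exact hA)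
  rw [map_inv₀, norm_inv] at h2
  rw [Real.exp_neg]
  exact inv_le_of_inv_le₀ (norm_pos_iff.2 h1) h2

theorem exp_le_two (m : ℕ) : Real.exp m ≤ 2 ^ (2 * m) := by
  have h : Real.exp 1 ≤ 4 := by
    have := Real.exp_one_lt_d9
    linarith
  calc Real.exp m = (Real.exp 1) ^ m := by rw [← Real.exp_nat_mul, mul_one]
    _ ≤ 4 ^ m := pow_le_pow_left₀ (by positivity) h m
    _ = 2 ^ (2 * m) := by rw [pow_mul]; norm_num

end GAPM

open GAPM in
theorem t_GAPM (h1 : S_HROOT) : S_GAPM := by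
  classical
  obtain ⟨C1, hC1⟩ := h1
  refine ⟨15 * (C1 + 1) + (C1 + 4), fun l z w hl hz hw hzw => ?_⟩
  set k := l.length with hk
  have hs : k ≤ sz l := TOR.len_le_sz l
  have hs1 : 1 ≤ sz l := hl.trans hs
  -- conjugates
  have hconj : ∀ u : ℂ, IsRoot l u → IsRoot l ((starRingEnd ℂ) u) := by
    intro u hu
    unfold IsRoot at hu ⊢
    have := congrArg (starRingEnd ℂ) hu
    rw [map_pow, map_sum] at this
    rw [this]
    refine Finset.sum_congr rfl fun i _ => ?_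
    rw [map_mul, map_pow]
    congr 1
    exact map_ratCast (starRingEnd ℂ) _
  set s : Finset ℂ := {z, (starRingEnd ℂ) z, w, (starRingEnd ℂ) w} with hsdef
  have hsr : ∀ u ∈ s, IsRoot l u := by
    intro u hu
    rw [hsdef] at hu
    simp only [Finset.mem_insert, Finset.mem_singleton] at hu
    rcases hu with rfl | rfl | rfl | rfl
    · exact hz
    · exact hconj _ hz
    · exact hw
    · exact hconj _ hw
  have hcard : s.card ≤ 4 := Finset.card_le_four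
  obtain ⟨hf, hr⟩ := FLD_adjoin k hl (chi l) (FLD_chi_monic l hl) (FLD_chi_natDegree l hl) s
    (fun u hu => (FLD_isRoot_iff l u).1 (hsr u hu))
  let F : IntermediateField ℚ ℂ := adjoin ℚ (s : Set ℂ)
  have hNF : NumberField F := { to_charZero := inferInstance, to_finiteDimensional := hf }
  let φ : F →+* ℂ := F.val.toRingHom
  set N0 : ℕ := Module.finrank ℚ F with hN0
  have hN0k : N0 ≤ sz l ^ 4 := by
    refine hr.trans ?_
    calc k ^ s.card ≤ k ^ 4 := Nat.pow_le_pow_right hl hcard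
      _ ≤ sz l ^ 4 := Nat.pow_le_pow_left hs 4
  have hN01 : 1 ≤ N0 := Module.finrank_pos
  set S : ℕ := C1 * sz l ^ C1 with hS
  have hmem : ∀ u ∈ s, u ∈ F := fun u hu => subset_adjoin ℚ _ (by exact_mod_cast hu)
  -- heights of the roots
  have hht : ∀ (u : ℂ) (hu : u ∈ s), Height.logHeight₁ (⟨u, hmem u hu⟩ : F) ≤ N0 * S := by
    intro u hu
    have h := hC1 F l (⟨u, hmem u hu⟩ : F) hl (by
      apply Subtype.ext
      have h2 := hsr u hu
      unfold IsRoot at h2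
      have e1 : (((⟨u, hmem u hu⟩ : F) ^ l.length : F) : ℂ) = u ^ l.length := by push_cast; rfl
      rw [e1, h2]
      push_cast
      refine Finset.sum_congr rfl fun i _ => ?_
      congr 1)
    refine h.trans (le_of_eq ?_)
    rw [hS, hN0]
  have mz : z ∈ s := by rw [hsdef]; simp
  have mz' : (starRingEnd ℂ) z ∈ s := by rw [hsdef]; simp
  have mw : w ∈ s := by rw [hsdef]; simp
  have mw' : (starRingEnd ℂ) w ∈ s := by rw [hsdef]; simp
  set x : F := (⟨w, hmem w mw⟩ : F) * ⟨(starRingEnd ℂ) w, hmem _ mw'⟩ -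
    (⟨z, hmem z mz⟩ : F) * ⟨(starRingEnd ℂ) z, hmem _ mz'⟩ with hx
  have hφx : φ x = ((‖w‖ ^ 2 - ‖z‖ ^ 2 : ℝ) : ℂ) := by
    have e : φ x = w * (starRingEnd ℂ) w - z * (starRingEnd ℂ) z := rfl
    rw [e, Complex.mul_conj, Complex.mul_conj, Complex.normSq_eq_norm_sq,
      Complex.normSq_eq_norm_sq]
    push_cast
    ring
  have hpos : 0 < ‖w‖ ^ 2 - ‖z‖ ^ 2 := by nlinarith [norm_nonneg z]
  have hx0 : x ≠ 0 := by
    intro h
    rw [h, map_zero] at hφx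
    have : (‖w‖ ^ 2 - ‖z‖ ^ 2 : ℝ) = 0 := by exact_mod_cast hφx.symm
    linarith
  have hhx : Height.logHeight₁ x ≤ ((N0 * (1 + 4 * S) : ℕ) : ℝ) := by
    have a1 := Height.logHeight₁_sub_le ((⟨w, hmem w mw⟩ : F) * ⟨(starRingEnd ℂ) w, hmem _ mw'⟩)
      ((⟨z, hmem z mz⟩ : F) * ⟨(starRingEnd ℂ) z, hmem _ mz'⟩)
    have a2 := Height.logHeight₁_mul_le (⟨w, hmem w mw⟩ : F) ⟨(starRingEnd ℂ) w, hmem _ mw'⟩
    have a3 := Height.logHeight₁_mul_le (⟨z, hmem z mz⟩ : F) ⟨(starRingEnd ℂ) z, hmem _ mz'⟩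
    have a4 := hht w mw
    have a5 := hht _ mw'
    have a6 := hht z mz
    have a7 := hht _ mz'
    rw [NumberField.totalWeight_eq_finrank, ← hN0, ← hx] at a1
    have a8 : Real.log 2 ≤ 1 := by
      have := Real.log_two_lt_d9
      linarith
    have a9 : (N0 : ℝ) * Real.log 2 ≤ N0 := mul_le_of_le_one_right (Nat.cast_nonneg _) a8
    push_cast
    nlinarith
  have hlow := exp_le φ x hx0 _ hhx
  rw [hφx, Complex.norm_real, Real.norm_eq_abs, abs_of_pos hpos, Real.exp_neg] at hlow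
  have hup := le_exp φ (⟨w, hmem w mw⟩ : F) ((N0 * S : ℕ) : ℝ) (by
    push_cast
    exact hht w mw)
  have hφw : φ (⟨w, hmem w mw⟩ : F) = w := rfl
  rw [hφw] at hup
  have hup2 : ‖w‖ ≤ 2 ^ (2 * (N0 * S)) := hup.trans (exp_le_two _)
  have hlow2 : (2 ^ (2 * (N0 * (1 + 4 * S))) : ℝ)⁻¹ ≤ ‖w‖ ^ 2 - ‖z‖ ^ 2 := by
    refine le_trans ?_ hlow
    exact inv_anti₀ (Real.exp_pos _) (exp_le_two _)
  have hw0 : 0 < ‖w‖ := lt_of_le_of_lt (norm_nonneg z) hzw
  -- the exponent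
  have hexp : 2 * (N0 * (1 + 4 * S)) + 1 + 2 * (2 * (N0 * S)) ≤
      (15 * (C1 + 1) + (C1 + 4)) * sz l ^ (15 * (C1 + 1) + (C1 + 4)) := by
    have b1 : 2 * (N0 * (1 + 4 * S)) + 1 + 2 * (2 * (N0 * S)) ≤ 15 * (N0 * (S + 1)) := by
      nlinarith
    have b2 : S + 1 ≤ (C1 + 1) * sz l ^ C1 := by
      rw [hS, add_mul, one_mul]
      exact Nat.add_le_add_left (Nat.one_le_pow _ _ hs1) _
    calc 2 * (N0 * (1 + 4 * S)) + 1 + 2 * (2 * (N0 * S)) ≤ 15 * (N0 * (S + 1)) := b1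
      _ ≤ 15 * (sz l ^ 4 * ((C1 + 1) * sz l ^ C1)) :=
          Nat.mul_le_mul_left _ (Nat.mul_le_mul hN0k b2)
      _ = 15 * (C1 + 1) * sz l ^ (C1 + 4) := by ring
      _ ≤ _ := Nat.mul_le_mul (Nat.le_add_right _ _)
          (Nat.pow_le_pow_right hs1 (Nat.le_add_left _ _))
  set E : ℕ := (15 * (C1 + 1) + (C1 + 4)) * sz l ^ (15 * (C1 + 1) + (C1 + 4)) with hE
  have key : ‖w‖ ^ 2 * (2 / 2 ^ E) ≤ ‖w‖ ^ 2 - ‖z‖ ^ 2 := by
    refine le_trans ?_ hlow2
    have c1 : ‖w‖ ^ 2 ≤ 2 ^ (2 * (2 * (N0 * S))) := by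
      calc ‖w‖ ^ 2 ≤ (2 ^ (2 * (N0 * S))) ^ 2 := pow_le_pow_left₀ hw0.le hup2 2
        _ = 2 ^ (2 * (2 * (N0 * S))) := by rw [← pow_mul]; congr 1; ring
    have c2 : (2 : ℝ) ^ (2 * (N0 * (1 + 4 * S)) + 1 + 2 * (2 * (N0 * S))) ≤ 2 ^ E :=
      pow_le_pow_right₀ (by norm_num) hexp
    calc ‖w‖ ^ 2 * (2 / 2 ^ E) ≤ 2 ^ (2 * (2 * (N0 * S))) * (2 / 2 ^ E) :=
          mul_le_mul_of_nonneg_right c1 (by positivity)
      _ ≤ 2 ^ (2 * (2 * (N0 * S))) *
          (2 / 2 ^ (2 * (N0 * (1 + 4 * S)) + 1 + 2 * (2 * (N0 * S)))) := by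
          refine mul_le_mul_of_nonneg_left ?_ (by positivity)
          exact div_le_div_of_nonneg_left (by norm_num) (by positivity) c2
      _ = (2 ^ (2 * (N0 * (1 + 4 * S))) : ℝ)⁻¹ := by
          rw [pow_add, pow_add, pow_one]
          field_simp
  -- conclusion
  have d1 : 0 < (2 : ℝ) ^ E := by positivity
  by_contra hcon
  rw [not_le] at hcon
  have d2 : ‖w‖ * (1 - 1 / 2 ^ E) < ‖z‖ := hcon
  have d3 : (1 : ℝ) / 2 ^ E ≤ 1 := by
    rw [div_le_one d1]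
    exact one_le_pow₀ (by norm_num)
  have d4 : (‖w‖ * (1 - 1 / 2 ^ E)) ^ 2 < ‖z‖ ^ 2 :=
    pow_lt_pow_left₀ d2 (mul_nonneg hw0.le (by linarith)) two_ne_zero
  have d5 : (‖w‖ * (1 - 1 / 2 ^ E)) ^ 2 = ‖w‖ ^ 2 - ‖w‖ ^ 2 * (2 / 2 ^ E) +
      (‖w‖ * (1 / 2 ^ E)) ^ 2 := by ring
  nlinarith [sq_nonneg (‖w‖ * (1 / 2 ^ E))]

end Pool.Agent.H612.LR
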