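import Pool.Agent.H612.LR.StmP

/-!
# NUM: the numerical inequality (helper497)
-/

namespace Pool.Agent.H612.LR

lemma NUM_two_pow_le (B : ℕ) : (2 : ℝ) ^ (2 ^ B) ≤ Real.exp (2 ^ B) := by
  have h : (2 : ℝ) ≤ Real.exp 1 := by
    have := Real.add_one_le_exp (1 : ℝ)
    linarith
  calc (2 : ℝ) ^ (2 ^ B) ≤ (Real.exp 1) ^ (2 ^ B) := pow_le_pow_left₀ (by norm_num) h _
    _ = Real.exp (2 ^ B) := by
      rw [← Real.exp_nat_mul, mul_one]
      push_cast
      rfl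

theorem t_NUM : S_NUM := by
  intro k p B1 B2 n hk hn
  have hn' : (2 : ℝ) ^ (2 * p + B1 + B2 + 2 * k + 30) ≤ n := by exact_mod_cast hn
  have n0 : (0 : ℝ) < n := lt_of_lt_of_le (by positivity) hn'
  have k0 : (0 : ℝ) < k := by exact_mod_cast hk
  have P0 : (0 : ℝ) < 2 ^ p := by positivity
  have kk : (k : ℝ) ≤ 2 ^ k := by exact_mod_cast (Nat.lt_two_pow_self (n := k)).le
  have a1 : 8 * 2 ^ B2 * 2 ^ p ≤ (n : ℝ) := by
    refine le_trans ?_ hn'
    have : (8 : ℝ) * 2 ^ B2 * 2 ^ p = 2 ^ (3 + B2 + p) := by rw [pow_add, pow_add]; norm_num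
    rw [this]
    exact pow_le_pow_right₀ (by norm_num) (by omega)
  have a2 : 8 * 2 ^ B1 * 2 ^ p ≤ (n : ℝ) := by
    refine le_trans ?_ hn'
    have : (8 : ℝ) * 2 ^ B1 * 2 ^ p = 2 ^ (3 + B1 + p) := by rw [pow_add, pow_add]; norm_num
    rw [this]
    exact pow_le_pow_right₀ (by norm_num) (by omega)
  have a3 : 16 * 2 ^ k * 2 ^ p ≤ (n : ℝ) := by
    refine le_trans ?_ hn'
    have : (16 : ℝ) * 2 ^ k * 2 ^ p = 2 ^ (4 + k + p) := by rw [pow_add, pow_add]; norm_num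
    rw [this]
    exact pow_le_pow_right₀ (by norm_num) (by omega)
  set s := √(n : ℝ) with hs
  have s0 : 0 < s := Real.sqrt_pos.mpr n0
  have ss : s * s = n := Real.mul_self_sqrt n0.le
  have a4 : 8 * 2 ^ k * 2 ^ p ≤ s := by
    apply Real.le_sqrt_of_sq_le
    refine le_trans ?_ hn'
    have : (8 * 2 ^ k * 2 ^ p : ℝ) ^ 2 = 2 ^ (6 + 2 * k + 2 * p) := by
      rw [mul_pow, mul_pow, ← pow_mul, ← pow_mul, pow_add, pow_add, mul_comm k, mul_comm p]
      norm_num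
    rw [this]
    exact pow_le_pow_right₀ (by norm_num) (by omega)
  have a5 : 8 * (k : ℝ) * 2 ^ p ≤ s := by
    refine le_trans ?_ a4
    gcongr
  have hlog : Real.log n ≤ 2 * s := by
    have h1 : Real.log s = Real.log n / 2 := Real.log_sqrt n0.le
    have h2 := Real.log_le_sub_one_of_pos s0
    linarith
  have a6 : (k : ℝ) * Real.log n * (4 * 2 ^ p) ≤ n := by
    calc (k : ℝ) * Real.log n * (4 * 2 ^ p) ≤ k * (2 * s) * (4 * 2 ^ p) := by gcongr
      _ = (8 * k * 2 ^ p) * s := by ring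
      _ ≤ s * s := by gcongr
      _ = n := ss
  -- exponential bounds
  have e1 : (k : ℝ) ^ 2 ≤ Real.exp (2 * k) := by
    have h1 : (k : ℝ) ≤ Real.exp k := by
      have := Real.add_one_le_exp (k : ℝ)
      linarith
    calc (k : ℝ) ^ 2 ≤ (Real.exp k) ^ 2 := pow_le_pow_left₀ k0.le h1 2
      _ = Real.exp (2 * k) := by
        rw [← Real.exp_nat_mul]
        push_cast
        rfl
  have e2 : (n : ℝ) ^ k = Real.exp (k * Real.log n) := by
    rw [Real.exp_nat_mul, Real.exp_log n0]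
  have x0 : 0 ≤ 1 - 1 / (2 : ℝ) ^ p := by
    have : 1 / (2 : ℝ) ^ p ≤ 1 := by
      rw [div_le_one P0]
      exact one_le_pow₀ (by norm_num)
    linarith
  have e3 : (1 - 1 / (2 : ℝ) ^ p) ^ n ≤ Real.exp (-(n / 2 ^ p)) := by
    have h1 : 1 - 1 / (2 : ℝ) ^ p ≤ Real.exp (-(1 / 2 ^ p)) := by
      have := Real.add_one_le_exp (-(1 / (2 : ℝ) ^ p))
      linarith
    calc (1 - 1 / (2 : ℝ) ^ p) ^ n ≤ (Real.exp (-(1 / 2 ^ p))) ^ n := pow_le_pow_left₀ x0 h1 n
      _ = Real.exp (-(n / 2 ^ p)) := by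
        rw [← Real.exp_nat_mul]
        congr 1
        ring
  have e4 := NUM_two_pow_le B1
  have e5 := NUM_two_pow_le B2
  calc (k : ℝ) ^ 2 * 2 ^ (2 ^ B2) * (n : ℝ) ^ k * (1 - 1 / 2 ^ p) ^ n * 2 ^ (2 ^ B1)
      ≤ Real.exp (2 * k) * Real.exp (2 ^ B2) * Real.exp (k * Real.log n) * Real.exp (-(n / 2 ^ p)) *
        Real.exp (2 ^ B1) := by
        rw [e2]
        gcongr
    _ = Real.exp (2 * k + 2 ^ B2 + k * Real.log n + -(n / 2 ^ p) + 2 ^ B1) := by
        rw [Real.exp_add, Real.exp_add, Real.exp_add, Real.exp_add]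
    _ < 1 := by
        rw [Real.exp_lt_one_iff]
        have b1 : 2 ^ B2 ≤ (n : ℝ) / 2 ^ p / 8 := by
          rw [le_div_iff₀ (by norm_num), le_div_iff₀ P0]
          linarith
        have b2 : 2 ^ B1 ≤ (n : ℝ) / 2 ^ p / 8 := by
          rw [le_div_iff₀ (by norm_num), le_div_iff₀ P0]
          linarith
        have b3 : 2 * (k : ℝ) ≤ (n : ℝ) / 2 ^ p / 8 := by
          rw [le_div_iff₀ (by norm_num), le_div_iff₀ P0]
          have : (k : ℝ) * 2 ^ p ≤ 2 ^ k * 2 ^ p := mul_le_mul_of_nonneg_right kk P0.le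
          linarith
        have b4 : (k : ℝ) * Real.log n ≤ (n : ℝ) / 2 ^ p / 4 := by
          rw [le_div_iff₀ (by norm_num), le_div_iff₀ P0]
          linarith
        have b5 : 0 < (n : ℝ) / 2 ^ p := by positivity
        linarith

end Pool.Agent.H612.LR
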