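import Pool.Agent.H612.LR.StmP
import Pool.Agent.H612.LR.T_PLY

/-!
# PLP: the formulas of the second wave are computable in polynomial time (helper85)
-/

namespace Pool.Agent.NPC.H612.LRPP

open Pool.Agent.NPC Pool.Agent.NPC.ER Pool.Agent.NPC.H612 Pool.Agent.H612.PG Pool.Agent.H612.LR
open Pool.Agent.NPC.H612.PGP Pool.Agent.NPC.H612.LRP

section

variable {α : Type} [TEnc α]

theorem poly_DT {j : α → ℕ} (hj : Poly j) : Poly (fun a => DT (j a)) :=
  poly_rv (Poly.const _) hj (Poly.const _) (Poly.const _)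

theorem poly_v1 {k : α → ℕ} (hk : UPoly k) : Poly (fun a => v1 (k a)) := by
  unfold v1
  refine poly_allR hk (poly_allR (uup hk) (poly_fand (poly_for (poly_feq (poly_FT' (up pl)
    (Poly.const _)) (Poly.const _)) (poly_ceq (poly_cC (up pl) pl) (Poly.const _))) ?_))
  exact Poly.ite (Poly.decide_lt (Poly.const _) pl) (poly_for (poly_feq (poly_FT' (up pl)
    (Poly.const _)) (Poly.const _)) (poly_ceq (poly_cC (up pl) pl) (Poly.const _))) (Poly.const _)

theorem poly_v2 {k : α → ℕ} (hk : UPoly k) : Poly (fun a => v2 (k a)) := by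
  unfold v2
  exact poly_fand (Poly.const _) (poly_exR hk (poly_fand (poly_feq (poly_FT' pl (Poly.const _))
    (Poly.const _)) (poly_fnot (poly_ceq (poly_cC pl (Poly.const _)) (Poly.const _)))))

theorem poly_v3 {k : α → ℕ} (hk : UPoly k) : Poly (fun a => v3 (k a)) := by
  have hk' := hk.toPoly
  unfold v3
  exact poly_feq (Poly.const _) (Poly.fst (poly_csum hk (poly_cmul (poly_creal (poly_FT' pl
    (Poly.const _))) (poly_cmul (poly_cC pl (Poly.const _)) (poly_ZC pl (up hk'))))))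

theorem poly_valFm {l : α → Rec} {Nb N0 : α → ℕ} (hl : Poly l) (hNb : UPoly Nb) (hN0 : UPoly N0) :
    Poly (fun a => valFm (l a) (Nb a) (N0 a)) := by
  have hk : UPoly (fun a => (l a).length) := UPoly.length hl
  have hR : UPoly (fun a => 2 * (l a).length + (l a).length ^ 2) :=
    UPoly.add (UPoly.mul (UPoly.const 2) hk) (upoly_sq hk)
  unfold valFm
  refine poly_conj (Poly.cons (poly_g1 hl) (Poly.cons (poly_g2 hl) (Poly.cons (poly_g3 hk)
    (Poly.cons (poly_g4 hk hR) (Poly.cons (poly_g5 hk hR) (Poly.cons (poly_g6 hk)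
    (Poly.cons (poly_g7 hk) (Poly.cons (poly_g8 hk hNb) (Poly.cons (poly_g9 hk hNb)
    (Poly.cons (poly_g10 hNb) (Poly.cons (poly_g11 hk) (Poly.cons (poly_g12 hk hNb)
    (Poly.cons (poly_g13 hk hNb) (Poly.cons (poly_g14 hk hNb (Poly.const 0))
    (Poly.cons (poly_n1 hk hNb) (Poly.cons (poly_n2 hk hNb) (Poly.cons ?_
    (Poly.cons (poly_n4 hk hNb) (Poly.cons (poly_v1 hk) (Poly.cons (poly_v2 hk)
    (Poly.cons (poly_v3 hk) (Poly.const []))))))))))))))))))))))
  exact poly_allR hk (poly_for (poly_feq (poly_FT' pl (Poly.const _)) (Poly.const _))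
    (poly_n3 (uup hk) (uup hNb) (uup hN0) pl))

theorem poly_cFm {l : α → Rec} (hl : Poly l) : Poly (fun a => cFm (l a)) := by
  have hk : UPoly (fun a => (l a).length) := UPoly.length hl
  have hR : UPoly (fun a => 2 * (l a).length + (l a).length ^ 2) :=
    UPoly.add (UPoly.mul (UPoly.const 2) hk) (upoly_sq hk)
  unfold cFm
  refine poly_conj (Poly.cons (poly_g1 hl) (Poly.cons (poly_g2 hl) (Poly.cons (poly_g3 hk)
    (Poly.cons (poly_g4 hk hR) (Poly.cons (poly_g5 hk hR) (Poly.cons (poly_g6 hk)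
    (Poly.cons (poly_g7 hk) (Poly.cons ?_ (Poly.const _)))))))))
  refine poly_feq (Poly.const _) ?_
  exact poly_sumR (f := fun a i => sumR (l a).length fun j => cns (cC i j)) hk
    (poly_sumR (f := fun (q : α × ℕ) j => cns (cC q.2 j)) (uup hk)
      (poly_cns (poly_cC (up pl) pl)))

theorem poly_tmFm {l : α → Rec} {Nb : α → ℕ} (hl : Poly l) (hNb : UPoly Nb) :
    Poly (fun a => tmFm (l a) (Nb a)) := by
  have hk : UPoly (fun a => (l a).length) := UPoly.length hl
  have hN := hNb.toPoly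
  have hR : UPoly (fun a => 2 * (l a).length + (l a).length ^ 2) :=
    UPoly.add (UPoly.mul (UPoly.const 2) hk) (upoly_sq hk)
  unfold tmFm
  refine poly_conj (Poly.cons (poly_g1 hl) (Poly.cons (poly_g2 hl) (Poly.cons (poly_g3 hk)
    (Poly.cons (poly_g4 hk hR) (Poly.cons (poly_g5 hk hR) (Poly.cons (poly_g6 hk)
    (Poly.cons (poly_g7 hk) (Poly.cons ?_ (Poly.cons ?_ (Poly.cons ?_ (Poly.cons (Poly.const _)
    (Poly.cons ?_ (Poly.cons ?_ (Poly.const []))))))))))))))
  · exact poly_allR hNb (poly_bitF (poly_mB pl))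
  · exact poly_allR hk (poly_powF (uup hNb) (poly_lamC pl) (poly_mB pl)
      (poly_cvt 17 (up pl) (Poly.const _) pl))
  · exact poly_fle (poly_numT hk.toPoly) (poly_numB hNb (poly_mB pl))
  · exact poly_allR hk (poly_feq (poly_tmul (poly_numT (Poly.succ pl)) (poly_DT (Poly.succ pl)))
      (poly_tmul (poly_DT pl) (poly_subT (poly_numB (uup hNb) (poly_mB pl)) (poly_numT pl))))
  · refine poly_fle (Poly.fst (poly_csum hk (poly_csum (uup hk) ?_))) (Poly.const _)
    exact poly_cmul (poly_cmul (poly_cC (up pl) pl) (poly_creal (poly_DT pl)))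
      (poly_cvt 17 (up pl) (Poly.const _) (up (up hN)))

theorem poly_smFm {l : α → Rec} (hl : Poly l) : Poly (fun a => smFm (l a)) := by
  have hk : UPoly (fun a => (l a).length) := UPoly.length hl
  unfold smFm
  exact poly_conj (Poly.cons (poly_g2 hl) (Poly.cons
    (poly_exR hk (poly_fle (poly_UT pl) (Poly.const _))) (Poly.const [])))

end

end Pool.Agent.NPC.H612.LRPP

namespace Pool.Agent.H612.LR

open Pool.Agent.NPC Pool.Agent.NPC.H612.LRP Pool.Agent.NPC.H612.LRPP

/-- PLP -/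
theorem t_PLP : S_PLP :=
  ⟨fun A0 A1 => poly_valFm Poly.id (upoly_pow (upoly_sz Poly.id) A1)
    (upoly_pow (upoly_sz Poly.id) A0), poly_cFm Poly.id, fun _ hN => poly_tmFm Poly.id hN,
    poly_smFm Poly.id⟩

end Pool.Agent.H612.LR
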