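import Pool.Agent.H612.LR.StmP
import Pool.Agent.H612.LR.T_RPU

/-!
# RUN: uniqueness of the coefficients of exponential polynomials
-/

namespace Pool.Agent.H612.LR

open Polynomial

theorem run_step (a : ℂ) (j : ℕ) : (aeval rpuS (X - C a))
    (fun n => (n.choose (j + 1) : ℂ) * a ^ n) = a • (fun n => (n.choose j : ℂ) * a ^ n) := by
  funext n
  simp only [map_sub, aeval_X, aeval_C, LinearMap.sub_apply, Pi.sub_apply, Pi.smul_apply,
    smul_eq_mul]
  show ((n + 1).choose (j + 1) : ℂ) * a ^ (n + 1) - a * ((n.choose (j + 1) : ℂ) * a ^ n) = _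
  rw [Nat.choose_succ_succ]
  push_cast
  ring

theorem run_pow (a : ℂ) (J : ℕ) : (aeval rpuS ((X - C a) ^ J))
    (fun n => (n.choose J : ℂ) * a ^ n) = a ^ J • (fun n : ℕ => a ^ n) := by
  induction J with
  | zero =>
    rw [pow_zero, pow_zero, map_one, Module.End.one_apply, one_smul]
    funext n
    simp
  | succ J ih =>
    rw [pow_succ, map_mul, Module.End.mul_apply, run_step, map_smul, ih, smul_smul, pow_succ,
      mul_comm]

theorem run_geo (p : ℂ[X]) (a : ℂ) : (aeval rpuS p) (fun n : ℕ => a ^ n) =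
    p.eval a • (fun n : ℕ => a ^ n) := by
  funext n
  rw [rpu_aeval, eval_eq_sum_range, Pi.smul_apply, smul_eq_mul, Finset.sum_mul]
  refine Finset.sum_congr rfl fun i _ => ?_
  rw [pow_add]
  ring

theorem run_tail (p : ℂ[X]) (f : ℕ → ℂ) (N : ℕ) (h : ∀ n, N ≤ n → f n = 0) :
    ∀ n, N ≤ n → (aeval rpuS p) f n = 0 := by
  intro n hn
  rw [rpu_aeval]
  refine Finset.sum_eq_zero fun i _ => ?_
  rw [h _ (by omega), mul_zero]

/-- the main lemma: linear independence -/
theorem run_indep (T : Finset ℂ) (k N : ℕ) (a : ℂ → ℕ → ℂ) (hT : ∀ μ ∈ T, μ ≠ 0)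
    (h : ∀ n, N ≤ n → ∑ μ ∈ T, ∑ j ∈ Finset.range k, a μ j * ((n.choose j : ℂ) * μ ^ n) = 0) :
    ∀ μ ∈ T, ∀ j < k, a μ j = 0 := by
  classical
  intro μ hμ
  by_contra hcon
  push Not at hcon
  have hne : ((Finset.range k).filter (fun j => a μ j ≠ 0)).Nonempty := by
    obtain ⟨j, hj, hj'⟩ := hcon
    exact ⟨j, Finset.mem_filter.mpr ⟨Finset.mem_range.mpr hj, hj'⟩⟩
  set J := ((Finset.range k).filter (fun j => a μ j ≠ 0)).max' hne with hJ
  have hJm : J ∈ (Finset.range k).filter (fun j => a μ j ≠ 0) := Finset.max'_mem _ _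
  rw [Finset.mem_filter, Finset.mem_range] at hJm
  obtain ⟨hJk, hJ0⟩ := hJm
  have hJmax : ∀ j < k, J < j → a μ j = 0 := by
    intro j hj hJj
    by_contra h0
    have hmem : j ∈ (Finset.range k).filter (fun j => a μ j ≠ 0) :=
      Finset.mem_filter.mpr ⟨Finset.mem_range.mpr hj, h0⟩
    have := Finset.le_max' _ j hmem
    omega
  set G : ℂ[X] := ∏ ν ∈ T.erase μ, (X - C ν) ^ k with hG
  have hGμ : G.eval μ ≠ 0 := by
    rw [hG, eval_prod]
    refine Finset.prod_ne_zero_iff.mpr fun ν hν => ?_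
    rw [eval_pow, eval_sub, eval_X, eval_C]
    exact pow_ne_zero _ (sub_ne_zero.mpr (Finset.ne_of_mem_erase hν).symm)
  set e : ℕ → ℂ := fun n => ∑ μ ∈ T, ∑ j ∈ Finset.range k, a μ j * ((n.choose j : ℂ) * μ ^ n)
    with he
  have he' : e = ∑ μ ∈ T, ∑ j ∈ Finset.range k,
      a μ j • (fun n : ℕ => (n.choose j : ℂ) * μ ^ n) := by
    funext n
    simp only [he, Finset.sum_apply, Pi.smul_apply, smul_eq_mul]
  have hval : (aeval rpuS (G * (X - C μ) ^ J)) e =
      (a μ J * μ ^ J * G.eval μ) • (fun n : ℕ => μ ^ n) := by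
    rw [he', map_sum, Finset.sum_eq_single μ]
    · rw [map_sum, Finset.sum_eq_single J]
      · rw [map_smul, map_mul, Module.End.mul_apply, run_pow, map_smul, run_geo, smul_smul,
          smul_smul]
      · intro j hj hjJ
        rw [Finset.mem_range] at hj
        rcases lt_or_gt_of_ne hjJ with h1 | h1
        · rw [map_smul, map_mul, Module.End.mul_apply, rpu_binom' _ _ _ h1, map_zero, smul_zero]
        · rw [hJmax j hj h1, zero_smul, map_zero]
      · intro hJ'
        exact absurd (Finset.mem_range.mpr hJk) hJ'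
    · intro ν hν hνμ
      rw [map_sum]
      refine Finset.sum_eq_zero fun j hj => ?_
      rw [map_smul, mul_comm, hG, ← Finset.prod_erase_mul _ _ (Finset.mem_erase.mpr ⟨hνμ, hν⟩),
        ← mul_assoc, map_mul, Module.End.mul_apply, rpu_binom' _ _ _ (Finset.mem_range.mp hj),
        map_zero, smul_zero]
    · intro hμ'
      exact absurd hμ hμ'
  have hz := run_tail (G * (X - C μ) ^ J) e N h N le_rfl
  rw [hval, Pi.smul_apply, smul_eq_mul] at hz
  have h1 : a μ J * μ ^ J * G.eval μ * μ ^ N ≠ 0 :=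
    mul_ne_zero (mul_ne_zero (mul_ne_zero hJ0 (pow_ne_zero _ (hT μ hμ))) hGμ)
      (pow_ne_zero _ (hT μ hμ))
  exact h1 hz

/-- the coefficient of `C(n, j) μ^n` -/
noncomputable def runC (k : ℕ) (lam : ℕ → ℂ) (c : ℕ → ℕ → ℂ) (μ : ℂ) (j : ℕ) : ℂ :=
  ∑ i ∈ (Finset.range k).filter (fun i => lam i = μ), c i j

theorem runC_lam (k : ℕ) (lam : ℕ → ℂ) (c : ℕ → ℕ → ℂ)
    (hinj : ∀ i < k, ∀ i' < k, lam i = lam i' → i = i') (i : ℕ) (hi : i < k) (j : ℕ) :
    runC k lam c (lam i) j = c i j := by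
  unfold runC
  have : (Finset.range k).filter (fun i' => lam i' = lam i) = {i} := by
    ext i'
    simp only [Finset.mem_filter, Finset.mem_range, Finset.mem_singleton]
    constructor
    · rintro ⟨h1, h2⟩
      exact hinj i' h1 i hi h2
    · rintro rfl
      exact ⟨hi, rfl⟩
  rw [this, Finset.sum_singleton]

theorem runC_zero (k : ℕ) (lam : ℕ → ℂ) (c : ℕ → ℕ → ℂ) (μ : ℂ)
    (h : μ ∉ (Finset.range k).image lam) (j : ℕ) : runC k lam c μ j = 0 := by
  unfold runC
  have : (Finset.range k).filter (fun i' => lam i' = μ) = ∅ := by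
    ext i'
    simp only [Finset.mem_filter, Finset.mem_range, Finset.notMem_empty, iff_false, not_and]
    intro h1 h2
    exact h (Finset.mem_image.mpr ⟨i', Finset.mem_range.mpr h1, h2⟩)
  rw [this, Finset.sum_empty]

theorem run_sum {M : Type} [AddCommMonoid M] (k : ℕ) (lam : ℕ → ℂ) (c : ℕ → ℕ → ℂ)
    (hinj : ∀ i < k, ∀ i' < k, lam i = lam i' → i = i') (T : Finset ℂ)
    (hT : (Finset.range k).image lam ⊆ T) (F : ℂ → ℕ → ℂ → M) (hF : ∀ μ j, F μ j 0 = 0) :
    ∑ μ ∈ T, ∑ j ∈ Finset.range k, F μ j (runC k lam c μ j) =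
      ∑ i ∈ Finset.range k, ∑ j ∈ Finset.range k, F (lam i) j (c i j) := by
  rw [← Finset.sum_subset hT, Finset.sum_image]
  · refine Finset.sum_congr rfl fun i hi => Finset.sum_congr rfl fun j _ => ?_
    rw [runC_lam k lam c hinj i (Finset.mem_range.mp hi)]
  · intro i hi i' hi' h
    exact hinj i (Finset.mem_range.mp hi) i' (Finset.mem_range.mp hi') h
  · intro μ _ hμ
    refine Finset.sum_eq_zero fun j _ => ?_
    rw [runC_zero k lam c μ hμ, hF]

theorem t_RUN : S_RUN := by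
  classical
  intro l lam lam' c c' _ hrep hrep'
  set k := l.length with hk
  obtain ⟨hn0, hinj, -⟩ := hrep 0
  obtain ⟨hn0', hinj', -⟩ := hrep' 0
  set T : Finset ℂ := (Finset.range k).image lam ∪ (Finset.range k).image lam' with hT
  have hT0 : ∀ μ ∈ T, μ ≠ 0 := by
    intro μ hμ
    rw [hT, Finset.mem_union, Finset.mem_image, Finset.mem_image] at hμ
    rcases hμ with ⟨i, hi, rfl⟩ | ⟨i, hi, rfl⟩
    · exact hn0 i (Finset.mem_range.mp hi)
    · exact hn0' i (Finset.mem_range.mp hi)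
  have hs1 : (Finset.range k).image lam ⊆ T := Finset.subset_union_left
  have hs2 : (Finset.range k).image lam' ⊆ T := Finset.subset_union_right
  have hz : ∀ μ ∈ T, ∀ j < k, runC k lam c μ j - runC k lam' c' μ j = 0 := by
    refine run_indep T k k (fun μ j => runC k lam c μ j - runC k lam' c' μ j) hT0 ?_
    intro n hn
    have h1 := run_sum k lam c hinj T hs1 (fun μ j z => z * ((n.choose j : ℂ) * μ ^ n))
      (fun μ j => zero_mul _)
    have h2 := run_sum k lam' c' hinj' T hs2 (fun μ j z => z * ((n.choose j : ℂ) * μ ^ n))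
      (fun μ j => zero_mul _)
    have h3 := (hrep (n + 1)).2.2 n hn (by omega)
    have h4 := (hrep' (n + 1)).2.2 n hn (by omega)
    have h5 : expo k lam c n = expo k lam' c' n := h3.symm.trans h4
    simp only [sub_mul, Finset.sum_sub_distrib]
    rw [h1, h2, sub_eq_zero]
    unfold expo at h5
    simpa only [mul_assoc] using h5
  have e1 := run_sum k lam c hinj T hs1 (fun μ j z => ‖z‖ ^ 2) (fun μ j => by simp)
  have e2 := run_sum k lam' c' hinj' T hs2 (fun μ j z => ‖z‖ ^ 2) (fun μ j => by simp)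
  rw [← e1, ← e2]
  refine Finset.sum_congr rfl fun μ hμ => Finset.sum_congr rfl fun j hj => ?_
  rw [sub_eq_zero.mp (hz μ hμ j (Finset.mem_range.mp hj))]

end Pool.Agent.H612.LR
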