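import Pool.Agent.H612.LR.StmP
import Pool.Agent.H612.LR.T_HLD
import Pool.Agent.H612.LR.T_SUR
import Pool.Agent.H612.LR.T_VC1

set_option autoImplicit false

/-!
# The meaning of `tmFm`
-/

namespace Pool.Agent.H612.LR

open Pool.Agent.NPC Pool.Agent.NPC.ER Pool.Agent.NPC.H612 Pool.Agent.H612.PG

namespace TMaux

/-- The conditions on the recurrence and on its exponential polynomial. -/
structure GoodR (v : V) (l : Rec) : Prop where
  a1 : ∀ i < l.length, v.A i = (coef l i : ℝ)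
  a2 : ∀ n < l.length, v.U n = (ini l n : ℝ)
  a3 : ∀ n < l.length + l.length ^ 2, v.U (n + l.length) =
    ∑ i ∈ Finset.range l.length, v.A i * v.U (n + l.length - 1 - i)
  a4 : v.B 0 0 = 1 ∧ (∀ j < l.length, v.B 0 (j + 1) = 0) ∧
    ∀ n < 2 * l.length + l.length ^ 2, v.B (n + 1) 0 = 1 ∧
      ∀ j < l.length, v.B (n + 1) (j + 1) = v.B n j + v.B n (j + 1)
  a5 : ∀ i < l.length, v.W i 0 = 1 ∧
    ∀ n < 2 * l.length + l.length ^ 2, v.W i (n + 1) = v.W i n * v.lam i
  a6 : ∀ i < l.length, v.lam i ≠ 0 ∧ ∀ i' < l.length, i = i' ∨ v.lam i ≠ v.lam i'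
  a7 : ∀ n < l.length + l.length ^ 2, ((v.U (n + l.length) : ℝ) : ℂ) =
    ∑ i ∈ Finset.range l.length, ∑ j ∈ Finset.range l.length,
      v.c i j * (v.B (n + l.length) j : ℂ) * v.W i (n + l.length)

theorem B_eq (l : Rec) (v : V) (g : GoodR v l) :
    ∀ n ≤ 2 * l.length + l.length ^ 2, ∀ j ≤ l.length, v.B n j = (n.choose j : ℝ) := by
  intro n
  induction n with
  | zero =>
    intro _ j hj
    cases j with
    | zero => simp [g.a4.1]
    | succ j => simp [g.a4.2.1 j (by omega)]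
  | succ n ih =>
    intro hn j hj
    obtain ⟨h1, h2⟩ := g.a4.2.2 n (by omega)
    cases j with
    | zero => simp [h1]
    | succ j =>
      rw [h2 j (by omega), ih (by omega) j (by omega), ih (by omega) (j + 1) (by omega),
        Nat.choose_succ_succ]
      push_cast
      ring

theorem W_eq (l : Rec) (v : V) (g : GoodR v l) {i : ℕ} (hi : i < l.length) :
    ∀ n ≤ 2 * l.length + l.length ^ 2, v.W i n = v.lam i ^ n := by
  intro n
  induction n with
  | zero => intro _; simp [(g.a5 i hi).1]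
  | succ n ih =>
    intro hn
    rw [(g.a5 i hi).2 n (by omega), ih (by omega), pow_succ]

theorem U_eq (l : Rec) (v : V) (g : GoodR v l) :
    ∀ n < 2 * l.length + l.length ^ 2, v.U n = ((seq l n : ℚ) : ℝ) := by
  intro n
  induction n using Nat.strong_induction_on with
  | _ n ih =>
    intro hn
    by_cases h : n < l.length
    · rw [VC1.seq_ini l n h, g.a2 n h]
    · rw [VC1.seq_rec l n h]
      obtain ⟨n', rfl⟩ : ∃ n', n = n' + l.length := ⟨n - l.length, by omega⟩
      rw [g.a3 n' (by omega)]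
      push_cast
      apply Finset.sum_congr rfl
      intro i hi
      have hi' := Finset.mem_range.1 hi
      rw [g.a1 i hi', ih (n' + l.length - 1 - i) (by omega) (by omega)]

theorem repF_of (l : Rec) (v : V) (g : GoodR v l) :
    RepF l v.lam v.c (2 * l.length + l.length ^ 2) := by
  refine ⟨fun i hi => (g.a6 i hi).1, fun i hi i' hi' h => ?_, ?_⟩
  · rcases (g.a6 i hi).2 i' hi' with h1 | h1
    · exact h1
    · exact absurd h h1
  · intro n hn1 hn2
    obtain ⟨n', rfl⟩ : ∃ n', n = n' + l.length := ⟨n - l.length, by omega⟩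
    have h1 := g.a7 n' (by omega)
    rw [U_eq l v g _ hn2] at h1
    have h2 : (((seq l (n' + l.length) : ℚ) : ℝ) : ℂ) = ((seq l (n' + l.length) : ℚ) : ℂ) := by
      push_cast
      rfl
    rw [← h2, h1, expo]
    apply Finset.sum_congr rfl
    intro i hi
    apply Finset.sum_congr rfl
    intro j hj
    rw [B_eq l v g _ hn2.le j (Finset.mem_range.1 hj).le, W_eq l v g (Finset.mem_range.1 hi) _ hn2.le]
    push_cast
    rfl

/-- the number given by the first `t` digits of `n` -/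
def hd (Nb n t : ℕ) : ℕ := n / 2 ^ (Nb - t)

/-- the digit number `t` of `n` -/
def dg (Nb n t : ℕ) : ℕ := (n / 2 ^ (Nb - 1 - t)) % 2

theorem hd_zero (Nb n : ℕ) (h : n < 2 ^ Nb) : hd Nb n 0 = 0 := by
  simp only [hd, Nat.sub_zero]
  exact Nat.div_eq_of_lt h

theorem hd_last (Nb n : ℕ) : hd Nb n Nb = n := by
  simp [hd]

theorem hd_succ (Nb n t : ℕ) (ht : t < Nb) : hd Nb n (t + 1) = 2 * hd Nb n t + dg Nb n t := by
  simp only [hd, dg]
  have h1 : Nb - t = (Nb - 1 - t) + 1 := by omega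
  have h2 : Nb - (t + 1) = Nb - 1 - t := by omega
  rw [h1, h2, pow_succ, ← Nat.div_div_eq_div_mul]
  omega

theorem dg_cases (Nb n t : ℕ) : dg Nb n t = 0 ∨ dg Nb n t = 1 := by
  unfold dg; omega

theorem dg_bit (Nb n t : ℕ) : IsBit ((dg Nb n t : ℕ) : ℝ) := by
  rcases dg_cases Nb n t with h | h
  · left; rw [h]; simp
  · right; rw [h]; simp

theorem dg_num (Nb n : ℕ) (h : n < 2 ^ Nb) : numV Nb (fun t => ((dg Nb n t : ℕ) : ℝ)) = n := by
  have key : ∀ T ≤ Nb, ∑ t ∈ Finset.range T, ((dg Nb n t : ℕ) : ℝ) * 2 ^ (Nb - 1 - t) =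
      (hd Nb n T : ℝ) * 2 ^ (Nb - T) := by
    intro T
    induction T with
    | zero =>
      intro _
      rw [hd_zero Nb n h]; simp
    | succ T ih =>
      intro hT
      rw [Finset.sum_range_succ, ih (by omega), hd_succ Nb n T (by omega)]
      have h1 : Nb - T = (Nb - 1 - T) + 1 := by omega
      have h2 : Nb - (T + 1) = Nb - 1 - T := by omega
      rw [h1, h2, pow_succ]
      push_cast
      ring
  rw [numV, key Nb le_rfl, hd_last]
  simp

theorem dg_pow (Nb n : ℕ) (h : n < 2 ^ Nb) (x : ℂ) :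
    PowV Nb x (fun t => ((dg Nb n t : ℕ) : ℝ)) (fun t => x ^ hd Nb n t) := by
  refine ⟨by simp only [hd_zero Nb n h, pow_zero], ?_⟩
  intro t ht
  simp only
  rw [hd_succ Nb n t ht]
  rcases dg_cases Nb n t with h | h
  · rw [h]; simp; ring
  · rw [h]; simp; ring

/-- the values -/
noncomputable def tmV (l : Rec) (Nb N : ℕ) (lam : ℕ → ℂ) (c : ℕ → ℕ → ℂ) : V where
  lam := lam
  c := c
  ρ := 0
  q _ := 0
  m t := ((dg Nb N t : ℕ) : ℝ)
  P _ _ := 0
  a _ _ _ := 0
  b _ _ _ := 0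
  A i := (coef l i : ℝ)
  U n := (seq l n : ℝ)
  ζ := 0
  ξ _ := 0
  x _ := 0
  h _ _ := 0
  F _ _ := 0
  K _ _ := 0
  s16 _ _ := 0
  s17 i t := lam i ^ hd Nb N t
  s18 _ := 0
  s19 _ := 0
  s20 _ _ := 0
  s21 _ _ := 0
  s22 _ _ _ := 0
  s23 _ _ _ := 0
  s24 _ _ _ := 0
  s25 _ _ _ := 0
  W i n := lam i ^ n
  B n j := (n.choose j : ℝ)
  Z _ _ := 0

theorem tmV_good (l : Rec) (Nb N : ℕ) (lam : ℕ → ℂ) (c : ℕ → ℕ → ℂ) (h : Rep l lam c) :
    GoodR (tmV l Nb N lam c) l := by
  constructor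
  · intro i _; rfl
  · intro n hn
    change ((seq l n : ℚ) : ℝ) = _
    rw [VC1.seq_ini l n hn]
  · intro n hn
    change ((seq l (n + l.length) : ℚ) : ℝ) = ∑ i ∈ Finset.range l.length,
      ((coef l i : ℚ) : ℝ) * ((seq l (n + l.length - 1 - i) : ℚ) : ℝ)
    rw [VC1.seq_rec l _ (by omega)]
    push_cast
    rfl
  · refine ⟨by simp [tmV], fun j _ => by simp [tmV], fun n _ => ⟨by simp [tmV], ?_⟩⟩
    intro j _
    simp only [tmV]
    rw [Nat.choose_succ_succ]
    push_cast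
    rfl
  · intro i _
    refine ⟨by simp [tmV], fun n _ => ?_⟩
    simp only [tmV]
    rw [pow_succ]
  · intro i hi
    have hrep := h 0
    refine ⟨hrep.1 i hi, fun i' hi' => ?_⟩
    by_cases h : i = i'
    · exact Or.inl h
    · exact Or.inr fun h2 => h (hrep.2.1 i hi i' hi' h2)
  · intro n hn
    have h1 := (h (n + l.length + 1)).2.2 (n + l.length) (by omega) (by omega)
    simp only [tmV]
    rw [expo] at h1
    push_cast
    rw [h1]

/-- The table of the values. -/
noncomputable def tabTM (v : V) (D : ℕ → ℝ) (T a b c e : ℕ) : ℝ :=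
  if T = 32 then D a else tabSUR v T a b c e

/-- The assignment. -/
noncomputable def xTM (v : V) (D : ℕ → ℝ) (n : ℕ) : ℝ :=
  tabTM v D n.unpair.1 n.unpair.2.unpair.1 n.unpair.2.unpair.2.unpair.1
    n.unpair.2.unpair.2.unpair.2.unpair.1 n.unpair.2.unpair.2.unpair.2.unpair.2.unpair.1

theorem xTM_nm (v : V) (D : ℕ → ℝ) (T a b c e K s t : ℕ) :
    xTM v D (nm T a b c e K s t) = tabTM v D T a b c e := by
  unfold xTM nm
  simp only [Nat.unpair_pair]

theorem VOf_xTM (v : V) (D : ℕ → ℝ) : VOf (xTM v D) = v := by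
  have h : ∀ T a b c e : ℕ, T ≠ 32 → tabTM v D T a b c e = tabSUR v T a b c e := by
    intro T a b c e hT
    rw [tabTM, if_neg hT]
  unfold VOf cval rval
  simp only [xTM_nm]
  simp only [h 0 _ _ _ _ (by norm_num), h 1 _ _ _ _ (by norm_num), h 2 _ _ _ _ (by norm_num),
    h 3 _ _ _ _ (by norm_num), h 4 _ _ _ _ (by norm_num), h 5 _ _ _ _ (by norm_num),
    h 6 _ _ _ _ (by norm_num), h 7 _ _ _ _ (by norm_num), h 8 _ _ _ _ (by norm_num),
    h 9 _ _ _ _ (by norm_num), h 10 _ _ _ _ (by norm_num), h 11 _ _ _ _ (by norm_num),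
    h 12 _ _ _ _ (by norm_num), h 13 _ _ _ _ (by norm_num), h 14 _ _ _ _ (by norm_num),
    h 15 _ _ _ _ (by norm_num), h 16 _ _ _ _ (by norm_num), h 17 _ _ _ _ (by norm_num),
    h 18 _ _ _ _ (by norm_num), h 19 _ _ _ _ (by norm_num), h 20 _ _ _ _ (by norm_num),
    h 21 _ _ _ _ (by norm_num), h 22 _ _ _ _ (by norm_num), h 23 _ _ _ _ (by norm_num),
    h 24 _ _ _ _ (by norm_num), h 25 _ _ _ _ (by norm_num), h 26 _ _ _ _ (by norm_num),
    h 27 _ _ _ _ (by norm_num), h 28 _ _ _ _ (by norm_num)]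
  simp only [tabSUR, riSUR, Complex.eta]

theorem DT_xTM (v : V) (D : ℕ → ℝ) (j : ℕ) : (DT j).eval (xTM v D) = D j := by
  change xTM v D (nm 32 j 0 0 0 0 0 0) = D j
  rw [xTM_nm, tabTM, if_pos rfl]

open HLDaux in
/-- The meaning of the formula in terms of the values. -/
theorem holds_tm (l : Rec) (Nb : ℕ) (x : ℕ → ℝ) : (tmFm l Nb).Holds x ↔
    GoodR (VOf x) l ∧ (∀ t < Nb, IsBit ((VOf x).m t)) ∧
    (∀ i < l.length, PowV Nb ((VOf x).lam i) (VOf x).m ((VOf x).s17 i)) ∧
    (l.length : ℝ) ≤ numV Nb (VOf x).m ∧ (DT 0).eval x = 1 ∧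
    (∀ j < l.length, ((j + 1 : ℕ) : ℝ) * (DT (j + 1)).eval x =
      (DT j).eval x * (numV Nb (VOf x).m - (j : ℝ))) ∧
    (∑ i ∈ Finset.range l.length, ∑ j ∈ Finset.range l.length,
      (VOf x).c i j * (((DT j).eval x : ℝ) : ℂ) * (VOf x).s17 i Nb).re ≤ 0 := by
  have e1 : (allR Nb fun t => bitF (mB t)).Holds x ↔ ∀ t < Nb, IsBit ((VOf x).m t) := by
    simp only [holds_allR, holds_bitF]
    rfl
  have e2 : (allR l.length fun i => powF Nb (lamC i) mB (cv 17 i 0)).Holds x ↔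
      ∀ i < l.length, PowV Nb ((VOf x).lam i) (VOf x).m ((VOf x).s17 i) := by
    simp only [holds_allR, holds_powF]
    rfl
  have e3 : (Fm.le (numT l.length) (numB Nb mB)).Holds x ↔
      (l.length : ℝ) ≤ numV Nb (VOf x).m := by
    simp only [Fm.Holds, eval_numB, eval_numT]
    rfl
  have e4 : (Fm.eq (DT 0) Tm.one).Holds x ↔ (DT 0).eval x = 1 := Iff.rfl
  have e5 : (allR l.length fun j => Fm.eq (Tm.mul (numT (j + 1)) (DT (j + 1)))
      (Tm.mul (DT j) (subT (numB Nb mB) (numT j)))).Holds x ↔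
      ∀ j < l.length, ((j + 1 : ℕ) : ℝ) * (DT (j + 1)).eval x =
      (DT j).eval x * (numV Nb (VOf x).m - (j : ℝ)) := by
    simp only [holds_allR, Fm.Holds, Tm.eval, eval_subT, eval_numB, eval_numT]
    rfl
  have e6 : (Fm.le (csum l.length fun i => csum l.length fun j =>
      cmul (cmul (cC i j) (creal (DT j))) (cv 17 i 0 Nb)).1 Tm.zero).Holds x ↔
      (∑ i ∈ Finset.range l.length, ∑ j ∈ Finset.range l.length,
      (VOf x).c i j * (((DT j).eval x : ℝ) : ℂ) * (VOf x).s17 i Nb).re ≤ 0 := by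
    have h : (csum l.length fun i => csum l.length fun j =>
        cmul (cmul (cC i j) (creal (DT j))) (cv 17 i 0 Nb)).1.eval x =
        (cev x (csum l.length fun i => csum l.length fun j =>
          cmul (cmul (cC i j) (creal (DT j))) (cv 17 i 0 Nb))).re := rfl
    rw [Fm.Holds, h]
    simp only [cev_csum, cev_cmul, cev_creal, Tm.eval]
    rfl
  unfold tmFm
  rw [holds_conj]
  simp only [List.forall_mem_cons, List.not_mem_nil, false_imp_iff, forall_const, and_true,
    h1, h2, h3, h4, h5, h6, h7, e1, e2, e3, e4, e5, e6]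
  constructor
  · rintro ⟨a1, a2, a3, a4, a5, a6, a7, a8⟩
    exact ⟨⟨a1, a2, a3, a4, a5, a6, a7⟩, a8⟩
  · rintro ⟨⟨a1, a2, a3, a4, a5, a6, a7⟩, a8⟩
    exact ⟨a1, a2, a3, a4, a5, a6, a7, a8⟩

end TMaux

open TMaux in
/-- TM: meaning of `tmFm`. -/
theorem t_TM (h1 : S_RPE) (h2 : S_RPU) : S_TM := by
  intro l Nb hl
  constructor
  · rintro ⟨x, hx⟩
    rw [holds_tm] at hx
    obtain ⟨g, hbit, hpow, hle, hD0, hD, hre⟩ := hx
    set v := VOf x with hv
    have hrep : Rep l v.lam v.c := h2 l v.lam v.c hl (repF_of l v g)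
    set N := VC1.hb v.m Nb with hN
    have hnum : numV Nb v.m = (N : ℝ) := VC1.numV_eq v.m Nb hbit
    rw [hnum] at hle hD
    have hkN : l.length ≤ N := by exact_mod_cast hle
    have hDT : ∀ j ≤ l.length, (DT j).eval x = (N.choose j : ℝ) := by
      intro j
      induction j with
      | zero => intro _; rw [hD0]; simp
      | succ j ih =>
        intro hj
        have h3 := hD j (by omega)
        rw [ih (by omega)] at h3
        have h4 : ((N.choose (j + 1) * (j + 1) : ℕ) : ℝ) = ((N.choose j * (N - j) : ℕ) : ℝ) := by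
          rw [Nat.choose_succ_right_eq]
        rw [Nat.cast_mul, Nat.cast_mul, Nat.cast_sub (by omega)] at h4
        have h5 : (((j + 1 : ℕ) : ℝ)) ≠ 0 := by positivity
        have h6 : ((j + 1 : ℕ) : ℝ) * (DT (j + 1)).eval x =
            ((j + 1 : ℕ) : ℝ) * (N.choose (j + 1) : ℝ) := by
          rw [h3, ← h4, mul_comm]
        exact mul_left_cancel₀ h5 h6
    refine ⟨N, hkN, VC1.hb_lt _ _, ?_⟩
    have h7 := (hrep (N + 1)).2.2 N hkN (by omega)
    have h8 : (∑ i ∈ Finset.range l.length, ∑ j ∈ Finset.range l.length,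
        v.c i j * (((DT j).eval x : ℝ) : ℂ) * v.s17 i Nb) = expo l.length v.lam v.c N := by
      rw [expo]
      refine Finset.sum_congr rfl fun i hi => Finset.sum_congr rfl fun j hj => ?_
      rw [hDT j (Finset.mem_range.1 hj).le,
        VC1.powV_eq (hpow i (Finset.mem_range.1 hi)) hbit Nb le_rfl]
      push_cast
      rfl
    rw [h8, ← h7] at hre
    have h9 : (((seq l N : ℚ) : ℂ)).re = ((seq l N : ℚ) : ℝ) := Complex.ratCast_re _
    rw [h9] at hre
    exact_mod_cast hre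
  · rintro ⟨n, hn1, hn2, hn3⟩
    obtain ⟨lam, c, hrep, -, -⟩ := h1 l hl
    refine ⟨xTM (tmV l Nb n lam c) (fun j => (n.choose j : ℝ)), ?_⟩
    rw [holds_tm, VOf_xTM]
    refine ⟨tmV_good l Nb n lam c hrep, fun t _ => dg_bit Nb n t, fun i _ => dg_pow Nb n hn2 _,
      ?_, ?_, ?_, ?_⟩
    · change _ ≤ numV Nb (fun t => ((dg Nb n t : ℕ) : ℝ))
      rw [dg_num Nb n hn2]
      exact_mod_cast hn1
    · rw [DT_xTM]; simp
    · intro j hj
      rw [DT_xTM, DT_xTM]
      change _ = _ * (numV Nb (fun t => ((dg Nb n t : ℕ) : ℝ)) - _)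
      rw [dg_num Nb n hn2]
      have h4 : ((n.choose (j + 1) * (j + 1) : ℕ) : ℝ) = ((n.choose j * (n - j) : ℕ) : ℝ) := by
        rw [Nat.choose_succ_right_eq]
      rw [Nat.cast_mul, Nat.cast_mul, Nat.cast_sub (by omega)] at h4
      rw [← h4, mul_comm]
    · have h7 := (hrep (n + 1)).2.2 n hn1 (by omega)
      have h8 : (∑ i ∈ Finset.range l.length, ∑ j ∈ Finset.range l.length,
          (tmV l Nb n lam c).c i j * (((DT j).eval (xTM (tmV l Nb n lam c)
            (fun j => (n.choose j : ℝ))) : ℝ) : ℂ) * (tmV l Nb n lam c).s17 i Nb) =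
          expo l.length lam c n := by
        rw [expo]
        refine Finset.sum_congr rfl fun i hi => Finset.sum_congr rfl fun j hj => ?_
        rw [DT_xTM]
        simp only [tmV, hd_last]
        push_cast
        rfl
      rw [h8, ← h7]
      have h9 : (((seq l n : ℚ) : ℂ)).re = ((seq l n : ℚ) : ℝ) := Complex.ratCast_re _
      rw [h9]
      exact_mod_cast hn3

end Pool.Agent.H612.LR
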