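import Pool.Agent.H612.LR.StmP
import Pool.Agent.H612.LR.T_ASY

/-!
# VAL: the values of the dominant part are at least the lower limit (helper368)
-/

namespace Pool.Agent.H612.LR

open Filter Topology

/-- the small part -/
noncomputable def VAL_eps (k : ℕ) (W : Finset ℕ) (lam : ℕ → ℂ) (c : ℕ → ℕ → ℂ) (r : ℝ) (n : ℕ) : ℂ :=
  ∑ i ∈ W, ∑ j ∈ Finset.range k, c i j * (((n.choose j : ℝ) / (n.choose 0 : ℝ) : ℝ) : ℂ) *
    (lam i / (r : ℂ)) ^ n

theorem VAL_eps_lim (k : ℕ) (W : Finset ℕ) (lam : ℕ → ℂ) (c : ℕ → ℕ → ℂ) (r : ℝ) (hr : 0 < r)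
    (hW : ∀ i ∈ W, (∀ j < k, c i j = 0) ∨ ‖lam i‖ < r) :
    Tendsto (VAL_eps k W lam c r) atTop (𝓝 0) := by
  have h2 : Tendsto (fun n : ℕ => ∑ i ∈ W, ∑ j ∈ Finset.range k,
        c i j * (((n.choose j : ℝ) / (n.choose 0 : ℝ) : ℝ) : ℂ) * (lam i / (r : ℂ)) ^ n)
        atTop (𝓝 (∑ i ∈ W, ∑ j ∈ Finset.range k, 0)) := by
    refine tendsto_finsetSum _ fun i hi => tendsto_finsetSum _ fun j hj => ?_
    rcases hW i hi with h | h
    · have : c i j = 0 := h j (Finset.mem_range.1 hj)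
      simp only [this, zero_mul]
      exact tendsto_const_nhds
    · refine ASY_W _ _ _ _ ?_
      rw [norm_div, Complex.norm_real, Real.norm_eq_abs, abs_of_pos hr, div_lt_one hr]
      exact h
  simp only [Finset.sum_const_zero] at h2
  exact h2

/-- the decomposition of the sequence -/
theorem VAL_dec (k : ℕ) (hk : 1 ≤ k) (fl : ℕ → ℕ) (lam : ℕ → ℂ) (c : ℕ → ℕ → ℂ) (r : ℝ) (hr : 0 < r)
    (h1 : ∀ i < k, fl i = 1 → ∀ j < k, 0 < j → c i j = 0) (n : ℕ) :
    expo k lam c n = (r : ℂ) ^ n * ((∑ i ∈ (Finset.range k).filter (fun i => fl i = 1),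
      c i 0 * (lam i / (r : ℂ)) ^ n) +
      VAL_eps k ((Finset.range k).filter (fun i => ¬ fl i = 1)) lam c r n) := by
  have hrC : (r : ℂ) ≠ 0 := by exact_mod_cast hr.ne'
  have hpn : (r : ℂ) ^ n ≠ 0 := pow_ne_zero _ hrC
  unfold expo VAL_eps
  rw [← Finset.sum_filter_add_sum_filter_not (Finset.range k) (fun i => fl i = 1), mul_add]
  congr 1
  · rw [Finset.mul_sum]
    refine Finset.sum_congr rfl fun i hi => ?_
    rw [Finset.mem_filter, Finset.mem_range] at hi
    rw [Finset.sum_eq_single 0]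
    · rw [Nat.choose_zero_right, div_pow]
      push_cast
      field_simp
    · intro j hj hj0
      rw [h1 i hi.1 hi.2 j (Finset.mem_range.1 hj) (Nat.pos_of_ne_zero hj0)]
      ring
    · intro h0
      exact absurd (Finset.mem_range.2 (by omega)) h0
  · rw [Finset.mul_sum]
    refine Finset.sum_congr rfl fun i _ => ?_
    rw [Finset.mul_sum]
    refine Finset.sum_congr rfl fun j _ => ?_
    rw [Nat.choose_zero_right, div_pow]
    push_cast
    field_simp

theorem t_VAL (h1 : S_DENS) (h2 : S_MEAN) (h3 : S_RPU) : S_VAL := by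
  obtain ⟨A0, hD⟩ := h1
  refine ⟨A0, ?_⟩
  intro l Nb d ρ C c N hl hρ hc hub hlb hG
  obtain ⟨k, hk⟩ : ∃ k, k = l.length := ⟨_, rfl⟩
  have hrep : Rep l d.lam d.c := h3 l d.lam d.c hl hG.rep
  obtain ⟨r, hr⟩ : ∃ r, r = d.ρ := ⟨_, rfl⟩
  have hr0 : 0 < r := by rw [hr]; exact hG.rpos
  have hrC : (r : ℂ) ≠ 0 := by exact_mod_cast hr0.ne'
  obtain ⟨S, hS⟩ : ∃ S : Finset ℕ, S = (Finset.range k).filter (fun i => d.fl i = 1) := ⟨_, rfl⟩
  have hSd : d.S l.length 1 = S := by rw [hS, hk]; rfl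
  obtain ⟨f, hf⟩ : ∃ f : ℕ → ℂ, f = fun n => ∑ i ∈ S, d.c i 0 * (d.lam i / (r : ℂ)) ^ n := ⟨_, rfl⟩
  obtain ⟨E, hE⟩ : ∃ E : ℕ → ℂ, E =
    VAL_eps k ((Finset.range k).filter (fun i => ¬ d.fl i = 1)) d.lam d.c r := ⟨_, rfl⟩
  have hElim : Tendsto E atTop (𝓝 0) := by
    rw [hE]
    apply VAL_eps_lim _ _ _ _ _ hr0
    intro i hi
    rw [Finset.mem_filter, Finset.mem_range, hk] at hi
    rcases hG.lev.flag i hi.1 with h | h | h
    · left
      intro j hj
      rw [hk] at hj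
      exact hG.top0 i hi.1 h j hj
    · exact absurd h.1 hi.2
    · right
      rw [hr]; exact h.2
  have hseq : ∀ n, k ≤ n → ((seq l n : ℚ) : ℂ) = (r : ℂ) ^ n * (f n + E n) := by
    intro n hn
    have e1 := (hrep (n + 1)).2.2 n (by rw [← hk]; exact hn) (by omega)
    rw [e1, ← hk, VAL_dec k (by rw [hk]; exact hl) d.fl d.lam d.c r hr0 (by
      intro i hi hfl j hj hj0
      rw [hk] at hi hj
      exact hG.top1 i hi hfl j hj hj0) n, hf, hE, hS]
  have hSmem : ∀ i ∈ S, i < l.length ∧ ‖d.lam i‖ = r ∧ IsRoot l (d.lam i) := by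
    intro i hi
    rw [hS, Finset.mem_filter, Finset.mem_range, hk] at hi
    rcases hG.lev.flag i hi.1 with h | h | h
    · rw [hi.2] at h; exact absurd h (by norm_num)
    · exact ⟨hi.1, by rw [hr]; exact h.2.1, h.2.2⟩
    · rw [hi.2] at h; exact absurd h.1 (by norm_num)
  have hg1 : ∀ i ∈ S, ‖d.lam i / (r : ℂ)‖ = 1 := by
    intro i hi
    rw [norm_div, Complex.norm_real, Real.norm_eq_abs, abs_of_pos hr0, (hSmem i hi).2.1,
      div_self hr0.ne']
  -- `f` does not tend to zero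
  have hnot : ¬ Tendsto f atTop (𝓝 0) := by
    intro hlim
    have h4 := h2 S (fun i => d.lam i / (r : ℂ)) (fun i => d.c i 0) hg1 (by
      intro i hi i' hi' heq
      have h5 : d.lam i = d.lam i' := by
        have h6 : d.lam i / (r : ℂ) = d.lam i' / (r : ℂ) := heq
        rw [div_left_inj' hrC] at h6
        exact h6
      exact (hrep 0).2.1 i (hSmem i hi).1 i' (hSmem i' hi').1 h5) (by
        rw [hf] at hlim; exact hlim)
    obtain ⟨i, hi, hfl, hne⟩ := hG.act
    exact hne (h4 i (by rw [hS, Finset.mem_filter, Finset.mem_range, hk]; exact ⟨hi, hfl⟩))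
  -- norms
  have hnorm : ∀ n, k ≤ n → |(seq l n : ℝ)| = r ^ n * ‖f n + E n‖ := by
    intro n hn
    have h4 : ‖((seq l n : ℚ) : ℂ)‖ = |(seq l n : ℝ)| := by
      have h5 : ((seq l n : ℚ) : ℂ) = (((seq l n : ℚ) : ℝ) : ℂ) := by norm_cast
      rw [h5, Complex.norm_real, Real.norm_eq_abs]
    rw [← h4, hseq n hn, norm_mul, norm_pow, Complex.norm_real, Real.norm_eq_abs, abs_of_pos hr0]
  have hfb : ∀ n, ‖f n‖ ≤ ∑ i ∈ S, ‖d.c i 0‖ := by
    intro n
    rw [hf]
    refine (norm_sum_le _ _).trans (Finset.sum_le_sum fun i hi => ?_)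
    rw [norm_mul, norm_pow, hg1 i hi, one_pow, mul_one]
  obtain ⟨B, hB⟩ : ∃ B, B = ∑ i ∈ S, ‖d.c i 0‖ := ⟨_, rfl⟩
  rw [← hB] at hfb
  have hB0 : 0 ≤ B := by rw [hB]; exact Finset.sum_nonneg fun i _ => norm_nonneg _
  have hEsmall : ∀ η : ℝ, 0 < η → ∀ᶠ n in atTop, ‖E n‖ < η := by
    intro η hη
    have := hElim.norm
    rw [norm_zero] at this
    exact this.eventually (gt_mem_nhds hη)
  -- `ρ ≤ r`
  have hle : ρ ≤ r := by
    by_contra hcon
    push Not at hcon
    have h4 : Tendsto (fun n : ℕ => (B + 1) * (r / ρ) ^ n) atTop (𝓝 ((B + 1) * 0)) :=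
      (tendsto_pow_atTop_nhds_zero_of_lt_one (by positivity) ((div_lt_one hρ).2 hcon)).const_mul _
    rw [mul_zero] at h4
    obtain ⟨n, hn1, hn2, hn3, hn4⟩ := ((h4.eventually (gt_mem_nhds hc)).and
      ((hEsmall 1 one_pos).and ((eventually_ge_atTop k).and (eventually_ge_atTop N)))).exists
    have h5 := hlb n hn4
    have h6 : (seq l n : ℝ) ≤ r ^ n * (B + 1) := by
      refine (le_abs_self _).trans ?_
      rw [hnorm n hn3]
      have h7 : ‖f n + E n‖ ≤ B + 1 := (norm_add_le _ _).trans (add_le_add (hfb n) hn2.le)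
      gcongr
    have h8 : (B + 1) * (r / ρ) ^ n = r ^ n * (B + 1) / ρ ^ n := by
      rw [div_pow]; ring
    rw [h8, div_lt_iff₀ (by positivity)] at hn1
    linarith
  have hge : r ≤ ρ := by
    by_contra hcon
    push Not at hcon
    apply hnot
    have h4 : Tendsto (fun n : ℕ => C * (ρ / r) ^ n) atTop (𝓝 (C * 0)) :=
      (tendsto_pow_atTop_nhds_zero_of_lt_one (by positivity) ((div_lt_one hr0).2 hcon)).const_mul _
    rw [mul_zero] at h4
    have h5 : Tendsto (fun n => f n + E n) atTop (𝓝 0) := by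
      refine squeeze_zero_norm' ?_ h4
      filter_upwards [eventually_ge_atTop k] with n hn
      have h6 := hub n
      rw [hnorm n hn] at h6
      have h7 : C * (ρ / r) ^ n = C * ρ ^ n / r ^ n := by rw [div_pow]; ring
      rw [h7, le_div_iff₀ (by positivity)]
      linarith
    have h6 := h5.sub hElim
    rw [sub_zero] at h6
    refine h6.congr fun n => ?_
    ring
  have hρr : ρ = r := le_antisymm hle hge
  subst hρr
  -- the lower bound of the dominant part
  have hlow : ∀ n, k ≤ n → N ≤ n → c - ‖E n‖ ≤ (f n).re := by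
    intro n hn hn'
    have h4 := hlb n hn'
    have h5 : (seq l n : ℝ) = ρ ^ n * (f n + E n).re := by
      have h6 : (((seq l n : ℚ) : ℂ)).re = (seq l n : ℝ) := by
        have : ((seq l n : ℚ) : ℂ) = (((seq l n : ℚ) : ℝ) : ℂ) := by norm_cast
        rw [this, Complex.ofReal_re]
      rw [← h6, hseq n hn, ← Complex.ofReal_pow, Complex.re_ofReal_mul]
    rw [h5, mul_comm] at h4
    have h6 : c ≤ (f n + E n).re := le_of_mul_le_mul_left h4 (by positivity)
    rw [Complex.add_re] at h6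
    have h7 := Complex.re_le_norm (E n)
    linarith
  -- conclusion
  have hval : d.val l.length = (∑ i ∈ S, d.c i 0 * d.z l.length i).re := by
    unfold CD.val
    rw [hSd]
  rw [hval]
  apply le_of_forall_pos_le_add
  intro η hη
  obtain ⟨T, hT⟩ := eventually_atTop.1 ((hEsmall (η / 2) (by positivity)).and
    ((eventually_ge_atTop k).and (eventually_ge_atTop N)))
  obtain ⟨t, htT, ht⟩ := hD l d hl hG.rpos hG.lev.q1 (by
    intro i hi
    rw [hSd] at hi
    rw [← hr]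
    exact ⟨(hSmem i hi).2.2, (hSmem i hi).2.1⟩) hG.chain hG.xc (η / (2 * (B + 1))) (by positivity) T
  obtain ⟨n, hn⟩ : ∃ n, n = d.m + d.q * t := ⟨_, rfl⟩
  have hnT : T ≤ n := by
    have h5 := hG.lev.q1
    have : t ≤ d.q * t := Nat.le_mul_of_pos_left t h5
    omega
  obtain ⟨hn1, hn2, hn3⟩ := hT n hnT
  have h4 := hlow n hn2 hn3
  have h5 : ‖f n - ∑ i ∈ S, d.c i 0 * d.z l.length i‖ ≤ η / 2 := by
    rw [hf]
    beta_reduce
    rw [← Finset.sum_sub_distrib]
    calc ‖∑ i ∈ S, (d.c i 0 * (d.lam i / (ρ : ℂ)) ^ n - d.c i 0 * d.z l.length i)‖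
        ≤ ∑ i ∈ S, ‖d.c i 0‖ * (η / (2 * (B + 1))) := by
          refine (norm_sum_le _ _).trans (Finset.sum_le_sum fun i hi => ?_)
          rw [← mul_sub, norm_mul]
          refine mul_le_mul_of_nonneg_left ?_ (norm_nonneg _)
          have := ht i (by rw [hSd]; exact hi)
          rw [← hr, ← hn] at this
          exact this.le
      _ = B * (η / (2 * (B + 1))) := by rw [← Finset.sum_mul, ← hB]
      _ ≤ η / 2 := by
          rw [mul_div_assoc', div_le_div_iff₀ (by positivity) (by norm_num)]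
          nlinarith
  have h6 := Complex.re_le_norm (f n - ∑ i ∈ S, d.c i 0 * d.z l.length i)
  rw [Complex.sub_re] at h6
  linarith

end Pool.Agent.H612.LR
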