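import Pool.Agent.H612.LR.StmP
import Pool.Agent.H612.LR.T_HLD
import Pool.Agent.H612.LR.T_VC1

/-!
# From assignments to data for valFm

Proof of `S_VC1V`.
-/

namespace Pool.Agent.H612.LR

open Pool.Agent.NPC Pool.Agent.NPC.ER Pool.Agent.NPC.H612 Pool.Agent.H612.PG

namespace VC1V

open HLDaux

variable (x : ℕ → ℝ)

theorem hv1 (k : ℕ) : (v1 k).Holds x ↔ ∀ i < k, ∀ j < k,
    ((VOf x).F i 0 = 0 ∨ (VOf x).c i j = 0) ∧ (0 < j → ((VOf x).F i 1 = 0 ∨ (VOf x).c i j = 0)) := by
  unfold v1
  simp only [Fm.Holds, holds_allR, holds_ceq, cev_czero, Tm.eval]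
  refine forall_congr' fun i => forall_congr' fun _ => forall_congr' fun j =>
    forall_congr' fun _ => and_congr Iff.rfl ?_
  by_cases h : 0 < j
  · rw [if_pos h]
    simp only [Fm.Holds, holds_ceq, cev_czero, Tm.eval]
    exact ⟨fun h' _ => h', fun h' => h' h⟩
  · rw [if_neg h]
    exact ⟨fun _ h' => absurd h' h, fun _ => holds_tt x⟩

theorem hv2 (k : ℕ) : (v2 k).Holds x ↔ (0 < (VOf x).ρ ∧ ∃ i < k, (VOf x).F i 1 = 1 ∧
    (VOf x).c i 0 ≠ 0) := by
  unfold v2
  simp only [Fm.Holds, holds_exR, holds_ceq, cev_czero, Tm.eval]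
  rfl

theorem hv3 (k : ℕ) : (v3 k).Holds x ↔ x valIx =
    (∑ i ∈ Finset.range k, (((VOf x).F i 1 : ℝ) : ℂ) *
      ((VOf x).c i 0 * (VOf x).Z i k)).re := by
  unfold v3
  rw [Fm.Holds]
  have h : (csum k fun i => cmul (creal (FT i 1)) (cmul (cC i 0) (ZC i k))).1.eval x =
      (cev x (csum k fun i => cmul (creal (FT i 1)) (cmul (cC i 0) (ZC i k)))).re := rfl
  rw [h]
  simp only [cev_csum, cev_cmul, cev_creal, Tm.eval]
  rfl

end VC1V

open HLDaux VC1 VC1V in
theorem t_VC1V : S_VC1V := by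
  intro l Nb N0 x hk hx
  classical
  unfold valFm at hx
  rw [holds_conj] at hx
  simp only [List.forall_mem_cons, List.not_mem_nil, false_imp_iff, forall_const, and_true,
    h1, h2, h3, h4, h5, h6, h7, h8, h9, h10, h11, h12, h13, h14, hn1, hn2, hn4, hv1, hv2, hv3,
    holds_allR, Fm.Holds, hn3, Tm.eval] at hx
  obtain ⟨a1, a2, a3, a4, a5, a6, a7, a8, a9, a10, a11, a12, a13, hc, ⟨b1, b23⟩, ⟨b4, b5⟩, b6, b7,
    w1, ⟨w2, w2'⟩, w3⟩ := hx
  have g : (VOf x).Good1 l Nb := ⟨a1, a2, a3, a4, a5, a6, a7, a8, a9, a10, a11, a12, a13⟩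
  clear a1 a2 a3 a4 a5 a6 a7 a8 a9 a10 a11 a12 a13
  have hFT : ∀ i, Tm.eval x (FT i 1) = (VOf x).F i 1 := fun i => rfl
  simp only [hFT] at b6
  clear hFT
  generalize VOf x = v at *
  have hκ0 : ∀ i, ∃ s, i < l.length → (s < l.length ∧
      (∀ s' < l.length, v.K i s' = if s' = s then 1 else 0) ∧ v.s16 i Nb = v.s16 s Nb) := by
    intro i
    by_cases hi : i < l.length
    · obtain ⟨s, h1, h2⟩ := g.a12 i hi
      exact ⟨s, fun _ => ⟨h1, h2⟩⟩
    · exact ⟨0, fun h => absurd h hi⟩
  choose κ hκ using hκ0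
  have hqb : ∀ t < Nb, IsBit (v.q t) := fun t ht => (g.a8 t ht).1.1
  have hmb : ∀ t < Nb, IsBit (v.m t) := fun t ht => (g.a8 t ht).1.2
  have hPb : ∀ i < l.length, ∀ t < Nb, IsBit (v.P i t) := fun i hi t ht =>
    ((g.a8 t ht).2 i hi).1
  have hab : ∀ i < l.length, ∀ j < l.length, ∀ t < Nb, IsBit (v.a j i t) :=
    fun i hi j hj t ht => (((g.a8 t ht).2 i hi).2 j hj).1
  have hbb : ∀ i < l.length, ∀ j < l.length, ∀ t < Nb, IsBit (v.b j i t) :=
    fun i hi j hj t ht => (((g.a8 t ht).2 i hi).2 j hj).2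
  have hF : ∀ i ∈ (Finset.range l.length).filter (fun i => flg v i = 1), i < l.length ∧
      v.F i 1 ≠ 0 := by
    intro i hi
    rw [Finset.mem_filter, Finset.mem_range] at hi
    refine ⟨hi.1, ?_⟩
    rw [F_eq l Nb v g hi.1 1 (by norm_num), if_pos hi.2]
    exact one_ne_zero
  have h6 : ∀ i ∈ (Finset.range l.length).filter (fun i => flg v i = 1),
      v.lam i = (v.ρ : ℂ) * (v.s20 i Nb * v.h 0 i) ∧ v.h l.length i = 1 ∧
      (numV Nb v.q * 2 ^ N0 * ‖v.h 0 i - 1‖) ^ 2 ≤ 1 ∧
      ∀ j < l.length, v.h j i = v.s22 j i Nb * v.s23 j i Nb * v.h (j + 1) i ∧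
        ((numV Nb (v.a j i) + numV Nb (v.b j i) + 1) * 2 ^ N0 * ‖v.ξ j - 1‖) ^ 2 ≤ 1 ∧
        (2 ^ N0 * ‖v.h (j + 1) i - 1‖) ^ 2 ≤ ‖v.ξ j - 1‖ ^ 2 := by
    intro i hi
    rcases b6 i (hF i hi).1 with h | h
    · exact absurd h (hF i hi).2
    · exact h
  have hρ' : (v.ρ : ℂ) ≠ 0 := by
    have := w2.ne'
    exact_mod_cast this
  have hq : numV Nb v.q = (hb v.q Nb : ℝ) := numV_eq _ _ fun t ht => (g.a8 t ht).1.1
  have hZ : ∀ i < l.length, ∀ t ≤ l.length, v.Z i t = (v.ζ ^ hb v.m Nb) ^ hb (v.P i) Nb *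
      ∏ j ∈ Finset.range t, pw (v.x j) (hb (v.a j i) Nb) (hb (v.b j i) Nb) := by
    intro i hi t
    induction t with
    | zero =>
      intro _
      rw [(b7 i hi).1, powV_eq (b23 i hi).1.2 (hPb i hi) Nb le_rfl,
        powV_eq b1.2 hmb Nb le_rfl]
      simp
    | succ t ih =>
      intro ht
      have h2 := ((b23 i hi).2 t (by omega)).2
      rw [(b7 i hi).2 t (by omega), ih (by omega), Finset.prod_range_succ,
        powV_eq h2.1 (hab i hi t (by omega)) Nb le_rfl,
        powV_eq h2.2 (hbb i hi t (by omega)) Nb le_rfl]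
      unfold pw
      ring
  refine ⟨⟨v.lam, v.c, v.ρ, 0, hb v.m Nb, hb v.q Nb, fun i => hb (v.P i) Nb,
    fun j i => hb (v.a j i) Nb, fun j i => hb (v.b j i) Nb, v.ζ, v.ξ, v.x, v.h, flg v, κ⟩, ?_, ?_⟩
  · constructor
    · -- rep
      refine ⟨fun i hi => (g.a6 i hi).1, fun i hi i' hi' h => ?_, ?_⟩
      · rcases (g.a6 i hi).2 i' hi' with h1 | h1
        · exact h1
        · exact absurd h h1
      · intro n hn1 hn2
        obtain ⟨n', rfl⟩ : ∃ n', n = n' + l.length := ⟨n - l.length, by omega⟩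
        have h1 := g.a7 n' (by omega)
        rw [U_eq l Nb v g _ hn2] at h1
        have h2 : (((seq l (n' + l.length) : ℚ) : ℝ) : ℂ) = ((seq l (n' + l.length) : ℚ) : ℂ) := by
          push_cast
          rfl
        rw [← h2, h1]
        unfold expo
        apply Finset.sum_congr rfl
        intro i hi
        apply Finset.sum_congr rfl
        intro j hj
        rw [B_eq l Nb v g _ (by omega) j (Finset.mem_range.1 hj).le,
          W_eq l Nb v g (Finset.mem_range.1 hi) _ (by omega)]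
        push_cast
        rfl
    · exact hb_lt _ _
    · exact hb_lt _ _
    · intro i _
      exact hb_lt _ _
    · intro j _ i _
      exact hb_lt _ _
    · intro j _ i _
      exact hb_lt _ _
    · -- lev
      constructor
      · exact g.a10.1
      · have h1 := g.a10.2
        rw [hq] at h1
        exact_mod_cast h1
      · intro i hi
        rcases g.a11 i hi with h | ⟨h, h1, h2⟩ | ⟨h, h1⟩
        · left
          exact flg_eq v i 0 (by norm_num) h
        · right
          left
          refine ⟨flg_eq v i 1 (by norm_num) h, ?_, ?_⟩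
          · exact (sq_eq_sq₀ (norm_nonneg _) g.a10.1).1 h1
          · unfold V.Root at h2
            rw [W_eq l Nb v g hi _ (by nlinarith)] at h2
            show v.lam i ^ l.length = _
            rw [h2]
            apply Finset.sum_congr rfl
            intro j hj
            have hj' := Finset.mem_range.1 hj
            rw [W_eq l Nb v g hi _ (by omega), g.a1 j hj']
            push_cast
            rfl
        · right
          right
          refine ⟨flg_eq v i 2 (by norm_num) h, ?_⟩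
          exact lt_of_pow_lt_pow_left₀ 2 g.a10.1 h1
      · intro i hi
        obtain ⟨h1, h2, h3⟩ := hκ i hi
        refine ⟨h1, ?_⟩
        rw [powV_eq (g.a9 i hi).1 (fun t ht => (g.a8 t ht).1.1) Nb le_rfl,
          powV_eq (g.a9 _ h1).1 (fun t ht => (g.a8 t ht).1.1) Nb le_rfl] at h3
        exact h3
      · intro s hs j hj
        exact can_eq g (fun i hi s hs => (hκ i hi).2.1 s hs) (by norm_num) hs (g.a13 s hs j hj)
      · intro s hs j hj hJj
        exact can_eq g (fun i hi s hs => (hκ i hi).2.1 s hs) (by norm_num) hs (hc s hs j hj hJj)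
    · rfl
    · exact w2
    · -- top0
      intro i hi hf j hj
      rcases (w1 i hi j hj).1 with h | h
      · rw [F_eq l Nb v g hi 0 (by norm_num), if_pos hf] at h
        exact absurd h one_ne_zero
      · exact h
    · -- top1
      intro i hi hf j hj hj0
      rcases (w1 i hi j hj).2 hj0 with h | h
      · rw [F_eq l Nb v g hi 1 (by norm_num), if_pos hf] at h
        exact absurd h one_ne_zero
      · exact h
    · -- act
      obtain ⟨i, hi, hf, hc0⟩ := w2'
      refine ⟨i, hi, ?_, hc0⟩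
      rw [F_eq l Nb v g hi 1 (by norm_num)] at hf
      by_contra hne
      rw [if_neg hne] at hf
      exact zero_ne_one hf
    · -- chain
      constructor
      · have h1 := powV_eq b1.1 hqb Nb le_rfl
        rw [b4] at h1
        exact h1.symm
      · intro j hj
        exact (b5 j hj).1
      · intro i hi
        have h1 := (h6 i hi).1
        rw [powV_eq (b23 i (hF i hi).1).1.1 (hPb i (hF i hi).1) Nb le_rfl] at h1
        show v.lam i / (v.ρ : ℂ) = _
        rw [h1]
        field_simp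
      · intro i hi j hj
        have h1 := ((h6 i hi).2.2.2 j hj).1
        have h2 := ((b23 i (hF i hi).1).2 j hj).1
        rw [powV_eq h2.1 (hab i (hF i hi).1 j hj) Nb le_rfl,
          powV_eq h2.2 (hbb i (hF i hi).1 j hj) Nb le_rfl] at h1
        exact h1
      · intro i hi
        exact (h6 i hi).2.1
      · intro i hi
        have h1 := (h6 i hi).2.2.1
        rw [hq] at h1
        exact le_one_of_sq h1
      · intro i hi j hj
        have h1 := ((h6 i hi).2.2.2 j hj).2.1
        rw [numV_eq _ _ (hab i (hF i hi).1 j hj), numV_eq _ _ (hbb i (hF i hi).1 j hj)] at h1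
        push_cast
        exact le_one_of_sq h1
      · intro i hi j hj
        have h1 := ((h6 i hi).2.2.2 j hj).2.2
        exact le_of_sq_le_sq h1 (norm_nonneg _)
    · -- xc
      intro j hj
      obtain ⟨h1, h2, h3⟩ := b5 j hj
      refine ⟨h2, fun h => ?_⟩
      rcases h3 with h3 | h3
      · exact absurd h h3
      · exact h3
  · rw [w3]
    unfold CD.val CD.z CD.S
    congr 1
    show _ = ∑ i ∈ (Finset.range l.length).filter (fun i => flg v i = 1), v.c i 0 *
      ((v.ζ ^ hb v.m Nb) ^ hb (v.P i) Nb *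
        ∏ j ∈ Finset.range l.length, pw (v.x j) (hb (v.a j i) Nb) (hb (v.b j i) Nb))
    rw [Finset.sum_filter]
    apply Finset.sum_congr rfl
    intro i hi
    have hi' := Finset.mem_range.1 hi
    rw [F_eq l Nb v g hi' 1 (by norm_num), hZ i hi' _ le_rfl]
    by_cases h1 : flg v i = 1
    · simp [h1]
    · simp [h1]

end Pool.Agent.H612.LR
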