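import Pool.Agent.H612.LR.StmP
import Pool.Agent.H612.LR.T_HLD
import Pool.Agent.H612.LR.T_SUR

/-!
# VC2V: from data to assignments
-/

namespace Pool.Agent.H612.LR

open Pool.Agent.NPC Pool.Agent.NPC.ER Pool.Agent.NPC.H612 Pool.Agent.H612.PG

namespace VC2Vaux

/-- the number given by the first `t` digits of `n` -/
def dH (Nb n t : ℕ) : ℕ := n / 2 ^ (Nb - t)

/-- the digit number `t` of `n` -/
def dB (Nb n t : ℕ) : ℕ := (n / 2 ^ (Nb - 1 - t)) % 2

theorem dH_zero (Nb n : ℕ) (h : n < 2 ^ Nb) : dH Nb n 0 = 0 := by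
  simp only [dH, Nat.sub_zero]
  exact Nat.div_eq_of_lt h

theorem dH_last (Nb n : ℕ) : dH Nb n Nb = n := by
  simp [dH]

theorem dH_succ (Nb n t : ℕ) (ht : t < Nb) :
    dH Nb n (t + 1) = 2 * dH Nb n t + dB Nb n t := by
  simp only [dH, dB]
  have h1 : Nb - t = (Nb - 1 - t) + 1 := by omega
  have h2 : Nb - (t + 1) = Nb - 1 - t := by omega
  rw [h1, h2, pow_succ, ← Nat.div_div_eq_div_mul]
  omega

theorem dB_bit (Nb n t : ℕ) : IsBit ((dB Nb n t : ℕ) : ℝ) := by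
  have : dB Nb n t = 0 ∨ dB Nb n t = 1 := by
    unfold dB; omega
  rcases this with h | h
  · left; rw [h]; simp
  · right; rw [h]; simp

theorem d_num (Nb n : ℕ) (h : n < 2 ^ Nb) :
    numV Nb (fun t => ((dB Nb n t : ℕ) : ℝ)) = n := by
  have key : ∀ T ≤ Nb, ∑ t ∈ Finset.range T, ((dB Nb n t : ℕ) : ℝ) * 2 ^ (Nb - 1 - t) =
      (dH Nb n T : ℝ) * 2 ^ (Nb - T) := by
    intro T
    induction T with
    | zero =>
      intro _
      rw [dH_zero Nb n h]; simp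
    | succ T ih =>
      intro hT
      rw [Finset.sum_range_succ, ih (by omega), dH_succ Nb n T (by omega)]
      have h1 : Nb - T = (Nb - 1 - T) + 1 := by omega
      have h2 : Nb - (T + 1) = Nb - 1 - T := by omega
      rw [h1, h2, pow_succ]
      push_cast
      ring
  rw [numV, key Nb le_rfl, dH_last]
  simp

theorem d_pow (Nb n : ℕ) (h : n < 2 ^ Nb) (x : ℂ) :
    PowV Nb x (fun t => ((dB Nb n t : ℕ) : ℝ)) (fun t => x ^ dH Nb n t) := by
  refine ⟨by simp only [dH_zero Nb n h, pow_zero], ?_⟩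
  intro t ht
  simp only
  rw [dH_succ Nb n t ht]
  have : dB Nb n t = 0 ∨ dB Nb n t = 1 := by
    unfold dB; omega
  rcases this with h | h
  · rw [h]; simp; ring
  · rw [h]; simp; ring

/-- the values -/
noncomputable def dV (l : Rec) (Nb : ℕ) (d : CD) : V where
  lam := d.lam
  c := d.c
  ρ := d.ρ
  q t := ((dB Nb d.q t : ℕ) : ℝ)
  m t := ((dB Nb d.m t : ℕ) : ℝ)
  P i t := ((dB Nb (d.P i) t : ℕ) : ℝ)
  a j i t := ((dB Nb (d.a j i) t : ℕ) : ℝ)
  b j i t := ((dB Nb (d.b j i) t : ℕ) : ℝ)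
  A i := (coef l i : ℝ)
  U n := (seq l n : ℝ)
  ζ := d.ζ
  ξ := d.ξ
  x := d.x
  h := d.h
  F i t := if d.fl i = t then 1 else 0
  K i s := if d.κ i = s then 1 else 0
  s16 i t := d.lam i ^ dH Nb d.q t
  s17 i t := d.lam i ^ dH Nb d.m t
  s18 t := d.ζ ^ dH Nb d.q t
  s19 t := d.ζ ^ dH Nb d.m t
  s20 i t := d.ζ ^ dH Nb (d.P i) t
  s21 i t := (d.ζ ^ d.m) ^ dH Nb (d.P i) t
  s22 j i t := d.ξ j ^ dH Nb (d.a j i) t
  s23 j i t := (starRingEnd ℂ (d.ξ j)) ^ dH Nb (d.b j i) t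
  s24 j i t := d.x j ^ dH Nb (d.a j i) t
  s25 j i t := (starRingEnd ℂ (d.x j)) ^ dH Nb (d.b j i) t
  W i n := d.lam i ^ n
  B n j := (n.choose j : ℝ)
  Z i j := (d.ζ ^ d.m) ^ d.P i * ∏ j' ∈ Finset.range j, pw (d.x j') (d.a j' i) (d.b j' i)

theorem d_can (l : Rec) (Nb : ℕ) (d : CD) (k t s j : ℕ)
    (h : ∑ i ∈ (d.S k t).filter (fun i => d.κ i = s), d.c i j * d.lam i ^ d.m = 0) :
    (dV l Nb d).Can k Nb t s j := by
  simp only [V.Can, dV, dH_last]
  rw [CD.S, Finset.filter_filter, Finset.sum_filter] at h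
  rw [← h]
  apply Finset.sum_congr rfl
  intro i _
  by_cases h1 : d.fl i = t
  · by_cases h2 : d.κ i = s
    · rw [if_pos h1, if_pos h2, if_pos ⟨h1, h2⟩]; simp
    · simp [h2]
  · simp [h1]

theorem d_flag (l : Rec) (Nb : ℕ) (d : CD) (i t : ℕ) (h : d.fl i = t) :
    (dV l Nb d).Flag i t := by
  intro t' _
  simp only [dV, h]
  exact if_congr eq_comm rfl rfl

theorem d_sq (r : ℝ) (h0 : 0 ≤ r) (h1 : r ≤ 1) : r ^ 2 ≤ 1 :=
  pow_le_one₀ h0 h1

/-- The table of the values, with one more value. -/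
noncomputable def tab (v : V) (r : ℝ) (T a b c e : ℕ) : ℝ :=
  if T = 30 then r else tabSUR v T a b c e

/-- The assignment. -/
noncomputable def xA (v : V) (r : ℝ) (n : ℕ) : ℝ :=
  tab v r n.unpair.1 n.unpair.2.unpair.1 n.unpair.2.unpair.2.unpair.1
    n.unpair.2.unpair.2.unpair.2.unpair.1 n.unpair.2.unpair.2.unpair.2.unpair.2.unpair.1

theorem xA_nm (v : V) (r : ℝ) (T a b c e K s t : ℕ) :
    xA v r (nm T a b c e K s t) = tab v r T a b c e := by
  unfold xA nm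
  simp only [Nat.unpair_pair]

theorem xA_val (v : V) (r : ℝ) : xA v r valIx = r := by
  unfold valIx
  rw [xA_nm, tab, if_pos rfl]

theorem VOf_xA (v : V) (r : ℝ) : VOf (xA v r) = v := by
  unfold VOf cval rval
  simp [xA_nm, tab, tabSUR, riSUR, Complex.eta]

theorem good1 (l : Rec) (Nb N0 : ℕ) (d : CD) (hd : d.GoodT l Nb N0) :
    (dV l Nb d).Good1 l Nb := by
  constructor
  · intro i _; rfl
  · intro n hn
    change ((seq l n : ℚ) : ℝ) = _
    rw [seq, if_pos hn]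
  · intro n hn
    change ((seq l (n + l.length) : ℚ) : ℝ) = ∑ i ∈ Finset.range l.length,
      ((coef l i : ℚ) : ℝ) * ((seq l (n + l.length - 1 - i) : ℚ) : ℝ)
    rw [seq, if_neg (by omega), Finset.sum_range]
    push_cast
    rfl
  · refine ⟨by simp [dV], fun j _ => by simp [dV], fun n _ => ⟨by simp [dV], ?_⟩⟩
    intro j _
    simp only [dV]
    rw [Nat.choose_succ_succ]
    push_cast
    rfl
  · intro i _
    refine ⟨by simp [dV], fun n _ => ?_⟩
    simp only [dV]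
    rw [pow_succ]
  · intro i hi
    refine ⟨hd.rep.1 i hi, fun i' hi' => ?_⟩
    by_cases h : i = i'
    · exact Or.inl h
    · exact Or.inr fun h2 => h (hd.rep.2.1 i hi i' hi' h2)
  · intro n hn
    have h := hd.rep.2.2 (n + l.length) (by omega) (by
      have : n < l.length + l.length ^ 2 := hn
      omega)
    simp only [dV]
    rw [expo] at h
    push_cast
    rw [h]
  · intro t _
    exact ⟨⟨dB_bit _ _ _, dB_bit _ _ _⟩, fun i _ => ⟨dB_bit _ _ _, fun j _ =>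
      ⟨dB_bit _ _ _, dB_bit _ _ _⟩⟩⟩
  · intro i _
    exact ⟨d_pow Nb d.q hd.qlt _, d_pow Nb d.m hd.mlt _⟩
  · refine ⟨hd.lev.rho, ?_⟩
    have h := d_num Nb d.q hd.qlt
    change 1 ≤ numV Nb (fun t => ((dB Nb d.q t : ℕ) : ℝ))
    rw [h]
    exact_mod_cast hd.lev.q1
  · intro i hi
    have hρ := hd.lev.rho
    rcases hd.lev.flag i hi with h | ⟨h, h2, h3⟩ | ⟨h, h2⟩
    · exact Or.inl (d_flag l Nb d i 0 h)
    · refine Or.inr (Or.inl ⟨d_flag l Nb d i 1 h, ?_, ?_⟩)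
      · change ‖d.lam i‖ ^ 2 = d.ρ ^ 2
        rw [h2]
      · change d.lam i ^ l.length = ∑ j ∈ Finset.range l.length,
          (((coef l j : ℚ) : ℝ) : ℂ) * d.lam i ^ (l.length - 1 - j)
        rw [IsRoot] at h3
        rw [h3]
        apply Finset.sum_congr rfl
        intro j _
        push_cast
        rfl
    · refine Or.inr (Or.inr ⟨d_flag l Nb d i 2 h, ?_⟩)
      change ‖d.lam i‖ ^ 2 < d.ρ ^ 2
      exact pow_lt_pow_left₀ h2 (norm_nonneg _) (by norm_num)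
  · intro i hi
    obtain ⟨h1, h2⟩ := hd.lev.cls i hi
    refine ⟨d.κ i, h1, ?_, ?_⟩
    · intro s' _
      simp only [dV]
      exact if_congr eq_comm rfl rfl
    · simp only [dV, dH_last]
      exact h2
  · intro s hs j hj
    exact d_can l Nb d l.length 0 s j (hd.lev.can0 s hs j hj)

theorem good3 (l : Rec) (Nb N0 : ℕ) (d : CD) (hd : d.GoodT l Nb N0) :
    ∀ i < l.length, (dV l Nb d).F i 1 = 0 ∨
      ((dV l Nb d).lam i = ((dV l Nb d).ρ : ℂ) * ((dV l Nb d).s20 i Nb * (dV l Nb d).h 0 i) ∧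
        (dV l Nb d).h l.length i = 1 ∧
    (numV Nb (dV l Nb d).q * 2 ^ N0 * ‖(dV l Nb d).h 0 i - 1‖) ^ 2 ≤ 1 ∧
    ∀ j < l.length, (dV l Nb d).h j i =
        (dV l Nb d).s22 j i Nb * (dV l Nb d).s23 j i Nb * (dV l Nb d).h (j + 1) i ∧
      ((numV Nb ((dV l Nb d).a j i) + numV Nb ((dV l Nb d).b j i) + 1) * 2 ^ N0 *
        ‖(dV l Nb d).ξ j - 1‖) ^ 2 ≤ 1 ∧
      (2 ^ N0 * ‖(dV l Nb d).h (j + 1) i - 1‖) ^ 2 ≤ ‖(dV l Nb d).ξ j - 1‖ ^ 2) := by
  have hch := hd.chain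
  have hρ1 : (d.ρ : ℂ) ≠ 0 := by
    have := hd.rpos.ne'
    exact_mod_cast this
  intro i hi
  by_cases hf : d.fl i = 1
  · right
    have hiS : i ∈ d.S l.length 1 := by
      rw [CD.S, Finset.mem_filter]
      exact ⟨Finset.mem_range.2 hi, hf⟩
    refine ⟨?_, hch.last i hiS, ?_, ?_⟩
    · have h := hch.fac i hiS
      simp only [dV, dH_last]
      rw [div_eq_iff hρ1] at h
      rw [h]; ring
    · have h := hch.small0 i hiS
      change (numV Nb (fun t => ((dB Nb d.q t : ℕ) : ℝ)) * 2 ^ N0 * ‖d.h 0 i - 1‖) ^ 2 ≤ 1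
      rw [d_num Nb d.q hd.qlt]
      exact d_sq _ (by positivity) h
    · intro j hj
      refine ⟨?_, ?_, ?_⟩
      · simp only [dV, dH_last]
        exact hch.step i hiS j hj
      · have h := hch.small1 i hiS j hj
        change ((numV Nb (fun t => ((dB Nb (d.a j i) t : ℕ) : ℝ)) +
          numV Nb (fun t => ((dB Nb (d.b j i) t : ℕ) : ℝ)) + 1) * 2 ^ N0 *
          ‖d.ξ j - 1‖) ^ 2 ≤ 1
        rw [d_num Nb _ (hd.alt j hj i hi), d_num Nb _ (hd.blt j hj i hi)]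
        push_cast at h
        exact d_sq _ (by positivity) h
      · have h := hch.small2 i hiS j hj
        change (2 ^ N0 * ‖d.h (j + 1) i - 1‖) ^ 2 ≤ ‖d.ξ j - 1‖ ^ 2
        exact pow_le_pow_left₀ (by positivity) h 2
  · left
    simp only [dV]
    rw [if_neg hf]

theorem good1' (l : Rec) (Nb N0 : ℕ) (d : CD) (hd : d.GoodT l Nb N0) :
    ((PowV Nb (dV l Nb d).ζ (dV l Nb d).q (dV l Nb d).s18 ∧
      PowV Nb (dV l Nb d).ζ (dV l Nb d).m (dV l Nb d).s19) ∧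
    ∀ i < l.length, (PowV Nb (dV l Nb d).ζ ((dV l Nb d).P i) ((dV l Nb d).s20 i) ∧
      PowV Nb ((dV l Nb d).s19 Nb) ((dV l Nb d).P i) ((dV l Nb d).s21 i)) ∧
    ∀ j < l.length, (PowV Nb ((dV l Nb d).ξ j) ((dV l Nb d).a j i) ((dV l Nb d).s22 j i) ∧
      PowV Nb (starRingEnd ℂ ((dV l Nb d).ξ j)) ((dV l Nb d).b j i) ((dV l Nb d).s23 j i)) ∧
      (PowV Nb ((dV l Nb d).x j) ((dV l Nb d).a j i) ((dV l Nb d).s24 j i) ∧
      PowV Nb (starRingEnd ℂ ((dV l Nb d).x j)) ((dV l Nb d).b j i)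
        ((dV l Nb d).s25 j i))) := by
  refine ⟨⟨d_pow Nb d.q hd.qlt _, d_pow Nb d.m hd.mlt _⟩, fun i hi => ⟨⟨?_, ?_⟩, ?_⟩⟩
  · exact d_pow Nb (d.P i) (hd.plt i hi) _
  · have h := d_pow Nb (d.P i) (hd.plt i hi) (d.ζ ^ d.m)
    simp only [dV, dH_last]
    exact h
  · intro j hj
    exact ⟨⟨d_pow Nb _ (hd.alt j hj i hi) _, d_pow Nb _ (hd.blt j hj i hi) _⟩,
      ⟨d_pow Nb _ (hd.alt j hj i hi) _, d_pow Nb _ (hd.blt j hj i hi) _⟩⟩

theorem good2' (l : Rec) (Nb N0 : ℕ) (d : CD) (hd : d.GoodT l Nb N0) :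
    ((dV l Nb d).s18 Nb = 1 ∧ ∀ j < l.length, ‖(dV l Nb d).ξ j‖ = 1 ∧
      ‖(dV l Nb d).x j‖ = 1 ∧ ((dV l Nb d).ξ j ≠ 1 ∨ (dV l Nb d).x j = 1)) := by
  refine ⟨?_, ?_⟩
  · simp only [dV, dH_last]
    exact hd.chain.root
  · intro j hj
    refine ⟨hd.chain.unit j hj, (hd.xc j hj).1, ?_⟩
    by_cases h : d.ξ j = 1
    · exact Or.inr ((hd.xc j hj).2 h)
    · exact Or.inl h

theorem good4' (l : Rec) (Nb : ℕ) (d : CD) :
    ∀ i < l.length, (dV l Nb d).Z i 0 = (dV l Nb d).s21 i Nb ∧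
    ∀ j < l.length, (dV l Nb d).Z i (j + 1) =
      (dV l Nb d).Z i j * ((dV l Nb d).s24 j i Nb * (dV l Nb d).s25 j i Nb) := by
  intro i hi
  refine ⟨by simp [dV, dH_last], fun j hj => ?_⟩
  simp only [dV, dH_last]
  rw [Finset.prod_range_succ, pw]
  ring

theorem val_eq (l : Rec) (Nb : ℕ) (d : CD) :
    (∑ i ∈ Finset.range l.length, (((dV l Nb d).F i 1 : ℝ) : ℂ) *
      ((dV l Nb d).c i 0 * (dV l Nb d).Z i l.length)).re = d.val l.length := by
  have e : (∑ i ∈ Finset.range l.length, (((dV l Nb d).F i 1 : ℝ) : ℂ) *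
        ((dV l Nb d).c i 0 * (dV l Nb d).Z i l.length)) =
        ∑ i ∈ d.S l.length 1, d.c i 0 * d.z l.length i := by
    rw [CD.S, Finset.sum_filter]
    apply Finset.sum_congr rfl
    intro i _
    simp only [dV, CD.z]
    by_cases h : d.fl i = 1
    · rw [if_pos h, if_pos h]; simp
    · rw [if_neg h, if_neg h]; simp
  rw [e]
  rfl

open HLDaux

theorem hv1 (x : ℕ → ℝ) (k : ℕ) : (v1 k).Holds x ↔ ∀ i < k, ∀ j < k,
    ((VOf x).F i 0 = 0 ∨ (VOf x).c i j = 0) ∧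
      (0 < j → (VOf x).F i 1 = 0 ∨ (VOf x).c i j = 0) := by
  unfold v1
  simp only [holds_allR]
  refine forall_congr' fun i => forall_congr' fun _ => forall_congr' fun j =>
    forall_congr' fun _ => ?_
  by_cases h : 0 < j
  · rw [if_pos h]
    simp only [Fm.Holds, holds_ceq, cev_czero, h, true_imp_iff]
    rfl
  · rw [if_neg h]
    simp only [Fm.Holds, holds_ceq, cev_czero, h, false_imp_iff, and_true, holds_tt]
    rfl

theorem hv2 (x : ℕ → ℝ) (k : ℕ) : (v2 k).Holds x ↔ (0 < (VOf x).ρ ∧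
    ∃ i < k, (VOf x).F i 1 = 1 ∧ (VOf x).c i 0 ≠ 0) := by
  unfold v2
  simp only [Fm.Holds, holds_exR, holds_ceq, cev_czero]
  rfl

theorem hv3 (x : ℕ → ℝ) (k : ℕ) : (v3 k).Holds x ↔ x valIx =
    (∑ i ∈ Finset.range k, (((VOf x).F i 1 : ℝ) : ℂ) *
      ((VOf x).c i 0 * (VOf x).Z i k)).re := by
  unfold v3
  rw [Fm.Holds]
  have h : (csum k fun i => cmul (creal (FT i 1)) (cmul (cC i 0) (ZC i k))).1.eval x =
      (cev x (csum k fun i => cmul (creal (FT i 1)) (cmul (cC i 0) (ZC i k)))).re := rfl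
  rw [h]
  simp only [cev_csum, cev_cmul, cev_creal, Tm.eval]
  rfl

end VC2Vaux

open VC2Vaux HLDaux in
/-- VC2V: from data to assignments. -/
theorem t_VC2V : S_VC2V := by
  intro l Nb N0 d _ hd
  refine ⟨xA (dV l Nb d) (d.val l.length), ?_, xA_val _ _⟩
  have hg := good1 l Nb N0 d hd
  have hV : VOf (xA (dV l Nb d) (d.val l.length)) = dV l Nb d := VOf_xA _ _
  unfold valFm
  rw [holds_conj]
  simp only [List.forall_mem_cons, List.not_mem_nil, false_imp_iff, forall_const, and_true,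
    h1, h2, h3, h4, h5, h6, h7, h8, h9, h10, h11, h12, h13, h14, hn1, hn2, hn4, hv1, hv2, hv3,
    hV, xA_val]
  refine ⟨hg.a1, hg.a2, hg.a3, hg.a4, hg.a5, hg.a6, hg.a7, hg.a8, hg.a9, hg.a10, hg.a11,
    hg.a12, hg.a13, ?_, good1' l Nb N0 d hd, good2' l Nb N0 d hd, ?_, good4' l Nb d, ?_, ?_, ?_⟩
  · intro s hs j hj hJ
    exact d_can l Nb d l.length 1 s j (hd.lev.can1 s hs j hj (by rw [hd.jzero]; exact hJ))
  · rw [holds_allR]
    intro i hi
    have h := good3 l Nb N0 d hd i hi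
    rw [Fm.Holds, hn3, hV]
    rcases h with h | h
    · left
      have h' : (VOf (xA (dV l Nb d) (d.val l.length))).F i 1 = 0 := by rw [hV]; exact h
      exact h'
    · exact Or.inr h
  · intro i hi j hj
    refine ⟨?_, fun hj0 => ?_⟩
    · by_cases h : d.fl i = 0
      · exact Or.inr (hd.top0 i hi h j hj)
      · left
        change (if d.fl i = 0 then (1 : ℝ) else 0) = 0
        rw [if_neg h]
    · by_cases h : d.fl i = 1
      · exact Or.inr (hd.top1 i hi h j hj hj0)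
      · left
        change (if d.fl i = 1 then (1 : ℝ) else 0) = 0
        rw [if_neg h]
  · refine ⟨hd.rpos, ?_⟩
    obtain ⟨i, hi, h1, h2⟩ := hd.act
    refine ⟨i, hi, ?_, h2⟩
    change (if d.fl i = 1 then (1 : ℝ) else 0) = 1
    rw [if_pos h1]
  · exact (val_eq l Nb d).symm

end Pool.Agent.H612.LR
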