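import Pool.Agent.H612.LR.Main
import Pool.Agent.H612.LR.StmP
import Pool.Agent.H612.LR.T_VC1V
import Pool.Agent.H612.LR.T_VC2V
import Pool.Agent.H612.LR.T_VAL
import Pool.Agent.H612.LR.T_CMPT
import Pool.Agent.H612.LR.T_EF1
import Pool.Agent.H612.LR.T_RUN
import Pool.Agent.H612.LR.T_CF
import Pool.Agent.H612.LR.T_EF2
import Pool.Agent.H612.LR.T_GAPM
import Pool.Agent.H612.LR.T_NUM
import Pool.Agent.H612.LR.T_EFF
import Pool.Agent.H612.LR.T_TM
import Pool.Agent.H612.LR.T_SM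
import Pool.Agent.H612.LR.T_PLP

/-!
# Positivity in `∀ℝ`: assembly
-/

namespace Pool.Agent.H612.LR

open Pool.Agent.NPC Pool.Agent.NPC.ER Pool.Agent.NPC.H612 Pool.Agent.H612.PG

theorem eff : S_EFF := t_EFF t_RPE t_ROOT t_MEAN
  (t_EF1 (t_VAL dens t_MEAN t_RPU) (t_CMPT (t_DEC t_DIR)) t_VC1V t_VC2V)
  (t_EF2 t_CF t_RUN t_RPU) (t_GAPM t_HROOT) t_NUM

theorem etr_disj (l : List Fm) : ETR (disj l) ↔ ∃ φ ∈ l, ETR φ := by
  constructor
  · rintro ⟨x, hx⟩
    obtain ⟨φ, h1, h2⟩ := (holds_disj x l).1 hx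
    exact ⟨φ, h1, x, h2⟩
  · rintro ⟨φ, h1, x, h2⟩
    exact ⟨x, (holds_disj x l).2 ⟨φ, h1, h2⟩⟩

theorem NonTight0.nonTight {l : Rec} (h : NonTight0 l) : NonTight l := by
  obtain ⟨ρ, C, c, h1, h2, h3, h4⟩ := h
  refine ⟨ρ, C, c, 0, h1, h2, ?_, ?_⟩
  · intro n
    simpa using h3 n
  · rcases h4 with ⟨N, h⟩ | h
    · left
      exact ⟨N, fun n hn => by simpa using h n hn⟩
    · right
      intro N
      obtain ⟨n, h5, h6⟩ := h N
      exact ⟨n, h5, by simpa using h6⟩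

theorem upoly_K1 (A0 A1 : ℕ) : UPoly (fun l : Rec => K1 A0 A1 l) := by
  unfold K1 kap
  exact UPoly.add (UPoly.mul (UPoly.const 9) (UPoly.length (poly_sysOf (t_PLP.1 A0 A1))))
    (UPoly.const 17)

theorem upoly_K2 : UPoly (fun l : Rec => K2 l) := by
  unfold K2 kap
  exact UPoly.add (UPoly.mul (UPoly.const 9) (UPoly.length (poly_sysOf t_PLP.2.1)))
    (UPoly.const 17)

theorem upoly_N1 (C A0 A1 : ℕ) : UPoly (fun l : Rec => N1 C A0 A1 l) := by
  unfold N1
  exact UPoly.add (UPoly.add (UPoly.add (UPoly.add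
    (UPoly.mul (UPoly.const 2) (Pool.Agent.NPC.H612.LRP.upoly_pow (Pool.Agent.NPC.H612.LRP.upoly_sz Pool.Agent.NPC.Poly.id) C))
    (upoly_K1 A0 A1)) upoly_K2)
    (UPoly.mul (UPoly.const 2) (UPoly.length Pool.Agent.NPC.Poly.id))) (UPoly.const 30)

/-- The typed reduction for Positivity. -/
theorem main_pos : ∃ g : Rec → Fm, Pool.Agent.NPC.Poly g ∧ ∀ l : Rec, l ≠ [] →
    (ETR (g l) → ¬ Positive l) ∧ (NonTight0 l → ¬ Positive l → ETR (g l)) := by
  obtain ⟨g0, hg0, h0⟩ := main_up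
  obtain ⟨C, A0, A1, hE⟩ := eff
  refine ⟨fun l => disj [g0 l, tmFm l (N1 C A0 A1 l), smFm l], ?_, fun l hl => ?_⟩
  · exact poly_disj (Pool.Agent.NPC.Poly.cons hg0 (Pool.Agent.NPC.Poly.cons
      (t_PLP.2.2.1 _ (upoly_N1 C A0 A1)) (Pool.Agent.NPC.Poly.cons t_PLP.2.2.2
        (Pool.Agent.NPC.Poly.const []))))
  · have hk : 1 ≤ l.length := List.length_pos_iff.2 hl
    obtain ⟨h1, h2, -⟩ := h0 l hl
    have hT := t_TM t_RPE t_RPU l (N1 C A0 A1 l) hk
    have hS := t_SM l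
    rw [etr_disj]
    simp only [List.mem_cons, List.not_mem_nil, or_false, exists_eq_or_imp, exists_eq_left]
    constructor
    · rintro (h | h | h)
      · intro hp
        exact h1 h ⟨0, fun n _ => hp n⟩
      · obtain ⟨n, _, _, hn⟩ := hT.1 h
        intro hp
        exact absurd (hp n) (not_lt.2 hn)
      · obtain ⟨n, _, hn⟩ := hS.1 h
        intro hp
        exact absurd (hp n) (not_lt.2 hn)
    · intro hnt hnp
      by_cases hup : UltPositive l
      · right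
        have : ∃ n, seq l n ≤ 0 := by
          by_contra hcon
          push Not at hcon
          exact hnp hcon
        obtain ⟨n, hn⟩ := this
        by_cases hnk : n < l.length
        · right
          exact hS.2 ⟨n, hnk, hn⟩
        · left
          refine hT.2 ⟨n, not_lt.1 hnk, ?_, hn⟩
          by_contra hcon
          exact absurd (hE l hk hnt hup n (not_lt.1 hcon)) (not_lt.2 hn)
      · left
        exact h2 (Or.inl hnt.nonTight) hup

end Pool.Agent.H612.LR
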