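import Pool.Agent.H612.LR.Fm

/-!
# Ultimate Positivity in `∀ℝ`: the statements of the lemmas on the formula
-/

namespace Pool.Agent.H612.LR

open Pool.Agent.NPC Pool.Agent.NPC.ER Pool.Agent.NPC.H612 Pool.Agent.H612.PG

/-- HLD: meaning of the formula. -/
def S_HLD : Prop := ∀ (l : Rec) (Nb N0 : ℕ) (x : ℕ → ℝ),
  (lrFm l Nb N0).Holds x ↔ (VOf x).Good l Nb N0

/-- SUR: all values are values of an assignment. -/
def S_SUR : Prop := ∀ v : V, ∃ x : ℕ → ℝ, VOf x = v

/-- VC1: from values to certificates. -/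
def S_VC1 : Prop := ∀ (l : Rec) (Nb N0 : ℕ) (v : V), 1 ≤ l.length → v.Good l Nb N0 →
  Cert l Nb N0

/-- VC2: from certificates to values. -/
def S_VC2 : Prop := ∀ (l : Rec) (Nb N0 : ℕ), 1 ≤ l.length → Cert l Nb N0 →
  ∃ v : V, v.Good l Nb N0

/-- PLY: the formula is computable in polynomial time. -/
def S_PLY : Prop := ∀ A0 A1 : ℕ,
  Poly (fun l : Rec => lrFm l (A1 * sz l ^ A1) (A0 * sz l ^ A0))

end Pool.Agent.H612.LR
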