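import Pool.Agent.H612.LR.Stm
import Pool.Agent.H388SL.DobC

/-!
# HLOW: a lower bound for the height of numbers which are not roots of unity
-/

namespace Pool.Agent.H612.LR

open Module NumberField

lemma hlow_sum_emb {K : Type} [Field K] [NumberField K] (f : InfinitePlace K → ℝ) :
    ∑ φ : K →+* ℂ, f (InfinitePlace.mk φ) = ∑ v : InfinitePlace K, (v.mult : ℝ) * f v := by
  classical
  rw [← Finset.sum_fiberwise_of_maps_to (s := Finset.univ) (t := Finset.univ)
    (g := fun φ : K →+* ℂ => InfinitePlace.mk φ) (fun _ _ => Finset.mem_univ _)]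
  refine Finset.sum_congr rfl fun v _ => ?_
  rw [Finset.sum_congr rfl (g := fun _ => f v) (by
    intro φ hφ
    rw [Finset.mem_filter] at hφ
    rw [hφ.2]), Finset.sum_const, nsmul_eq_mul]
  congr 2
  rw [← InfinitePlace.card_filter_mk_eq v]

lemma hlow_lam_le {K : Type} [Field K] [NumberField K] (x : K) :
    H388SL.lam x ≤ Height.logHeight₁ x := by
  rw [NumberField.logHeight₁_eq]
  have h1 : H388SL.lam x = ∑ v : InfinitePlace K, (v.mult : ℝ) * Real.posLog (v x) := by
    rw [← hlow_sum_emb (fun v => Real.posLog (v x))]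
    unfold H388SL.lam
    symm
    refine Fintype.sum_equiv (RingHom.equivRatAlgHom (R := K) (S := ℂ)) _ _ fun φ => ?_
    rw [InfinitePlace.apply, Real.posLog_eq_log_max_one (norm_nonneg _)]
    rfl
  have h2 : 0 ≤ ∑ᶠ v : FinitePlace K, Real.posLog (v x) :=
    finsum_nonneg fun v => Real.posLog_nonneg
  rw [h1]
  linarith

lemma hlow_lam_gen {K : Type} [Field K] [NumberField K] (x : K) :
    H388SL.lam (IntermediateField.AdjoinSimple.gen ℚ x) ≤ H388SL.lam x := by
  have h1 : H388SL.lam x = (finrank (IntermediateField.adjoin ℚ {x}) K) •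
      H388SL.lam (IntermediateField.AdjoinSimple.gen ℚ x) :=
    H388SL.sum_embeddings' x (fun z => Real.log (max 1 ‖z‖))
  rw [h1, nsmul_eq_mul]
  have h2 : (1 : ℝ) ≤ (finrank (IntermediateField.adjoin ℚ {x}) K : ℝ) := by
    exact_mod_cast finrank_pos
  have h3 := H388SL.lam_nonneg (IntermediateField.AdjoinSimple.gen ℚ x)
  nlinarith

theorem t_HLOW : S_HLOW := by
  obtain ⟨c, hc0, hc⟩ := H388SL.dob
  obtain ⟨N, hN⟩ := exists_nat_ge (8 / c)
  refine ⟨N + 3, ?_⟩
  intro K _ _ x hx0 hroot
  set d := finrank ℚ K with hd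
  have hd1 : 1 ≤ d := finrank_pos
  have hd1' : (1 : ℝ) ≤ d := by exact_mod_cast hd1
  have hN0 : (0 : ℝ) ≤ N := Nat.cast_nonneg _
  by_cases hint : IsIntegral ℤ x
  · -- integral case
    set F := IntermediateField.adjoin ℚ {x} with hF
    set y : F := IntermediateField.AdjoinSimple.gen ℚ x with hy
    have hyx : algebraMap F K y = x := IntermediateField.AdjoinSimple.algebraMap_gen ℚ x
    have hinj : Function.Injective (algebraMap F K) := (algebraMap F K).injective
    have hyi : IsIntegral ℤ y := by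
      rw [← isIntegral_algebraMap_iff (B := K) hinj, hyx]
      exact hint
    have hy0 : y ≠ 0 := by
      intro h
      rw [h, map_zero] at hyx
      exact hx0 hyx.symm
    have hyr : ∀ n : ℕ, 0 < n → y ^ n ≠ 1 := by
      intro n hn h
      have := congrArg (algebraMap F K) h
      rw [map_pow, hyx, map_one] at this
      exact hroot n hn this
    have h1 := hc F y hyi hy0 hyr (H388SL.CInj_gen x)
    have h2 := hlow_lam_gen x
    have h3 := hlow_lam_le x
    have hF1 : 1 ≤ finrank ℚ F := finrank_pos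
    have hFd : finrank ℚ F ≤ d := by
      have := finrank_mul_finrank ℚ F K
      have h4 : 1 ≤ finrank F K := finrank_pos
      calc finrank ℚ F = finrank ℚ F * 1 := (mul_one _).symm
        _ ≤ finrank ℚ F * finrank F K := Nat.mul_le_mul_left _ h4
        _ = d := this
    have hF1' : (1 : ℝ) ≤ finrank ℚ F := by exact_mod_cast hF1
    have hFd' : (finrank ℚ F : ℝ) ≤ d := by exact_mod_cast hFd
    have hlog0 : 0 < Real.log (2 * finrank ℚ F) := Real.log_pos (by linarith)
    have hlog1 : Real.log (2 * finrank ℚ F) ≤ 2 * d := by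
      have := Real.log_le_sub_one_of_pos (show (0 : ℝ) < 2 * finrank ℚ F by linarith)
      linarith
    have h5 : c / (2 * d) ^ 3 ≤ c / (Real.log (2 * finrank ℚ F)) ^ 3 := by
      apply div_le_div_of_nonneg_left hc0.le (by positivity)
      exact pow_le_pow_left₀ hlog0.le hlog1 3
    have h6 : c / (2 * d) ^ 3 ≤ Height.logHeight₁ x := by
      refine h5.trans (h1.trans ?_)
      exact h2.trans h3
    have h7 : (((N + 3) * d : ℕ) : ℝ) ^ 3 * (N + 3 : ℝ) ^ N ≤ (((N + 3) * d : ℕ) : ℝ) ^ (N + 3) := by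
      rw [pow_add, mul_comm]
      apply mul_le_mul_of_nonneg_right _ (by positivity)
      apply pow_le_pow_left₀ (by positivity)
      push_cast
      nlinarith
    have h8 : (d : ℝ) ^ 3 * (8 / c) ≤ (((N + 3) * d : ℕ) : ℝ) ^ (N + 3) := by
      refine le_trans ?_ h7
      have h9 : (1 : ℝ) ≤ (N + 3 : ℝ) ^ N := one_le_pow₀ (by linarith)
      have h10 : (8 / c) ≤ (N + 3 : ℝ) ^ 3 := by
        have : (N + 3 : ℝ) ≤ (N + 3 : ℝ) ^ 3 := le_self_pow₀ (by linarith) (by norm_num)
        linarith
      push_cast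
      rw [mul_pow]
      have hd3 : (0 : ℝ) < (d : ℝ) ^ 3 := by positivity
      calc (d : ℝ) ^ 3 * (8 / c) ≤ (d : ℝ) ^ 3 * (N + 3 : ℝ) ^ 3 :=
            mul_le_mul_of_nonneg_left h10 hd3.le
        _ = (N + 3 : ℝ) ^ 3 * (d : ℝ) ^ 3 * 1 := by ring
        _ ≤ (N + 3 : ℝ) ^ 3 * (d : ℝ) ^ 3 * (N + 3 : ℝ) ^ N :=
            mul_le_mul_of_nonneg_left h9 (by positivity)
    have hd3 : (0 : ℝ) < (d : ℝ) ^ 3 := by positivity
    calc (1 : ℝ) = c / (2 * d) ^ 3 * ((d : ℝ) ^ 3 * (8 / c)) := by
          field_simp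
          norm_num
      _ ≤ Height.logHeight₁ x * (((N + 3) * d : ℕ) : ℝ) ^ (N + 3) := by
          apply mul_le_mul h6 h8 (by positivity)
          exact le_trans (by positivity) h6
  · -- non-integral case
    obtain ⟨n, hn0, hn1, hn2⟩ := NumberField.exists_nat_le_mulHeight₁ x
    have hn3 : 2 ≤ n := by
      rcases Nat.lt_or_ge n 2 with h | h
      · exfalso
        have h1 : n = 1 := by omega
        rw [h1, Nat.cast_one, one_mul] at hn2
        exact hint hn2
      · exact h
    have h1 : (2 : ℝ) ≤ Height.mulHeight₁ x := le_trans (by exact_mod_cast hn3) hn1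
    have h2 : Real.log 2 ≤ Height.logHeight₁ x := by
      rw [Height.logHeight₁]
      exact Real.log_le_log (by norm_num) h1
    have h3 : (1 : ℝ) / 2 ≤ Height.logHeight₁ x := by
      have := Real.log_two_gt_d9
      linarith
    have h4 : (2 : ℝ) ≤ (((N + 3) * d : ℕ) : ℝ) ^ (N + 3) := by
      have h5 : (2 : ℝ) ≤ (((N + 3) * d : ℕ) : ℝ) := by
        push_cast
        nlinarith
      exact le_trans h5 (le_self_pow₀ (by linarith) (by omega))
    nlinarith

end Pool.Agent.H612.LR
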