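import Pool.Agent.H612.LR.StmP
import Pool.Agent.H612.PG.FmSem

/-!
# The meaning of the formula `smFm`
-/

namespace Pool.Agent.H612.LR

open Pool.Agent.NPC Pool.Agent.NPC.ER Pool.Agent.NPC.H612 Pool.Agent.H612.PG

theorem t_SM : S_SM := by
  intro l
  have hseq : ∀ n < l.length, seq l n = ini l n := by
    intro n hn
    rw [seq, if_pos hn]
  constructor
  · rintro ⟨x, hx⟩
    unfold smFm at hx
    rw [holds_conj] at hx
    have h1 := hx (g2 l) (by simp)
    have h2 := hx (exR l.length fun n => Fm.le (UT n) Tm.zero) (by simp)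
    rw [g2, holds_allR] at h1
    rw [holds_exR] at h2
    obtain ⟨n, hn, h3⟩ := h2
    have h4 := h1 n hn
    rw [holds_eqRat] at h4
    refine ⟨n, hn, ?_⟩
    rw [hseq n hn]
    simp only [Fm.Holds, Tm.eval] at h3
    rw [h4] at h3
    exact_mod_cast h3
  · rintro ⟨n, hn, h⟩
    rw [hseq n hn] at h
    let x : ℕ → ℝ := fun m => (ini l m.unpair.2.unpair.1 : ℝ)
    have hx : ∀ m, (UT m).eval x = (ini l m : ℝ) := by
      intro m
      simp only [UT, rv, vr, Tm.eval, x, nm, Nat.unpair_pair]
    refine ⟨x, ?_⟩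
    unfold smFm
    rw [holds_conj]
    intro φ hφ
    simp only [List.mem_cons, List.not_mem_nil, or_false] at hφ
    rcases hφ with rfl | rfl
    · rw [g2, holds_allR]
      intro m _
      rw [holds_eqRat]
      exact hx m
    · rw [holds_exR]
      refine ⟨n, hn, ?_⟩
      simp only [Fm.Holds]
      rw [hx n]
      simp only [Tm.eval]
      exact_mod_cast h

end Pool.Agent.H612.LR
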