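import Pool.Agent.H612.LR.Stm

/-!
# Orders of roots of unity in a number field
-/

namespace Pool.Agent.H612.LR

open Polynomial Filter Topology

/-- the factor two for numbers which are twice an odd number -/
def TORK_c (n : ℕ) : ℕ := if n % 4 = 2 then 2 else 1

theorem TORK_pp (p k : ℕ) (hp : p.Prime) (hk : 0 < k) :
    p ^ k ≤ (p ^ k).totient ^ 2 * TORK_c (p ^ k) := by
  obtain ⟨m, rfl⟩ : ∃ m, k = m + 1 := ⟨k - 1, by omega⟩
  rw [Nat.totient_prime_pow_succ hp]
  have hp2 := hp.two_le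
  rcases hp2.eq_or_lt with h2 | h2
  · subst h2
    rcases m with _ | m
    · decide
    · have h1 : TORK_c (2 ^ (m + 1 + 1)) = 1 := by
        unfold TORK_c
        rw [if_neg]
        rw [pow_succ, pow_succ]
        omega
      rw [h1]
      have h3 : 1 ≤ 2 ^ m := Nat.one_le_two_pow
      have h4 : 2 ^ (m + 1) = 2 * 2 ^ m := by rw [pow_succ]; ring
      have h5 : 2 ^ (m + 1 + 1) = 4 * 2 ^ m := by rw [pow_succ, pow_succ]; ring
      rw [h5, h4]
      nlinarith
  · have h1 : 1 ≤ TORK_c (p ^ (m + 1)) := by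
      unfold TORK_c
      split_ifs <;> omega
    have h3 : p ^ (m + 1) ≤ (p ^ m * (p - 1)) ^ 2 := by
      have h4 : 1 ≤ p ^ m := Nat.one_le_pow _ _ (by omega)
      obtain ⟨q, rfl⟩ : ∃ q, p = q + 1 := ⟨p - 1, by omega⟩
      rw [Nat.add_sub_cancel, pow_succ, mul_pow]
      have h5 : q + 1 ≤ q ^ 2 := by nlinarith
      have h6 : (q + 1) ^ m ≤ ((q + 1) ^ m) ^ 2 := by nlinarith
      exact Nat.mul_le_mul h6 h5
    calc p ^ (m + 1) ≤ (p ^ m * (p - 1)) ^ 2 := h3
      _ ≤ (p ^ m * (p - 1)) ^ 2 * TORK_c (p ^ (m + 1)) := Nat.le_mul_of_pos_right _ h1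

theorem TORK_c_mul (a b : ℕ) (h : a.Coprime b) : TORK_c a * TORK_c b ≤ TORK_c (a * b) := by
  have h1 : ¬ (a % 2 = 0 ∧ b % 2 = 0) := by
    rintro ⟨h1, h2⟩
    have h3 : 2 ∣ a.gcd b := Nat.dvd_gcd (Nat.dvd_of_mod_eq_zero h1) (Nat.dvd_of_mod_eq_zero h2)
    rw [h] at h3
    omega
  have h2 : (a * b) % 4 = ((a % 4) * (b % 4)) % 4 := Nat.mul_mod a b 4
  unfold TORK_c
  rw [h2]
  have ha : a % 4 = 0 ∨ a % 4 = 1 ∨ a % 4 = 2 ∨ a % 4 = 3 := by omega
  have hb : b % 4 = 0 ∨ b % 4 = 1 ∨ b % 4 = 2 ∨ b % 4 = 3 := by omega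
  rcases ha with ha | ha | ha | ha <;> rcases hb with hb | hb | hb | hb <;> rw [ha, hb] <;>
    first
    | decide
    | (exfalso; apply h1; omega)

theorem TORK_totient (n : ℕ) : n ≤ n.totient ^ 2 * TORK_c n := by
  induction n using Nat.recOnPosPrimePosCoprime with
  | prime_pow p k hp hk => exact TORK_pp p k hp hk
  | zero => exact Nat.zero_le _
  | one => decide
  | coprime a b _ _ hab iha ihb =>
    rw [Nat.totient_mul hab]
    calc a * b ≤ (a.totient ^ 2 * TORK_c a) * (b.totient ^ 2 * TORK_c b) := Nat.mul_le_mul iha ihb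
      _ = (a.totient * b.totient) ^ 2 * (TORK_c a * TORK_c b) := by ring
      _ ≤ _ := Nat.mul_le_mul_left _ (TORK_c_mul a b hab)

theorem TORK_totient' (n : ℕ) : n ≤ 2 * n.totient ^ 2 := by
  have h1 : TORK_c n ≤ 2 := by
    unfold TORK_c
    split_ifs <;> omega
  have h2 := Nat.mul_le_mul_left (n.totient ^ 2) h1
  have h3 := TORK_totient n
  omega

theorem t_TORK : S_TORK := by
  refine ⟨2, fun K _ _ x hx => ?_⟩
  obtain ⟨m, hm, hxm⟩ := hx
  have hfin : IsOfFinOrder x := isOfFinOrder_iff_pow_eq_one.2 ⟨m, hm, hxm⟩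
  have hpos : 0 < orderOf x := hfin.orderOf_pos
  have hprim : IsPrimitiveRoot x (orderOf x) := IsPrimitiveRoot.orderOf x
  refine ⟨orderOf x, hpos, ?_, pow_orderOf_eq_one x⟩
  have hint : IsIntegral ℤ x := hprim.isIntegral hpos
  have h1 := hprim.totient_le_degree_minpoly
  have h2 : (minpoly ℤ x).natDegree = (minpoly ℚ x).natDegree := by
    rw [minpoly.isIntegrallyClosed_eq_field_fractions' ℚ hint,
      (minpoly.monic hint).natDegree_map]
  have h3 : (minpoly ℚ x).natDegree ≤ Module.finrank ℚ K := minpoly.natDegree_le x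
  have h4 : (orderOf x).totient ≤ Module.finrank ℚ K := by omega
  have h5 := TORK_totient' (orderOf x)
  have h6 : (orderOf x).totient ^ 2 ≤ Module.finrank ℚ K ^ 2 := Nat.pow_le_pow_left h4 2
  calc orderOf x ≤ 2 * (orderOf x).totient ^ 2 := h5
    _ ≤ 4 * Module.finrank ℚ K ^ 2 := by omega
    _ = (2 * Module.finrank ℚ K) ^ 2 := by ring

end Pool.Agent.H612.LR
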